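import Pool.Agent.T6A.RuleFin

/-!
# The piece rule (MP_c6effb_co, PIECES, part P5: the law)

`c : V → V` = the centre of the piece of a vertex. Every piece has one coordinate `(o, h)`: `o = some y`
means that the piece sends its vertices outside `A` to the cluster `y`, `h u` = the cluster of `A` of the
vertex `u` of the piece. `K o a` = the joint law of `o` and the cluster of one vertex.
-/

set_option autoImplicit false
set_option linter.unusedSectionVars false

open Finset

namespace Pool.Agent.T6P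

open Pool.Agent.T6A

noncomputable section

open Classical

variable {V ι : Type} [Fintype V] [Fintype ι]

/-- total mass of the row `o` -/
def K0 (K : Option ι → ι → ℝ) (o : Option ι) : ℝ := ∑ a, K o a

/-- conditional law of the cluster of `A`, given `o` -/
def kap (K : Option ι → ι → ℝ) (o : Option ι) (a : ι) : ℝ := K o a / K0 K o

/-- `K` is a law; `K (some y)` is supported outside the neighbourhood of `y`. -/
structure IsK (F : SimpleGraph ι) (K : Option ι → ι → ℝ) : Prop where
  nonneg : ∀ o a, 0 ≤ K o a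
  sum_one : ∑ o, ∑ a, K o a = 1
  adj : ∀ y a, F.Adj y a → K (some y) a = 0

/-- the law of the coordinate of a piece -/
def lawP (K : Option ι → ι → ℝ) : V → Option ι × (V → ι) → ℝ :=
  fun _ z => K0 K z.1 * ∏ u, kap K z.1 (z.2 u)

/-- the cluster of `A` of the vertex `v` -/
def gP (c : V → V) (ω : V → Option ι × (V → ι)) (v : V) : ι := (ω (c v)).2 v

/-- what a vertex in `T` at `y` needs -/
def okP (F : SimpleGraph ι) (G : SimpleGraph V) (lt : ι → ι → Prop) (Bv : V → Finset ι)
    (c : V → V) (ω : V → Option ι × (V → ι)) (v : V) (y : ι) : Prop :=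
  y ∈ Bv v ∧ (∀ u, G.Adj v u → ¬ F.Adj y (gP c ω u)) ∧
    ∀ u, G.Adj v u → c u ≠ c v → ∀ y', (ω (c u)).1 = some y' → F.Adj y y' → lt y' y →
      F.Adj (gP c ω v) y'

/-- the cluster outside `A` of the vertex `v` -/
def bP (F : SimpleGraph ι) (G : SimpleGraph V) (lt : ι → ι → Prop) (Bv : V → Finset ι)
    (c : V → V) (ω : V → Option ι × (V → ι)) (v : V) : Option ι :=
  (ω (c v)).1.bind fun y => if okP F G lt Bv c ω v y then some y else none

theorem bP_eq {F : SimpleGraph ι} {G : SimpleGraph V} {lt : ι → ι → Prop} {Bv : V → Finset ι}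
    {c : V → V} {ω : V → Option ι × (V → ι)} {v : V} {y : ι} :
    bP F G lt Bv c ω v = some y ↔ (ω (c v)).1 = some y ∧ okP F G lt Bv c ω v y := by
  unfold bP
  rw [Option.bind_eq_some_iff]
  constructor
  · rintro ⟨y', h1, h2⟩
    split_ifs at h2 with h3
    have h4 : y' = y := Option.some.inj h2
    rw [← h4]
    exact ⟨h1, h3⟩
  · rintro ⟨h1, h2⟩
    exact ⟨y, h1, if_pos h2⟩

section rules

variable {F : SimpleGraph ι} {G : SimpleGraph V} {lt : ι → ι → Prop} {Bv : V → Finset ι}
  {c : V → V} {ω : V → Option ι × (V → ι)}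

theorem bP_mem {v : V} {y : ι} (h : bP F G lt Bv c ω v = some y) : y ∈ Bv v := (bP_eq.1 h).2.1

theorem bP_st {v : V} {y : ι} (h : bP F G lt Bv c ω v = some y) (u : V) (hu : G.Adj v u) :
    ¬ F.Adj y (gP c ω u) := (bP_eq.1 h).2.2.1 u hu

theorem bP_tt (htot : ∀ y y', F.Adj y y' → lt y y' ∨ lt y' y) {v u : V} {y y' : ι}
    (h : bP F G lt Bv c ω v = some y) (h' : bP F G lt Bv c ω u = some y') (hvu : G.Adj v u) :
    ¬ F.Adj y y' := by
  intro hF
  obtain ⟨h1, -, h2, h3⟩ := bP_eq.1 h
  obtain ⟨h1', -, h2', h3'⟩ := bP_eq.1 h'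
  by_cases hc : c u = c v
  · rw [hc, h1] at h1'
    have : y = y' := Option.some.inj h1'
    rw [this] at hF
    exact F.loopless.irrefl _ hF
  · rcases htot y y' hF with hl | hl
    · have h4 := h3' v hvu.symm (fun e => hc e.symm) y h1 hF.symm hl
      exact h2 u hvu h4.symm
    · have h4 := h3 u hvu hc y' h1' hF hl
      exact h2' v hvu.symm h4.symm

/-- the coordinates used by `v` -/
def BnP (G : SimpleGraph V) (c : V → V) (v : V) : Finset V := (RF.N1 G v).image c

theorem loc_P (v : V) :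
    DepOn (fun ω : V → Option ι × (V → ι) => (gP c ω v, bP F G lt Bv c ω v)) (BnP G c v) := by
  intro ω ω' hω
  have h1 : ∀ u ∈ RF.N1 G v, ω (c u) = ω' (c u) := fun u hu => hω _ (mem_image_of_mem c hu)
  have hv : ω (c v) = ω' (c v) := h1 v (RF.mem_N1.2 (Or.inl rfl))
  have hg : gP c ω v = gP c ω' v := by unfold gP; rw [hv]
  have hu : ∀ u, G.Adj v u → ω (c u) = ω' (c u) := fun u hu => h1 u (RF.mem_N1.2 (Or.inr hu))
  have hgu : ∀ u, G.Adj v u → gP c ω u = gP c ω' u := fun u h => by unfold gP; rw [hu u h]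
  have hok : ∀ y, okP F G lt Bv c ω v y ↔ okP F G lt Bv c ω' v y := by
    intro y
    unfold okP
    refine and_congr Iff.rfl (and_congr ?_ ?_)
    · refine forall_congr' fun u => forall_congr' fun h => ?_
      rw [hgu u h]
    · refine forall_congr' fun u => forall_congr' fun h => ?_
      rw [hu u h, hg]
  have hb : bP F G lt Bv c ω v = bP F G lt Bv c ω' v := by
    unfold bP
    rw [hv]
    congr 1
    funext y
    by_cases h : okP F G lt Bv c ω v y
    · rw [if_pos h, if_pos ((hok y).1 h)]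
    · rw [if_neg h, if_neg fun h' => h ((hok y).2 h')]
  exact Prod.ext hg hb

theorem ov_P {M Δ : ℕ} (hM : ∀ x, #(univ.filter fun v => c v = x) ≤ M)
    (hK : ∀ v, #(nbh G v) ≤ Δ) (v : V) :
    #(univ.filter fun u => ¬ Disjoint (BnP G c v) (BnP G c u)) ≤ (Δ + 1) * (M * (Δ + 1)) := by
  have h1 : (univ.filter fun u => ¬ Disjoint (BnP G c v) (BnP G c u)) ⊆
      (RF.N1 G v).biUnion fun w => (univ.filter fun w' => c w' = c w).biUnion (RF.N1 G) := by
    intro u hu
    obtain ⟨x, hx, hx'⟩ := not_disjoint_iff.1 (mem_filter.1 hu).2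
    obtain ⟨w, hw, rfl⟩ := mem_image.1 hx
    obtain ⟨w', hw', he⟩ := mem_image.1 hx'
    exact mem_biUnion.2 ⟨w, hw, mem_biUnion.2 ⟨w', mem_filter.2 ⟨mem_univ _, he⟩,
      RF.mem_N1_comm.1 hw'⟩⟩
  refine (card_le_card h1).trans ?_
  refine (card_biUnion_le_card_mul _ _ (M * (Δ + 1)) fun w _ => ?_).trans
    (Nat.mul_le_mul_right _ (RF.card_N1 hK v))
  refine (card_biUnion_le_card_mul _ _ (Δ + 1) fun w' _ => RF.card_N1 hK w').trans ?_
  exact Nat.mul_le_mul_right _ (hM _)

end rules

section law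

variable {F : SimpleGraph ι} {K : Option ι → ι → ℝ}

theorem IsK.K0_nonneg (h : IsK F K) (o : Option ι) : 0 ≤ K0 K o :=
  sum_nonneg fun a _ => h.nonneg o a

theorem IsK.sum_K0 (h : IsK F K) : ∑ o, K0 K o = 1 := h.sum_one

theorem IsK.kap_nonneg (h : IsK F K) (o : Option ι) (a : ι) : 0 ≤ kap K o a :=
  div_nonneg (h.nonneg o a) (h.K0_nonneg o)

theorem IsK.mul_kap (h : IsK F K) (o : Option ι) (a : ι) : K0 K o * kap K o a = K o a := by
  unfold kap
  rcases eq_or_lt_of_le (h.K0_nonneg o) with h0 | h0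
  · have h1 : K o a = 0 := by
      have h2 := single_le_sum (f := fun a => K o a) (fun a _ => h.nonneg o a) (mem_univ a)
      have h3 : K o a ≤ K0 K o := h2
      exact le_antisymm (h3.trans h0.symm.le) (h.nonneg o a)
    rw [← h0, h1, zero_mul]
  · field_simp

theorem IsK.law_kap (h : IsK F K) {o : Option ι} (h0 : 0 < K0 K o) :
    IsLaw (fun _ : V => kap K o) where
  nonneg := fun _ a => h.kap_nonneg o a
  sum_one := fun _ => by
    unfold kap
    rw [← sum_div]
    exact div_self h0.ne'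

/-- sums against the law of one coordinate -/
theorem sum_law (K : Option ι → ι → ℝ) (x : V) (φ : Option ι × (V → ι) → ℝ) :
    ∑ z, lawP K x z * φ z = ∑ o, K0 K o * EE (fun _ : V => kap K o) (fun h => φ (o, h)) := by
  rw [Fintype.sum_prod_type]
  refine sum_congr rfl fun o _ => ?_
  unfold EE
  rw [mul_sum]
  refine sum_congr rfl fun h _ => ?_
  unfold lawP wt
  ring

theorem isLaw_lawP (h : IsK F K) : IsLaw (lawP (V := V) K) where
  nonneg := fun x z => mul_nonneg (h.K0_nonneg _) (prod_nonneg fun u _ => h.kap_nonneg _ _)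
  sum_one := fun x => by
    have h1 := sum_law (V := V) K x fun _ => 1
    simp only [mul_one] at h1
    refine h1.trans (Eq.trans ?_ h.sum_K0)
    refine sum_congr rfl fun o _ => ?_
    rcases eq_or_lt_of_le (h.K0_nonneg o) with h0 | h0
    · rw [← h0, zero_mul]
    · rw [EE_const (h.law_kap h0), mul_one]

/-- `K0 o * E f` may be compared when `K0 o > 0`. -/
theorem IsK.mul_EE_le (h : IsK F K) (o : Option ι) {f : (V → ι) → ℝ} {x : ℝ}
    (hx : 0 < K0 K o → EE (fun _ : V => kap K o) f ≤ x) :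
    K0 K o * EE (fun _ : V => kap K o) f ≤ K0 K o * x := by
  rcases eq_or_lt_of_le (h.K0_nonneg o) with h0 | h0
  · rw [← h0, zero_mul, zero_mul]
  · exact mul_le_mul_of_nonneg_left (hx h0) h0.le

theorem IsK.mul_EE_ge (h : IsK F K) (o : Option ι) {f : (V → ι) → ℝ} {x : ℝ}
    (hx : 0 < K0 K o → x ≤ EE (fun _ : V => kap K o) f) :
    K0 K o * x ≤ K0 K o * EE (fun _ : V => kap K o) f := by
  rcases eq_or_lt_of_le (h.K0_nonneg o) with h0 | h0
  · rw [← h0, zero_mul, zero_mul]
  · exact mul_le_mul_of_nonneg_left (hx h0) h0.le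

theorem IsK.mul_EE_eq (h : IsK F K) (o : Option ι) {f : (V → ι) → ℝ} {x : ℝ}
    (hx : 0 < K0 K o → EE (fun _ : V => kap K o) f = x) :
    K0 K o * EE (fun _ : V => kap K o) f = K0 K o * x :=
  le_antisymm (h.mul_EE_le o fun h0 => (hx h0).le) (h.mul_EE_ge o fun h0 => (hx h0).ge)

/-- the law of the cluster of one vertex -/
theorem EE_gP (h : IsK F K) (c : V → V) (v : V) (a : ι) :
    EE (lawP K) (fun ω => if gP c ω v = a then (1 : ℝ) else 0) = ∑ o, K o a := by
  have h1 := EE_single (isLaw_lawP (V := V) h) (c v)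
    (fun z : Option ι × (V → ι) => if z.2 v = a then (1 : ℝ) else 0)
  refine Eq.trans h1 ?_
  rw [sum_law]
  refine sum_congr rfl fun o _ => ?_
  rw [← h.mul_kap o a]
  refine h.mul_EE_eq o fun h0 => ?_
  have h2 := EE_single (h.law_kap (V := V) h0) v (fun x : ι => if x = a then (1 : ℝ) else 0)
  refine Eq.trans h2 ?_
  simp

/-- mass of `K o` outside the neighbourhood of `y` -/
def Ko (F : SimpleGraph ι) (K : Option ι → ι → ℝ) (o : Option ι) (y : ι) : ℝ :=
  ∑ a, if F.Adj y a then 0 else K o a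

/-- `o` is allowed for a neighbour of a vertex at `y` with `g = a` -/
def alw (F : SimpleGraph ι) (lt : ι → ι → Prop) (a y : ι) (o : Option ι) : Prop :=
  ∀ y', o = some y' → F.Adj y y' → lt y' y → F.Adj a y'

/-- the probability of one edge to another piece -/
def zP (F : SimpleGraph ι) (lt : ι → ι → Prop) (K : Option ι → ι → ℝ) (a y : ι) : ℝ :=
  ∑ o, if alw F lt a y o then Ko F K o y else 0

theorem IsK.Ko_nonneg (h : IsK F K) (o : Option ι) (y : ι) : 0 ≤ Ko F K o y :=
  sum_nonneg fun a _ => by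
    split_ifs
    exacts [le_rfl, h.nonneg o a]

theorem IsK.zP_nonneg (h : IsK F K) (lt : ι → ι → Prop) (a y : ι) : 0 ≤ zP F lt K a y :=
  sum_nonneg fun o _ => by
    split_ifs
    exacts [h.Ko_nonneg o y, le_rfl]

/-- number of neighbours in other pieces -/
def xP (G : SimpleGraph V) (c : V → V) (v : V) : ℕ := #{u ∈ nbh G v | c u ≠ c v}

/-- a product of indicators -/
theorem prod_ind {α : Type*} (S : Finset α) (P : α → Prop) :
    (∏ u ∈ S, if P u then (1 : ℝ) else 0) = if ∀ u ∈ S, P u then 1 else 0 := by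
  by_cases h : ∀ u ∈ S, P u
  · rw [if_pos h]
    exact prod_eq_one fun u hu => if_pos (h u hu)
  · rw [if_neg h]
    push Not at h
    obtain ⟨u, hu, hp⟩ := h
    exact prod_eq_zero hu (if_neg hp)

/-- one other piece -/
theorem piece_ge (h : IsK F K) (lt : ι → ι → Prop) (a y : ι) (x : V) (N : Finset V)
    (hN : N.Nonempty) : zP F lt K a y ^ #N ≤ ∑ z, lawP K x z *
      (if (∀ u ∈ N, ¬ F.Adj y (z.2 u)) ∧ alw F lt a y z.1 then (1 : ℝ) else 0) := by
  rw [sum_law (V := V) K x (fun z => if (∀ u ∈ N, ¬ F.Adj y (z.2 u)) ∧ alw F lt a y z.1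
    then (1 : ℝ) else 0)]
  obtain ⟨q, hq⟩ : ∃ q : Option ι → ℝ, q = fun o => ∑ a', if F.Adj y a' then 0 else kap K o a' :=
    ⟨_, rfl⟩
  have hq0 : ∀ o, 0 ≤ q o := by
    intro o
    rw [hq]
    refine sum_nonneg fun a' _ => ?_
    split_ifs
    exacts [le_rfl, h.kap_nonneg o a']
  have hqK : ∀ o, K0 K o * q o = Ko F K o y := by
    intro o
    rw [hq]
    unfold Ko
    rw [mul_sum]
    refine sum_congr rfl fun a' _ => ?_
    split_ifs
    · rw [mul_zero]
    · exact h.mul_kap o a'
  have h1 : zP F lt K a y = ∑ o, K0 K o * (if alw F lt a y o then q o else 0) := by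
    unfold zP
    refine sum_congr rfl fun o _ => ?_
    split_ifs
    · exact (hqK o).symm
    · rw [mul_zero]
  have h2 : (∑ o, K0 K o * (if alw F lt a y o then q o else 0)) ^ #N ≤
      ∑ o, K0 K o * (if alw F lt a y o then q o else 0) ^ #N :=
    Real.pow_arith_mean_le_arith_mean_pow univ (K0 K) _ (fun o _ => h.K0_nonneg o) h.sum_K0
      (fun o _ => by
        split_ifs
        exacts [hq0 o, le_rfl]) _
  rw [h1]
  refine h2.trans (sum_le_sum fun o _ => h.mul_EE_ge o fun h0 => ?_)
  by_cases ho : alw F lt a y o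
  · have h3 : q o ^ #N = EE (fun _ : V => kap K o) (fun g =>
        ∏ u ∈ N, (fun (_ : V) (a' : ι) => if ¬ F.Adj y a' then (1 : ℝ) else 0) u (g u)) := by
      refine Eq.trans ?_ (EE_prod_coord (h.law_kap h0) N
        (fun (_ : V) (a' : ι) => if ¬ F.Adj y a' then (1 : ℝ) else 0)).symm
      rw [prod_const]
      congr 1
      rw [hq]
      refine sum_congr rfl fun a' _ => ?_
      by_cases hc : F.Adj y a' <;> simp [hc]
    rw [if_pos ho, h3]
    refine EE_mono (h.law_kap h0) fun g => ?_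
    by_cases hc : ∀ u ∈ N, ¬ F.Adj y (g u)
    · refine le_trans (le_of_eq (prod_eq_one fun u hu => if_pos (hc u hu))) ?_
      exact le_of_eq (if_pos ⟨hc, ho⟩).symm
    · push Not at hc
      obtain ⟨u, hu, hF⟩ := hc
      refine le_trans (le_of_eq (prod_eq_zero hu (if_neg (not_not.2 hF)))) ?_
      split_ifs <;> norm_num
  · rw [if_neg ho, zero_pow (card_pos.2 hN).ne']
    exact EE_nonneg (h.law_kap h0) fun h => by split_ifs <;> norm_num

/-- the own piece -/
theorem own_ge (h : IsK F K) (a y : ι) (x v : V) (N : Finset V) :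
    K (some y) a ≤ ∑ z, lawP K x z *
      (if z.1 = some y ∧ z.2 v = a ∧ ∀ u ∈ N, ¬ F.Adj y (z.2 u) then (1 : ℝ) else 0) := by
  rw [sum_law (V := V) K x (fun z => if z.1 = some y ∧ z.2 v = a ∧ ∀ u ∈ N, ¬ F.Adj y (z.2 u)
    then (1 : ℝ) else 0)]
  have h1 : K (some y) a ≤ K0 K (some y) * EE (fun _ : V => kap K (some y)) (fun h =>
      if (some y : Option ι) = some y ∧ h v = a ∧ ∀ u ∈ N, ¬ F.Adj y (h u) then (1 : ℝ) else 0) := by
    rw [← h.mul_kap (some y) a]
    refine h.mul_EE_ge _ fun h0 => ?_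
    have h2 := EE_single (h.law_kap (V := V) h0) v (fun x : ι => if x = a then (1 : ℝ) else 0)
    have h3 : ∑ x, kap K (some y) x * (if x = a then (1 : ℝ) else 0) = kap K (some y) a := by simp
    rw [← h3]
    refine (le_of_eq h2.symm).trans ?_
    refine EE_mono' (h.law_kap h0) fun g hg => ?_
    by_cases hga : g v = a
    · rw [if_pos hga, if_pos]
      refine ⟨rfl, hga, fun u _ hu => ?_⟩
      have h4 := hg u
      unfold kap at h4
      rw [h.adj y (g u) hu, zero_div] at h4
      exact lt_irrefl _ h4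
    · rw [if_neg hga]
      split_ifs <;> norm_num
  refine h1.trans ?_
  exact single_le_sum (f := fun o => K0 K o * EE (fun _ : V => kap K o) (fun h =>
      if o = some y ∧ h v = a ∧ ∀ u ∈ N, ¬ F.Adj y (h u) then (1 : ℝ) else 0))
    (fun o _ => by
      rcases eq_or_lt_of_le (h.K0_nonneg o) with h0 | h0
      · show 0 ≤ K0 K o * _
        rw [← h0, zero_mul]
      · exact mul_nonneg h0.le (EE_nonneg (h.law_kap h0) fun g => by split_ifs <;> norm_num))
    (mem_univ (some y))

/-- **The lower bound** of the probability of `g v = a`, `b v = some y`. -/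
theorem low_P (h : IsK F K) (G : SimpleGraph V) (lt : ι → ι → Prop) (Bv : V → Finset ι)
    (c : V → V) (v : V) (a y : ι) (hy : y ∈ Bv v) :
    K (some y) a * zP F lt K a y ^ xP G c v ≤
      EE (lawP K) (fun ω => if gP c ω v = a ∧ bP F G lt Bv c ω v = some y then 1 else 0) := by
  obtain ⟨S, hS⟩ : ∃ S : Finset V, S = ((nbh G v).image c).erase (c v) := ⟨_, rfl⟩
  obtain ⟨N, hN⟩ : ∃ N : V → Finset V, N = fun x => (nbh G v).filter fun u => c u = x := ⟨_, rfl⟩
  have hcS : c v ∉ S := by rw [hS]; exact notMem_erase _ _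
  obtain ⟨φ, hφ⟩ : ∃ φ : V → Option ι × (V → ι) → ℝ, φ = fun x z =>
      if x = c v then
        (if z.1 = some y ∧ z.2 v = a ∧ ∀ u ∈ N (c v), ¬ F.Adj y (z.2 u) then (1 : ℝ) else 0)
      else (if (∀ u ∈ N x, ¬ F.Adj y (z.2 u)) ∧ alw F lt a y z.1 then (1 : ℝ) else 0) := ⟨_, rfl⟩
  have hmemN : ∀ u x, u ∈ N x ↔ G.Adj v u ∧ c u = x := by
    intro u x
    rw [hN]
    simp [nbh]
  -- the indicator is the product
  have hprod : ∀ ω : V → Option ι × (V → ι), ∏ x ∈ insert (c v) S, φ x (ω x) ≤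
      if gP c ω v = a ∧ bP F G lt Bv c ω v = some y then 1 else 0 := by
    intro ω
    have hφ01 : ∀ x z, φ x z = 0 ∨ φ x z = 1 := by
      intro x z
      rw [hφ]
      show (if x = c v then _ else _) = (0 : ℝ) ∨ (if x = c v then _ else _) = (1 : ℝ)
      split_ifs <;> simp
    by_cases hall : ∀ x ∈ insert (c v) S, φ x (ω x) = 1
    · rw [prod_eq_one hall]
      have h1 := hall (c v) (mem_insert_self _ _)
      rw [hφ] at h1
      simp only [if_true] at h1
      have h1' : (ω (c v)).1 = some y ∧ (ω (c v)).2 v = a ∧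
          ∀ u ∈ N (c v), ¬ F.Adj y ((ω (c v)).2 u) := by
        by_contra hcon
        rw [if_neg hcon] at h1
        exact zero_ne_one h1
      have h2 : ∀ x ∈ S, (∀ u ∈ N x, ¬ F.Adj y ((ω x).2 u)) ∧ alw F lt a y (ω x).1 := by
        intro x hx
        have h3 := hall x (mem_insert_of_mem hx)
        rw [hφ] at h3
        have hne : x ≠ c v := fun e => hcS (e ▸ hx)
        simp only [if_neg hne] at h3
        by_contra hcon
        rw [if_neg hcon] at h3
        exact zero_ne_one h3
      have hxS : ∀ u, G.Adj v u → c u ≠ c v → c u ∈ S := by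
        intro u hu hne
        rw [hS]
        exact mem_erase.2 ⟨hne, mem_image_of_mem c (by simp [nbh, hu])⟩
      rw [if_pos]
      refine ⟨h1'.2.1, bP_eq.2 ⟨h1'.1, hy, ?_, ?_⟩⟩
      · intro u hu
        by_cases hc : c u = c v
        · have h3 := h1'.2.2 u ((hmemN u _).2 ⟨hu, hc⟩)
          unfold gP
          rw [hc]
          exact h3
        · exact (h2 (c u) (hxS u hu hc)).1 u ((hmemN u _).2 ⟨hu, rfl⟩)
      · intro u hu hne y' ho hF hl
        have h3 := (h2 (c u) (hxS u hu hne)).2 y' ho hF hl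
        have h4 : gP c ω v = a := h1'.2.1
        rw [h4]
        exact h3
    · push Not at hall
      obtain ⟨x, hx, hx1⟩ := hall
      have h0 : φ x (ω x) = 0 := (hφ01 x _).resolve_right hx1
      rw [prod_eq_zero hx h0]
      split_ifs <;> norm_num
  refine le_trans ?_ (EE_mono (isLaw_lawP h) hprod)
  rw [EE_prod_coord (isLaw_lawP h), prod_insert hcS]
  have e0 : ∑ z, lawP K (c v) z * φ (c v) z = ∑ z, lawP K (c v) z *
      (if z.1 = some y ∧ z.2 v = a ∧ ∀ u ∈ N (c v), ¬ F.Adj y (z.2 u) then (1 : ℝ) else 0) := by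
    rw [hφ]
    simp only [if_true]
  have e1 : ∀ x ∈ S, zP F lt K a y ^ #(N x) ≤ ∑ z, lawP K x z * φ x z := by
    intro x hx
    have hne : x ≠ c v := fun e => hcS (e ▸ hx)
    have hNx : (N x).Nonempty := by
      rw [hS] at hx
      obtain ⟨u, hu, hux⟩ := mem_image.1 (mem_of_mem_erase hx)
      refine ⟨u, ?_⟩
      rw [hN]
      exact mem_filter.2 ⟨hu, hux⟩
    refine (piece_ge h lt a y x (N x) hNx).trans (le_of_eq ?_)
    rw [hφ]
    simp only [if_neg hne]
  have hcard : xP G c v = ∑ x ∈ S, #(N x) := by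
    unfold xP
    have h1 : (nbh G v).filter (fun u => c u ≠ c v) = S.biUnion N := by
      ext u
      rw [mem_filter, mem_biUnion]
      constructor
      · rintro ⟨hu, hne⟩
        refine ⟨c u, ?_, (hmemN u _).2 ⟨by simpa [nbh] using hu, rfl⟩⟩
        rw [hS]
        exact mem_erase.2 ⟨hne, mem_image_of_mem c hu⟩
      · rintro ⟨x, hx, hu⟩
        obtain ⟨h2, h3⟩ := (hmemN u x).1 hu
        refine ⟨by simp [nbh, h2], fun e => hcS ?_⟩
        rw [← e, h3]
        exact hx
    rw [h1, card_biUnion]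
    intro x _ x' _ hne
    refine disjoint_left.2 ?_
    intro u hu hu'
    exact hne (((hmemN u x).1 hu).2.symm.trans ((hmemN u x').1 hu').2)
  rw [hcard, ← prod_pow_eq_pow_sum]
  refine mul_le_mul ?_ (prod_le_prod (fun x _ => pow_nonneg (h.zP_nonneg lt a y) _) e1)
    (prod_nonneg fun x _ => pow_nonneg (h.zP_nonneg lt a y) _) ?_
  · rw [e0]
    exact own_ge h a y (c v) v (N (c v))
  · rw [e0]
    refine sum_nonneg fun z _ => mul_nonneg ((isLaw_lawP h).nonneg _ _) ?_
    split_ifs <;> norm_num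

/-- The upper bound. -/
theorem up_P (h : IsK F K) (G : SimpleGraph V) (lt : ι → ι → Prop) (Bv : V → Finset ι)
    (c : V → V) (v : V) (a y : ι) :
    EE (lawP K) (fun ω => if gP c ω v = a ∧ bP F G lt Bv c ω v = some y then 1 else 0) ≤
      K (some y) a := by
  have h1 : ∀ ω : V → Option ι × (V → ι),
      (if gP c ω v = a ∧ bP F G lt Bv c ω v = some y then (1 : ℝ) else 0) ≤
      (fun z : Option ι × (V → ι) => if z.1 = some y ∧ z.2 v = a then (1 : ℝ) else 0)
        (ω (c v)) := by
    intro ω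
    by_cases hc : gP c ω v = a ∧ bP F G lt Bv c ω v = some y
    · rw [if_pos hc]
      have h2 : (ω (c v)).1 = some y ∧ (ω (c v)).2 v = a := ⟨(bP_eq.1 hc.2).1, hc.1⟩
      exact le_of_eq (if_pos h2).symm
    · rw [if_neg hc]
      show (0 : ℝ) ≤ if _ then 1 else 0
      split_ifs <;> norm_num
  refine (EE_mono (isLaw_lawP h) h1).trans ?_
  rw [EE_single (isLaw_lawP h) (c v)
    (fun z : Option ι × (V → ι) => if z.1 = some y ∧ z.2 v = a then (1 : ℝ) else 0), sum_law]
  rw [sum_eq_single (some y)]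
  · rw [← h.mul_kap (some y) a]
    refine h.mul_EE_le _ fun h0 => le_of_eq ?_
    have h2 := EE_single (h.law_kap (V := V) h0) v (fun x : ι => if x = a then (1 : ℝ) else 0)
    simp only [true_and]
    refine Eq.trans h2 ?_
    simp
  · intro o _ ho
    have h2 : (fun g : V → ι => if ((o, g) : Option ι × (V → ι)).1 = some y ∧
        ((o, g) : Option ι × (V → ι)).2 v = a then (1 : ℝ) else 0) = fun _ => 0 := by
      funext g
      exact if_neg fun h' => ho h'.1
    rcases eq_or_lt_of_le (h.K0_nonneg o) with h0 | h0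
    · rw [← h0, zero_mul]
    · rw [h2, EE_const (h.law_kap h0), mul_zero]
  · intro h'
    exact absurd (mem_univ _) h'

end law

end

end Pool.Agent.T6P
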