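import Pool.Agent.T6P.Defs
import Pool.Agent.T6P.PLaw

/-!
# P6c: the kernel of the piece scheme (MP_c6effb_co)

`ker (some y) a = g₀ μ_a w_y` for the used pairs, `ker none a` = what is missing to the total mass
`(1 - e) w_a + μ_a g₀ ∑ w_y tS` of `a ∈ A`.
-/

set_option autoImplicit false
set_option linter.unusedSectionVars false

open Finset

namespace Pool.Agent.T6P

open Pool.Agent.T6A

noncomputable section

open Classical

variable {ι : Type} [Fintype ι]

/-- The factor of the kernel. -/
def g0 (X : World ι) (ord : ι → ℕ) (e x dl c gm : ℝ) : ℝ :=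
  (1 - (1 - e) * X.sA) / SS X ord c gm x dl

/-- Mass of `T` per unit of `g₀ μ_a`. -/
def tsum (X : World ι) (ord : ι → ℕ) (c gm x dl : ℝ) (a : ι) : ℝ :=
  ∑ y ∈ ys X a, X.w y * tS X ord c gm x dl a y

/-- **The kernel.** -/
def ker (X : World ι) (ord : ι → ℕ) (e x dl c gm : ℝ) : Option ι → ι → ℝ
  | none, a => if a ∈ X.A then (1 - e) * X.w a + X.mu a * g0 X ord e x dl c gm *
      tsum X ord c gm x dl a - X.mu a * g0 X ord e x dl c gm * ∑ y ∈ ys X a, X.w y else 0
  | some y, a => if y ∈ ys X a then g0 X ord e x dl c gm * X.mu a * X.w y else 0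

variable {X : World ι} {ord : ι → ℕ} {e x dl c gm : ℝ}

theorem ker_none (a : ι) : ker X ord e x dl c gm none a = if a ∈ X.A then (1 - e) * X.w a +
    X.mu a * g0 X ord e x dl c gm * tsum X ord c gm x dl a -
      X.mu a * g0 X ord e x dl c gm * ∑ y ∈ ys X a, X.w y else 0 := rfl

theorem ker_some (y a : ι) : ker X ord e x dl c gm (some y) a =
    if y ∈ ys X a then g0 X ord e x dl c gm * X.mu a * X.w y else 0 := rfl

theorem mem_ys {a y : ι} : y ∈ ys X a ↔ (y ∉ X.A ∧ World.n X y ≤ 24 / 25) ∧ ¬ X.F.Adj a y := by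
  simp [ys, World.act]

theorem SS_eq (X : World ι) (ord : ι → ℕ) (c gm x dl : ℝ) :
    SS X ord c gm x dl = ∑ a, X.mu a * tsum X ord c gm x dl a := by
  unfold SS tsum
  refine sum_congr rfl fun a _ => ?_
  rw [mul_sum]
  exact sum_congr rfl fun y _ => by ring

theorem g0_mul (h : 0 < SS X ord c gm x dl) :
    g0 X ord e x dl c gm * SS X ord c gm x dl = 1 - (1 - e) * X.sA := by
  unfold g0
  exact div_mul_cancel₀ _ h.ne'

theorem g0_nonneg (h : 0 < SS X ord c gm x dl) (h1 : (1 - e) * X.sA ≤ 1) :
    0 ≤ g0 X ord e x dl c gm := by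
  unfold g0
  exact div_nonneg (by linarith) h.le

theorem g0_le (h : CertOK X ord e x dl c gm) : g0 X ord e x dl c gm ≤ gm := by
  unfold g0
  rw [div_le_iff₀ h.S0]
  exact h.ca

theorem World.sA_pos {a : ι} (ha : a ∈ X.A) : 0 < X.sA := by
  unfold World.sA
  exact sum_pos' (fun i _ => (X.pos i).le) ⟨a, ha, X.pos a⟩

theorem World.mu_eq_div {a : ι} (ha : a ∈ X.A) : X.mu a = X.w a / X.sA := by
  unfold World.mu
  rw [if_pos ha]

theorem mu_of_not {a : ι} (ha : a ∉ X.A) : X.mu a = 0 := by
  unfold World.mu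
  rw [if_neg ha]

theorem ker_some_nonneg (h : 0 ≤ g0 X ord e x dl c gm) (y a : ι) :
    0 ≤ ker X ord e x dl c gm (some y) a := by
  rw [ker_some]
  split_ifs
  · exact mul_nonneg (mul_nonneg h (X.mu_nonneg a)) (X.pos y).le
  · exact le_rfl

theorem tS_nonneg (a y : ι) : 0 ≤ tS X ord c gm x dl a y := le_max_left _ _

theorem tsum_nonneg (a : ι) : 0 ≤ tsum X ord c gm x dl a :=
  sum_nonneg fun y _ => mul_nonneg (X.pos y).le (tS_nonneg a y)

theorem ker_none_nonneg (h : CertOK X ord e x dl c gm) (a : ι) :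
    0 ≤ ker X ord e x dl c gm none a := by
  rw [ker_none]
  split_ifs with ha
  · have hs := World.sA_pos ha
    have h1 := h.cb a ha
    have h2 : X.w a = X.mu a * X.sA := (X.mu_mul hs ha).symm
    have h3 : ∑ y ∈ ys X a, X.w y * (1 - tS X ord c gm x dl a y)
        = (∑ y ∈ ys X a, X.w y) - tsum X ord c gm x dl a := by
      unfold tsum
      rw [← sum_sub_distrib]
      exact sum_congr rfl fun y _ => by ring
    rw [h3] at h1
    have h4 : g0 X ord e x dl c gm * ((∑ y ∈ ys X a, X.w y) - tsum X ord c gm x dl a)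
        ≤ (1 - e) * X.sA := by
      unfold g0
      rw [div_mul_eq_mul_div, div_le_iff₀ h.S0]
      exact h1
    have h5 : 0 ≤ X.mu a * ((1 - e) * X.sA - g0 X ord e x dl c gm *
        ((∑ y ∈ ys X a, X.w y) - tsum X ord c gm x dl a)) :=
      mul_nonneg (X.mu_nonneg a) (by linarith)
    rw [h2]
    nlinarith [h5]
  · exact le_rfl

theorem sum_ker_some (a : ι) : ∑ y, ker X ord e x dl c gm (some y) a =
    X.mu a * g0 X ord e x dl c gm * ∑ y ∈ ys X a, X.w y := by
  simp only [ker_some]
  rw [← sum_filter, mul_sum]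
  have : (univ.filter fun y => y ∈ ys X a) = ys X a := by ext y; simp
  rw [this]
  exact sum_congr rfl fun y _ => by ring

/-- **The law of `g v`.** -/
theorem ker_marg {a : ι} (ha : a ∈ X.A) : ∑ o, ker X ord e x dl c gm o a =
    (1 - e) * X.w a + X.mu a * g0 X ord e x dl c gm * tsum X ord c gm x dl a := by
  rw [Fintype.sum_option, sum_ker_some, ker_none, if_pos ha]
  ring

theorem ker_marg_not {a : ι} (ha : a ∉ X.A) : ∑ o, ker X ord e x dl c gm o a = 0 := by
  rw [Fintype.sum_option, sum_ker_some, ker_none, if_neg ha, mu_of_not ha]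
  ring

theorem ker_marg_le (h : CertOK X ord e x dl c gm) (a : ι) :
    ∑ o, ker X ord e x dl c gm o a ≤ c * X.mu a := by
  by_cases ha : a ∈ X.A
  · rw [ker_marg ha]
    have hs := World.sA_pos ha
    have h1 := h.cc a ha
    have h2 : X.w a = X.mu a * X.sA := (X.mu_mul hs ha).symm
    have h4 : (1 - e) * X.sA + g0 X ord e x dl c gm * tsum X ord c gm x dl a ≤ c := by
      have h5 : g0 X ord e x dl c gm * tsum X ord c gm x dl a =
          ((1 - (1 - e) * X.sA) * tsum X ord c gm x dl a) / SS X ord c gm x dl := by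
        unfold g0
        rw [div_mul_eq_mul_div]
      rw [h5, ← le_sub_iff_add_le', div_le_iff₀ h.S0]
      unfold tsum
      linarith
    have h5 := mul_le_mul_of_nonneg_left h4 (X.mu_nonneg a)
    rw [h2]
    nlinarith [h5]
  · rw [ker_marg_not ha, mu_of_not ha, mul_zero]

/-- The total mass is one. -/
theorem ker_total (h : CertOK X ord e x dl c gm) :
    ∑ o, ∑ a, ker X ord e x dl c gm o a = 1 := by
  rw [sum_comm]
  have h1 : ∀ a, ∑ o, ker X ord e x dl c gm o a = (if a ∈ X.A then (1 - e) * X.w a else 0)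
      + g0 X ord e x dl c gm * (X.mu a * tsum X ord c gm x dl a) := by
    intro a
    by_cases ha : a ∈ X.A
    · rw [ker_marg ha, if_pos ha]
      ring
    · rw [ker_marg_not ha, if_neg ha, mu_of_not ha]
      ring
  rw [sum_congr rfl fun a _ => h1 a, sum_add_distrib, ← mul_sum, ← SS_eq, g0_mul h.S0,
    ← sum_filter, ← mul_sum]
  have : (univ.filter fun a => a ∈ X.A) = X.A := by ext a; simp
  rw [this]
  unfold World.sA
  ring

theorem ker_isK (h : CertOK X ord e x dl c gm) (h1 : (1 - e) * X.sA ≤ 1) :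
    IsK X.F (ker X ord e x dl c gm) where
  nonneg := fun o a => by
    cases o with
    | none => exact ker_none_nonneg h a
    | some y => exact ker_some_nonneg (g0_nonneg h.S0 h1) y a
  sum_one := ker_total h
  adj := fun y a hya => by
    rw [ker_some, if_neg]
    intro hy
    exact (mem_ys.1 hy).2 hya.symm

/-- The wanted mass of `T`. -/
theorem ker_tS (h : CertOK X ord e x dl c gm) :
    ∑ a, ∑ y, ker X ord e x dl c gm (some y) a * tS X ord c gm x dl a y = 1 - (1 - e) * X.sA := by
  rw [← g0_mul h.S0, SS_eq, mul_sum]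
  refine sum_congr rfl fun a _ => ?_
  unfold tsum
  simp only [ker_some, ite_mul, zero_mul]
  rw [← sum_filter, mul_sum, mul_sum]
  have : (univ.filter fun y => y ∈ ys X a) = ys X a := by ext y; simp
  rw [this]
  exact sum_congr rfl fun y _ => by ring

/-- The wanted mass of `T` in one row. -/
theorem ker_tS_row (a : ι) : ∑ y, ker X ord e x dl c gm (some y) a * tS X ord c gm x dl a y =
    X.mu a * g0 X ord e x dl c gm * tsum X ord c gm x dl a := by
  unfold tsum
  simp only [ker_some, ite_mul, zero_mul]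
  rw [← sum_filter, mul_sum]
  have : (univ.filter fun y => y ∈ ys X a) = ys X a := by ext y; simp
  rw [this]
  exact sum_congr rfl fun y _ => by ring

/-- The load of `a ∈ A` without the mass of `T`. -/
theorem ker_load {a : ι} (ha : a ∈ X.A) : ∑ o, ker X ord e x dl c gm o a -
    ∑ y, ker X ord e x dl c gm (some y) a * tS X ord c gm x dl a y = (1 - e) * X.w a := by
  rw [ker_marg ha, ker_tS_row]
  ring

theorem n_eq (y : ι) : World.n X y = ∑ a, if X.F.Adj a y then X.mu a else 0 := rfl

theorem sA_pos_of (h : CertOK X ord e x dl c gm) : 0 < X.sA := by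
  by_contra hs
  have h0 : X.sA = 0 := le_antisymm (not_lt.1 hs) X.sA_nonneg
  have h1 : ∀ a, X.mu a = 0 := by
    intro a
    unfold World.mu
    split_ifs
    · rw [h0, div_zero]
    · rfl
  have h2 := h.S0
  rw [SS_eq] at h2
  have h3 : ∑ a, X.mu a * tsum X ord c gm x dl a = 0 :=
    sum_eq_zero fun a _ => by rw [h1, zero_mul]
  rw [h3] at h2
  exact lt_irrefl _ h2

/-- The mass of the row `some y`. -/
theorem ker_row (hs : 0 < X.sA) {y : ι} (hy : World.act X y) :
    ∑ a, ker X ord e x dl c gm (some y) a =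
      g0 X ord e x dl c gm * X.w y * (1 - World.n X y) := by
  have h1 : ∀ a, ker X ord e x dl c gm (some y) a =
      g0 X ord e x dl c gm * X.w y * (X.mu a - if X.F.Adj a y then X.mu a else 0) := by
    intro a
    rw [ker_some]
    by_cases ha : X.F.Adj a y
    · rw [if_neg fun h => (mem_ys.1 h).2 ha, if_pos ha]
      ring
    · rw [if_pos (mem_ys.2 ⟨hy, ha⟩), if_neg ha]
      ring
  rw [sum_congr rfl fun a _ => h1 a, ← mul_sum, sum_sub_distrib, X.mu_sum hs, n_eq]

theorem ker_row_le (h : CertOK X ord e x dl c gm) (h1 : (1 - e) * X.sA ≤ 1) (y : ι) :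
    ∑ a, ker X ord e x dl c gm (some y) a ≤ gm * X.w y := by
  by_cases hy : World.act X y
  · rw [ker_row (sA_pos_of h) hy]
    have h2 := g0_nonneg h.S0 h1
    have h3 : 0 ≤ World.n X y := nb_nonneg X.mu_nonneg y
    have h4 := (X.pos y).le
    calc g0 X ord e x dl c gm * X.w y * (1 - World.n X y)
        ≤ g0 X ord e x dl c gm * X.w y * 1 :=
          mul_le_mul_of_nonneg_left (by linarith) (mul_nonneg h2 h4)
      _ = g0 X ord e x dl c gm * X.w y := mul_one _
      _ ≤ gm * X.w y := mul_le_mul_of_nonneg_right (g0_le h) h4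
  · rw [sum_eq_zero]
    · exact mul_nonneg h.gm0.le (X.pos y).le
    · intro a _
      rw [ker_some]
      exact if_neg fun h => hy (mem_ys.1 h).1

theorem ker_not_act {y : ι} (hy : ¬ World.act X y) (a : ι) :
    ker X ord e x dl c gm (some y) a = 0 := by
  rw [ker_some]
  exact if_neg fun h => hy (mem_ys.1 h).1

/-- Adjacent clusters: the mass of the row outside the neighbourhood of the other one. -/
theorem Ko_ker (hs : 0 < X.sA) {y y' : ι} (hy' : World.act X y') (hyy : X.F.Adj y y') :
    Ko X.F (ker X ord e x dl c gm) (some y') y =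
      g0 X ord e x dl c gm * (X.w y' * (1 - World.n X y - World.n X y')) := by
  unfold Ko
  have h1 : ∀ a, (if X.F.Adj y a then 0 else ker X ord e x dl c gm (some y') a) =
      g0 X ord e x dl c gm * X.w y' * (X.mu a - (if X.F.Adj a y then X.mu a else 0)
        - (if X.F.Adj a y' then X.mu a else 0)) := by
    intro a
    by_cases ha : X.F.Adj y a
    · have ha' : ¬ X.F.Adj a y' := by
        intro h
        exact X.tri {y, y', a} (SimpleGraph.is3Clique_triple_iff.2 ⟨hyy, ha, h.symm⟩)
      rw [if_pos ha, if_pos ha.symm, if_neg ha']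
      ring
    · rw [if_neg ha, if_neg fun h => ha h.symm, ker_some]
      by_cases ha' : X.F.Adj a y'
      · rw [if_neg fun h => (mem_ys.1 h).2 ha', if_pos ha']
        ring
      · rw [if_pos (mem_ys.2 ⟨hy', ha'⟩), if_neg ha']
        ring
  rw [sum_congr rfl fun a _ => h1 a, ← mul_sum, sum_sub_distrib, sum_sub_distrib, X.mu_sum hs,
    ← n_eq, ← n_eq]
  ring

/-- The mass of the neighbourhood of `y` under the law of `g v`. -/
theorem ker_nbh_le (h : CertOK X ord e x dl c gm) (y : ι) :
    ∑ a, (if X.F.Adj y a then ∑ o, ker X ord e x dl c gm o a else 0) ≤ c * World.n X y := by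
  rw [n_eq, mul_sum]
  refine sum_le_sum fun a _ => ?_
  by_cases ha : X.F.Adj y a
  · rw [if_pos ha, if_pos ha.symm]
    exact ker_marg_le h a
  · rw [if_neg ha, if_neg fun h => ha h.symm, mul_zero]

/-- The sum of `Ko` over all `o`. -/
theorem sum_Ko (h : CertOK X ord e x dl c gm) (y : ι) :
    1 - c * World.n X y ≤ ∑ o, Ko X.F (ker X ord e x dl c gm) o y := by
  have h1 : ∑ o, Ko X.F (ker X ord e x dl c gm) o y =
      1 - ∑ a, (if X.F.Adj y a then ∑ o, ker X ord e x dl c gm o a else 0) := by
    rw [← ker_total h, ← sum_comm]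
    unfold Ko
    rw [sum_comm, ← sum_sub_distrib]
    refine sum_congr rfl fun a _ => ?_
    by_cases ha : X.F.Adj y a
    · simp only [if_pos ha, sum_const_zero, sub_self]
    · simp only [if_neg ha, sub_zero]
  rw [h1]
  linarith [ker_nbh_le h y]

/-- **The probability of one edge to another piece.** -/
theorem zS_le_zP (h : CertOK X ord e x dl c gm) (h1 : (1 - e) * X.sA ≤ 1) (a y : ι) :
    zS X ord c gm a y ≤ zP X.F (fun y' y => ord y' < ord y) (ker X ord e x dl c gm) a y := by
  have hK := ker_isK h h1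
  unfold zS
  refine max_le (hK.zP_nonneg _ a y) ?_
  have h2 := sum_Ko h y
  have h3 : zP X.F (fun y' y => ord y' < ord y) (ker X ord e x dl c gm) a y =
      ∑ o, Ko X.F (ker X ord e x dl c gm) o y -
        ∑ o, (if alw X.F (fun y' y => ord y' < ord y) a y o then 0
          else Ko X.F (ker X ord e x dl c gm) o y) := by
    unfold zP
    rw [← sum_sub_distrib]
    refine sum_congr rfl fun o _ => ?_
    split_ifs
    · ring
    · ring
  have h4 : ∑ o, (if alw X.F (fun y' y => ord y' < ord y) a y o then 0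
      else Ko X.F (ker X ord e x dl c gm) o y) ≤ gm * chiS X ord a y := by
    rw [Fintype.sum_option]
    have h5 : alw X.F (fun y' y => ord y' < ord y) a y (none : Option ι) := by
      intro y' hy'
      exact absurd hy' (by simp)
    rw [if_pos h5, zero_add]
    unfold chiS
    rw [mul_sum, sum_filter]
    refine sum_le_sum fun y' _ => ?_
    by_cases hal : alw X.F (fun y' y => ord y' < ord y) a y (some y')
    · rw [if_pos hal]
      split_ifs with hc
      · refine mul_nonneg h.gm0.le (mul_nonneg (X.pos y').le ?_)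
        have h6 : 0 ≤ 1 - nb X.F X.mu y - nb X.F X.mu y' + cod X.F X.mu y y' :=
          fr_pair_nonneg X.mu_nonneg (X.mu_sum (sA_pos_of h)) y y'
        rw [cod_eq_zero X.tri hc.2.2.1, add_zero] at h6
        exact h6
      · exact le_rfl
    · rw [if_neg hal]
      have hal' : X.F.Adj y y' ∧ ord y' < ord y ∧ ¬ X.F.Adj a y' := by
        unfold alw at hal
        push Not at hal
        obtain ⟨z, hz, h7, h8, h9⟩ := hal
        have : y' = z := Option.some.inj hz
        subst this
        exact ⟨h7, h8, h9⟩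
      by_cases hy' : World.act X y'
      · rw [if_pos ⟨hy', hal'.2.1, hal'.1, hal'.2.2⟩, Ko_ker (sA_pos_of h) hy' hal'.1]
        refine mul_le_mul_of_nonneg_right (g0_le h) (mul_nonneg (X.pos y').le ?_)
        have h6 : 0 ≤ 1 - nb X.F X.mu y - nb X.F X.mu y' + cod X.F X.mu y y' :=
          fr_pair_nonneg X.mu_nonneg (X.mu_sum (sA_pos_of h)) y y'
        rw [cod_eq_zero X.tri hal'.1, add_zero] at h6
        exact h6
      · rw [if_neg fun h => hy' h.1]
        unfold Ko
        refine le_of_eq (sum_eq_zero fun a' _ => ?_)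
        rw [ker_not_act hy']
        exact ite_self _
  rw [h3]
  linarith

end

end Pool.Agent.T6P
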