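import Mathlib

/-!
# T6P, P6b: an order of the clusters which refines a real function (MP_c6effb_co)
-/

set_option autoImplicit false

open Finset

namespace Pool.Agent.T6P

/-- **P6b.** A finite type has an injective numbering which refines a real function. -/
theorem exists_ord {ι : Type*} [Fintype ι] (f : ι → ℝ) :
    ∃ ord : ι → ℕ, Function.Injective ord ∧ ∀ y y', ord y' < ord y → f y' ≤ f y := by
  classical
  obtain ⟨r, hr⟩ : ∃ r : ι → ι → Prop, r = fun a b =>
    f a < f b ∨ (f a = f b ∧ Fintype.equivFin ι a < Fintype.equivFin ι b) := ⟨_, rfl⟩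
  have tr : ∀ a b c, r a b → r b c → r a c := by
    intro a b c
    rw [hr]
    rintro (h1 | ⟨h1, h2⟩) (h3 | ⟨h3, h4⟩)
    · exact Or.inl (h1.trans h3)
    · exact Or.inl (h1.trans_le h3.le)
    · exact Or.inl (h1.le.trans_lt h3)
    · exact Or.inr ⟨h1.trans h3, h2.trans h4⟩
  have ir : ∀ a, ¬ r a a := by
    intro a
    rw [hr]
    rintro (h | ⟨_, h⟩)
    · exact lt_irrefl _ h
    · exact lt_irrefl _ h
  have tot : ∀ a b, a ≠ b → r a b ∨ r b a := by
    intro a b hab
    rw [hr]
    rcases lt_trichotomy (f a) (f b) with h | h | h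
    · exact Or.inl (Or.inl h)
    · rcases lt_trichotomy (Fintype.equivFin ι a) (Fintype.equivFin ι b) with h' | h' | h'
      · exact Or.inl (Or.inr ⟨h, h'⟩)
      · exact absurd ((Fintype.equivFin ι).injective h') hab
      · exact Or.inr (Or.inr ⟨h.symm, h'⟩)
    · exact Or.inr (Or.inl h)
  have mono : ∀ a b, r a b → #{z | r z a} < #{z | r z b} := by
    intro a b hab
    apply card_lt_card
    rw [ssubset_iff_of_subset]
    · exact ⟨a, by simpa using hab, by simpa using ir a⟩
    · intro z hz
      simp only [mem_filter, mem_univ, true_and] at hz ⊢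
      exact tr z a b hz hab
  refine ⟨fun y => #{z | r z y}, ?_, ?_⟩
  · intro a b hab
    by_contra hne
    rcases tot a b hne with h | h
    · exact absurd hab (mono a b h).ne
    · exact absurd hab (mono b a h).ne'
  · intro y y' h
    by_contra hlt
    push Not at hlt
    have h1 : r y y' := by rw [hr]; exact Or.inl hlt
    exact absurd (mono y y' h1) (by exact not_lt.2 h.le)

end Pool.Agent.T6P
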