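import Pool.Agent.T6P.AsmStmt
import Pool.Agent.T6P.Ker
import Pool.Agent.T6P.Ord

/-!
# P6: the assembly of the scheme (MP_c6effb_co)

`RuleP → AsmP`: the rule and the certificate (P7) give LIM for the piece scheme.
-/

set_option autoImplicit false
set_option linter.unusedSectionVars false

open Finset

namespace Pool.Agent.T6P

open Pool.Agent.T6A

noncomputable section

open Classical

variable {ι : Type} [Fintype ι]

/-- `zK` is `zP`. -/
theorem zK_eq_zP {X : World ι} {ord : ι → ℕ} {K : Option ι → ι → ℝ} (h : IsK X.F K) (a y : ι) :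
    zK X ord K a y = zP X.F (fun y' y => ord y' < ord y) K a y := by
  have h1 : ∑ o, Ko X.F K o y + ∑ a' ∈ univ.filter (fun a' => X.F.Adj a' y), ∑ o, K o a' = 1 := by
    rw [← h.sum_one]
    unfold Ko
    rw [sum_filter, sum_comm, sum_comm (f := fun o a => K o a), ← sum_add_distrib]
    refine sum_congr rfl fun a' _ => ?_
    by_cases ha : X.F.Adj y a'
    · rw [if_pos ha.symm]
      simp only [if_pos ha, sum_const_zero, zero_add]
    · rw [if_neg fun h => ha h.symm]
      simp only [if_neg ha, add_zero]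
  have h2 : zP X.F (fun y' y => ord y' < ord y) K a y = ∑ o, Ko X.F K o y -
      ∑ y' ∈ univ.filter (fun y' => ord y' < ord y ∧ X.F.Adj y y' ∧ ¬ X.F.Adj a y'),
        ∑ a' ∈ univ.filter (fun a' => ¬ X.F.Adj a' y), K (some y') a' := by
    unfold zP
    rw [Fintype.sum_option, Fintype.sum_option, sum_filter]
    have h5 : alw X.F (fun y' y => ord y' < ord y) a y (none : Option ι) := by
      intro y' hy'
      exact absurd hy' (by simp)
    rw [if_pos h5]
    have h6 : ∑ y', (if alw X.F (fun y' y => ord y' < ord y) a y (some y') then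
        Ko X.F K (some y') y else 0) = ∑ y', Ko X.F K (some y') y -
        ∑ y', if ord y' < ord y ∧ X.F.Adj y y' ∧ ¬ X.F.Adj a y' then
          ∑ a' ∈ univ.filter (fun a' => ¬ X.F.Adj a' y), K (some y') a' else 0 := by
      rw [← sum_sub_distrib]
      refine sum_congr rfl fun y' _ => ?_
      by_cases hal : alw X.F (fun y' y => ord y' < ord y) a y (some y')
      · rw [if_pos hal, if_neg, sub_zero]
        rintro ⟨h7, h8, h9⟩
        exact h9 (hal y' rfl h8 h7)
      · have hal' : ord y' < ord y ∧ X.F.Adj y y' ∧ ¬ X.F.Adj a y' := by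
          unfold alw at hal
          push Not at hal
          obtain ⟨z, hz, h7, h8, h9⟩ := hal
          have : y' = z := Option.some.inj hz
          subst this
          exact ⟨h8, h7, h9⟩
        rw [if_neg hal, if_pos hal']
        have h10 : Ko X.F K (some y') y =
            ∑ a' ∈ univ.filter (fun a' => ¬ X.F.Adj a' y), K (some y') a' := by
          unfold Ko
          rw [sum_filter]
          refine sum_congr rfl fun a' _ => ?_
          by_cases ha : X.F.Adj y a'
          · rw [if_pos ha, if_neg (not_not.2 ha.symm)]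
          · rw [if_neg ha, if_pos fun h => ha h.symm]
        rw [h10, sub_self]
    rw [h6]
    ring
  unfold zK
  rw [h2]
  linarith

theorem zP_le_one {X : World ι} {ord : ι → ℕ} {K : Option ι → ι → ℝ} (h : IsK X.F K) (a y : ι) :
    zP X.F (fun y' y => ord y' < ord y) K a y ≤ 1 := by
  rw [← h.sum_one]
  unfold zP
  refine sum_le_sum fun o _ => ?_
  have h1 : Ko X.F K o y ≤ ∑ a, K o a := by
    unfold Ko
    refine sum_le_sum fun a' _ => ?_
    split_ifs
    exacts [h.nonneg o a', le_rfl]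
  split_ifs
  · exact h1
  · exact sum_nonneg fun a' _ => h.nonneg o a'

theorem II_eq {x z : ℝ} (hx : 1 ≤ x) : II x z = z - (x - 1) * (z * (1 - z)) := by
  unfold II
  split_ifs with h
  · have : x = 1 := le_antisymm h hx
    subst this
    ring
  · ring

theorem pow_line {z : ℝ} (h0 : 0 ≤ z) (j : ℕ) :
    z - ((j : ℝ) - 1) * (z * (1 - z)) ≤ z ^ j := by
  cases j with
  | zero =>
    simp only [Nat.cast_zero, pow_zero]
    nlinarith [sq_nonneg (1 - z)]
  | succ n =>
    have h2 : 1 + (n : ℝ) * (z - 1) ≤ (1 + (z - 1)) ^ n :=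
      one_add_mul_le_pow (by linarith) n
    have h3 : (1 + (z - 1) : ℝ) = z := by ring
    rw [h3] at h2
    have h4 := mul_le_mul_of_nonneg_left h2 h0
    rw [pow_succ]
    push_cast
    nlinarith [h4]

/-- The mean of `z ^ j`. -/
theorem II_mean {V : Type} [Fintype V] {x z : ℝ} (hx : 1 ≤ x) (h0 : 0 ≤ z) (h1 : z ≤ 1)
    (j : V → ℕ) (h : ∑ v, (j v : ℝ) ≤ x * Fintype.card V) :
    (Fintype.card V : ℝ) * II x z ≤ ∑ v, z ^ j v := by
  rw [II_eq hx]
  have h2 : ∑ v : V, (z - ((j v : ℝ) - 1) * (z * (1 - z))) ≤ ∑ v, z ^ j v :=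
    sum_le_sum fun v _ => pow_line h0 (j v)
  have h3 : ∑ v : V, (z - ((j v : ℝ) - 1) * (z * (1 - z))) =
      (Fintype.card V : ℝ) * z - (∑ v, (j v : ℝ) - Fintype.card V) * (z * (1 - z)) := by
    rw [sum_sub_distrib, ← sum_mul, sum_sub_distrib]
    simp
  have h4 : 0 ≤ z * (1 - z) := mul_nonneg h0 (by linarith)
  have h5 : (∑ v, (j v : ℝ) - Fintype.card V) * (z * (1 - z)) ≤
      (x * Fintype.card V - Fintype.card V) * (z * (1 - z)) :=
    mul_le_mul_of_nonneg_right (by linarith) h4
  calc (Fintype.card V : ℝ) * (z - (x - 1) * (z * (1 - z)))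
      = (Fintype.card V : ℝ) * z - (x * Fintype.card V - Fintype.card V) * (z * (1 - z)) := by ring
    _ ≤ _ := by linarith

theorem II_le_one {x z : ℝ} (hx : 1 ≤ x) (h0 : 0 ≤ z) (h1 : z ≤ 1) : II x z ≤ 1 := by
  rw [II_eq hx]
  nlinarith [mul_nonneg (sub_nonneg.2 hx) (mul_nonneg h0 (sub_nonneg.2 h1))]

/-- **The scheme from the output of the rule.** -/
theorem scheme_of_out {V Om : Type} [Fintype V] [Fintype Om] {X : World ι} {L : Low V ι}
    {Bd : ι → ι → Prop} {c : V → V} {ord : ι → ℕ} {K : Option ι → ι → ℝ} {B : ℕ} {δ k e ζ x : ℝ}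
    {p : V → Om → ℝ} {g : (V → Om) → V → ι} {b : (V → Om) → V → Option ι} {Bn : V → Finset V}
    (hP : PieceOut X L Bd c ord K B δ p g b Bn) (hH : Hubless X L) (hk : (Fintype.card V : ℝ) = k)
    (hk0 : 0 < k)
    (hK : ∀ o a, 0 ≤ K o a) (hKB : ∀ y a, y ∈ X.A → K (some y) a = 0) (hδ : δ ≤ ζ) (hx : 1 ≤ x)
    (hxo : ∑ v, (xo L.G c v : ℝ) ≤ x * k)
    (t : ι → ι → ℝ) (t0 : ∀ a y, 0 ≤ t a y)
    (tz : ∀ a y, t a y = 0 ∨ ∃ z, 0 ≤ z ∧ z ≤ 1 ∧ z ≤ zK X ord K a y ∧ t a y ≤ II x z - δ)
    (hlA : ∀ a ∈ X.A, ∑ o, K o a - ∑ y, K (some y) a * t a y ≤ (1 - e) * X.w a)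
    (hlB : ∀ y, y ∉ X.A → ∑ a ∈ X.A, K (some y) a * t a y ≤ (1 - e) * X.w y) :
    Scheme X L (Bd2 Bd) k e ζ B p g b Bn (fun a y => K (some y) a * t a y) where
  law := hP.law
  loc := hP.loc
  ov := hP.ov
  mem := fun ω v y h => (hH.Bv v y).2 (hP.mem ω v y h)
  st := hP.st
  tt := hP.tt
  φ0 := fun a y => mul_nonneg (hK _ _) (t0 a y)
  φA := fun a y hy => by
    show K (some y) a * t a y = 0
    rw [hKB y a hy, zero_mul]
  cls := fun a _ y => by
    show K (some y) a * t a y * k ≤ _
    have hsplit : ∀ v, EE p (fun ω => if g ω v = a ∧ b ω v = some y then 1 else 0) =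
        EE p (fun ω => if g ω v = a ∧ b ω v = some y ∧ ¬ badE L (Bd2 Bd) g b ω v then 1 else 0) +
        EE p (fun ω => if g ω v = a ∧ b ω v = some y ∧ badE L (Bd2 Bd) g b ω v then 1 else 0) := by
      intro v
      rw [← EE_add]
      congr 1
      funext ω
      by_cases h1 : g ω v = a ∧ b ω v = some y
      · by_cases h2 : badE L (Bd2 Bd) g b ω v
        · rw [if_pos h1, if_neg (fun h => h.2.2 h2), if_pos ⟨h1.1, h1.2, h2⟩, zero_add]
        · rw [if_pos h1, if_pos ⟨h1.1, h1.2, h2⟩, if_neg (fun h => h2 h.2.2), add_zero]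
      · rw [if_neg h1, if_neg (fun h => h1 ⟨h.1, h.2.1⟩), if_neg (fun h => h1 ⟨h.1, h.2.1⟩),
          add_zero]
    rcases tz a y with h0 | ⟨z, hz0, hz1, hzK, htz⟩
    · rw [h0, mul_zero, zero_mul]
      exact sum_nonneg fun v _ => EE_nonneg hP.law fun ω => by split_ifs <;> norm_num
    · have h1 : ∀ v, K (some y) a * z ^ xo L.G c v - K (some y) a * δ ≤
          EE p (fun ω => if g ω v = a ∧ b ω v = some y ∧ ¬ badE L (Bd2 Bd) g b ω v
            then 1 else 0) := by
        intro v
        have h2 := hP.low v a y (hz0.trans hzK)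
        have h3 := hP.bad v a y
        have h4 := hsplit v
        have h5 : K (some y) a * z ^ xo L.G c v ≤ K (some y) a * zK X ord K a y ^ xo L.G c v :=
          mul_le_mul_of_nonneg_left (pow_le_pow_left₀ hz0 hzK _) (hK _ _)
        linarith
      have h6 := sum_le_sum fun v (_ : v ∈ (univ : Finset V)) => h1 v
      refine le_trans ?_ h6
      rw [sum_sub_distrib, ← mul_sum, sum_const, card_univ, nsmul_eq_mul, hk]
      have h7 : (Fintype.card V : ℝ) * II x z ≤ ∑ v, z ^ xo L.G c v :=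
        II_mean hx hz0 hz1 _ (by rw [hk]; exact hxo)
      rw [hk] at h7
      have h8 := mul_le_mul_of_nonneg_left h7 (hK (some y) a)
      have h9 := mul_le_mul_of_nonneg_left htz (mul_nonneg (hK (some y) a) hk0.le)
      nlinarith [h8, h9]
  lA := fun a ha => by
    show _ - ∑ y, K (some y) a * t a y * k ≤ _
    have h1 : ∀ v, EE p (fun ω => if g ω v = a ∧ ¬ zev L (Bd2 Bd) g ω v then 1 else 0) ≤
        ∑ o, K o a := by
      intro v
      rw [← hP.gm v a]
      refine EE_mono hP.law fun ω => ?_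
      by_cases h1 : g ω v = a
      · rw [if_pos h1]
        split_ifs <;> norm_num
      · rw [if_neg h1, if_neg fun h => h1 h.1]
    have h2 := sum_le_sum fun v (_ : v ∈ (univ : Finset V)) => h1 v
    rw [sum_const, card_univ, nsmul_eq_mul, hk] at h2
    rw [← sum_mul]
    have h3 := mul_le_mul_of_nonneg_right (hlA a ha) hk0.le
    nlinarith [h2, h3]
  lB := hlB
  out := by
    have h2 := sum_le_sum fun v (_ : v ∈ (univ : Finset V)) => hP.zv v
    rw [sum_const, card_univ, nsmul_eq_mul, hk] at h2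
    have h3 := mul_le_mul_of_nonneg_right hδ hk0.le
    linarith

/-- The joint law without `T`. -/
def K1 (X : World ι) : Option ι → ι → ℝ
  | none, a => X.mu a
  | some _, _ => 0

theorem kok1 {X : World ι} (hs : 1 / 4 ≤ X.sA) : KOK X (K1 X) 100 where
  nonneg := fun o a => by
    cases o with
    | none => exact X.mu_nonneg a
    | some y => exact le_rfl
  one := by
    rw [Fintype.sum_option]
    show ∑ a, X.mu a + ∑ y : ι, ∑ a : ι, (0 : ℝ) = 1
    rw [X.mu_sum (by linarith)]
    simp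
  kA := fun o a ha => by
    cases o with
    | none => exact mu_of_not ha
    | some y => rfl
  kB := fun y a _ => rfl
  kF := fun y a _ => rfl
  ga := fun a => by
    rw [Fintype.sum_option]
    show X.mu a + ∑ y : ι, (0 : ℝ) ≤ 100 * X.w a
    rw [sum_const_zero, add_zero]
    have hw := X.pos a
    by_cases ha : a ∈ X.A
    · rw [World.mu_eq_div ha, div_le_iff₀ (by linarith)]
      nlinarith
    · rw [mu_of_not ha]
      positivity
  gy := fun y => by
    show ∑ a : ι, (0 : ℝ) ≤ 100 * X.w y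
    rw [sum_const_zero]
    have hw := X.pos y
    positivity
  gc := fun y a => by
    show (0 : ℝ) ≤ 100 * X.w a * ∑ a' : ι, (0 : ℝ)
    rw [sum_const_zero, mul_zero]

theorem kok_ker {X : World ι} {ord : ι → ℕ} {e x dl c gm : ℝ} (h : CertOK X ord e x dl c gm)
    (h1 : (1 - e) * X.sA ≤ 1) (hs : 1 / 4 ≤ X.sA) : KOK X (ker X ord e x dl c gm) 100 where
  nonneg := (ker_isK h h1).nonneg
  one := (ker_isK h h1).sum_one
  kA := fun o a ha => by
    cases o with
    | none => rw [ker_none, if_neg ha]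
    | some y => rw [ker_some, mu_of_not ha, mul_zero, zero_mul, ite_self]
  kB := fun y a hy => ker_not_act (fun h => h.1 hy) a
  kF := fun y a ha => (ker_isK h h1).adj y a ha.symm
  ga := fun a => by
    refine (ker_marg_le h a).trans ?_
    have hw := X.pos a
    have hc1 := h.c1
    have hc2 := h.c2
    by_cases ha : a ∈ X.A
    · have h5 : X.mu a ≤ 4 * X.w a := by
        rw [World.mu_eq_div ha, div_le_iff₀ (by linarith)]
        nlinarith
      have h6 := X.mu_nonneg a
      nlinarith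
    · rw [mu_of_not ha]
      nlinarith
  gy := fun y => by
    refine (ker_row_le h h1 y).trans ?_
    have hw := X.pos y
    have h5 := h.gm1
    nlinarith
  gc := fun y a => by
    have hw := X.pos a
    have hy0 := X.pos y
    by_cases hy : World.act X y
    · rw [ker_row (by linarith) hy]
      have hg := g0_nonneg h.S0 h1
      have hn : World.n X y ≤ 24 / 25 := hy.2
      rw [ker_some]
      split_ifs with h3
      · have h5 : X.mu a ≤ 4 * X.w a := by
          by_cases ha : a ∈ X.A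
          · rw [World.mu_eq_div ha, div_le_iff₀ (by linarith)]
            nlinarith
          · rw [mu_of_not ha]
            linarith
        have h6 : 0 ≤ g0 X ord e x dl c gm * X.w y := mul_nonneg hg hy0.le
        have h7 : g0 X ord e x dl c gm * X.w y * X.mu a ≤
            g0 X ord e x dl c gm * X.w y * (4 * X.w a) := mul_le_mul_of_nonneg_left h5 h6
        have h8 : g0 X ord e x dl c gm * X.w y * (1 / 25) ≤
            g0 X ord e x dl c gm * X.w y * (1 - World.n X y) :=
          mul_le_mul_of_nonneg_left (by linarith) h6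
        have h9 : 100 * X.w a * (g0 X ord e x dl c gm * X.w y * (1 / 25)) ≤
            100 * X.w a * (g0 X ord e x dl c gm * X.w y * (1 - World.n X y)) :=
          mul_le_mul_of_nonneg_left h8 (by linarith)
        calc g0 X ord e x dl c gm * X.mu a * X.w y
            = g0 X ord e x dl c gm * X.w y * X.mu a := by ring
          _ ≤ g0 X ord e x dl c gm * X.w y * (4 * X.w a) := h7
          _ = 100 * X.w a * (g0 X ord e x dl c gm * X.w y * (1 / 25)) := by ring
          _ ≤ _ := h9
      · have h6 : 0 ≤ g0 X ord e x dl c gm * X.w y := mul_nonneg hg hy0.le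
        exact mul_nonneg (by linarith) (mul_nonneg h6 (by linarith))
    · rw [ker_not_act hy]
      refine mul_nonneg (by linarith) (sum_nonneg fun a' _ => ?_)
      rw [ker_not_act hy]

/-- The threshold: some degree at most three occurs often. -/
theorem thr4 {V : Type} [Fintype V] {X : World ι} {L : Low V ι} {k e Q' : ℝ}
    (hH : Hubless X L) (hk : (Fintype.card V : ℝ) = k) (hk0 : 0 < k) (he : 20 * e ≤ 2 - Q')
    (hQ : Q' < 2) (htot : X.tot ≤ 1 + Q' + e) (hd : ∑ v, (L.d v : ℝ) ≤ 2 * (X.tot - 1 + e) * k)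
    (hs : 0 ≤ X.s + e) (hT : ThrW X L k e) : (1 - e) * X.tot ≤ 4 * (X.s + e) := by
  by_contra hcon
  have h1 : ∀ d : ℕ, d ≤ 3 → (#{v | L.d v = d} : ℝ) < e * k := by
    intro d hd3
    by_contra h2
    have h3 : (#{v | v ∉ L.E ∧ L.d v + L.j v = d}) = #{v | L.d v = d} := by
      congr 1
      ext v
      simp [hH.E0 v, hH.j0 v]
    have h4 := hT d (by rw [h3]; exact not_lt.1 h2)
    have h5 : (1 + (d : ℝ)) * (X.s + e) ≤ 4 * (X.s + e) :=
      mul_le_mul_of_nonneg_right (by
        have : (d : ℝ) ≤ 3 := by exact_mod_cast hd3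
        linarith) hs
    exact hcon (h4.trans h5)
  have h2 : ∀ v, (4 : ℝ) ≤ (L.d v : ℝ) + 4 * (if L.d v = 0 then 1 else 0) +
      4 * (if L.d v = 1 then 1 else 0) + 4 * (if L.d v = 2 then 1 else 0) +
      4 * (if L.d v = 3 then 1 else 0) := by
    intro v
    by_cases h4 : 4 ≤ L.d v
    · have : (4 : ℝ) ≤ L.d v := by exact_mod_cast h4
      have e0 : L.d v ≠ 0 := by omega
      have e1 : L.d v ≠ 1 := by omega
      have e2 : L.d v ≠ 2 := by omega
      have e3 : L.d v ≠ 3 := by omega
      rw [if_neg e0, if_neg e1, if_neg e2, if_neg e3]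
      linarith
    · have : L.d v = 0 ∨ L.d v = 1 ∨ L.d v = 2 ∨ L.d v = 3 := by omega
      rcases this with h | h | h | h <;> rw [h] <;> norm_num
  have h3 := sum_le_sum fun v (_ : v ∈ (univ : Finset V)) => h2 v
  rw [sum_const, card_univ, nsmul_eq_mul, hk] at h3
  simp only [sum_add_distrib, ← mul_sum] at h3
  have h4 : ∀ d : ℕ, (∑ v : V, (if L.d v = d then (1 : ℝ) else 0)) = (#{v | L.d v = d} : ℝ) := by
    intro d
    rw [card_filter]
    push_cast
    rfl
  have a0 := h1 0 (by norm_num)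
  have a1 := h1 1 (by norm_num)
  have a2 := h1 2 (by norm_num)
  have a3 := h1 3 (by norm_num)
  rw [h4 0, h4 1, h4 2, h4 3] at h3
  have h5 : 2 * (X.tot - 1 + e) * k ≤ 2 * (Q' + 2 * e) * k :=
    mul_le_mul_of_nonneg_right (by linarith) hk0.le
  have h6 : (4 - 2 * Q' - 20 * e) * k < 0 := by nlinarith
  have h7 : 0 ≤ (4 - 2 * Q' - 20 * e) * k := mul_nonneg (by linarith) hk0.le
  linarith

/-- **P6**: the assembly. -/
theorem asmP (hR : RuleP) : AsmP := by
  intro Q' hQ hC C D
  obtain ⟨e₀, d₀, he₀, hd₀, hcert⟩ := hC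
  obtain ⟨e, he⟩ : ∃ e, e = min (min e₀ (1 / 50)) ((2 - Q') / 20) := ⟨_, rfl⟩
  have e1 : e ≤ e₀ := by rw [he]; exact (min_le_left _ _).trans (min_le_left _ _)
  have e2 : e ≤ 1 / 50 := by rw [he]; exact (min_le_left _ _).trans (min_le_right _ _)
  have e3 : e ≤ (2 - Q') / 20 := by rw [he]; exact min_le_right _ _
  have e0 : 0 < e := by
    rw [he]
    exact lt_min (lt_min he₀ (by norm_num)) (by linarith)
  clear he
  refine ⟨e, e0, by linarith, fun M ζ hζ => ?_⟩
  obtain ⟨δ, hδ⟩ : ∃ δ, δ = min ζ d₀ := ⟨_, rfl⟩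
  have δ1 : δ ≤ ζ := by rw [hδ]; exact min_le_left _ _
  have δ2 : δ ≤ d₀ := by rw [hδ]; exact min_le_right _ _
  have δ0 : 0 < δ := by rw [hδ]; exact lt_min hζ hd₀
  clear hδ
  obtain ⟨B, ε, hε, hrule⟩ := hR D M 100 δ δ0
  refine ⟨B, ε, hε, ?_⟩
  intro V ι _ _ X L Bd k c hW hT htot hH hk hM hxo
  have hk0 := hW.k0
  have hs2 := hW.s2
  have hs1 := hW.s1
  have hsA : 1 / 4 ≤ X.sA := by linarith
  have hd : ∑ v, (L.d v : ℝ) ≤ 2 * (X.tot - 1 + e) * k := by
    have h1 := hW.deg
    have h2 : ∑ v, ((L.d v : ℝ) + 2 * L.j v) = ∑ v, (L.d v : ℝ) := by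
      refine sum_congr rfl fun v _ => ?_
      rw [hH.j0 v]
      simp
    rw [h2] at h1
    exact h1
  obtain ⟨x, hx⟩ : ∃ x, x = max 1 (2 * (X.tot - 2 + 2 * e)) := ⟨_, rfl⟩
  have hx1 : 1 ≤ x := by rw [hx]; exact le_max_left _ _
  have hxk : ∑ v, (xo L.G c v : ℝ) ≤ x * k := by
    have h1 : 2 * (X.tot - 2 + 2 * e) ≤ x := by rw [hx]; exact le_max_right _ _
    have h2 := mul_le_mul_of_nonneg_right h1 hk0.le
    nlinarith [hxo, hd, h2]
  have hthr : (1 - e) * X.tot ≤ 4 * (X.s + e) :=
    thr4 hH hk hk0 (by linarith) hQ htot hd (by linarith) hT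
  obtain ⟨ord, hinj, hord⟩ := exists_ord (World.n X)
  by_cases hcase : (1 - e) * X.sA < 1
  · obtain ⟨cc, gm, hok⟩ := hcert ι X ord e x δ e0 e1 δ0.le δ2 (by linarith [hW.tot1]) htot hthr hs2
      hcase hx hinj hord
    have hK := kok_ker hok hcase.le hsA
    have hisK := ker_isK hok hcase.le
    obtain ⟨Om, _, p, g, b, Bn, hP⟩ := hrule V ι X L Bd c ord _ hW.dK hM hH hW.bsymm hW.bsmall
      hinj hK
    refine ⟨Om, _, p, g, b, Bn, _, scheme_of_out hP hH hk hk0 hK.nonneg hK.kB δ1 hx1 hxk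
      (tS X ord cc gm x δ) (fun a y => tS_nonneg a y) ?_ ?_ ?_⟩
    · intro a y
      by_cases h : II x (zS X ord cc gm a y) - δ ≤ 0
      · left
        unfold tS
        exact max_eq_left h
      · right
        have h1 : zS X ord cc gm a y ≤ zP X.F (fun y' y => ord y' < ord y)
            (ker X ord e x δ cc gm) a y := zS_le_zP hok hcase.le a y
        refine ⟨zS X ord cc gm a y, le_max_left _ _, h1.trans (zP_le_one hisK a y), ?_, ?_⟩
        · rw [zK_eq_zP hisK]
          exact h1
        · unfold tS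
          rw [max_eq_right (not_le.1 h).le]
    · intro a ha
      exact (ker_load ha).le
    · intro y hy
      have ht1 : ∀ a, tS X ord cc gm x δ a y ≤ 1 := by
        intro a
        unfold tS
        refine max_le zero_le_one ?_
        have h3 : 0 ≤ zS X ord cc gm a y := le_max_left _ _
        have h2 : II x (zS X ord cc gm a y) ≤ 1 := II_le_one hx1 h3
          ((zS_le_zP hok hcase.le a y).trans (zP_le_one hisK a y))
        linarith
      calc ∑ a ∈ X.A, ker X ord e x δ cc gm (some y) a * tS X ord cc gm x δ a y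
          ≤ ∑ a ∈ X.A, ker X ord e x δ cc gm (some y) a :=
            sum_le_sum fun a _ => mul_le_of_le_one_right (hK.nonneg _ _) (ht1 a)
        _ ≤ ∑ a, ker X ord e x δ cc gm (some y) a :=
            sum_le_sum_of_subset_of_nonneg (subset_univ _) fun a _ _ => hK.nonneg _ _
        _ ≤ gm * X.w y := ker_row_le hok hcase.le y
        _ ≤ (1 - e) * X.w y :=
            mul_le_mul_of_nonneg_right (by linarith [hok.gm1]) (X.pos y).le
  · have hK := kok1 (X := X) hsA
    obtain ⟨Om, _, p, g, b, Bn, hP⟩ := hrule V ι X L Bd c ord _ hW.dK hM hH hW.bsymm hW.bsmall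
      hinj hK
    refine ⟨Om, _, p, g, b, Bn, _, scheme_of_out hP hH hk hk0 hK.nonneg hK.kB δ1 hx1 hxk
      (fun _ _ => 0) (fun a y => le_rfl) (fun a y => Or.inl rfl) ?_ ?_⟩
    · intro a ha
      rw [Fintype.sum_option]
      show X.mu a + ∑ y : ι, (0 : ℝ) - ∑ y : ι, (0 : ℝ) * 0 ≤ (1 - e) * X.w a
      simp only [sum_const_zero, mul_zero, add_zero, sub_zero]
      rw [World.mu_eq_div ha, div_le_iff₀ (by linarith)]
      have h1 := not_lt.1 hcase
      have h2 := X.pos a
      nlinarith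
    · intro y _
      show ∑ a ∈ X.A, (0 : ℝ) * 0 ≤ (1 - e) * X.w y
      simp only [mul_zero, sum_const_zero]
      exact mul_nonneg (by linarith) (X.pos y).le

end

end Pool.Agent.T6P
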