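import Pool.Agent.T6P.Defs

/-!
# What the rule of the piece scheme delivers (MP_c6effb_co)
-/

set_option autoImplicit false

open Finset

namespace Pool.Agent.T6P

open Pool.Agent.T6A

noncomputable section

open Classical in
/-- `1 - (mass of N(y) under the law of g) - (mass of the y' < y, y' ~ y, y' not adjacent to a, with
position outside N(y))`. -/
def zK {ι : Type} [Fintype ι] (X : World ι) (ord : ι → ℕ) (K : Option ι → ι → ℝ) (a y : ι) : ℝ :=
  1 - ∑ a' ∈ univ.filter (fun a' => X.F.Adj a' y), ∑ o, K o a' -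
    ∑ y' ∈ univ.filter (fun y' => ord y' < ord y ∧ X.F.Adj y y' ∧ ¬ X.F.Adj a y'),
      ∑ a' ∈ univ.filter (fun a' => ¬ X.F.Adj a' y), K (some y') a'

/-- Admissible joint laws of the cluster of a piece and the position of one of its vertices. -/
structure KOK {ι : Type} [Fintype ι] (X : World ι) (K : Option ι → ι → ℝ) (R : ℝ) : Prop where
  nonneg : ∀ o a, 0 ≤ K o a
  one : ∑ o, ∑ a, K o a = 1
  kA : ∀ o a, a ∉ X.A → K o a = 0
  kB : ∀ y a, y ∈ X.A → K (some y) a = 0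
  kF : ∀ y a, X.F.Adj a y → K (some y) a = 0
  ga : ∀ a, ∑ o, K o a ≤ R * X.w a
  gy : ∀ y, ∑ a, K (some y) a ≤ R * X.w y
  gc : ∀ y a, K (some y) a ≤ R * X.w a * ∑ a', K (some y) a'

open Classical in
/-- What the rule delivers for the joint law `K`. -/
structure PieceOut {V ι Om : Type} [Fintype V] [Fintype ι] [Fintype Om] (X : World ι) (L : Low V ι)
    (Bd : ι → ι → Prop) (c : V → V) (ord : ι → ℕ) (K : Option ι → ι → ℝ) (B : ℕ) (δ : ℝ)
    (p : V → Om → ℝ) (g : (V → Om) → V → ι) (b : (V → Om) → V → Option ι) (Bn : V → Finset V) :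
    Prop where
  law : IsLaw p
  loc : ∀ v, DepOn (fun ω => (g ω v, b ω v)) (Bn v)
  ov : ∀ v, #{u | ¬ Disjoint (Bn v) (Bn u)} ≤ B
  mem : ∀ ω v y, b ω v = some y → y ∉ X.A
  st : ∀ ω v y, b ω v = some y → ∀ u, L.G.Adj v u → ¬ X.F.Adj y (g ω u)
  tt : ∀ ω v y u y', b ω v = some y → b ω u = some y' → L.G.Adj v u → ¬ X.F.Adj y y'
  gm : ∀ v a, EE p (fun ω => if g ω v = a then 1 else 0) = ∑ o, K o a
  low : ∀ v a y, 0 ≤ zK X ord K a y → K (some y) a * zK X ord K a y ^ xo L.G c v ≤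
    EE p (fun ω => if g ω v = a ∧ b ω v = some y then 1 else 0)
  bad : ∀ v a y, EE p (fun ω => if g ω v = a ∧ b ω v = some y ∧ badE L (Bd2 Bd) g b ω v then 1
    else 0) ≤ K (some y) a * δ
  zv : ∀ v, EE p (fun ω => if zev L (Bd2 Bd) g ω v then 1 else 0) ≤ δ

open Classical in
/-- **RULE** for the piece scheme (PLaw + PBad). -/
def RuleP : Prop := ∀ (D M : ℕ) (R δ : ℝ), 0 < δ → ∃ (B : ℕ) (ε : ℝ), 0 < ε ∧
  ∀ (V ι : Type) [Fintype V] [Fintype ι] (X : World ι) (L : Low V ι) (Bd : ι → ι → Prop)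
    (c : V → V) (ord : ι → ℕ) (K : Option ι → ι → ℝ),
    (∀ v, L.d v ≤ D) → (∀ v, #{u | c u = v} ≤ M) → Hubless X L → (∀ i i', Bd i i' → Bd i' i) →
    (∀ i, ∑ i' ∈ univ.filter (fun i' => Bd i i'), X.w i' ≤ ε) → Function.Injective ord →
    KOK X K R →
    ∃ (Om : Type) (_ : Fintype Om) (p : V → Om → ℝ) (g : (V → Om) → V → ι)
      (b : (V → Om) → V → Option ι) (Bn : V → Finset V), PieceOut X L Bd c ord K B δ p g b Bn

end

end Pool.Agent.T6P
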