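import Pool.Agent.T6P.Parts2
import Pool.Agent.T6A.Low4

/-!
# The budget of the pieces with hubs (MP_c6effb_co)

`Qh` = hubs, `Gi` = giants, `Ex` = exceptional vertices. The low vertices (outside `Qh`) are
divided into pieces of bounded size; `x v` = number of low neighbours of `v` in other pieces. A
vertex with a giant neighbour is charged one more unit. The sum of all charges over the low vertices
is at most `∑ (dLow + 2 jHub) - 2 k` up to small terms.
-/

set_option autoImplicit false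
set_option linter.unusedSectionVars false

open Finset

namespace Pool.Agent.T6P

open Pool.Agent.T6A

/-- The graph of the edges outside `Qh`. -/
def lowG {V : Type} (G : SimpleGraph V) (Qh : Finset V) : SimpleGraph V where
  Adj v u := G.Adj v u ∧ v ∉ Qh ∧ u ∉ Qh
  symm := ⟨fun _ _ h => ⟨h.1.symm, h.2.2, h.2.1⟩⟩
  loopless := ⟨fun v h => G.loopless.irrefl v h.1⟩

open Classical in
/-- Number of low neighbours of `v` in other pieces. -/
noncomputable def xOut {V : Type} [Fintype V] (G : SimpleGraph V) (Qh : Finset V) (c : V → V)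
    (v : V) : ℕ := #{u | G.Adj v u ∧ u ∉ Qh ∧ c u ≠ c v}

open Classical in
/-- **Budget**, abstract form. -/
theorem budget (K : ℕ) (ε : ℝ) (hε : 0 < ε) (hε1 : ε ≤ 1) : ∃ M : ℕ, ∀ (V : Type) [Fintype V]
    (G : SimpleGraph V) (Qh Gi Ex : Finset V) (B : ℝ),
    (∀ v, v ∉ Qh → (univ.filter fun u => G.Adj v u).card ≤ K) →
    (∀ v, v ∉ Qh → v ∉ Ex → 2 ≤ dLow G Qh v + jHub G Gi v) →
    ∑ v ∈ univ.filter (fun v => v ∉ Qh), ((dLow G Qh v : ℝ) + 2 * jHub G Gi v) ≤ B →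
    ∃ c : V → V, (∀ x, #{v | c v = x} ≤ M) ∧
      ∑ v ∈ univ.filter (fun v => v ∉ Qh), ((xOut G Qh c v : ℝ) +
        if jHub G Gi v = 0 then 0 else 1) ≤
        B - 2 * Fintype.card V + 2 * #Qh + 2 * ε * Fintype.card V + 2 * #Ex := by
  obtain ⟨k₁, hk₁⟩ := parts_all ε hε
  obtain ⟨M, hM⟩ := hk₁ K
  refine ⟨M, ?_⟩
  intro V _ G Qh Gi Ex B hdeg h2 hB
  obtain ⟨c, S, hfib, hS1, hS2, -, hS3⟩ := hM V (lowG G Qh) (fun v => by
    by_cases hv : v ∈ Qh
    · have h0 : (lowG G Qh).neighborSet v = ∅ := by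
        ext u
        simp only [SimpleGraph.mem_neighborSet, Set.mem_empty_iff_false, iff_false]
        exact fun h => h.2.1 hv
      rw [h0]
      simp
    · refine le_trans ?_ (hdeg v hv)
      rw [← Set.ncard_coe_finset]
      refine Set.ncard_le_ncard ?_ (Set.toFinite _)
      intro u hu
      simp only [coe_filter, mem_univ, true_and, Set.mem_ofPred_eq]
      exact hu.1)
  refine ⟨c, hfib, ?_⟩
  obtain ⟨L, hL⟩ : ∃ L : Finset V, ∀ v, v ∈ L ↔ v ∉ Qh :=
    ⟨univ.filter fun v => v ∉ Qh, fun v => by simp⟩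
  have hLe : (univ.filter fun v => v ∉ Qh) = L := by
    ext v
    simp [hL]
  rw [hLe] at hB ⊢
  have hx : ∀ v ∈ L, #{u | (lowG G Qh).Adj v u ∧ c u ≠ c v} = xOut G Qh c v := by
    intro v hv
    unfold xOut
    congr 1
    ext u
    simp only [mem_filter, mem_univ, true_and, lowG]
    have := (hL v).1 hv
    tauto
  have hd : ∀ v ∈ L, #{u | (lowG G Qh).Adj v u} = dLow G Qh v := by
    intro v hv
    unfold dLow
    congr 1
    ext u
    simp only [mem_filter, mem_univ, true_and, lowG]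
    have := (hL v).1 hv
    tauto
  have hx0 : ∀ v, v ∉ L → #{u | (lowG G Qh).Adj v u ∧ c u ≠ c v} = 0 := by
    intro v hv
    rw [card_eq_zero, filter_eq_empty_iff]
    intro u _ h
    exact hv ((hL v).2 h.1.2.1)
  have hd0 : ∀ v, v ∉ L → #{u | (lowG G Qh).Adj v u} = 0 := by
    intro v hv
    rw [card_eq_zero, filter_eq_empty_iff]
    intro u _ h
    exact hv ((hL v).2 h.2.1)
  -- the large components
  have h3 : ∑ v ∈ L ∩ S, (xOut G Qh c v : ℝ) + 2 * (1 - ε) * #(L ∩ S) ≤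
      ∑ v ∈ L ∩ S, (dLow G Qh v : ℝ) := by
    have ha : ∑ v ∈ S, #{u | (lowG G Qh).Adj v u ∧ c u ≠ c v} = ∑ v ∈ L ∩ S, xOut G Qh c v := by
      rw [← sum_subset (inter_subset_right : L ∩ S ⊆ S) (fun v hv hv' => hx0 v fun h =>
        hv' (mem_inter.2 ⟨h, hv⟩))]
      exact sum_congr rfl fun v hv => hx v (mem_inter.1 hv).1
    have hb : ∑ v ∈ S, #{u | (lowG G Qh).Adj v u} = ∑ v ∈ L ∩ S, dLow G Qh v := by
      rw [← sum_subset (inter_subset_right : L ∩ S ⊆ S) (fun v hv hv' => hd0 v fun h =>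
        hv' (mem_inter.2 ⟨h, hv⟩))]
      exact sum_congr rfl fun v hv => hd v (mem_inter.1 hv).1
    rw [ha, hb] at hS3
    push_cast at hS3
    have hcc : ((L ∩ S).card : ℝ) ≤ #S := by exact_mod_cast card_le_card inter_subset_right
    have h1 : 0 ≤ 1 - ε := by linarith
    nlinarith
  have hj : ∀ v, (if jHub G Gi v = 0 then (0 : ℝ) else 1) ≤ jHub G Gi v := by
    intro v
    split_ifs with h
    · exact Nat.cast_nonneg _
    · exact_mod_cast Nat.one_le_iff_ne_zero.2 h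
  have hA : ∑ v ∈ L ∩ S, ((xOut G Qh c v : ℝ) + if jHub G Gi v = 0 then 0 else 1) ≤
      ∑ v ∈ L ∩ S, ((dLow G Qh v : ℝ) + 2 * jHub G Gi v - 2) + 2 * ε * #(L ∩ S) := by
    rw [sum_sub_distrib, sum_add_distrib, sum_add_distrib, sum_const, nsmul_eq_mul]
    have h4 : ∑ v ∈ L ∩ S, (if jHub G Gi v = 0 then (0 : ℝ) else 1) ≤
        ∑ v ∈ L ∩ S, (2 * jHub G Gi v : ℝ) := by
      refine sum_le_sum fun v _ => (hj v).trans ?_
      have : (0 : ℝ) ≤ jHub G Gi v := Nat.cast_nonneg _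
      linarith
    linarith
  have hB' : ∑ v ∈ L \ S, ((xOut G Qh c v : ℝ) + if jHub G Gi v = 0 then 0 else 1) ≤
      ∑ v ∈ L \ S, ((dLow G Qh v : ℝ) + 2 * jHub G Gi v - 2) + 2 * #Ex := by
    have h5 : ∀ v ∈ L \ S, ((xOut G Qh c v : ℝ) + if jHub G Gi v = 0 then 0 else 1) ≤
        ((dLow G Qh v : ℝ) + 2 * jHub G Gi v - 2) + if v ∈ Ex then 2 else 0 := by
      intro v hv
      have hvL := (mem_sdiff.1 hv).1
      have hx1 : xOut G Qh c v = 0 := by
        rw [← hx v hvL, card_eq_zero, filter_eq_empty_iff]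
        intro u _ h
        exact h.2 (hS2 v (mem_sdiff.1 hv).2 u h.1)
      rw [hx1, Nat.cast_zero, zero_add]
      have hj' := hj v
      have hj0 : (0 : ℝ) ≤ jHub G Gi v := Nat.cast_nonneg _
      have hd0' : (0 : ℝ) ≤ dLow G Qh v := Nat.cast_nonneg _
      by_cases hE : v ∈ Ex
      · rw [if_pos hE]
        linarith
      · rw [if_neg hE]
        have h6 := h2 v ((hL v).1 hvL) hE
        have h7 : (2 : ℝ) ≤ dLow G Qh v + jHub G Gi v := by exact_mod_cast h6
        linarith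
    refine (sum_le_sum h5).trans ?_
    rw [sum_add_distrib]
    have h8 : ∑ v ∈ L \ S, (if v ∈ Ex then (2 : ℝ) else 0) ≤ 2 * #Ex := by
      rw [← sum_filter, sum_const, nsmul_eq_mul, mul_comm]
      have : (#{v ∈ L \ S | v ∈ Ex} : ℝ) ≤ #Ex := by
        exact_mod_cast card_le_card fun v hv => (mem_filter.1 hv).2
      linarith
    linarith
  have hsplit : ∀ f : V → ℝ, ∑ v ∈ L, f v = ∑ v ∈ L ∩ S, f v + ∑ v ∈ L \ S, f v := by
    intro f
    rw [add_comm, ← sum_sdiff (inter_subset_left : L ∩ S ⊆ L), sdiff_inter_self_left]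
  have hLc : (#L : ℝ) = Fintype.card V - #Qh := by
    have h9 : L = univ \ Qh := by
      ext v
      simp [hL]
    rw [h9, card_sdiff_of_subset (subset_univ Qh), card_univ, Nat.cast_sub (card_le_univ Qh)]
  have hLS : (#(L ∩ S) : ℝ) ≤ Fintype.card V := by exact_mod_cast card_le_univ _
  have hfin : ∑ v ∈ L, ((dLow G Qh v : ℝ) + 2 * jHub G Gi v - 2) =
      ∑ v ∈ L, ((dLow G Qh v : ℝ) + 2 * jHub G Gi v) - 2 * #L := by
    rw [sum_sub_distrib, sum_const, nsmul_eq_mul, mul_comm (#L : ℝ) 2]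
  rw [hsplit] at hfin
  have h10 : 2 * ε * #(L ∩ S) ≤ 2 * ε * Fintype.card V := by
    have : 0 ≤ 2 * ε := by linarith
    exact mul_le_mul_of_nonneg_left hLS this
  rw [hsplit]
  linarith

open Classical in
/-- A low vertex which is not exceptional has at least two low or giant neighbours. -/
theorem two_le_of_pre {Q : ℝ} {C K M : ℕ} {δ₁ δ : ℝ} {V : Type} [Fintype V] {G : SimpleGraph V}
    (D : PreData Q C K M δ₁ δ G)
    (hs : 1 + δ + ((letI := D.ft; ∑ i ∈ D.A, D.w i) + δ) < (letI := D.ft; ∑ i, D.w i))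
    (h0 : 0 ≤ (letI := D.ft; ∑ i ∈ D.A, D.w i) + δ) :
    ∀ v, v ∉ D.Qh → v ∉ D.Ex → 2 ≤ dLow G D.Qh v + jHub G D.Gi v := by
  intro v hv hE
  by_contra hcon
  have h1 := D.degBig v hv hE
  have h2 : (dLow G D.Qh v : ℝ) + jHub G D.Gi v ≤ 1 := by
    have : dLow G D.Qh v + jHub G D.Gi v ≤ 1 := by omega
    exact_mod_cast this
  have h3 := mul_le_mul_of_nonneg_right h2 h0
  linarith

open Classical in
/-- **Budget** for the low problem, version 4. -/
theorem budget_pre (K : ℕ) (hK : 0 < K) (ε : ℝ) (hε : 0 < ε) (hε1 : ε ≤ 1) : ∃ M' : ℕ,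
    ∀ (Q : ℝ) (C M : ℕ) (δ₁ δ : ℝ) (V : Type) [Fintype V] (G : SimpleGraph V)
      (D : PreData Q C K M δ₁ δ G),
    1 + δ + ((letI := D.ft; ∑ i ∈ D.A, D.w i) + δ) < (letI := D.ft; ∑ i, D.w i) →
    0 ≤ (letI := D.ft; ∑ i ∈ D.A, D.w i) + δ →
    ∃ c : V → V, (∀ x, #{v | c v = x} ≤ M') ∧
      ∑ v ∈ univ.filter (fun v => v ∉ D.Qh), ((xOut G D.Qh c v : ℝ) +
        if jHub G D.Gi v = 0 then 0 else 1) ≤
        (2 * ((letI := D.ft; ∑ i, D.w i) - 2) + 2 * δ + 2 * ε + 2 * δ₁ + 4 * C / K) *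
          Fintype.card V := by
  obtain ⟨M', hM'⟩ := budget K ε hε hε1
  refine ⟨M', ?_⟩
  intro Q C M δ₁ δ V _ G D hs h0
  obtain ⟨c, hc1, hc2⟩ := hM' V G D.Qh D.Gi D.Ex _ D.deg (two_le_of_pre D hs h0)
    (D.budget (univ.filter fun v => v ∉ D.Qh) fun v hv => (mem_filter.1 hv).2)
  refine ⟨c, hc1, hc2.trans ?_⟩
  have h1 := D.exCard
  have h2 : (#D.Qh : ℝ) ≤ 2 * C / K * Fintype.card V := by
    have hK' : (0 : ℝ) < K := by exact_mod_cast hK
    rw [div_mul_eq_mul_div, le_div_iff₀ hK']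
    exact D.hubs
  have h3 : 2 * (2 * (C : ℝ) / K * Fintype.card V) = 4 * C / K * Fintype.card V := by ring
  nlinarith

end Pool.Agent.T6P
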