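import Pool.Agent.T6P.CertPoly

/-!
# The certificate of the piece scheme: sums over blocked pairs (MP_c6effb_co)

`pair_sum2`, `pair_sum1`: every blocked pair of clusters outside `A` is counted once (order `lt`), the
factor `(1 - n - n') ^ 2` resp. `1 - n - n'` is divided between the two clusters.
-/

set_option autoImplicit false

open Finset Classical

namespace Pool.Agent.T6P

/-- `(1 - c n)_+` -/
noncomputable def zc (c n : ℝ) : ℝ := max 0 (1 - c * n)

/-- `(1 - 2 n)_+` -/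
noncomputable def uh (n : ℝ) : ℝ := max 0 (1 - 2 * n)

/-- value of a cluster -/
noncomputable def Fz (X c κ n : ℝ) : ℝ :=
  (1 - n) * (Iz X (zc c n) - κ * Jz X (zc c n) * uh n ^ 2)

theorem uh_nonneg (n : ℝ) : 0 ≤ uh n := le_max_left _ _

theorem pair_gen {ι : Type*} (Y : Finset ι) (F lt : ι → ι → Prop)
    (hsym : ∀ y y', F y y' → F y' y) (hasym : ∀ y y', lt y y' → ¬ lt y' y)
    (w α r : ι → ℝ) (hw : ∀ y ∈ Y, 0 ≤ w y) (hα : ∀ y ∈ Y, 0 ≤ α y)
    (hrow : ∀ y ∈ Y, ∑ y' ∈ Y.filter (F y), w y' ≤ r y) (f : ι → ι → ℝ)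
    (hf : ∀ y ∈ Y, ∀ y' ∈ Y, F y y' → lt y' y → f y y' ≤ (α y + α y') / 2) :
    ∑ y ∈ Y, ∑ y' ∈ Y.filter (fun y' => F y y' ∧ lt y' y), w y * w y' * f y y' ≤
      1 / 2 * ∑ y ∈ Y, w y * α y * r y := by
  have h1 : ∑ y ∈ Y, ∑ y' ∈ Y.filter (fun y' => F y y' ∧ lt y' y), w y * w y' * f y y' ≤
      ∑ y ∈ Y, ∑ y' ∈ Y, ((if F y y' ∧ lt y' y then w y * w y' * α y / 2 else 0)
        + (if F y y' ∧ lt y' y then w y * w y' * α y' / 2 else 0)) := by
    refine sum_le_sum fun y hy => ?_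
    rw [sum_filter]
    refine sum_le_sum fun y' hy' => ?_
    split_ifs with h
    · have h2 := mul_le_mul_of_nonneg_left (hf y hy y' hy' h.1 h.2)
        (mul_nonneg (hw y hy) (hw y' hy'))
      linarith
    · simp
  refine h1.trans ?_
  simp only [sum_add_distrib]
  have h2 : ∑ y ∈ Y, ∑ y' ∈ Y, (if F y y' ∧ lt y' y then w y * w y' * α y' / 2 else 0) =
      ∑ y ∈ Y, ∑ y' ∈ Y, (if F y y' ∧ lt y y' then w y * w y' * α y / 2 else 0) := by
    rw [sum_comm]
    refine sum_congr rfl fun y _ => sum_congr rfl fun y' _ => ?_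
    have h3 : (F y' y ∧ lt y y') ↔ (F y y' ∧ lt y y') :=
      and_congr_left fun _ => ⟨hsym _ _, hsym _ _⟩
    simp only [h3]
    split_ifs
    · ring
    · rfl
  rw [h2, ← sum_add_distrib, mul_sum]
  refine sum_le_sum fun y hy => ?_
  rw [← sum_add_distrib]
  have h3 : ∑ y' ∈ Y, ((if F y y' ∧ lt y' y then w y * w y' * α y / 2 else 0)
      + (if F y y' ∧ lt y y' then w y * w y' * α y / 2 else 0)) ≤
      ∑ y' ∈ Y, (if F y y' then w y * α y / 2 * w y' else 0) := by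
    refine sum_le_sum fun y' hy' => ?_
    have hp : 0 ≤ w y * w y' * α y / 2 := by
      have := mul_nonneg (mul_nonneg (hw y hy) (hw y' hy')) (hα y hy)
      linarith
    by_cases hF : F y y'
    · by_cases hl : lt y' y
      · have hl' : ¬ lt y y' := hasym _ _ hl
        simp only [hF, hl, hl', and_self, and_false, if_true, if_false, add_zero]
        exact le_of_eq (by ring)
      · by_cases hl' : lt y y'
        · simp only [hF, hl, hl', and_self, and_false, if_true, if_false, zero_add]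
          exact le_of_eq (by ring)
        · simp only [hF, hl, hl', and_false, if_true, if_false, add_zero]
          calc (0 : ℝ) ≤ w y * w y' * α y / 2 := hp
            _ = _ := by ring
    · simp [hF]
  refine h3.trans ?_
  rw [← sum_filter, ← mul_sum]
  have h4 := mul_le_mul_of_nonneg_left (hrow y hy)
    (by have := mul_nonneg (hw y hy) (hα y hy); linarith : 0 ≤ w y * α y / 2)
  linarith

theorem pair_sum2 {ι : Type*} (Y : Finset ι) (F lt : ι → ι → Prop)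
    (hsym : ∀ y y', F y y' → F y' y) (hasym : ∀ y y', lt y y' → ¬ lt y' y)
    (w n J : ι → ℝ) (hw : ∀ y ∈ Y, 0 ≤ w y) (hJ0 : ∀ y ∈ Y, 0 ≤ J y)
    (hJ : ∀ y ∈ Y, ∀ y' ∈ Y, lt y' y → J y ≤ J y')
    (hn : ∀ y ∈ Y, ∀ y' ∈ Y, F y y' → n y + n y' ≤ 1) (s : ℝ)
    (hrow : ∀ y ∈ Y, ∑ y' ∈ Y.filter (F y), w y' ≤ s * (1 - n y)) :
    ∑ y ∈ Y, w y * J y * ∑ y' ∈ Y.filter (fun y' => F y y' ∧ lt y' y),
        w y' * (1 - n y - n y') ^ 2 ≤
      s / 2 * ∑ y ∈ Y, w y * (1 - n y) * J y * uh (n y) ^ 2 := by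
  have h := pair_gen Y F lt hsym hasym w (fun y => J y * uh (n y) ^ 2) (fun y => s * (1 - n y))
    hw (fun y hy => mul_nonneg (hJ0 y hy) (sq_nonneg _)) hrow
    (fun y y' => J y * (1 - n y - n y') ^ 2) (by
      intro y hy y' hy' hF hl
      have h1 : 0 ≤ 1 - n y - n y' := by have := hn y hy y' hy' hF; linarith
      have h2 : 1 - 2 * n y ≤ uh (n y) := le_max_right _ _
      have h3 : 1 - 2 * n y' ≤ uh (n y') := le_max_right _ _
      have h4 : (1 - n y - n y') ^ 2 ≤ ((uh (n y) + uh (n y')) / 2) ^ 2 :=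
        pow_le_pow_left₀ h1 (by linarith) 2
      have h5 : ((uh (n y) + uh (n y')) / 2) ^ 2 ≤ (uh (n y) ^ 2 + uh (n y') ^ 2) / 2 := by
        nlinarith [sq_nonneg (uh (n y) - uh (n y'))]
      have h6 := mul_le_mul_of_nonneg_left (h4.trans h5) (hJ0 y hy)
      have h7 := mul_le_mul_of_nonneg_right (hJ y hy y' hy' hl) (sq_nonneg (uh (n y')))

      linarith)
  have h1 : ∑ y ∈ Y, w y * J y * ∑ y' ∈ Y.filter (fun y' => F y y' ∧ lt y' y),
        w y' * (1 - n y - n y') ^ 2 =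
      ∑ y ∈ Y, ∑ y' ∈ Y.filter (fun y' => F y y' ∧ lt y' y),
        w y * w y' * (J y * (1 - n y - n y') ^ 2) := by
    refine sum_congr rfl fun y _ => ?_
    rw [mul_sum]
    exact sum_congr rfl fun y' _ => by ring
  have h2 : 1 / 2 * ∑ y ∈ Y, w y * (J y * uh (n y) ^ 2) * (s * (1 - n y)) =
      s / 2 * ∑ y ∈ Y, w y * (1 - n y) * J y * uh (n y) ^ 2 := by
    rw [mul_sum, mul_sum]
    exact sum_congr rfl fun y _ => by ring
  rw [h1, ← h2]
  exact h

theorem pair_sum1 {ι : Type*} (Y : Finset ι) (F lt : ι → ι → Prop)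
    (hsym : ∀ y y', F y y' → F y' y) (hasym : ∀ y y', lt y y' → ¬ lt y' y)
    (w n J : ι → ℝ) (hw : ∀ y ∈ Y, 0 ≤ w y) (hJ0 : ∀ y ∈ Y, 0 ≤ J y)
    (hJ : ∀ y ∈ Y, ∀ y' ∈ Y, lt y' y → J y ≤ J y') (s : ℝ)
    (hrow : ∀ y ∈ Y, ∑ y' ∈ Y.filter (F y), w y' ≤ s * (1 - n y)) :
    ∑ y ∈ Y, w y * J y * ∑ y' ∈ Y.filter (fun y' => F y y' ∧ lt y' y),
        w y' * (1 - n y - n y') ≤
      s / 2 * ∑ y ∈ Y, w y * (1 - n y) * J y * uh (n y) := by
  have h := pair_gen Y F lt hsym hasym w (fun y => J y * uh (n y)) (fun y => s * (1 - n y))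
    hw (fun y hy => mul_nonneg (hJ0 y hy) (uh_nonneg _)) hrow
    (fun y y' => J y * (1 - n y - n y')) (by
      intro y hy y' hy' hF hl
      have h2 : 1 - 2 * n y ≤ uh (n y) := le_max_right _ _
      have h3 : 1 - 2 * n y' ≤ uh (n y') := le_max_right _ _
      have h4 : 1 - n y - n y' ≤ (uh (n y) + uh (n y')) / 2 := by linarith
      have h6 := mul_le_mul_of_nonneg_left h4 (hJ0 y hy)
      have h7 := mul_le_mul_of_nonneg_right (hJ y hy y' hy' hl) (uh_nonneg (n y'))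

      linarith)
  have h1 : ∑ y ∈ Y, w y * J y * ∑ y' ∈ Y.filter (fun y' => F y y' ∧ lt y' y),
        w y' * (1 - n y - n y') =
      ∑ y ∈ Y, ∑ y' ∈ Y.filter (fun y' => F y y' ∧ lt y' y),
        w y * w y' * (J y * (1 - n y - n y')) := by
    refine sum_congr rfl fun y _ => ?_
    rw [mul_sum]
    exact sum_congr rfl fun y' _ => by ring
  have h2 : 1 / 2 * ∑ y ∈ Y, w y * (J y * uh (n y)) * (s * (1 - n y)) =
      s / 2 * ∑ y ∈ Y, w y * (1 - n y) * J y * uh (n y) := by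
    rw [mul_sum, mul_sum]
    exact sum_congr rfl fun y _ => by ring
  rw [h1, ← h2]
  exact h

end Pool.Agent.T6P
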