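import Pool.Agent.T6P.CertBoxes
import Pool.Agent.T6P.CertPair

/-!
# The certificate of the piece scheme: sums over the clusters (MP_c6effb_co)

`cert_sum`: the three inequalities for every distribution of `n` with mean at most `s / W`.
-/

set_option autoImplicit false

open Finset Classical

namespace Pool.Agent.T6P

theorem zc_eq {c n : ℝ} (h : c * n ≤ 1) : zc c n = 1 - c * n := max_eq_right (by linarith)

theorem zc_zero {c n : ℝ} (h : 1 ≤ c * n) : zc c n = 0 := max_eq_left (by linarith)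

theorem uh_eq {n : ℝ} (h : n ≤ 1 / 2) : uh n = 1 - 2 * n := max_eq_right (by linarith)

theorem uh_zero {n : ℝ} (h : 1 / 2 ≤ n) : uh n = 0 := max_eq_left (by linarith)

theorem Iz_zero (X : ℝ) : Iz X 0 = 0 := by unfold Iz; ring

theorem WF_zero (X g q s : ℝ) : WF X g q s 0 1 1 = (1 + q - s) - g / 2 * s * X := by
  unfold WF Iz Jz
  ring

theorem WF_end (X g q s n : ℝ) : WF X g q s n 0 0 = 0 := by
  unfold WF Iz
  ring

section

variable {X c g t q s : ℝ}

/-- Condition (a) for all `n`. -/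
theorem Da_all (hc0 : 0 < c) (hc : c ≤ 2) (hg : 0 ≤ g) (hs : 0 ≤ s) (hW : 0 < 1 + q - s)
    (hF : 0 ≤ WF X g q s 0 1 1)
    (h0 : ∀ n, 0 ≤ n → n ≤ 1 / 2 → 0 ≤ Da X g t q s n (1 - c * n) (1 - 2 * n))
    (h1 : ∀ n, 1 / 2 ≤ n → n ≤ 1 / c → 0 ≤ Da X g t q s n (1 - c * n) 0) :
    0 ≤ g * WF X g q s 0 1 1 - t * (1 + q - s) ∧
      ∀ n, 0 ≤ n → 0 ≤ Da X g t q s n (zc c n) (uh n) := by
  have hcc : 1 / 2 ≤ 1 / c := one_div_le_one_div_of_le hc0 hc
  have he := h1 (1 / c) hcc le_rfl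
  have hz : 1 - c * (1 / c) = 0 := by field_simp; ring
  rw [hz] at he
  unfold Da at he
  rw [WF_end] at he
  have hG : 0 ≤ g * WF X g q s 0 1 1 - t * (1 + q - s) := by
    by_contra hcon
    push Not at hcon
    have h2 : 1 / c * (1 + q - s) * (g * WF X g q s 0 1 1 - t * (1 + q - s)) < 0 :=
      mul_neg_of_pos_of_neg (by positivity) hcon
    have h3 : 0 ≤ s * (g * WF X g q s 0 1 1) := by positivity
    nlinarith
  refine ⟨hG, fun n hn => ?_⟩
  rcases le_total n (1 / 2) with h | h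
  · rw [zc_eq (by nlinarith), uh_eq h]
    exact h0 n hn h
  · rw [uh_zero h]
    rcases le_total n (1 / c) with h' | h'
    · rw [zc_eq (by rw [le_div_iff₀ hc0] at h'; linarith)]
      exact h1 n h h'
    · rw [zc_zero (by rw [div_le_iff₀ hc0] at h'; linarith)]
      unfold Da
      rw [WF_end]
      have h4 : 1 / c * (1 + q - s) * (g * WF X g q s 0 1 1 - t * (1 + q - s)) ≤
          n * (1 + q - s) * (g * WF X g q s 0 1 1 - t * (1 + q - s)) :=
        mul_le_mul_of_nonneg_right (mul_le_mul_of_nonneg_right h' hW.le) hG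
      linarith

/-- Condition (b) for all `n`. -/
theorem Db_all (hc0 : 0 < c) (hc : c ≤ 2) (hs : 0 ≤ s) (ht : 0 ≤ t) (hcs : c * s < 1 + q - s)
    (h0 : ∀ n, 0 ≤ n → n ≤ 1 / 2 → 0 ≤ Db X g t q s n (1 - c * n) (1 - 2 * n))
    (h1 : ∀ n, 1 / 2 ≤ n → n ≤ 1 / c → 0 ≤ Db X g t q s n (1 - c * n) 0) :
    0 ≤ s * WF X g q s 0 1 1 - t * (g / 2 * s * X) ∧
      ∀ n, 0 ≤ n → 0 ≤ Db X g t q s n (zc c n) (uh n) := by
  have hW : 0 < 1 + q - s := lt_of_le_of_lt (by positivity) hcs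
  have hcc : 1 / 2 ≤ 1 / c := one_div_le_one_div_of_le hc0 hc
  have he := h1 (1 / c) hcc le_rfl
  have hz : 1 - c * (1 / c) = 0 := by field_simp; ring
  rw [hz] at he
  unfold Db at he
  rw [WF_end, Iz_zero] at he
  have hcW : s < 1 / c * (1 + q - s) := by
    rw [one_div, inv_mul_eq_div, lt_div_iff₀ hc0]
    linarith
  have hG : 0 ≤ s * WF X g q s 0 1 1 - t * (g / 2 * s * X) := by
    by_contra hcon
    push Not at hcon
    have h2 : (1 / c * (1 + q - s) - s) * (s * WF X g q s 0 1 1 - t * (g / 2 * s * X)) < 0 :=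
      mul_neg_of_pos_of_neg (by linarith) hcon
    have h3 : 0 ≤ s * (t * (1 + q - s)) := by positivity
    nlinarith
  refine ⟨hG, fun n hn => ?_⟩
  rcases le_total n (1 / 2) with h | h
  · rw [zc_eq (by nlinarith), uh_eq h]
    exact h0 n hn h
  · rw [uh_zero h]
    rcases le_total n (1 / c) with h' | h'
    · rw [zc_eq (by rw [le_div_iff₀ hc0] at h'; linarith)]
      exact h1 n h h'
    · rw [zc_zero (by rw [div_le_iff₀ hc0] at h'; linarith)]
      unfold Db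
      rw [WF_end, Iz_zero]
      have h4 : 1 / c * (1 + q - s) * (s * WF X g q s 0 1 1 - t * (g / 2 * s * X)) ≤
          n * (1 + q - s) * (s * WF X g q s 0 1 1 - t * (g / 2 * s * X)) :=
        mul_le_mul_of_nonneg_right (mul_le_mul_of_nonneg_right h' hW.le) hG
      linarith

/-- Condition (c) for all `n`. -/
theorem Dc_all (hc0 : 0 < c) (hc : c ≤ 2) (hs : 0 ≤ s) (hcs : c * s < 1 + q - s)
    (h0 : ∀ n, 0 ≤ n → n ≤ 1 / 2 → 0 ≤ Dc X g c t q s n (1 - c * n) (1 - 2 * n))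
    (h1 : ∀ n, 1 / 2 ≤ n → n ≤ 1 / c → 0 ≤ Dc X g c t q s n (1 - c * n) 0) :
    0 ≤ (c - s) * WF X g q s 0 1 1 - t * (1 + q - s) ∧
      ∀ n, 0 ≤ n → 0 ≤ Dc X g c t q s n (zc c n) (uh n) := by
  have hW : 0 < 1 + q - s := lt_of_le_of_lt (by positivity) hcs
  have hcc : 1 / 2 ≤ 1 / c := one_div_le_one_div_of_le hc0 hc
  have he := h1 (1 / c) hcc le_rfl
  have hz : 1 - c * (1 / c) = 0 := by field_simp; ring
  rw [hz] at he
  unfold Dc at he
  rw [WF_end, Iz_zero] at he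
  have hcW : s < 1 / c * (1 + q - s) := by
    rw [one_div, inv_mul_eq_div, lt_div_iff₀ hc0]
    linarith
  have hG : 0 ≤ (c - s) * WF X g q s 0 1 1 - t * (1 + q - s) := by
    by_contra hcon
    push Not at hcon
    have h2 : (1 / c * (1 + q - s) - s) *
        ((c - s) * WF X g q s 0 1 1 - t * (1 + q - s)) < 0 :=
      mul_neg_of_pos_of_neg (by linarith) hcon
    nlinarith
  refine ⟨hG, fun n hn => ?_⟩
  rcases le_total n (1 / 2) with h | h
  · rw [zc_eq (by nlinarith), uh_eq h]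
    exact h0 n hn h
  · rw [uh_zero h]
    rcases le_total n (1 / c) with h' | h'
    · rw [zc_eq (by rw [le_div_iff₀ hc0] at h'; linarith)]
      exact h1 n h h'
    · rw [zc_zero (by rw [div_le_iff₀ hc0] at h'; linarith)]
      unfold Dc
      rw [WF_end, Iz_zero]
      have h4 : 1 / c * (1 + q - s) * ((c - s) * WF X g q s 0 1 1 - t * (1 + q - s)) ≤
          n * (1 + q - s) * ((c - s) * WF X g q s 0 1 1 - t * (1 + q - s)) :=
        mul_le_mul_of_nonneg_right (mul_le_mul_of_nonneg_right h' hW.le) hG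
      linarith

end

/-- From the line to the sum. -/
theorem line_sum {ι : Type*} (Y : Finset ι) (w n : ι → ℝ) (hw : ∀ y ∈ Y, 0 ≤ w y)
    {s W G0 : ℝ} (hs : 0 < s) (hW0 : 0 ≤ W) (hW : W = ∑ y ∈ Y, w y)
    (hwn : ∑ y ∈ Y, w y * n y ≤ s) (hG0 : 0 ≤ G0) (G : ι → ℝ)
    (hG : ∀ y ∈ Y, 0 ≤ s * (G y - G0) + n y * W * G0) : 0 ≤ ∑ y ∈ Y, w y * G y := by
  have h1 : 0 ≤ ∑ y ∈ Y, w y * (s * (G y - G0) + n y * W * G0) :=
    sum_nonneg fun y hy => mul_nonneg (hw y hy) (hG y hy)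
  have h2 : ∑ y ∈ Y, w y * (s * (G y - G0) + n y * W * G0) =
      s * ∑ y ∈ Y, w y * G y - s * G0 * ∑ y ∈ Y, w y + W * G0 * ∑ y ∈ Y, w y * n y := by
    rw [mul_sum, mul_sum, mul_sum, ← sum_sub_distrib, ← sum_add_distrib]
    exact sum_congr rfl fun y _ => by ring
  rw [h2, ← hW] at h1
  have h3 : W * G0 * ∑ y ∈ Y, w y * n y ≤ W * G0 * s :=
    mul_le_mul_of_nonneg_left hwn (by positivity)
  have h4 : 0 ≤ s * ∑ y ∈ Y, w y * G y := by nlinarith
  exact nonneg_of_mul_nonneg_right h4 hs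

/-- The three inequalities for fixed constants. -/
theorem cert_core {ι : Type*} (Y : Finset ι) (w n : ι → ℝ) (hw : ∀ y ∈ Y, 0 ≤ w y)
    (hn0 : ∀ y ∈ Y, 0 ≤ n y) (s W q : ℝ) (hW : W = ∑ y ∈ Y, w y) (hq : q = W + s - 1)
    (hwn : ∑ y ∈ Y, w y * n y ≤ s) (X c g t : ℝ) (hs : 0 < s) (ht : 0 ≤ t) (hc0 : 0 < c)
    (hc : c ≤ 2) (hg : 0 ≤ g) (hcs : c * s < 1 + q - s) (hF : 0 ≤ (1 + q - s) - g / 2 * s * X)
    (a0 : ∀ n, 0 ≤ n → n ≤ 1 / 2 → 0 ≤ Da X g t q s n (1 - c * n) (1 - 2 * n))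
    (a1 : ∀ n, 1 / 2 ≤ n → n ≤ 1 / c → 0 ≤ Da X g t q s n (1 - c * n) 0)
    (b0 : ∀ n, 0 ≤ n → n ≤ 1 / 2 → 0 ≤ Db X g t q s n (1 - c * n) (1 - 2 * n))
    (b1 : ∀ n, 1 / 2 ≤ n → n ≤ 1 / c → 0 ≤ Db X g t q s n (1 - c * n) 0)
    (c0 : ∀ n, 0 ≤ n → n ≤ 1 / 2 → 0 ≤ Dc X g c t q s n (1 - c * n) (1 - 2 * n))
    (c1 : ∀ n, 1 / 2 ≤ n → n ≤ 1 / c → 0 ≤ Dc X g c t q s n (1 - c * n) 0) :
    t * W ≤ g * ∑ y ∈ Y, w y * Fz X c (g * s / (2 * W)) (n y) ∧
    t * ∑ y ∈ Y, w y * (1 - Iz X (zc c (n y)) +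
        g * s / (2 * W) * Jz X (zc c (n y)) * (1 - n y) * uh (n y)) ≤
      s * ∑ y ∈ Y, w y * Fz X c (g * s / (2 * W)) (n y) ∧
    t * ∑ y ∈ Y, w y * Iz X (zc c (n y)) ≤
      (c - s) * ∑ y ∈ Y, w y * Fz X c (g * s / (2 * W)) (n y) := by
  have hWq : 1 + q - s = W := by rw [hq]; ring
  have hW0 : 0 < W := by rw [← hWq]; exact lt_of_le_of_lt (by positivity) hcs
  have hF' : 0 ≤ WF X g q s 0 1 1 := by rw [WF_zero]; exact hF
  obtain ⟨ha, ha'⟩ := Da_all hc0 hc hg hs.le (by rw [hWq]; exact hW0) hF' a0 a1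
  obtain ⟨hb, hb'⟩ := Db_all hc0 hc hs.le ht hcs b0 b1
  obtain ⟨hcc, hcc'⟩ := Dc_all hc0 hc hs.le hcs c0 c1
  have hWF : ∀ y, WF X g q s (n y) (zc c (n y)) (uh (n y)) =
      W * Fz X c (g * s / (2 * W)) (n y) := by
    intro y
    unfold WF Fz
    rw [hWq]
    field_simp
  refine ⟨?_, ?_, ?_⟩
  · have h := line_sum Y w n hw hs hW0.le hW hwn ha
      (fun y => g * WF X g q s (n y) (zc c (n y)) (uh (n y)) - t * (1 + q - s)) (by
        intro y hy
        have h1 := ha' (n y) (hn0 y hy)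
        unfold Da at h1
        rw [hWq] at h1 ⊢
        linarith)
    have h2 : ∑ y ∈ Y, w y * (g * WF X g q s (n y) (zc c (n y)) (uh (n y)) - t * (1 + q - s)) =
        W * (g * ∑ y ∈ Y, w y * Fz X c (g * s / (2 * W)) (n y) - t * W) := by
      have h3 : ∑ y ∈ Y, w y * (g * WF X g q s (n y) (zc c (n y)) (uh (n y)) - t * (1 + q - s)) =
          ∑ y ∈ Y, (W * g * (w y * Fz X c (g * s / (2 * W)) (n y)) - t * W * w y) := by
        refine sum_congr rfl fun y _ => ?_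
        rw [hWF, hWq]
        ring
      rw [h3, sum_sub_distrib, ← mul_sum, ← mul_sum, ← hW]
      ring
    rw [h2] at h
    have h4 := nonneg_of_mul_nonneg_right h hW0
    linarith
  · have h := line_sum Y w n hw hs hW0.le hW hwn hb
      (fun y => s * WF X g q s (n y) (zc c (n y)) (uh (n y))
        - t * ((1 + q - s) * (1 - Iz X (zc c (n y)))
          + g / 2 * s * Jz X (zc c (n y)) * (1 - n y) * uh (n y))) (by
        intro y hy
        have h1 := hb' (n y) (hn0 y hy)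
        unfold Db at h1
        rw [hWq] at h1 ⊢
        linarith)
    have h2 : ∑ y ∈ Y, w y * (s * WF X g q s (n y) (zc c (n y)) (uh (n y))
        - t * ((1 + q - s) * (1 - Iz X (zc c (n y)))
          + g / 2 * s * Jz X (zc c (n y)) * (1 - n y) * uh (n y))) =
        W * (s * ∑ y ∈ Y, w y * Fz X c (g * s / (2 * W)) (n y)
          - t * ∑ y ∈ Y, w y * (1 - Iz X (zc c (n y)) +
            g * s / (2 * W) * Jz X (zc c (n y)) * (1 - n y) * uh (n y))) := by
      rw [mul_sum, mul_sum, ← sum_sub_distrib, mul_sum]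
      refine sum_congr rfl fun y _ => ?_
      rw [hWF, hWq]
      field_simp
    rw [h2] at h
    have h4 := nonneg_of_mul_nonneg_right h hW0
    linarith
  · have h := line_sum Y w n hw hs hW0.le hW hwn hcc
      (fun y => (c - s) * WF X g q s (n y) (zc c (n y)) (uh (n y))
        - t * (1 + q - s) * Iz X (zc c (n y))) (by
        intro y hy
        have h1 := hcc' (n y) (hn0 y hy)
        unfold Dc at h1
        rw [hWq] at h1 ⊢
        linarith)
    have h2 : ∑ y ∈ Y, w y * ((c - s) * WF X g q s (n y) (zc c (n y)) (uh (n y))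
        - t * (1 + q - s) * Iz X (zc c (n y))) =
        W * ((c - s) * ∑ y ∈ Y, w y * Fz X c (g * s / (2 * W)) (n y)
          - t * ∑ y ∈ Y, w y * Iz X (zc c (n y))) := by
      rw [mul_sum, mul_sum, ← sum_sub_distrib, mul_sum]
      refine sum_congr rfl fun y _ => ?_
      rw [hWF, hWq]
      ring
    rw [h2] at h
    have h4 := nonneg_of_mul_nonneg_right h hW0
    linarith

/-- **The certificate.** -/
theorem cert_sum {ι : Type*} (Y : Finset ι) (w n : ι → ℝ) (hw : ∀ y ∈ Y, 0 ≤ w y)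
    (hn0 : ∀ y ∈ Y, 0 ≤ n y) (s W q : ℝ) (hW : W = ∑ y ∈ Y, w y) (hq : q = W + s - 1)
    (h1 : 7 / 5 ≤ q) (h2 : q ≤ 39 / 20) (hs : (1 + q) / 4 - 1 / 500 ≤ s)
    (hs' : s ≤ 1 + 1 / 400) (hwn : ∑ y ∈ Y, w y * n y ≤ s) :
    ∃ X c g : ℝ, X = max 1 (2 * (q - 1)) ∧ 1 ≤ X ∧ X ≤ 2 ∧ 59 / 50 ≤ c ∧ c ≤ 5 / 4 ∧ 1 ≤ g ∧
      g ≤ 6 / 5 ∧
      (1 - s + 1 / 400) * W ≤ g * ∑ y ∈ Y, w y * Fz X c (g * s / (2 * W)) (n y) ∧
      (1 - s + 1 / 400) * ∑ y ∈ Y, w y * (1 - Iz X (zc c (n y)) +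
          g * s / (2 * W) * Jz X (zc c (n y)) * (1 - n y) * uh (n y)) ≤
        s * ∑ y ∈ Y, w y * Fz X c (g * s / (2 * W)) (n y) ∧
      (1 - s + 1 / 400) * ∑ y ∈ Y, w y * Iz X (zc c (n y)) ≤
        (c - s) * ∑ y ∈ Y, w y * Fz X c (g * s / (2 * W)) (n y) := by
  have hs2 : s ≤ 201 / 200 := by linarith
  have hsp : 0 < s := by linarith
  rcases le_total q (3 / 2) with hq1 | hq1
  · have h := cert_core Y w n hw hn0 s W q hW hq hwn 1 (5 / 4) (6 / 5) (1 - s + 1 / 400) hsp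
      (by linarith) (by norm_num) (by norm_num) (by norm_num) (by linarith) (by linarith)
      (fun n e e' => r1a0 q s n h1 hq1 hs hs2 e e') (fun n e e' => r1a1 q s n h1 hq1 hs hs2 e (by norm_num at e'; linarith))
      (fun n e e' => r1b0 q s n h1 hq1 hs hs2 e e') (fun n e e' => r1b1 q s n h1 hq1 hs hs2 e (by norm_num at e'; linarith))
      (fun n e e' => r1c0 q s n h1 hq1 hs hs2 e e') (fun n e e' => r1c1 q s n h1 hq1 hs hs2 e (by norm_num at e'; linarith))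
    exact ⟨1, 5 / 4, 6 / 5, (max_eq_left (by linarith)).symm, le_rfl, by norm_num, by norm_num,
      le_rfl, by norm_num, le_rfl, h⟩
  rcases le_total q (9 / 5) with hq2 | hq2
  · have h := cert_core Y w n hw hn0 s W q hW hq hwn (2 * (q - 1)) (5 / 4) (6 / 5)
      (1 - s + 1 / 400) hsp
      (by linarith) (by norm_num) (by norm_num) (by norm_num) (by linarith) (by nlinarith)
      (fun n e e' => r2a0 q s n hq1 hq2 hs hs2 e e') (fun n e e' => r2a1 q s n hq1 hq2 hs hs2 e (by norm_num at e'; linarith))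
      (fun n e e' => r2b0 q s n hq1 hq2 hs hs2 e e') (fun n e e' => r2b1 q s n hq1 hq2 hs hs2 e (by norm_num at e'; linarith))
      (fun n e e' => r2c0 q s n hq1 hq2 hs hs2 e e') (fun n e e' => r2c1 q s n hq1 hq2 hs hs2 e (by norm_num at e'; linarith))
    exact ⟨2 * (q - 1), 5 / 4, 6 / 5, (max_eq_right (by linarith)).symm, by linarith, by linarith,
      by norm_num, le_rfl, by norm_num, le_rfl, h⟩
  rcases le_total q (191 / 100) with hq3 | hq3
  · have h := cert_core Y w n hw hn0 s W q hW hq hwn (2 * (q - 1)) (6 / 5) (23 / 20)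
      (1 - s + 1 / 400) hsp
      (by linarith) (by norm_num) (by norm_num) (by norm_num) (by linarith) (by nlinarith)
      (fun n e e' => r3a0 q s n hq2 hq3 hs hs2 e e') (fun n e e' => r3a1 q s n hq2 hq3 hs hs2 e (by norm_num at e'; linarith))
      (fun n e e' => r3b0 q s n hq2 hq3 hs hs2 e e') (fun n e e' => r3b1 q s n hq2 hq3 hs hs2 e (by norm_num at e'; linarith))
      (fun n e e' => r3c0 q s n hq2 hq3 hs hs2 e e') (fun n e e' => r3c1 q s n hq2 hq3 hs hs2 e (by norm_num at e'; linarith))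
    exact ⟨2 * (q - 1), 6 / 5, 23 / 20, (max_eq_right (by linarith)).symm, by linarith,
      by linarith, by norm_num, by norm_num, by norm_num, by norm_num, h⟩
  · have hq4 : 19 / 10 ≤ q := by linarith
    have h := cert_core Y w n hw hn0 s W q hW hq hwn (2 * (q - 1)) (59 / 50) (28 / 25)
      (1 - s + 1 / 400) hsp
      (by linarith) (by norm_num) (by norm_num) (by norm_num) (by linarith) (by nlinarith)
      (fun n e e' => r4a0 q s n hq4 h2 hs hs2 e e') (fun n e e' => r4a1 q s n hq4 h2 hs hs2 e (by norm_num at e'; linarith))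
      (fun n e e' => r4b0 q s n hq4 h2 hs hs2 e e') (fun n e e' => r4b1 q s n hq4 h2 hs hs2 e (by norm_num at e'; linarith))
      (fun n e e' => r4c0 q s n hq4 h2 hs hs2 e e') (fun n e e' => r4c1 q s n hq4 h2 hs hs2 e (by norm_num at e'; linarith))
    exact ⟨2 * (q - 1), 59 / 50, 28 / 25, (max_eq_right (by linarith)).symm, by linarith,
      by linarith, le_rfl, by norm_num, by norm_num, by norm_num, h⟩

end Pool.Agent.T6P
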