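import Pool.Agent.T6P.Cert7a
import Pool.Agent.T6P.CertSum

/-!
# The certificate of the piece scheme (MP_c6effb_co, PIECES, P7)

`certP`: `CertP Q'` for `Q' < 39 / 20`.
-/

set_option autoImplicit false
set_option linter.unusedSectionVars false

open Finset

namespace Pool.Agent.T6P

open Pool.Agent.T6A

noncomputable section

open Classical

namespace C7

/-- The real numbers of the last step. -/
theorem nums {e dl s c g W S R Qs D T SS Bs Cs : ℝ} (he0 : 0 < e) (he : e ≤ 1 / 10 ^ 7)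
    (hdl : 0 ≤ dl) (hdl1 : dl ≤ 1 / 10 ^ 7) (hs : 1 / 2 + 1 / 400 ≤ s) (hs1 : s ≤ 1 + 1 / 400)
    (hc : 59 / 50 ≤ c) (hc1 : c ≤ 5 / 4) (hg : 1 ≤ g) (hg1 : g ≤ 6 / 5) (hW : 4 / 3 ≤ W)
    (hT0 : 0 < T) (hT1 : T ≤ 1 - s + 33 * e) (hTs : 1 - T ≤ s)
    (ha : (1 - s + 1 / 400) * W ≤ g * S) (hb : (1 - s + 1 / 400) * R ≤ s * S)
    (hcc : (1 - s + 1 / 400) * Qs ≤ (c - s) * S) (hR : 0 ≤ R) (hQ : 0 ≤ Qs)
    (hSS : S - dl * W ≤ SS) (hBs : Bs ≤ R + dl * W) (hCs : Cs ≤ Qs + D * W) (hD : D ≤ 58 * e) :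
    T ≤ g / W * SS ∧ T * Bs ≤ (1 - T) * SS ∧ (1 - T) * SS + T * Cs ≤ c * SS := by
  obtain ⟨t, ht⟩ : ∃ t, t = 1 - s + 1 / 400 := ⟨_, rfl⟩
  rw [← ht] at ha hb hcc
  have hW0 : 0 < W := by linarith
  have he' : 33 * e ≤ 1 / 1600 := by norm_num at he ⊢; linarith
  have hTt : T ≤ t - 1 / 800 := by linarith
  have ht2 : t ≤ 1 / 2 := by linarith
  have ht1 : 1 / 800 ≤ t := by linarith
  have hTt' : T ≤ 399 / 400 * t := by linarith
  have hS0 : 0 ≤ g * S := le_trans (by positivity) ha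
  have hS : 0 ≤ S := nonneg_of_mul_nonneg_right hS0 (by linarith)
  have hgS : g * S ≤ 6 / 5 * S := mul_le_mul_of_nonneg_right hg1 hS
  have htW : t * W ≤ 6 / 5 * S := ha.trans hgS
  have hSW : W ≤ 960 * S := by
    have : 1 / 800 * W ≤ t * W := mul_le_mul_of_nonneg_right ht1 hW0.le
    linarith
  have hdW : dl * W ≤ S / 10000 := by
    have h1 : dl * W ≤ 1 / 10 ^ 7 * W := mul_le_mul_of_nonneg_right hdl1 hW0.le
    norm_num at h1
    linarith
  have hdW0 : 0 ≤ dl * W := by positivity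
  refine ⟨?_, ?_, ?_⟩
  · have hgW : 0 ≤ g / W := by positivity
    have h1 := mul_le_mul_of_nonneg_left hSS hgW
    have h2 : g / W * (S - dl * W) = g * S / W - g * dl := by field_simp
    have h3 : t ≤ g * S / W := by rw [le_div_iff₀ hW0]; exact ha
    have h4 : g * dl ≤ 6 / 5 * (1 / 10 ^ 7) :=
      mul_le_mul hg1 hdl1 hdl (by norm_num)
    norm_num at h4
    linarith
  · have hT1' : T ≤ 1 := by linarith
    have h1 : T * Bs ≤ T * (R + dl * W) := mul_le_mul_of_nonneg_left hBs hT0.le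
    have h2 : T * R ≤ 399 / 400 * t * R := mul_le_mul_of_nonneg_right hTt' hR
    have h3 : T * (dl * W) ≤ 1 * (dl * W) := mul_le_mul_of_nonneg_right hT1' hdW0
    have h4 : (1 - T) * (S - dl * W) ≤ (1 - T) * SS :=
      mul_le_mul_of_nonneg_left hSS (by linarith)
    have h5 : (s - 33 * e) * S ≤ (1 - T) * S := mul_le_mul_of_nonneg_right (by linarith) hS
    have h6 : (1 - T) * (dl * W) ≤ 1 * (dl * W) :=
      mul_le_mul_of_nonneg_right (by linarith) hdW0
    have h7 : 33 * e * S ≤ 1 / 1600 * S := mul_le_mul_of_nonneg_right he' hS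
    have h8 : 1 / 2 * S ≤ s * S := mul_le_mul_of_nonneg_right (by linarith) hS
    nlinarith
  · have hcs : 7 / 40 ≤ c - s := by linarith
    have hcs1 : c - s ≤ 1 := by linarith
    have h1 : T * Cs ≤ T * (Qs + D * W) := mul_le_mul_of_nonneg_left hCs hT0.le
    have h2 : T * Qs ≤ 399 / 400 * t * Qs := mul_le_mul_of_nonneg_right hTt' hQ
    have h3 : T * (D * W) ≤ T * (58 * e * W) :=
      mul_le_mul_of_nonneg_left (mul_le_mul_of_nonneg_right hD hW0.le) hT0.le
    have h4 : T * (58 * e * W) ≤ t * (58 * e * W) :=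
      mul_le_mul_of_nonneg_right (by linarith) (by positivity)
    have h5 : t * (58 * e * W) ≤ 58 * e * (6 / 5 * S) := by
      have := mul_le_mul_of_nonneg_left htW (by positivity : 0 ≤ 58 * e)
      linarith
    have h6 : 58 * e * (6 / 5 * S) ≤ S / 10000 := by
      have h61 : e * S ≤ 1 / 10 ^ 7 * S := mul_le_mul_of_nonneg_right he hS
      norm_num at h61
      linarith
    have h7 : (c - s) * (S - dl * W) ≤ (c - s) * SS :=
      mul_le_mul_of_nonneg_left hSS (by linarith)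
    have h8 : (c - s) * SS ≤ (c - (1 - T)) * SS := by
      refine mul_le_mul_of_nonneg_right (by linarith) (le_trans ?_ hSS)
      linarith
    have h9 : (c - s) * (dl * W) ≤ 1 * (dl * W) := mul_le_mul_of_nonneg_right hcs1 hdW0
    have h10 : 7 / 40 * S ≤ (c - s) * S := mul_le_mul_of_nonneg_right hcs hS
    nlinarith

variable {ι : Type} [Fintype ι] {X : World ι}

/-- The clusters outside `A`. -/
def Out (X : World ι) : Finset ι := univ.filter fun y => y ∉ X.A

theorem Act_sub : Act X ⊆ Out X := by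
  intro y hy
  have h := mem_Act.1 hy
  exact mem_filter.2 ⟨mem_univ _, h.1⟩

theorem sum_Out : ∑ y ∈ Out X, X.w y = X.tot - X.sA := by
  unfold Out World.tot World.sA
  rw [eq_sub_iff_add_eq, ← sum_filter_add_sum_filter_not univ (fun b => b ∈ X.A) X.w, add_comm]
  congr 1
  refine sum_congr ?_ fun _ _ => rfl
  ext y
  simp

theorem big_n {y : ι} (hy : y ∈ Out X) (hy' : y ∉ Act X) : 24 / 25 < World.n X y := by
  by_contra hcon
  push Not at hcon
  exact hy' (mem_Act.2 ⟨(mem_filter.1 hy).2, hcon⟩)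

theorem zc_big {c n : ℝ} (hc : 59 / 50 ≤ c) (hn : 24 / 25 < n) : zc c n = 0 := by
  refine max_eq_left ?_
  nlinarith

theorem sum_Fz {c κ Xb : ℝ} (hc : 59 / 50 ≤ c) :
    ∑ y ∈ Out X, X.w y * Fz Xb c κ (World.n X y)
      = ∑ y ∈ Act X, X.w y * Fz Xb c κ (World.n X y) := by
  refine (sum_subset Act_sub fun y hy hy' => ?_).symm
  have hn := big_n hy hy'
  have h1 : uh (World.n X y) = 0 := max_eq_left (by linarith)
  unfold Fz
  rw [zc_big hc hn, h1]
  unfold Iz
  ring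

theorem row_Act (hA : 0 < X.sA) {e : ℝ} (he : 0 ≤ e) (h4 : X.s - e ≤ X.sA) (y : ι)
    (hy : y ∈ Act X) : ∑ y' ∈ (Act X).filter (X.F.Adj y), X.w y' ≤
      (X.s + 30 * e) * (1 - World.n X y) := by
  have h1 : ∑ y' ∈ (Act X).filter (X.F.Adj y), X.w y' ≤
      ∑ c, (if X.F.Adj y c then CA.wo X c else 0) := by
    rw [← sum_filter]
    have h2 : ∑ y' ∈ (Act X).filter (X.F.Adj y), X.w y' =
        ∑ y' ∈ (Act X).filter (X.F.Adj y), CA.wo X y' := by
      refine sum_congr rfl fun y' hy' => ?_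
      have h3 := (mem_Act.1 (mem_filter.1 hy').1).1
      unfold CA.wo
      rw [if_neg h3]
    rw [h2]
    refine sum_le_sum_of_subset_of_nonneg ?_ fun y' _ _ => CA.wo_nonneg X y'
    intro y' hy'
    exact mem_filter.2 ⟨mem_univ _, (mem_filter.1 hy').2⟩
  have h2 := CA.rowB X hA y
  have h3 : World.n X y = nb X.F X.mu y := rfl
  rw [← h3] at h2
  have h5 := n_nonneg X y
  have h6 : World.n X y ≤ 24 / 25 := (mem_Act.1 hy).2
  have h7 : (X.s - e) * World.n X y ≤ X.sA * World.n X y := mul_le_mul_of_nonneg_right h4 h5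
  have h8 : e * World.n X y ≤ e * (24 / 25) := mul_le_mul_of_nonneg_left h6 he
  refine (h1.trans h2).trans ?_
  nlinarith

theorem sum_wn (hA : 0 < X.sA) : ∑ y ∈ Out X, X.w y * World.n X y ≤ X.s := by
  have h := sum_nb_le (CA.mu_nonneg X) (CA.mu_sum X hA) (w := CA.wo X) (σ := X.s)
    fun a _ => CA.rowA X a
  refine le_trans (le_of_eq ?_) h
  unfold Out
  rw [sum_filter]
  refine sum_congr rfl fun y _ => ?_
  unfold CA.wo World.n
  by_cases hy : y ∈ X.A <;> simp [hy]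

end C7

open C7 in
/-- **P7**: the certificate of the piece scheme. -/
theorem certP {Q' : ℝ} (hQ' : Q' < 39 / 20) : CertP Q' := by
  refine ⟨min (1 / 10 ^ 7) ((39 / 20 - Q') / 40), 1 / 10 ^ 7,
    lt_min (by norm_num) (by linarith), by norm_num, ?_⟩
  intro ι _ X ord e x dl he0 he hdl0 hdl1 h1 h2 h3 h4 h5 hx _ hord
  have he7 : e ≤ 1 / 10 ^ 7 := he.trans (min_le_left _ _)
  have heQ : e ≤ (39 / 20 - Q') / 40 := he.trans (min_le_right _ _)
  have he' : e ≤ 1 / 1000000 := by norm_num at he7 ⊢; linarith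
  have htot3 : X.tot ≤ 3 := by linarith
  have htot2 : 2 ≤ X.tot := by linarith
  have het : e * X.tot ≤ 3 * e := by nlinarith
  have hsl : X.tot / 4 - 2 * e ≤ X.s := by linarith
  have hsA2 : 1 / 2 ≤ X.sA := by linarith
  have hA : 0 < X.sA := by linarith
  have hsAs := CA.sA_le X
  have hsA3 : X.sA ≤ 1 + 2 * e := by
    by_contra hcon
    push Not at hcon
    nlinarith
  have heA : e * X.sA ≤ 2 * e := by nlinarith
  obtain ⟨s, hs⟩ : ∃ s, s = X.s + 30 * e := ⟨_, rfl⟩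
  obtain ⟨W, hW⟩ : ∃ W, W = ∑ y ∈ Out X, X.w y := ⟨_, rfl⟩
  have hW' : W = X.tot - X.sA := by rw [hW, sum_Out]
  obtain ⟨q, hq⟩ : ∃ q, q = W + s - 1 := ⟨_, rfl⟩
  have hW43 : 4 / 3 ≤ W := by rw [hW']; linarith
  have hW0 : 0 < W := by linarith
  obtain ⟨Xb, c, g, hXe, hX1, hX2, hc, hc1, hg, hg1, ha, hb, hcc⟩ :=
    cert_sum (Out X) X.w (World.n X) (fun y _ => (X.pos y).le) (fun y _ => n_nonneg X y) s W q hW
      hq (by rw [hq, hW', hs]; linarith) (by rw [hq, hW', hs]; linarith)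
      (by rw [hq, hW', hs]; linarith) (by rw [hs]; linarith)
      ((sum_wn hA).trans (by rw [hs]; linarith))
  have hx1 : 1 ≤ x := by rw [hx]; exact le_max_left _ _
  have hxX : x ≤ Xb := by
    rw [hx, hXe]
    refine max_le_max le_rfl ?_
    rw [hq, hW', hs]
    linarith
  have hXx : Xb - x ≤ 58 * e := by
    have h6 : 2 * (X.tot - 2 + 2 * e) ≤ x := by rw [hx]; exact le_max_right _ _
    have h7 : Xb ≤ x + 58 * e := by
      rw [hXe]
      refine max_le (by linarith) ?_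
      rw [hq, hW', hs]
      linarith
    linarith
  have hc0 : 0 ≤ c := by linarith
  have hgm : 0 ≤ g / W := by positivity
  have hκ : g / W * s / 2 = g * s / (2 * W) := by field_simp
  have hrow : ∀ y ∈ Act X, ∑ y' ∈ (Act X).filter (X.F.Adj y), X.w y' ≤
      s * (1 - World.n X y) := fun y hy => by
    rw [hs]
    exact row_Act hA he0.le h4 y hy
  have hActW : ∑ y ∈ Act X, X.w y ≤ W := by
    rw [hW]
    exact sum_le_sum_of_subset_of_nonneg Act_sub fun y _ _ => (X.pos y).le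
  have hSS := SS_ge (c := c) (gm := g / W) (dl := dl) hA hc0 hgm hx1 hxX hX2 hdl0 hord hrow
  rw [hκ, ← sum_Fz hc] at hSS
  have hs0 : 0 < s := by rw [hs]; linarith
  have hn1 : ∀ y, World.n X y ≤ 1 := fun y => nb_le_one (CA.mu_nonneg X) (CA.mu_sum X hA) y
  obtain ⟨S, hS⟩ : ∃ S, S = ∑ y ∈ Out X, X.w y * Fz Xb c (g * s / (2 * W)) (World.n X y) :=
    ⟨_, rfl⟩
  obtain ⟨R, hR⟩ : ∃ R, R = ∑ y ∈ Out X, X.w y * (1 - Iz Xb (zc c (World.n X y)) +
    g * s / (2 * W) * Jz Xb (zc c (World.n X y)) * (1 - World.n X y) * uh (World.n X y)) :=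
    ⟨_, rfl⟩
  obtain ⟨Qs, hQs⟩ : ∃ Qs, Qs = ∑ y ∈ Out X, X.w y * Iz Xb (zc c (World.n X y)) := ⟨_, rfl⟩
  rw [← hS] at hSS ha hb hcc
  rw [← hR] at hb
  rw [← hQs] at hcc
  have hterm : ∀ y, 0 ≤ X.w y * (1 - Iz Xb (zc c (World.n X y)) +
      g * s / (2 * W) * Jz Xb (zc c (World.n X y)) * (1 - World.n X y) * uh (World.n X y)) := by
    intro y
    have e1 := Iz_le_one hX1 hX2 (zc_nonneg c (World.n X y)) (zc_le_one hc0 (n_nonneg X y))
    have e2 := Jz_nonneg hX1 hX2 (zc_nonneg c (World.n X y))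
    have e3 : 0 ≤ 1 - World.n X y := by have := hn1 y; linarith
    have e4 := uh_nonneg (World.n X y)
    have e5 : 0 ≤ g * s / (2 * W) * Jz Xb (zc c (World.n X y)) * (1 - World.n X y) *
        uh (World.n X y) := by positivity
    exact mul_nonneg (X.pos y).le (by linarith)
  have hR0 : 0 ≤ R := by
    rw [hR]
    exact sum_nonneg fun y _ => hterm y
  have hQ0 : 0 ≤ Qs := by
    rw [hQs]
    exact sum_nonneg fun y _ => mul_nonneg (X.pos y).le
      (Iz_nonneg hX1 hX2 (zc_nonneg c (World.n X y)))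
  have hSS' : S - dl * W ≤ SS X ord c (g / W) x dl := by
    have := mul_le_mul_of_nonneg_left hActW hdl0
    linarith
  have hB : ∀ a, ∑ y ∈ ys X a, X.w y * (1 - tS X ord c (g / W) x dl a y) ≤ R + dl * W := by
    intro a
    have h6 := b_le (c := c) (gm := g / W) (dl := dl) hA hc0 hgm hx1 hxX hX2 hdl0 hord hrow a
    rw [hκ] at h6
    have h7 : ∑ y ∈ Act X, X.w y * (1 - Iz Xb (zc c (World.n X y)) +
        g * s / (2 * W) * Jz Xb (zc c (World.n X y)) * (1 - World.n X y) * uh (World.n X y))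
        ≤ R := by
      rw [hR]
      exact sum_le_sum_of_subset_of_nonneg Act_sub fun y _ _ => hterm y
    have h8 := mul_le_mul_of_nonneg_left hActW hdl0
    linarith
  have hC : ∀ a, ∑ y ∈ ys X a, X.w y * tS X ord c (g / W) x dl a y ≤ Qs + (Xb - x) * W := by
    intro a
    have h6 := c_le (ord := ord) (c := c) (gm := g / W) (dl := dl) hA hgm hx1 hxX hX2 hdl0 a
    have h7 : ∑ y ∈ Act X, X.w y * Iz Xb (zc c (World.n X y)) ≤ Qs := by
      rw [hQs]
      exact sum_le_sum_of_subset_of_nonneg Act_sub fun y _ _ =>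
        mul_nonneg (X.pos y).le (Iz_nonneg hX1 hX2 (zc_nonneg c (World.n X y)))
    have h8 := mul_le_mul_of_nonneg_left hActW (by linarith : 0 ≤ Xb - x)
    linarith
  obtain ⟨T, hT⟩ : ∃ T, T = 1 - (1 - e) * X.sA := ⟨_, rfl⟩
  have hT' : (1 - e) * X.sA = 1 - T := by rw [hT]; ring
  have key : ∀ a, T ≤ g / W * SS X ord c (g / W) x dl ∧
      T * ∑ y ∈ ys X a, X.w y * (1 - tS X ord c (g / W) x dl a y) ≤
        (1 - T) * SS X ord c (g / W) x dl ∧
      (1 - T) * SS X ord c (g / W) x dl + T * ∑ y ∈ ys X a, X.w y * tS X ord c (g / W) x dl a y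
        ≤ c * SS X ord c (g / W) x dl := by
    intro a
    refine nums (D := Xb - x) (s := s) he0 he7 hdl0 hdl1 (by rw [hs]; linarith)
      (by rw [hs]; linarith) hc hc1 hg hg1 hW43 (by rw [hT]; linarith) ?_ ?_ ha hb hcc hR0 hQ0
      hSS' (hB a) (hC a) hXx
    · rw [hT, hs]; linarith
    · rw [hT, hs]; nlinarith
  have hne : ∃ a, a ∈ X.A := by
    by_contra hcon
    push Not at hcon
    have : X.A = ∅ := eq_empty_of_forall_notMem hcon
    unfold World.sA at hA
    rw [this, sum_empty] at hA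
    exact lt_irrefl _ hA
  obtain ⟨a0, -⟩ := hne
  have hT0 : 0 < T := by rw [hT]; linarith
  refine ⟨c, g / W, ?_⟩
  constructor
  · exact div_pos (by linarith) hW0
  · rw [div_le_iff₀ hW0]; linarith
  · linarith
  · linarith
  · by_contra hcon
    push Not at hcon
    have h6 := mul_nonpos_of_nonneg_of_nonpos hgm hcon
    have h7 := (key a0).1
    linarith
  · rw [← hT]; exact (key a0).1
  · intro a _
    rw [← hT, hT']
    exact (key a).2.1
  · intro a _
    rw [← hT, hT']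
    exact (key a).2.2

end

end Pool.Agent.T6P
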