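import Pool.Agent.T6P.Defs
import Pool.Agent.T6P.CertPair
import Pool.Agent.T6A.CertAsm

/-!
# The certificate of the piece scheme: the world part (MP_c6effb_co, PIECES, P7)

Lower bound for `SS` and upper bounds for the sums in (b), (c) of `CertOK` by sums over the clusters
outside `A` of functions of `n`.
-/

set_option autoImplicit false
set_option linter.unusedSectionVars false

open Finset

namespace Pool.Agent.T6P

open Pool.Agent.T6A

noncomputable section

open Classical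

namespace C7

/-! ### one variable -/

theorem II_eq {x z : ℝ} (hx : 1 ≤ x) : II x z = Iz x z := by
  unfold II Iz
  split_ifs with h
  · have : x = 1 := le_antisymm h hx
    subst this
    ring
  · rfl

theorem Iz_anti {x X z : ℝ} (hxX : x ≤ X) (h0 : 0 ≤ z) (h1 : z ≤ 1) : Iz X z ≤ Iz x z := by
  unfold Iz
  nlinarith [mul_nonneg (mul_nonneg (sub_nonneg.2 hxX) h0) (sub_nonneg.2 h1)]

theorem Iz_near {x X z : ℝ} (hxX : x ≤ X) : Iz x z ≤ Iz X z + (X - x) := by
  unfold Iz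
  have h : (X - x) * (z * (1 - z)) ≤ (X - x) * 1 :=
    mul_le_mul_of_nonneg_left (by nlinarith [sq_nonneg (z - 1 / 2)]) (by linarith)
  nlinarith

theorem Iz_mono {X z z' : ℝ} (h1 : 1 ≤ X) (h2 : X ≤ 2) (h0 : 0 ≤ z) (h : z ≤ z') :
    Iz X z ≤ Iz X z' := by
  unfold Iz
  have e1 : (2 - X) * z ≤ (2 - X) * z' := mul_le_mul_of_nonneg_left h (by linarith)
  have e2 : (X - 1) * z ^ 2 ≤ (X - 1) * z' ^ 2 :=
    mul_le_mul_of_nonneg_left (pow_le_pow_left₀ h0 h 2) (by linarith)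
  linarith

theorem Iz_nonneg {X z : ℝ} (h1 : 1 ≤ X) (h2 : X ≤ 2) (h0 : 0 ≤ z) : 0 ≤ Iz X z := by
  unfold Iz
  have e1 : 0 ≤ (2 - X) * z := mul_nonneg (by linarith) h0
  have e2 : 0 ≤ (X - 1) * z ^ 2 := mul_nonneg (by linarith) (sq_nonneg z)
  linarith

theorem Iz_le_one {X z : ℝ} (h1 : 1 ≤ X) (h2 : X ≤ 2) (h0 : 0 ≤ z) (hz : z ≤ 1) :
    Iz X z ≤ 1 := by
  refine (Iz_mono h1 h2 h0 hz).trans (le_of_eq ?_)
  unfold Iz
  ring

theorem Jz_nonneg {X z : ℝ} (h1 : 1 ≤ X) (h2 : X ≤ 2) (h0 : 0 ≤ z) : 0 ≤ Jz X z := by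
  unfold Jz
  have e2 : 0 ≤ 2 * (X - 1) * z := mul_nonneg (by linarith) h0
  linarith

theorem Jz_mono {X z z' : ℝ} (h1 : 1 ≤ X) (h : z ≤ z') : Jz X z ≤ Jz X z' := by
  unfold Jz
  have := mul_le_mul_of_nonneg_left h (by linarith : 0 ≤ 2 * (X - 1))
  linarith

/-- The tangent. -/
theorem tang {X u χ : ℝ} (h1 : 1 ≤ X) (h2 : X ≤ 2) (hχ : 0 ≤ χ) :
    Iz X (max 0 u) - Jz X (max 0 u) * χ ≤ Iz X (max 0 (u - χ)) := by
  unfold Iz Jz
  have a1 : 0 ≤ 2 - X := by linarith
  have a2 : 0 ≤ X - 1 := by linarith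
  rcases le_total u 0 with hu | hu
  · rw [max_eq_left hu, max_eq_left (by linarith : u - χ ≤ 0)]
    nlinarith [mul_nonneg a1 hχ]
  · rw [max_eq_right hu]
    rcases le_total (u - χ) 0 with h | h
    · rw [max_eq_left h]
      have e1 : (2 - X) * (u - χ) ≤ 0 := mul_nonpos_of_nonneg_of_nonpos a1 h
      have e2 : u * (u - 2 * χ) ≤ 0 := mul_nonpos_of_nonneg_of_nonpos hu (by linarith)
      have e3 : (X - 1) * (u * (u - 2 * χ)) ≤ 0 := mul_nonpos_of_nonneg_of_nonpos a2 e2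
      nlinarith
    · rw [max_eq_right h]
      nlinarith [mul_nonneg a2 (sq_nonneg χ)]

theorem zc_nonneg (c n : ℝ) : 0 ≤ zc c n := le_max_left _ _

theorem zc_le_one {c n : ℝ} (hc : 0 ≤ c) (hn : 0 ≤ n) : zc c n ≤ 1 :=
  max_le zero_le_one (by nlinarith [mul_nonneg hc hn])

theorem zc_anti {c n n' : ℝ} (hc : 0 ≤ c) (h : n' ≤ n) : zc c n ≤ zc c n' := by
  unfold zc
  refine max_le_max le_rfl ?_
  have := mul_le_mul_of_nonneg_left h hc
  linarith

/-! ### the world -/

variable {ι : Type} [Fintype ι] {X : World ι}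

theorem n_nonneg (X : World ι) (y : ι) : 0 ≤ World.n X y := nb_nonneg (CA.mu_nonneg X) y

theorem sum_na (hA : 0 < X.sA) (y : ι) :
    ∑ a, (if X.F.Adj a y then 0 else X.mu a) = 1 - World.n X y := by
  unfold World.n nb
  rw [eq_sub_iff_add_eq, ← sum_add_distrib, ← CA.mu_sum X hA]
  refine sum_congr rfl fun a _ => ?_
  by_cases h : X.F.Adj a y <;> simp [h]

theorem sum_na2 (hA : 0 < X.sA) {y y' : ι} (hy : X.F.Adj y y') :
    ∑ a, (if X.F.Adj a y ∨ X.F.Adj a y' then 0 else X.mu a)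
      = 1 - World.n X y - World.n X y' := by
  unfold World.n nb
  rw [sub_sub, eq_sub_iff_add_eq, ← sum_add_distrib, ← sum_add_distrib, ← CA.mu_sum X hA]
  refine sum_congr rfl fun a _ => ?_
  by_cases h : X.F.Adj a y <;> by_cases h' : X.F.Adj a y'
  · exact absurd (X.tri {a, y, y'}) (by
      rw [not_not]
      exact SimpleGraph.is3Clique_triple_iff.2 ⟨h, h', hy⟩)
  · simp [h, h']
  · simp [h, h']
  · simp [h, h']

theorem n_add (hA : 0 < X.sA) {y y' : ι} (hy : X.F.Adj y y') :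
    World.n X y + World.n X y' ≤ 1 := by
  have h := sum_na2 hA hy
  have h2 : 0 ≤ ∑ a, (if X.F.Adj a y ∨ X.F.Adj a y' then 0 else X.mu a) :=
    sum_nonneg fun a _ => by
      split_ifs
      exacts [le_rfl, CA.mu_nonneg X a]
  linarith

/-- The used clusters. -/
def Act (X : World ι) : Finset ι := univ.filter fun y => World.act X y

theorem mem_Act {y : ι} : y ∈ Act X ↔ World.act X y := by simp [Act]

/-- The earlier used clusters which are blocked with `y`. -/
def Pre (X : World ι) (ord : ι → ℕ) (y : ι) : Finset ι :=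
  (Act X).filter fun y' => X.F.Adj y y' ∧ ord y' < ord y

theorem chiS_eq (ord : ι → ℕ) (a y : ι) : chiS X ord a y =
    ∑ y' ∈ Pre X ord y, (if X.F.Adj a y' then 0
      else X.w y' * (1 - World.n X y - World.n X y')) := by
  unfold chiS Pre Act
  rw [filter_filter, sum_filter, sum_filter]
  refine sum_congr rfl fun y' _ => ?_
  by_cases h1 : World.act X y' <;> by_cases h2 : ord y' < ord y <;> by_cases h3 : X.F.Adj y y' <;>
    by_cases h4 : X.F.Adj a y' <;> simp [h1, h2, h3, h4]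

theorem pre_adj {ord : ι → ℕ} {y y' : ι} (h : y' ∈ Pre X ord y) : X.F.Adj y y' :=
  (mem_filter.1 h).2.1

theorem chiS_nonneg (hA : 0 < X.sA) (ord : ι → ℕ) (a y : ι) : 0 ≤ chiS X ord a y := by
  rw [chiS_eq]
  refine sum_nonneg fun y' hy' => ?_
  split_ifs
  · exact le_rfl
  · have := n_add hA (pre_adj hy')
    exact mul_nonneg (X.pos y').le (by linarith)

theorem chiS_le (hA : 0 < X.sA) (ord : ι → ℕ) (a y : ι) : chiS X ord a y ≤
    ∑ y' ∈ Pre X ord y, X.w y' * (1 - World.n X y - World.n X y') := by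
  rw [chiS_eq]
  refine sum_le_sum fun y' hy' => ?_
  split_ifs
  · have := n_add hA (pre_adj hy')
    exact mul_nonneg (X.pos y').le (by linarith)
  · exact le_rfl

/-- The average of `chiS`. -/
theorem chiS_avg (hA : 0 < X.sA) (ord : ι → ℕ) (y : ι) :
    ∑ a, (if X.F.Adj a y then 0 else X.mu a * chiS X ord a y) =
      ∑ y' ∈ Pre X ord y, X.w y' * (1 - World.n X y - World.n X y') ^ 2 := by
  have h1 : ∀ a, (if X.F.Adj a y then 0 else X.mu a * chiS X ord a y) =
      ∑ y' ∈ Pre X ord y, X.w y' * (1 - World.n X y - World.n X y') *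
        (if X.F.Adj a y ∨ X.F.Adj a y' then 0 else X.mu a) := by
    intro a
    rw [chiS_eq]
    by_cases h : X.F.Adj a y
    · rw [if_pos h]
      refine (sum_eq_zero fun y' _ => ?_).symm
      rw [if_pos (Or.inl h), mul_zero]
    · rw [if_neg h, mul_sum]
      refine sum_congr rfl fun y' _ => ?_
      by_cases h' : X.F.Adj a y'
      · simp [h']
      · simp [h, h']
        ring
  rw [sum_congr rfl fun a _ => h1 a, sum_comm]
  refine sum_congr rfl fun y' hy' => ?_
  rw [← mul_sum, sum_na2 hA (pre_adj hy')]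
  ring

section bounds

variable {ord : ι → ℕ} {c gm x dl Xb : ℝ}

theorem zS_nonneg (a y : ι) : 0 ≤ zS X ord c gm a y := le_max_left _ _

theorem zS_le (hA : 0 < X.sA) (hgm : 0 ≤ gm) (a y : ι) :
    zS X ord c gm a y ≤ zc c (World.n X y) := by
  unfold zS zc
  refine max_le_max le_rfl ?_
  have := mul_nonneg hgm (chiS_nonneg hA ord a y)
  linarith

/-- Lower bound of `tS`. -/
theorem tS_ge (hA : 0 < X.sA) (hc : 0 ≤ c) (hgm : 0 ≤ gm) (hx : 1 ≤ x) (hxX : x ≤ Xb)
    (hXb : Xb ≤ 2) (a y : ι) :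
    Iz Xb (zc c (World.n X y)) - Jz Xb (zc c (World.n X y)) * (gm * chiS X ord a y) - dl
      ≤ tS X ord c gm x dl a y := by
  have hχ := mul_nonneg hgm (chiS_nonneg hA ord a y)
  have h1 := tang (X := Xb) (u := 1 - c * World.n X y) (hx.trans hxX) hXb hχ
  have hz1 : zS X ord c gm a y ≤ 1 :=
    (zS_le hA hgm a y).trans (zc_le_one hc (n_nonneg X y))
  have h2 := Iz_anti (z := zS X ord c gm a y) hxX (zS_nonneg a y) hz1
  rw [← II_eq hx] at h2
  have h3 : II x (zS X ord c gm a y) - dl ≤ tS X ord c gm x dl a y := le_max_right _ _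
  have h4 : zS X ord c gm a y = max 0 (1 - c * World.n X y - gm * chiS X ord a y) := rfl
  have h5 : zc c (World.n X y) = max 0 (1 - c * World.n X y) := rfl
  rw [h5]
  rw [← h4] at h1
  linarith

/-- Upper bound of `tS`. -/
theorem tS_le (hA : 0 < X.sA) (hgm : 0 ≤ gm) (hx : 1 ≤ x) (hxX : x ≤ Xb)
    (hXb : Xb ≤ 2) (hdl : 0 ≤ dl) (a y : ι) :
    tS X ord c gm x dl a y ≤ Iz Xb (zc c (World.n X y)) + (Xb - x) := by
  have h0 := Iz_nonneg (hx.trans hxX) hXb (zc_nonneg c (World.n X y))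
  refine max_le (by linarith) ?_
  rw [II_eq hx]
  have h1 := Iz_mono hx (hxX.trans hXb) (zS_nonneg (ord := ord) (c := c) (gm := gm) a y)
    (zS_le hA hgm a y)
  have h2 := Iz_near (z := zc c (World.n X y)) hxX
  linarith

theorem tS_nonneg (a y : ι) : 0 ≤ tS X ord c gm x dl a y := le_max_left _ _

theorem SS_eq : SS X ord c gm x dl =
    ∑ y ∈ Act X, X.w y * ∑ a, (if X.F.Adj a y then 0 else X.mu a * tS X ord c gm x dl a y) := by
  unfold SS ys Act
  simp only [sum_filter, mul_sum]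
  rw [sum_comm]
  refine sum_congr rfl fun y _ => ?_
  by_cases h1 : World.act X y
  · simp only [h1, true_and, if_true]
    refine sum_congr rfl fun a _ => ?_
    by_cases h2 : X.F.Adj a y
    · simp [h2]
    · simp [h2]
      ring
  · simp [h1]

/-- One cluster. -/
theorem inner_ge (hA : 0 < X.sA) (hc : 0 ≤ c) (hgm : 0 ≤ gm) (hx : 1 ≤ x) (hxX : x ≤ Xb)
    (hXb : Xb ≤ 2) (hdl : 0 ≤ dl) (y : ι) :
    (1 - World.n X y) * Iz Xb (zc c (World.n X y)) - dl - Jz Xb (zc c (World.n X y)) * gm *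
        ∑ y' ∈ Pre X ord y, X.w y' * (1 - World.n X y - World.n X y') ^ 2
      ≤ ∑ a, (if X.F.Adj a y then 0 else X.mu a * tS X ord c gm x dl a y) := by
  have hn := n_nonneg X y
  have h1 : ∑ a, (if X.F.Adj a y then 0 else X.mu a *
      (Iz Xb (zc c (World.n X y)) - Jz Xb (zc c (World.n X y)) * (gm * chiS X ord a y) - dl))
      ≤ ∑ a, (if X.F.Adj a y then 0 else X.mu a * tS X ord c gm x dl a y) := by
    refine sum_le_sum fun a _ => ?_
    split_ifs
    · exact le_rfl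
    · exact mul_le_mul_of_nonneg_left (tS_ge hA hc hgm hx hxX hXb a y) (CA.mu_nonneg X a)
  have e1 : ∀ a, (if X.F.Adj a y then 0 else X.mu a *
      (Iz Xb (zc c (World.n X y)) - Jz Xb (zc c (World.n X y)) * (gm * chiS X ord a y) - dl)) =
      (Iz Xb (zc c (World.n X y)) - dl) * (if X.F.Adj a y then 0 else X.mu a)
        - Jz Xb (zc c (World.n X y)) * gm *
          (if X.F.Adj a y then 0 else X.mu a * chiS X ord a y) := by
    intro a
    split_ifs
    · ring
    · ring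
  rw [sum_congr rfl fun a _ => e1 a, sum_sub_distrib, ← mul_sum, ← mul_sum, sum_na hA,
    chiS_avg hA] at h1
  have h2 : (1 - World.n X y) * dl ≤ dl := mul_le_of_le_one_left hdl (by linarith)
  refine le_trans ?_ h1
  linarith

variable {s : ℝ}

/-- The lower bound of `SS`. -/
theorem SS_ge (hA : 0 < X.sA) (hc : 0 ≤ c) (hgm : 0 ≤ gm) (hx : 1 ≤ x) (hxX : x ≤ Xb)
    (hXb : Xb ≤ 2) (hdl : 0 ≤ dl) (hord : ∀ y y', ord y' < ord y → World.n X y' ≤ World.n X y)
    (hrow : ∀ y ∈ Act X, ∑ y' ∈ (Act X).filter (X.F.Adj y), X.w y' ≤ s * (1 - World.n X y)) :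
    ∑ y ∈ Act X, X.w y * Fz Xb c (gm * s / 2) (World.n X y) - dl * ∑ y ∈ Act X, X.w y
      ≤ SS X ord c gm x dl := by
  have hX1 := hx.trans hxX
  rw [SS_eq]
  have h1 : ∑ y ∈ Act X, X.w y * ((1 - World.n X y) * Iz Xb (zc c (World.n X y)) - dl
        - Jz Xb (zc c (World.n X y)) * gm *
        ∑ y' ∈ Pre X ord y, X.w y' * (1 - World.n X y - World.n X y') ^ 2)
      ≤ ∑ y ∈ Act X, X.w y *
        ∑ a, (if X.F.Adj a y then 0 else X.mu a * tS X ord c gm x dl a y) :=
    sum_le_sum fun y _ => mul_le_mul_of_nonneg_left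
      (inner_ge hA hc hgm hx hxX hXb hdl y) (X.pos y).le
  refine le_trans ?_ h1
  have h2 : ∑ y ∈ Act X, X.w y * Jz Xb (zc c (World.n X y)) *
      ∑ y' ∈ Pre X ord y, X.w y' * (1 - World.n X y - World.n X y') ^ 2 ≤
      s / 2 * ∑ y ∈ Act X, X.w y * (1 - World.n X y) * Jz Xb (zc c (World.n X y))
        * uh (World.n X y) ^ 2 := by
    have h := pair_sum2 (Act X) X.F.Adj (fun y' y => ord y' < ord y) (fun y y' h => h.symm)
      (fun y y' h => by omega) X.w (World.n X) (fun y => Jz Xb (zc c (World.n X y)))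
      (fun y _ => (X.pos y).le) (fun y _ => Jz_nonneg hX1 hXb (zc_nonneg _ _))
      (fun y _ y' _ h => Jz_mono hX1 (zc_anti hc (hord y y' h)))
      (fun y _ y' _ h => n_add hA h) s hrow
    unfold Pre
    convert h
  have h3 := mul_le_mul_of_nonneg_left h2 hgm
  have e1 : ∑ y ∈ Act X, X.w y * ((1 - World.n X y) * Iz Xb (zc c (World.n X y)) - dl
        - Jz Xb (zc c (World.n X y)) * gm *
        ∑ y' ∈ Pre X ord y, X.w y' * (1 - World.n X y - World.n X y') ^ 2)
      = ∑ y ∈ Act X, X.w y * ((1 - World.n X y) * Iz Xb (zc c (World.n X y)))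
        - dl * ∑ y ∈ Act X, X.w y
        - gm * ∑ y ∈ Act X, X.w y * Jz Xb (zc c (World.n X y)) *
          ∑ y' ∈ Pre X ord y, X.w y' * (1 - World.n X y - World.n X y') ^ 2 := by
    rw [mul_sum, mul_sum, ← sum_sub_distrib, ← sum_sub_distrib]
    exact sum_congr rfl fun y _ => by ring
  have e2 : ∑ y ∈ Act X, X.w y * Fz Xb c (gm * s / 2) (World.n X y)
      = ∑ y ∈ Act X, X.w y * ((1 - World.n X y) * Iz Xb (zc c (World.n X y)))
        - gm * (s / 2 * ∑ y ∈ Act X, X.w y * (1 - World.n X y) * Jz Xb (zc c (World.n X y))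
          * uh (World.n X y) ^ 2) := by
    rw [mul_sum, mul_sum, ← sum_sub_distrib]
    refine sum_congr rfl fun y _ => ?_
    unfold Fz
    ring
  rw [e1, e2]
  linarith

/-- The sum in (b). -/
theorem b_le (hA : 0 < X.sA) (hc : 0 ≤ c) (hgm : 0 ≤ gm) (hx : 1 ≤ x) (hxX : x ≤ Xb)
    (hXb : Xb ≤ 2) (hdl : 0 ≤ dl) (hord : ∀ y y', ord y' < ord y → World.n X y' ≤ World.n X y)
    (hrow : ∀ y ∈ Act X, ∑ y' ∈ (Act X).filter (X.F.Adj y), X.w y' ≤ s * (1 - World.n X y))
    (a : ι) :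
    ∑ y ∈ ys X a, X.w y * (1 - tS X ord c gm x dl a y) ≤
      ∑ y ∈ Act X, X.w y * (1 - Iz Xb (zc c (World.n X y)) + gm * s / 2 *
        Jz Xb (zc c (World.n X y)) * (1 - World.n X y) * uh (World.n X y))
        + dl * ∑ y ∈ Act X, X.w y := by
  have hX1 := hx.trans hxX
  have h1 : ∑ y ∈ ys X a, X.w y * (1 - tS X ord c gm x dl a y) ≤
      ∑ y ∈ Act X, X.w y * (1 - Iz Xb (zc c (World.n X y)) + dl
        + Jz Xb (zc c (World.n X y)) * gm *
        ∑ y' ∈ Pre X ord y, X.w y' * (1 - World.n X y - World.n X y')) := by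
    have hsub : ys X a ⊆ Act X := by
      intro y hy
      exact mem_Act.2 (mem_filter.1 hy).2.1
    have hχ : ∀ y, 0 ≤ ∑ y' ∈ Pre X ord y, X.w y' * (1 - World.n X y - World.n X y') :=
      fun y => (chiS_nonneg hA ord a y).trans (chiS_le hA ord a y)
    refine le_trans (sum_le_sum fun y _ => ?_) (sum_le_sum_of_subset_of_nonneg hsub
      fun y _ _ => ?_)
    · refine mul_le_mul_of_nonneg_left ?_ (X.pos y).le
      have h2 := tS_ge (ord := ord) (dl := dl) hA hc hgm hx hxX hXb a y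
      have h3 : Jz Xb (zc c (World.n X y)) * (gm * chiS X ord a y) ≤
          Jz Xb (zc c (World.n X y)) * (gm *
            ∑ y' ∈ Pre X ord y, X.w y' * (1 - World.n X y - World.n X y')) :=
        mul_le_mul_of_nonneg_left (mul_le_mul_of_nonneg_left (chiS_le hA ord a y) hgm)
          (Jz_nonneg hX1 hXb (zc_nonneg _ _))
      linarith
    · refine mul_nonneg (X.pos y).le ?_
      have h2 := Iz_le_one hX1 hXb (zc_nonneg c (World.n X y)) (zc_le_one hc (n_nonneg X y))
      have h3 : 0 ≤ Jz Xb (zc c (World.n X y)) * gm *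
          ∑ y' ∈ Pre X ord y, X.w y' * (1 - World.n X y - World.n X y') :=
        mul_nonneg (mul_nonneg (Jz_nonneg hX1 hXb (zc_nonneg _ _)) hgm) (hχ y)
      linarith
  refine h1.trans ?_
  have h2 : ∑ y ∈ Act X, X.w y * Jz Xb (zc c (World.n X y)) *
      ∑ y' ∈ Pre X ord y, X.w y' * (1 - World.n X y - World.n X y') ≤
      s / 2 * ∑ y ∈ Act X, X.w y * (1 - World.n X y) * Jz Xb (zc c (World.n X y))
        * uh (World.n X y) := by
    have h := pair_sum1 (Act X) X.F.Adj (fun y' y => ord y' < ord y) (fun y y' h => h.symm)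
      (fun y y' h => by omega) X.w (World.n X) (fun y => Jz Xb (zc c (World.n X y)))
      (fun y _ => (X.pos y).le) (fun y _ => Jz_nonneg hX1 hXb (zc_nonneg _ _))
      (fun y _ y' _ h => Jz_mono hX1 (zc_anti hc (hord y y' h))) s hrow
    unfold Pre
    convert h
  have h3 := mul_le_mul_of_nonneg_left h2 hgm
  have e1 : ∑ y ∈ Act X, X.w y * (1 - Iz Xb (zc c (World.n X y)) + dl
        + Jz Xb (zc c (World.n X y)) * gm *
        ∑ y' ∈ Pre X ord y, X.w y' * (1 - World.n X y - World.n X y'))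
      = ∑ y ∈ Act X, X.w y * (1 - Iz Xb (zc c (World.n X y)))
        + dl * ∑ y ∈ Act X, X.w y
        + gm * ∑ y ∈ Act X, X.w y * Jz Xb (zc c (World.n X y)) *
          ∑ y' ∈ Pre X ord y, X.w y' * (1 - World.n X y - World.n X y') := by
    rw [mul_sum, mul_sum, ← sum_add_distrib, ← sum_add_distrib]
    exact sum_congr rfl fun y _ => by ring
  have e2 : ∑ y ∈ Act X, X.w y * (1 - Iz Xb (zc c (World.n X y)) + gm * s / 2 *
        Jz Xb (zc c (World.n X y)) * (1 - World.n X y) * uh (World.n X y))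
      = ∑ y ∈ Act X, X.w y * (1 - Iz Xb (zc c (World.n X y)))
        + gm * (s / 2 * ∑ y ∈ Act X, X.w y * (1 - World.n X y) * Jz Xb (zc c (World.n X y))
          * uh (World.n X y)) := by
    rw [mul_sum, mul_sum, ← sum_add_distrib]
    refine sum_congr rfl fun y _ => ?_
    ring
  rw [e1, e2]
  linarith

/-- The sum in (c). -/
theorem c_le (hA : 0 < X.sA) (hgm : 0 ≤ gm) (hx : 1 ≤ x) (hxX : x ≤ Xb)
    (hXb : Xb ≤ 2) (hdl : 0 ≤ dl) (a : ι) :
    ∑ y ∈ ys X a, X.w y * tS X ord c gm x dl a y ≤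
      ∑ y ∈ Act X, X.w y * Iz Xb (zc c (World.n X y)) + (Xb - x) * ∑ y ∈ Act X, X.w y := by
  have hsub : ys X a ⊆ Act X := by
    intro y hy
    exact mem_Act.2 (mem_filter.1 hy).2.1
  have h1 : ∑ y ∈ ys X a, X.w y * tS X ord c gm x dl a y ≤
      ∑ y ∈ Act X, X.w y * tS X ord c gm x dl a y :=
    sum_le_sum_of_subset_of_nonneg hsub fun y _ _ => mul_nonneg (X.pos y).le (tS_nonneg a y)
  refine h1.trans ?_
  rw [mul_sum, ← sum_add_distrib]
  refine sum_le_sum fun y _ => ?_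
  have := mul_le_mul_of_nonneg_left (tS_le (ord := ord) (c := c) hA hgm hx hxX hXb hdl a y)
    (X.pos y).le
  linarith

end bounds

end C7

end

end Pool.Agent.T6P
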