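import Pool.Agent.T6P.CertPoly

/-!
# The certificate of the piece scheme: boxes (MP_c6effb_co)

The polynomial inequalities of CertPoly.lean, for the four ranges of `q`: `[7 / 5, 3 / 2]`,
`[3 / 2, 9 / 5]`, `[9 / 5, 191 / 100]`, `[19 / 10, 39 / 20]`.
-/

set_option autoImplicit false

namespace Pool.Agent.T6P

open Pool.Agent.T6A.PolyBox PB3

/-- `X = 1` -/
def X1 : P3 := cst 1
/-- `X = 2 (q - 1)` -/
def X2 : P3 := sub3 (mul3 (cst 2) vx) (cst 2)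
/-- `u = 1 - 2 n` -/
def U0 : P3 := sub3 (cst 1) (mul3 (cst 2) vz)
/-- `u = 0` -/
def U1 : P3 := cst 0

theorem ev_X1 (q t n : ℝ) : ev3 X1 q t n = 1 := by simp only [X1, ev3_cst]; norm_num

theorem ev_X2 (q t n : ℝ) : ev3 X2 q t n = 2 * (q - 1) := by
  simp only [X2, ev3_sub, ev3_mul, ev3_cst, ev3_vx]
  push_cast
  ring

theorem ev_U0 (q t n : ℝ) : ev3 U0 q t n = 1 - 2 * n := by
  simp only [U0, ev3_sub, ev3_mul, ev3_cst, ev3_vz]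
  push_cast
  ring

theorem ev_U1 (q t n : ℝ) : ev3 U1 q t n = 0 := by simp only [U1, ev3_cst]; norm_num

theorem s_exists {q s : ℝ} (hs : (1 + q) / 4 - 1 / 500 ≤ s) (hs' : s ≤ 201 / 200)
    (hq : q ≤ 2) : ∃ t, 0 ≤ t ∧ t ≤ 1 ∧ s = sOf q t := by
  obtain ⟨t, t', ht, ht', ett, est⟩ := cparam (by linarith) hs hs'
  refine ⟨t, ht, by linarith, ?_⟩
  rw [est]
  unfold sOf
  ring

theorem fin_a {gn gd cn cd : ℤ} (hg : 0 < gd) (hc : 0 < cd) {X U : P3} {q t n : ℝ}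
    (h : 0 ≤ ev3 (pDa gn gd cn cd X U) q t n) :
    0 ≤ Da (ev3 X q t n) (gn / gd) (1 - sOf q t + 1 / 400) q (sOf q t) n (1 - cn / cd * n)
      (ev3 U q t n) := by
  rw [link_a gn gd cn cd hg.ne' hc.ne'] at h
  have hg' : (0 : ℝ) < gd := by exact_mod_cast hg
  have hc' : (0 : ℝ) < cd := by exact_mod_cast hc
  exact nonneg_of_mul_nonneg_right h (by positivity)

theorem fin_b {gn gd cn cd : ℤ} (hg : 0 < gd) (hc : 0 < cd) {X U : P3} {q t n : ℝ}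
    (h : 0 ≤ ev3 (pDb gn gd cn cd X U) q t n) :
    0 ≤ Db (ev3 X q t n) (gn / gd) (1 - sOf q t + 1 / 400) q (sOf q t) n (1 - cn / cd * n)
      (ev3 U q t n) := by
  rw [link_b gn gd cn cd hg.ne' hc.ne'] at h
  have hg' : (0 : ℝ) < gd := by exact_mod_cast hg
  have hc' : (0 : ℝ) < cd := by exact_mod_cast hc
  exact nonneg_of_mul_nonneg_right h (by positivity)

theorem fin_c {gn gd cn cd : ℤ} (hg : 0 < gd) (hc : 0 < cd) {X U : P3} {q t n : ℝ}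
    (h : 0 ≤ ev3 (pDc gn gd cn cd X U) q t n) :
    0 ≤ Dc (ev3 X q t n) (gn / gd) (cn / cd) (1 - sOf q t + 1 / 400) q (sOf q t) n
      (1 - cn / cd * n) (ev3 U q t n) := by
  rw [link_c gn gd cn cd hg.ne' hc.ne'] at h
  have hg' : (0 : ℝ) < gd := by exact_mod_cast hg
  have hc' : (0 : ℝ) < cd := by exact_mod_cast hc
  exact nonneg_of_mul_nonneg_right h (by positivity)

theorem r1a0_0 : (Bx.mk 14 15 10 0 1 2 0 1 2).ok
    (pDa 6 5 5 4 X1 U0) = true := by decide +kernel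

theorem r1a0_1 : (Bx.mk 14 15 10 1 2 2 0 1 2).ok
    (pDa 6 5 5 4 X1 U0) = true := by decide +kernel

theorem r1a0 (q s n : ℝ) (hq : (7 / 5) ≤ q) (hq' : q ≤ (3 / 2))
    (hs : (1 + q) / 4 - 1 / 500 ≤ s) (hs' : s ≤ 201 / 200)
    (hn : 0 ≤ n) (hn' : n ≤ (1 / 2)) :
    0 ≤ Da 1 (6 / 5) (1 - s + 1 / 400) q s n (1 - (5 / 4) * n) (1 - 2 * n) := by
  obtain ⟨t, ht, ht', rfl⟩ := s_exists hs hs' (by linarith)
  have key : 0 ≤ ev3 (pDa 6 5 5 4 X1 U0) q t n := by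
    rcases le_total t (1 / 2) with h | h
    · exact Bx.spec r1a0_0 (by refine ⟨?_, ?_, ?_, ?_, ?_, ?_⟩ <;> (push_cast; linarith))
    · exact Bx.spec r1a0_1 (by refine ⟨?_, ?_, ?_, ?_, ?_, ?_⟩ <;> (push_cast; linarith))
  have h := fin_a (by norm_num) (by norm_num) key
  rw [ev_X1, ev_U0] at h
  push_cast at h
  exact h

theorem r1b0_0 : (Bx.mk 14 15 10 0 1 1 0 1 2).ok
    (pDb 6 5 5 4 X1 U0) = true := by decide +kernel

theorem r1b0 (q s n : ℝ) (hq : (7 / 5) ≤ q) (hq' : q ≤ (3 / 2))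
    (hs : (1 + q) / 4 - 1 / 500 ≤ s) (hs' : s ≤ 201 / 200)
    (hn : 0 ≤ n) (hn' : n ≤ (1 / 2)) :
    0 ≤ Db 1 (6 / 5) (1 - s + 1 / 400) q s n (1 - (5 / 4) * n) (1 - 2 * n) := by
  obtain ⟨t, ht, ht', rfl⟩ := s_exists hs hs' (by linarith)
  have key : 0 ≤ ev3 (pDb 6 5 5 4 X1 U0) q t n := by
    exact Bx.spec r1b0_0 (by refine ⟨?_, ?_, ?_, ?_, ?_, ?_⟩ <;> (push_cast; linarith))
  have h := fin_b (by norm_num) (by norm_num) key
  rw [ev_X1, ev_U0] at h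
  push_cast at h
  exact h

theorem r1c0_0 : (Bx.mk 14 15 10 0 1 1 0 1 4).ok
    (pDc 6 5 5 4 X1 U0) = true := by decide +kernel

theorem r1c0_1 : (Bx.mk 14 15 10 0 1 2 1 2 4).ok
    (pDc 6 5 5 4 X1 U0) = true := by decide +kernel

theorem r1c0_2 : (Bx.mk 14 15 10 1 2 2 1 2 4).ok
    (pDc 6 5 5 4 X1 U0) = true := by decide +kernel

theorem r1c0 (q s n : ℝ) (hq : (7 / 5) ≤ q) (hq' : q ≤ (3 / 2))
    (hs : (1 + q) / 4 - 1 / 500 ≤ s) (hs' : s ≤ 201 / 200)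
    (hn : 0 ≤ n) (hn' : n ≤ (1 / 2)) :
    0 ≤ Dc 1 (6 / 5) (5 / 4) (1 - s + 1 / 400) q s n (1 - (5 / 4) * n) (1 - 2 * n) := by
  obtain ⟨t, ht, ht', rfl⟩ := s_exists hs hs' (by linarith)
  have key : 0 ≤ ev3 (pDc 6 5 5 4 X1 U0) q t n := by
    rcases le_total n (1 / 4) with h | h
    · exact Bx.spec r1c0_0 (by refine ⟨?_, ?_, ?_, ?_, ?_, ?_⟩ <;> (push_cast; linarith))
    · rcases le_total t (1 / 2) with h | h
      · exact Bx.spec r1c0_1 (by refine ⟨?_, ?_, ?_, ?_, ?_, ?_⟩ <;> (push_cast; linarith))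
      · exact Bx.spec r1c0_2 (by refine ⟨?_, ?_, ?_, ?_, ?_, ?_⟩ <;> (push_cast; linarith))
  have h := fin_c (by norm_num) (by norm_num) key
  rw [ev_X1, ev_U0] at h
  push_cast at h
  exact h

theorem r1a1_0 : (Bx.mk 14 15 10 0 1 2 10 13 20).ok
    (pDa 6 5 5 4 X1 U1) = true := by decide +kernel

theorem r1a1_1 : (Bx.mk 14 15 10 1 2 2 20 23 40).ok
    (pDa 6 5 5 4 X1 U1) = true := by decide +kernel

theorem r1a1_2 : (Bx.mk 14 15 10 1 2 2 23 26 40).ok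
    (pDa 6 5 5 4 X1 U1) = true := by decide +kernel

theorem r1a1_3 : (Bx.mk 14 15 10 0 1 1 13 16 20).ok
    (pDa 6 5 5 4 X1 U1) = true := by decide +kernel

theorem r1a1 (q s n : ℝ) (hq : (7 / 5) ≤ q) (hq' : q ≤ (3 / 2))
    (hs : (1 + q) / 4 - 1 / 500 ≤ s) (hs' : s ≤ 201 / 200)
    (hn : (1 / 2) ≤ n) (hn' : n ≤ (4 / 5)) :
    0 ≤ Da 1 (6 / 5) (1 - s + 1 / 400) q s n (1 - (5 / 4) * n) 0 := by
  obtain ⟨t, ht, ht', rfl⟩ := s_exists hs hs' (by linarith)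
  have key : 0 ≤ ev3 (pDa 6 5 5 4 X1 U1) q t n := by
    rcases le_total n (13 / 20) with h | h
    · rcases le_total t (1 / 2) with h | h
      · exact Bx.spec r1a1_0 (by refine ⟨?_, ?_, ?_, ?_, ?_, ?_⟩ <;> (push_cast; linarith))
      · rcases le_total n (23 / 40) with h | h
        · exact Bx.spec r1a1_1 (by refine ⟨?_, ?_, ?_, ?_, ?_, ?_⟩ <;> (push_cast; linarith))
        · exact Bx.spec r1a1_2 (by refine ⟨?_, ?_, ?_, ?_, ?_, ?_⟩ <;> (push_cast; linarith))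
    · exact Bx.spec r1a1_3 (by refine ⟨?_, ?_, ?_, ?_, ?_, ?_⟩ <;> (push_cast; linarith))
  have h := fin_a (by norm_num) (by norm_num) key
  rw [ev_X1, ev_U1] at h
  push_cast at h
  exact h

theorem r1b1_0 : (Bx.mk 14 15 10 0 1 1 20 23 40).ok
    (pDb 6 5 5 4 X1 U1) = true := by decide +kernel

theorem r1b1_1 : (Bx.mk 14 15 10 0 1 1 23 26 40).ok
    (pDb 6 5 5 4 X1 U1) = true := by decide +kernel

theorem r1b1_2 : (Bx.mk 14 15 10 0 1 1 13 16 20).ok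
    (pDb 6 5 5 4 X1 U1) = true := by decide +kernel

theorem r1b1 (q s n : ℝ) (hq : (7 / 5) ≤ q) (hq' : q ≤ (3 / 2))
    (hs : (1 + q) / 4 - 1 / 500 ≤ s) (hs' : s ≤ 201 / 200)
    (hn : (1 / 2) ≤ n) (hn' : n ≤ (4 / 5)) :
    0 ≤ Db 1 (6 / 5) (1 - s + 1 / 400) q s n (1 - (5 / 4) * n) 0 := by
  obtain ⟨t, ht, ht', rfl⟩ := s_exists hs hs' (by linarith)
  have key : 0 ≤ ev3 (pDb 6 5 5 4 X1 U1) q t n := by
    rcases le_total n (13 / 20) with h | h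
    · rcases le_total n (23 / 40) with h | h
      · exact Bx.spec r1b1_0 (by refine ⟨?_, ?_, ?_, ?_, ?_, ?_⟩ <;> (push_cast; linarith))
      · exact Bx.spec r1b1_1 (by refine ⟨?_, ?_, ?_, ?_, ?_, ?_⟩ <;> (push_cast; linarith))
    · exact Bx.spec r1b1_2 (by refine ⟨?_, ?_, ?_, ?_, ?_, ?_⟩ <;> (push_cast; linarith))
  have h := fin_b (by norm_num) (by norm_num) key
  rw [ev_X1, ev_U1] at h
  push_cast at h
  exact h

theorem r1c1_0 : (Bx.mk 14 15 10 0 1 1 20 23 40).ok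
    (pDc 6 5 5 4 X1 U1) = true := by decide +kernel

theorem r1c1_1 : (Bx.mk 14 15 10 0 1 1 23 26 40).ok
    (pDc 6 5 5 4 X1 U1) = true := by decide +kernel

theorem r1c1_2 : (Bx.mk 14 15 10 0 1 1 13 16 20).ok
    (pDc 6 5 5 4 X1 U1) = true := by decide +kernel

theorem r1c1 (q s n : ℝ) (hq : (7 / 5) ≤ q) (hq' : q ≤ (3 / 2))
    (hs : (1 + q) / 4 - 1 / 500 ≤ s) (hs' : s ≤ 201 / 200)
    (hn : (1 / 2) ≤ n) (hn' : n ≤ (4 / 5)) :
    0 ≤ Dc 1 (6 / 5) (5 / 4) (1 - s + 1 / 400) q s n (1 - (5 / 4) * n) 0 := by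
  obtain ⟨t, ht, ht', rfl⟩ := s_exists hs hs' (by linarith)
  have key : 0 ≤ ev3 (pDc 6 5 5 4 X1 U1) q t n := by
    rcases le_total n (13 / 20) with h | h
    · rcases le_total n (23 / 40) with h | h
      · exact Bx.spec r1c1_0 (by refine ⟨?_, ?_, ?_, ?_, ?_, ?_⟩ <;> (push_cast; linarith))
      · exact Bx.spec r1c1_1 (by refine ⟨?_, ?_, ?_, ?_, ?_, ?_⟩ <;> (push_cast; linarith))
    · exact Bx.spec r1c1_2 (by refine ⟨?_, ?_, ?_, ?_, ?_, ?_⟩ <;> (push_cast; linarith))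
  have h := fin_c (by norm_num) (by norm_num) key
  rw [ev_X1, ev_U1] at h
  push_cast at h
  exact h

theorem r2a0_0 : (Bx.mk 15 18 10 0 1 1 0 1 4).ok
    (pDa 6 5 5 4 X2 U0) = true := by decide +kernel

theorem r2a0_1 : (Bx.mk 15 18 10 0 1 1 1 2 4).ok
    (pDa 6 5 5 4 X2 U0) = true := by decide +kernel

theorem r2a0 (q s n : ℝ) (hq : (3 / 2) ≤ q) (hq' : q ≤ (9 / 5))
    (hs : (1 + q) / 4 - 1 / 500 ≤ s) (hs' : s ≤ 201 / 200)
    (hn : 0 ≤ n) (hn' : n ≤ (1 / 2)) :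
    0 ≤ Da (2 * (q - 1)) (6 / 5) (1 - s + 1 / 400) q s n (1 - (5 / 4) * n) (1 - 2 * n) := by
  obtain ⟨t, ht, ht', rfl⟩ := s_exists hs hs' (by linarith)
  have key : 0 ≤ ev3 (pDa 6 5 5 4 X2 U0) q t n := by
    rcases le_total n (1 / 4) with h | h
    · exact Bx.spec r2a0_0 (by refine ⟨?_, ?_, ?_, ?_, ?_, ?_⟩ <;> (push_cast; linarith))
    · exact Bx.spec r2a0_1 (by refine ⟨?_, ?_, ?_, ?_, ?_, ?_⟩ <;> (push_cast; linarith))
  have h := fin_a (by norm_num) (by norm_num) key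
  rw [ev_X2, ev_U0] at h
  push_cast at h
  exact h

theorem r2b0_0 : (Bx.mk 15 18 10 0 1 1 0 1 4).ok
    (pDb 6 5 5 4 X2 U0) = true := by decide +kernel

theorem r2b0_1 : (Bx.mk 15 18 10 0 1 1 1 2 4).ok
    (pDb 6 5 5 4 X2 U0) = true := by decide +kernel

theorem r2b0 (q s n : ℝ) (hq : (3 / 2) ≤ q) (hq' : q ≤ (9 / 5))
    (hs : (1 + q) / 4 - 1 / 500 ≤ s) (hs' : s ≤ 201 / 200)
    (hn : 0 ≤ n) (hn' : n ≤ (1 / 2)) :
    0 ≤ Db (2 * (q - 1)) (6 / 5) (1 - s + 1 / 400) q s n (1 - (5 / 4) * n) (1 - 2 * n) := by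
  obtain ⟨t, ht, ht', rfl⟩ := s_exists hs hs' (by linarith)
  have key : 0 ≤ ev3 (pDb 6 5 5 4 X2 U0) q t n := by
    rcases le_total n (1 / 4) with h | h
    · exact Bx.spec r2b0_0 (by refine ⟨?_, ?_, ?_, ?_, ?_, ?_⟩ <;> (push_cast; linarith))
    · exact Bx.spec r2b0_1 (by refine ⟨?_, ?_, ?_, ?_, ?_, ?_⟩ <;> (push_cast; linarith))
  have h := fin_b (by norm_num) (by norm_num) key
  rw [ev_X2, ev_U0] at h
  push_cast at h
  exact h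

theorem r2c0_0 : (Bx.mk 15 18 10 0 1 1 0 1 2).ok
    (pDc 6 5 5 4 X2 U0) = true := by decide +kernel

theorem r2c0 (q s n : ℝ) (hq : (3 / 2) ≤ q) (hq' : q ≤ (9 / 5))
    (hs : (1 + q) / 4 - 1 / 500 ≤ s) (hs' : s ≤ 201 / 200)
    (hn : 0 ≤ n) (hn' : n ≤ (1 / 2)) :
    0 ≤ Dc (2 * (q - 1)) (6 / 5) (5 / 4) (1 - s + 1 / 400) q s n (1 - (5 / 4) * n) (1 - 2 * n) := by
  obtain ⟨t, ht, ht', rfl⟩ := s_exists hs hs' (by linarith)
  have key : 0 ≤ ev3 (pDc 6 5 5 4 X2 U0) q t n := by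
    exact Bx.spec r2c0_0 (by refine ⟨?_, ?_, ?_, ?_, ?_, ?_⟩ <;> (push_cast; linarith))
  have h := fin_c (by norm_num) (by norm_num) key
  rw [ev_X2, ev_U0] at h
  push_cast at h
  exact h

theorem r2a1_0 : (Bx.mk 15 18 10 0 1 1 5 8 10).ok
    (pDa 6 5 5 4 X2 U1) = true := by decide +kernel

theorem r2a1 (q s n : ℝ) (hq : (3 / 2) ≤ q) (hq' : q ≤ (9 / 5))
    (hs : (1 + q) / 4 - 1 / 500 ≤ s) (hs' : s ≤ 201 / 200)
    (hn : (1 / 2) ≤ n) (hn' : n ≤ (4 / 5)) :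
    0 ≤ Da (2 * (q - 1)) (6 / 5) (1 - s + 1 / 400) q s n (1 - (5 / 4) * n) 0 := by
  obtain ⟨t, ht, ht', rfl⟩ := s_exists hs hs' (by linarith)
  have key : 0 ≤ ev3 (pDa 6 5 5 4 X2 U1) q t n := by
    exact Bx.spec r2a1_0 (by refine ⟨?_, ?_, ?_, ?_, ?_, ?_⟩ <;> (push_cast; linarith))
  have h := fin_a (by norm_num) (by norm_num) key
  rw [ev_X2, ev_U1] at h
  push_cast at h
  exact h

theorem r2b1_0 : (Bx.mk 15 18 10 0 1 1 5 8 10).ok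
    (pDb 6 5 5 4 X2 U1) = true := by decide +kernel

theorem r2b1 (q s n : ℝ) (hq : (3 / 2) ≤ q) (hq' : q ≤ (9 / 5))
    (hs : (1 + q) / 4 - 1 / 500 ≤ s) (hs' : s ≤ 201 / 200)
    (hn : (1 / 2) ≤ n) (hn' : n ≤ (4 / 5)) :
    0 ≤ Db (2 * (q - 1)) (6 / 5) (1 - s + 1 / 400) q s n (1 - (5 / 4) * n) 0 := by
  obtain ⟨t, ht, ht', rfl⟩ := s_exists hs hs' (by linarith)
  have key : 0 ≤ ev3 (pDb 6 5 5 4 X2 U1) q t n := by
    exact Bx.spec r2b1_0 (by refine ⟨?_, ?_, ?_, ?_, ?_, ?_⟩ <;> (push_cast; linarith))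
  have h := fin_b (by norm_num) (by norm_num) key
  rw [ev_X2, ev_U1] at h
  push_cast at h
  exact h

theorem r2c1_0 : (Bx.mk 15 18 10 0 1 1 5 8 10).ok
    (pDc 6 5 5 4 X2 U1) = true := by decide +kernel

theorem r2c1 (q s n : ℝ) (hq : (3 / 2) ≤ q) (hq' : q ≤ (9 / 5))
    (hs : (1 + q) / 4 - 1 / 500 ≤ s) (hs' : s ≤ 201 / 200)
    (hn : (1 / 2) ≤ n) (hn' : n ≤ (4 / 5)) :
    0 ≤ Dc (2 * (q - 1)) (6 / 5) (5 / 4) (1 - s + 1 / 400) q s n (1 - (5 / 4) * n) 0 := by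
  obtain ⟨t, ht, ht', rfl⟩ := s_exists hs hs' (by linarith)
  have key : 0 ≤ ev3 (pDc 6 5 5 4 X2 U1) q t n := by
    exact Bx.spec r2c1_0 (by refine ⟨?_, ?_, ?_, ?_, ?_, ?_⟩ <;> (push_cast; linarith))
  have h := fin_c (by norm_num) (by norm_num) key
  rw [ev_X2, ev_U1] at h
  push_cast at h
  exact h

theorem r3a0_0 : (Bx.mk 180 191 100 0 1 1 0 1 4).ok
    (pDa 23 20 6 5 X2 U0) = true := by decide +kernel

theorem r3a0_1 : (Bx.mk 180 191 100 0 1 1 1 2 4).ok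
    (pDa 23 20 6 5 X2 U0) = true := by decide +kernel

theorem r3a0 (q s n : ℝ) (hq : (9 / 5) ≤ q) (hq' : q ≤ (191 / 100))
    (hs : (1 + q) / 4 - 1 / 500 ≤ s) (hs' : s ≤ 201 / 200)
    (hn : 0 ≤ n) (hn' : n ≤ (1 / 2)) :
    0 ≤ Da (2 * (q - 1)) (23 / 20) (1 - s + 1 / 400) q s n (1 - (6 / 5) * n) (1 - 2 * n) := by
  obtain ⟨t, ht, ht', rfl⟩ := s_exists hs hs' (by linarith)
  have key : 0 ≤ ev3 (pDa 23 20 6 5 X2 U0) q t n := by
    rcases le_total n (1 / 4) with h | h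
    · exact Bx.spec r3a0_0 (by refine ⟨?_, ?_, ?_, ?_, ?_, ?_⟩ <;> (push_cast; linarith))
    · exact Bx.spec r3a0_1 (by refine ⟨?_, ?_, ?_, ?_, ?_, ?_⟩ <;> (push_cast; linarith))
  have h := fin_a (by norm_num) (by norm_num) key
  rw [ev_X2, ev_U0] at h
  push_cast at h
  exact h

theorem r3b0_0 : (Bx.mk 180 191 100 0 1 1 0 1 4).ok
    (pDb 23 20 6 5 X2 U0) = true := by decide +kernel

theorem r3b0_1 : (Bx.mk 180 191 100 0 1 1 1 2 4).ok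
    (pDb 23 20 6 5 X2 U0) = true := by decide +kernel

theorem r3b0 (q s n : ℝ) (hq : (9 / 5) ≤ q) (hq' : q ≤ (191 / 100))
    (hs : (1 + q) / 4 - 1 / 500 ≤ s) (hs' : s ≤ 201 / 200)
    (hn : 0 ≤ n) (hn' : n ≤ (1 / 2)) :
    0 ≤ Db (2 * (q - 1)) (23 / 20) (1 - s + 1 / 400) q s n (1 - (6 / 5) * n) (1 - 2 * n) := by
  obtain ⟨t, ht, ht', rfl⟩ := s_exists hs hs' (by linarith)
  have key : 0 ≤ ev3 (pDb 23 20 6 5 X2 U0) q t n := by
    rcases le_total n (1 / 4) with h | h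
    · exact Bx.spec r3b0_0 (by refine ⟨?_, ?_, ?_, ?_, ?_, ?_⟩ <;> (push_cast; linarith))
    · exact Bx.spec r3b0_1 (by refine ⟨?_, ?_, ?_, ?_, ?_, ?_⟩ <;> (push_cast; linarith))
  have h := fin_b (by norm_num) (by norm_num) key
  rw [ev_X2, ev_U0] at h
  push_cast at h
  exact h

theorem r3c0_0 : (Bx.mk 180 191 100 0 1 1 0 1 2).ok
    (pDc 23 20 6 5 X2 U0) = true := by decide +kernel

theorem r3c0 (q s n : ℝ) (hq : (9 / 5) ≤ q) (hq' : q ≤ (191 / 100))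
    (hs : (1 + q) / 4 - 1 / 500 ≤ s) (hs' : s ≤ 201 / 200)
    (hn : 0 ≤ n) (hn' : n ≤ (1 / 2)) :
    0 ≤ Dc (2 * (q - 1)) (23 / 20) (6 / 5) (1 - s + 1 / 400) q s n (1 - (6 / 5) * n) (1 - 2 * n) := by
  obtain ⟨t, ht, ht', rfl⟩ := s_exists hs hs' (by linarith)
  have key : 0 ≤ ev3 (pDc 23 20 6 5 X2 U0) q t n := by
    exact Bx.spec r3c0_0 (by refine ⟨?_, ?_, ?_, ?_, ?_, ?_⟩ <;> (push_cast; linarith))
  have h := fin_c (by norm_num) (by norm_num) key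
  rw [ev_X2, ev_U0] at h
  push_cast at h
  exact h

theorem r3a1_0 : (Bx.mk 180 191 100 0 1 1 3 5 6).ok
    (pDa 23 20 6 5 X2 U1) = true := by decide +kernel

theorem r3a1 (q s n : ℝ) (hq : (9 / 5) ≤ q) (hq' : q ≤ (191 / 100))
    (hs : (1 + q) / 4 - 1 / 500 ≤ s) (hs' : s ≤ 201 / 200)
    (hn : (1 / 2) ≤ n) (hn' : n ≤ (5 / 6)) :
    0 ≤ Da (2 * (q - 1)) (23 / 20) (1 - s + 1 / 400) q s n (1 - (6 / 5) * n) 0 := by
  obtain ⟨t, ht, ht', rfl⟩ := s_exists hs hs' (by linarith)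
  have key : 0 ≤ ev3 (pDa 23 20 6 5 X2 U1) q t n := by
    exact Bx.spec r3a1_0 (by refine ⟨?_, ?_, ?_, ?_, ?_, ?_⟩ <;> (push_cast; linarith))
  have h := fin_a (by norm_num) (by norm_num) key
  rw [ev_X2, ev_U1] at h
  push_cast at h
  exact h

theorem r3b1_0 : (Bx.mk 180 191 100 0 1 1 3 5 6).ok
    (pDb 23 20 6 5 X2 U1) = true := by decide +kernel

theorem r3b1 (q s n : ℝ) (hq : (9 / 5) ≤ q) (hq' : q ≤ (191 / 100))
    (hs : (1 + q) / 4 - 1 / 500 ≤ s) (hs' : s ≤ 201 / 200)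
    (hn : (1 / 2) ≤ n) (hn' : n ≤ (5 / 6)) :
    0 ≤ Db (2 * (q - 1)) (23 / 20) (1 - s + 1 / 400) q s n (1 - (6 / 5) * n) 0 := by
  obtain ⟨t, ht, ht', rfl⟩ := s_exists hs hs' (by linarith)
  have key : 0 ≤ ev3 (pDb 23 20 6 5 X2 U1) q t n := by
    exact Bx.spec r3b1_0 (by refine ⟨?_, ?_, ?_, ?_, ?_, ?_⟩ <;> (push_cast; linarith))
  have h := fin_b (by norm_num) (by norm_num) key
  rw [ev_X2, ev_U1] at h
  push_cast at h
  exact h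

theorem r3c1_0 : (Bx.mk 180 191 100 0 1 1 3 5 6).ok
    (pDc 23 20 6 5 X2 U1) = true := by decide +kernel

theorem r3c1 (q s n : ℝ) (hq : (9 / 5) ≤ q) (hq' : q ≤ (191 / 100))
    (hs : (1 + q) / 4 - 1 / 500 ≤ s) (hs' : s ≤ 201 / 200)
    (hn : (1 / 2) ≤ n) (hn' : n ≤ (5 / 6)) :
    0 ≤ Dc (2 * (q - 1)) (23 / 20) (6 / 5) (1 - s + 1 / 400) q s n (1 - (6 / 5) * n) 0 := by
  obtain ⟨t, ht, ht', rfl⟩ := s_exists hs hs' (by linarith)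
  have key : 0 ≤ ev3 (pDc 23 20 6 5 X2 U1) q t n := by
    exact Bx.spec r3c1_0 (by refine ⟨?_, ?_, ?_, ?_, ?_, ?_⟩ <;> (push_cast; linarith))
  have h := fin_c (by norm_num) (by norm_num) key
  rw [ev_X2, ev_U1] at h
  push_cast at h
  exact h

theorem r4a0_0 : (Bx.mk 38 39 20 0 1 1 0 1 4).ok
    (pDa 28 25 59 50 X2 U0) = true := by decide +kernel

theorem r4a0_1 : (Bx.mk 38 39 20 0 1 1 1 2 4).ok
    (pDa 28 25 59 50 X2 U0) = true := by decide +kernel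

theorem r4a0 (q s n : ℝ) (hq : (19 / 10) ≤ q) (hq' : q ≤ (39 / 20))
    (hs : (1 + q) / 4 - 1 / 500 ≤ s) (hs' : s ≤ 201 / 200)
    (hn : 0 ≤ n) (hn' : n ≤ (1 / 2)) :
    0 ≤ Da (2 * (q - 1)) (28 / 25) (1 - s + 1 / 400) q s n (1 - (59 / 50) * n) (1 - 2 * n) := by
  obtain ⟨t, ht, ht', rfl⟩ := s_exists hs hs' (by linarith)
  have key : 0 ≤ ev3 (pDa 28 25 59 50 X2 U0) q t n := by
    rcases le_total n (1 / 4) with h | h
    · exact Bx.spec r4a0_0 (by refine ⟨?_, ?_, ?_, ?_, ?_, ?_⟩ <;> (push_cast; linarith))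
    · exact Bx.spec r4a0_1 (by refine ⟨?_, ?_, ?_, ?_, ?_, ?_⟩ <;> (push_cast; linarith))
  have h := fin_a (by norm_num) (by norm_num) key
  rw [ev_X2, ev_U0] at h
  push_cast at h
  exact h

theorem r4b0_0 : (Bx.mk 38 39 20 0 1 1 0 1 4).ok
    (pDb 28 25 59 50 X2 U0) = true := by decide +kernel

theorem r4b0_1 : (Bx.mk 38 39 20 0 1 1 1 2 4).ok
    (pDb 28 25 59 50 X2 U0) = true := by decide +kernel

theorem r4b0 (q s n : ℝ) (hq : (19 / 10) ≤ q) (hq' : q ≤ (39 / 20))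
    (hs : (1 + q) / 4 - 1 / 500 ≤ s) (hs' : s ≤ 201 / 200)
    (hn : 0 ≤ n) (hn' : n ≤ (1 / 2)) :
    0 ≤ Db (2 * (q - 1)) (28 / 25) (1 - s + 1 / 400) q s n (1 - (59 / 50) * n) (1 - 2 * n) := by
  obtain ⟨t, ht, ht', rfl⟩ := s_exists hs hs' (by linarith)
  have key : 0 ≤ ev3 (pDb 28 25 59 50 X2 U0) q t n := by
    rcases le_total n (1 / 4) with h | h
    · exact Bx.spec r4b0_0 (by refine ⟨?_, ?_, ?_, ?_, ?_, ?_⟩ <;> (push_cast; linarith))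
    · exact Bx.spec r4b0_1 (by refine ⟨?_, ?_, ?_, ?_, ?_, ?_⟩ <;> (push_cast; linarith))
  have h := fin_b (by norm_num) (by norm_num) key
  rw [ev_X2, ev_U0] at h
  push_cast at h
  exact h

theorem r4c0_0 : (Bx.mk 38 39 20 0 1 1 0 1 4).ok
    (pDc 28 25 59 50 X2 U0) = true := by decide +kernel

theorem r4c0_1 : (Bx.mk 38 39 20 0 1 1 2 3 8).ok
    (pDc 28 25 59 50 X2 U0) = true := by decide +kernel

theorem r4c0_2 : (Bx.mk 38 39 20 0 1 1 3 4 8).ok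
    (pDc 28 25 59 50 X2 U0) = true := by decide +kernel

theorem r4c0 (q s n : ℝ) (hq : (19 / 10) ≤ q) (hq' : q ≤ (39 / 20))
    (hs : (1 + q) / 4 - 1 / 500 ≤ s) (hs' : s ≤ 201 / 200)
    (hn : 0 ≤ n) (hn' : n ≤ (1 / 2)) :
    0 ≤ Dc (2 * (q - 1)) (28 / 25) (59 / 50) (1 - s + 1 / 400) q s n (1 - (59 / 50) * n) (1 - 2 * n) := by
  obtain ⟨t, ht, ht', rfl⟩ := s_exists hs hs' (by linarith)
  have key : 0 ≤ ev3 (pDc 28 25 59 50 X2 U0) q t n := by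
    rcases le_total n (1 / 4) with h | h
    · exact Bx.spec r4c0_0 (by refine ⟨?_, ?_, ?_, ?_, ?_, ?_⟩ <;> (push_cast; linarith))
    · rcases le_total n (3 / 8) with h | h
      · exact Bx.spec r4c0_1 (by refine ⟨?_, ?_, ?_, ?_, ?_, ?_⟩ <;> (push_cast; linarith))
      · exact Bx.spec r4c0_2 (by refine ⟨?_, ?_, ?_, ?_, ?_, ?_⟩ <;> (push_cast; linarith))
  have h := fin_c (by norm_num) (by norm_num) key
  rw [ev_X2, ev_U0] at h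
  push_cast at h
  exact h

theorem r4a1_0 : (Bx.mk 38 39 20 0 1 1 59 100 118).ok
    (pDa 28 25 59 50 X2 U1) = true := by decide +kernel

theorem r4a1 (q s n : ℝ) (hq : (19 / 10) ≤ q) (hq' : q ≤ (39 / 20))
    (hs : (1 + q) / 4 - 1 / 500 ≤ s) (hs' : s ≤ 201 / 200)
    (hn : (1 / 2) ≤ n) (hn' : n ≤ (50 / 59)) :
    0 ≤ Da (2 * (q - 1)) (28 / 25) (1 - s + 1 / 400) q s n (1 - (59 / 50) * n) 0 := by
  obtain ⟨t, ht, ht', rfl⟩ := s_exists hs hs' (by linarith)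
  have key : 0 ≤ ev3 (pDa 28 25 59 50 X2 U1) q t n := by
    exact Bx.spec r4a1_0 (by refine ⟨?_, ?_, ?_, ?_, ?_, ?_⟩ <;> (push_cast; linarith))
  have h := fin_a (by norm_num) (by norm_num) key
  rw [ev_X2, ev_U1] at h
  push_cast at h
  exact h

theorem r4b1_0 : (Bx.mk 38 39 20 0 1 1 59 100 118).ok
    (pDb 28 25 59 50 X2 U1) = true := by decide +kernel

theorem r4b1 (q s n : ℝ) (hq : (19 / 10) ≤ q) (hq' : q ≤ (39 / 20))
    (hs : (1 + q) / 4 - 1 / 500 ≤ s) (hs' : s ≤ 201 / 200)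
    (hn : (1 / 2) ≤ n) (hn' : n ≤ (50 / 59)) :
    0 ≤ Db (2 * (q - 1)) (28 / 25) (1 - s + 1 / 400) q s n (1 - (59 / 50) * n) 0 := by
  obtain ⟨t, ht, ht', rfl⟩ := s_exists hs hs' (by linarith)
  have key : 0 ≤ ev3 (pDb 28 25 59 50 X2 U1) q t n := by
    exact Bx.spec r4b1_0 (by refine ⟨?_, ?_, ?_, ?_, ?_, ?_⟩ <;> (push_cast; linarith))
  have h := fin_b (by norm_num) (by norm_num) key
  rw [ev_X2, ev_U1] at h
  push_cast at h
  exact h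

theorem r4c1_0 : (Bx.mk 38 39 20 0 1 1 59 100 118).ok
    (pDc 28 25 59 50 X2 U1) = true := by decide +kernel

theorem r4c1 (q s n : ℝ) (hq : (19 / 10) ≤ q) (hq' : q ≤ (39 / 20))
    (hs : (1 + q) / 4 - 1 / 500 ≤ s) (hs' : s ≤ 201 / 200)
    (hn : (1 / 2) ≤ n) (hn' : n ≤ (50 / 59)) :
    0 ≤ Dc (2 * (q - 1)) (28 / 25) (59 / 50) (1 - s + 1 / 400) q s n (1 - (59 / 50) * n) 0 := by
  obtain ⟨t, ht, ht', rfl⟩ := s_exists hs hs' (by linarith)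
  have key : 0 ≤ ev3 (pDc 28 25 59 50 X2 U1) q t n := by
    exact Bx.spec r4c1_0 (by refine ⟨?_, ?_, ?_, ?_, ?_, ?_⟩ <;> (push_cast; linarith))
  have h := fin_c (by norm_num) (by norm_num) key
  rw [ev_X2, ev_U1] at h
  push_cast at h
  exact h

end Pool.Agent.T6P
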