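import Pool.Agent.T6P.PolyBox3

/-!
# The certificate of the piece scheme: polynomial inequalities (MP_c6effb_co)

`Da`, `Db`, `Dc` are `σ (G n - G 0) + n W G 0` for the three functions `G` (multiplied by `W`) of
CertSum.lean; `q` = edges per vertex, `s` = weight of the independent sets, `n` = part of `A` which
is blocked. `pDa`, `pDb`, `pDc` are the same polynomials (times a constant) for the kernel, in the
variables `q`, `t`, `n`, where `s = L + t (U - L)`, `L = (1 + q) / 4 - 1 / 500`, `U = 201 / 200`.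
-/

set_option autoImplicit false

namespace Pool.Agent.T6P

theorem cparam {l u x : ℝ} (hlu : l < u) (h1 : l ≤ x) (h2 : x ≤ u) :
    ∃ t t' : ℝ, 0 ≤ t ∧ 0 ≤ t' ∧ t' = 1 - t ∧ x = l + (u - l) * t := by
  have h : 0 < u - l := by linarith
  refine ⟨(x - l) / (u - l), 1 - (x - l) / (u - l), div_nonneg (by linarith) h.le, ?_, rfl, ?_⟩
  · rw [sub_nonneg, div_le_one h]
    linarith
  · field_simp
    ring

/-- `(2 - X) z + (X - 1) z ^ 2` -/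
noncomputable def Iz (X z : ℝ) : ℝ := (2 - X) * z + (X - 1) * z ^ 2

/-- derivative of `Iz` -/
noncomputable def Jz (X z : ℝ) : ℝ := (2 - X) + 2 * (X - 1) * z

/-- `W F` for `z = (1 - c n)_+`, `u = (1 - 2 n)_+` -/
noncomputable def WF (X g q s n z u : ℝ) : ℝ :=
  (1 - n) * ((1 + q - s) * Iz X z - g / 2 * s * Jz X z * u ^ 2)

/-- condition (a) -/
noncomputable def Da (X g t q s n z u : ℝ) : ℝ :=
  s * (g * WF X g q s n z u - g * WF X g q s 0 1 1)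
    + n * (1 + q - s) * (g * WF X g q s 0 1 1 - t * (1 + q - s))

/-- condition (b) -/
noncomputable def Db (X g t q s n z u : ℝ) : ℝ :=
  s * ((s * WF X g q s n z u
      - t * ((1 + q - s) * (1 - Iz X z) + g / 2 * s * Jz X z * (1 - n) * u))
    - (s * WF X g q s 0 1 1 - t * (g / 2 * s * X)))
    + n * (1 + q - s) * (s * WF X g q s 0 1 1 - t * (g / 2 * s * X))

/-- condition (c) -/
noncomputable def Dc (X g c t q s n z u : ℝ) : ℝ :=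
  s * (((c - s) * WF X g q s n z u - t * (1 + q - s) * Iz X z)
    - ((c - s) * WF X g q s 0 1 1 - t * (1 + q - s)))
    + n * (1 + q - s) * ((c - s) * WF X g q s 0 1 1 - t * (1 + q - s))

open Pool.Agent.T6A.PolyBox PB3

/-- difference -/
def sub3 (p q : P3) : P3 := add3 p (mul3 (cst (-1)) q)

theorem ev3_sub (p q : P3) (x y z : ℝ) : ev3 (sub3 p q) x y z = ev3 p x y z - ev3 q x y z := by
  rw [sub3, ev3_add, ev3_mul, ev3_cst]
  push_cast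
  ring

/-- `2000 s` -/
def S2 : P3 := add3 (mul3 (add3 (mul3 (cst 500) vx) (cst 496)) (sub3 (cst 1) vy))
  (mul3 (cst 2010) vy)
/-- `2000 W` -/
def W2 : P3 := sub3 (mul3 (cst 2000) (add3 (cst 1) vx)) S2
/-- `2000 t` for `t = 1 - s + 1 / 400` -/
def T2 : P3 := sub3 (cst 2005) S2
/-- `cd (1 - c n)` -/
def Zp (cn cd : ℤ) : P3 := sub3 (cst cd) (mul3 (cst cn) vz)
/-- `cd ^ 2 Iz` -/
def Ip (cn cd : ℤ) (X : P3) : P3 :=
  add3 (mul3 (sub3 (cst 2) X) (mul3 (cst cd) (Zp cn cd)))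
    (mul3 (sub3 X (cst 1)) (pow3 (Zp cn cd) 2))
/-- `cd Jz` -/
def Jp (cn cd : ℤ) (X : P3) : P3 :=
  add3 (mul3 (sub3 (cst 2) X) (cst cd)) (mul3 (mul3 (cst 2) (sub3 X (cst 1))) (Zp cn cd))
/-- `2000 WF 2 gd cd ^ 2` -/
def Ap (gn gd cn cd : ℤ) (X U : P3) : P3 :=
  mul3 (sub3 (cst 1) vz) (sub3 (mul3 (mul3 (cst (2 * gd)) W2) (Ip cn cd X))
    (mul3 (mul3 (cst (gn * cd)) S2) (mul3 (Jp cn cd X) (pow3 U 2))))
/-- the same at `n = 0` -/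
def A0 (gn gd cd : ℤ) (X : P3) : P3 :=
  sub3 (mul3 (cst (2 * gd * cd ^ 2)) W2) (mul3 (cst (gn * cd ^ 2)) (mul3 S2 X))
/-- `2 gd cd ^ 2 (W2 (1 - I) + (g / 2) s2 J (1 - n) u)` -/
def Bp (gn gd cn cd : ℤ) (X U : P3) : P3 :=
  add3 (mul3 (mul3 (cst (2 * gd)) W2) (sub3 (cst (cd ^ 2)) (Ip cn cd X)))
    (mul3 (mul3 (cst (gn * cd)) S2) (mul3 (Jp cn cd X) (mul3 (sub3 (cst 1) vz) U)))
/-- the same at `n = 0` -/
def B0 (gn cd : ℤ) (X : P3) : P3 := mul3 (cst (gn * cd ^ 2)) (mul3 S2 X)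
/-- `2000 cd (c - s)` -/
def Cs (cn cd : ℤ) : P3 := sub3 (cst (2000 * cn)) (mul3 (cst cd) S2)

/-- (a) for the kernel -/
def pDa (gn gd cn cd : ℤ) (X U : P3) : P3 :=
  add3 (mul3 (mul3 (cst (2000 * gn)) S2) (sub3 (Ap gn gd cn cd X U) (A0 gn gd cd X)))
    (mul3 (mul3 vz W2) (sub3 (mul3 (cst (2000 * gn)) (A0 gn gd cd X))
      (mul3 (cst (2 * gd ^ 2 * cd ^ 2)) (mul3 T2 W2))))
/-- (b) for the kernel -/
def pDb (gn gd cn cd : ℤ) (X U : P3) : P3 :=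
  add3 (mul3 S2 (sub3 (sub3 (mul3 S2 (Ap gn gd cn cd X U)) (mul3 T2 (Bp gn gd cn cd X U)))
      (sub3 (mul3 S2 (A0 gn gd cd X)) (mul3 T2 (B0 gn cd X)))))
    (mul3 (mul3 vz W2) (sub3 (mul3 S2 (A0 gn gd cd X)) (mul3 T2 (B0 gn cd X))))
/-- (c) for the kernel -/
def pDc (gn gd cn cd : ℤ) (X U : P3) : P3 :=
  add3 (mul3 S2 (sub3 (sub3 (mul3 (Cs cn cd) (Ap gn gd cn cd X U))
        (mul3 (cst (2 * gd * cd)) (mul3 (mul3 T2 W2) (Ip cn cd X))))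
      (sub3 (mul3 (Cs cn cd) (A0 gn gd cd X)) (mul3 (cst (2 * gd * cd ^ 3)) (mul3 T2 W2)))))
    (mul3 (mul3 vz W2) (sub3 (mul3 (Cs cn cd) (A0 gn gd cd X))
      (mul3 (cst (2 * gd * cd ^ 3)) (mul3 T2 W2))))

/-- `s` as a function of `q` and `t` -/
noncomputable def sOf (q t : ℝ) : ℝ := ((500 * q + 496) * (1 - t) + 2010 * t) / 2000

theorem link_a (gn gd cn cd : ℤ) (hg : gd ≠ 0) (hc : cd ≠ 0) (X U : P3) (q t n : ℝ) :
    ev3 (pDa gn gd cn cd X U) q t n = 2000 ^ 3 * (2 * (gd : ℝ) ^ 2 * (cd : ℝ) ^ 2) *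
      Da (ev3 X q t n) (gn / gd) (1 - sOf q t + 1 / 400) q (sOf q t) n (1 - cn / cd * n)
        (ev3 U q t n) := by
  have hg' : (gd : ℝ) ≠ 0 := by exact_mod_cast hg
  have hc' : (cd : ℝ) ≠ 0 := by exact_mod_cast hc
  simp only [pDa, Ap, A0, Ip, Jp, Zp, S2, W2, T2, ev3_add, ev3_mul, ev3_sub, ev3_pow, ev3_cst,
    ev3_vx, ev3_vy, ev3_vz]
  unfold Da WF Iz Jz sOf
  push_cast
  field_simp
  ring

theorem link_b (gn gd cn cd : ℤ) (hg : gd ≠ 0) (hc : cd ≠ 0) (X U : P3) (q t n : ℝ) :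
    ev3 (pDb gn gd cn cd X U) q t n = 2000 ^ 3 * (2 * (gd : ℝ) * (cd : ℝ) ^ 2) *
      Db (ev3 X q t n) (gn / gd) (1 - sOf q t + 1 / 400) q (sOf q t) n (1 - cn / cd * n)
        (ev3 U q t n) := by
  have hg' : (gd : ℝ) ≠ 0 := by exact_mod_cast hg
  have hc' : (cd : ℝ) ≠ 0 := by exact_mod_cast hc
  simp only [pDb, Ap, A0, Bp, B0, Ip, Jp, Zp, S2, W2, T2, ev3_add, ev3_mul, ev3_sub, ev3_pow,
    ev3_cst, ev3_vx, ev3_vy, ev3_vz]
  unfold Db WF Iz Jz sOf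
  push_cast
  field_simp
  ring

theorem link_c (gn gd cn cd : ℤ) (hg : gd ≠ 0) (hc : cd ≠ 0) (X U : P3) (q t n : ℝ) :
    ev3 (pDc gn gd cn cd X U) q t n = 2000 ^ 3 * (2 * (gd : ℝ) * (cd : ℝ) ^ 3) *
      Dc (ev3 X q t n) (gn / gd) (cn / cd) (1 - sOf q t + 1 / 400) q (sOf q t) n
        (1 - cn / cd * n) (ev3 U q t n) := by
  have hg' : (gd : ℝ) ≠ 0 := by exact_mod_cast hg
  have hc' : (cd : ℝ) ≠ 0 := by exact_mod_cast hc
  simp only [pDc, Ap, A0, Cs, Ip, Jp, Zp, S2, W2, T2, ev3_add, ev3_mul, ev3_sub, ev3_pow,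
    ev3_cst, ev3_vx, ev3_vy, ev3_vz]
  unfold Dc WF Iz Jz sOf
  push_cast
  field_simp
  ring

/-- a box for the kernel -/
structure Bx where
  /-- bounds `[a / c, b / c]` for `q` -/
  a : ℤ
  /-- upper -/
  b : ℤ
  /-- denominator -/
  c : ℤ
  /-- bounds for `t` -/
  a' : ℤ
  /-- upper -/
  b' : ℤ
  /-- denominator -/
  c' : ℤ
  /-- bounds for `n` -/
  a'' : ℤ
  /-- upper -/
  b'' : ℤ
  /-- denominator -/
  c'' : ℤ

/-- `(q, t, n)` lies in the box -/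
def Bx.mem (B : Bx) (q t n : ℝ) : Prop :=
  (B.a : ℝ) ≤ B.c * q ∧ (B.c : ℝ) * q ≤ B.b ∧ (B.a' : ℝ) ≤ B.c' * t ∧ (B.c' : ℝ) * t ≤ B.b' ∧
    (B.a'' : ℝ) ≤ B.c'' * n ∧ (B.c'' : ℝ) * n ≤ B.b''

/-- the check -/
def Bx.ok (B : Bx) (p : P3) : Bool := ok3 B.a B.b B.c B.a' B.b' B.c' B.a'' B.b'' B.c'' p

theorem Bx.spec {B : Bx} {p : P3} (h : B.ok p = true) {q t n : ℝ} (hm : B.mem q t n) :
    0 ≤ ev3 p q t n :=
  ok3_spec h hm.1 hm.2.1 hm.2.2.1 hm.2.2.2.1 hm.2.2.2.2.1 hm.2.2.2.2.2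

end Pool.Agent.T6P
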