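import Pool.Agent.T6A.Reg

/-!
# Cluster structure with clusters which are sparse inside (MP_c6effb_co, piece scheme)

`Clus2` is `Clus` (`Reg.lean`) with irreflexive `Bd`: the pairs `i = j` are sparse too. Proof of `reg2`: take `reg` with a
tiny parameter and split every cluster `C` into neighbourhoods `N(v) ∩ C` (independent, as `H` is triangle-free) of size
at least `d |C|`, until the rest has maximum degree below `d |C|`.
-/

set_option autoImplicit false

namespace Pool.Agent.T6P

open Finset Classical Pool.Agent.T6A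

/-- Cluster structure of `H`: `F` = blocked pairs, `Bd` = bad pairs (irreflexive). -/
structure Clus2 {W : Type} [Fintype W] (H : SimpleGraph W) (ε : ℝ) (M : ℕ) where
  ι : Type
  ft : Fintype ι
  C : ι → Finset W
  F : SimpleGraph ι
  Bd : ι → ι → Prop
  few : Fintype.card ι ≤ M
  disj : ∀ i j, i ≠ j → Disjoint (C i) (C j)
  big : ∀ i, (Fintype.card W : ℝ) ≤ 2 * M * (C i).card
  tot : (1 - ε) * (Fintype.card W : ℝ) ≤ ∑ i, ((C i).card : ℝ)
  tri : F.CliqueFree 3
  birr : ∀ i, ¬ Bd i i
  bsymm : ∀ i j, Bd i j → Bd j i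
  small : ∀ i, ((C i).card : ℝ) ≤ ε * Fintype.card W
  bsmall : ∀ i, ∑ j ∈ univ.filter (fun j => Bd i j), ((C j).card : ℝ) ≤ ε * Fintype.card W
  sparse : ∀ i j, ¬ F.Adj i j → ¬ Bd i j → (ed H (C i) (C j) : ℝ) ≤ ε * ((C i).card * (C j).card)
  dense : ∀ i j, F.Adj i j → ∀ S ⊆ C i, ∀ T ⊆ C j, ε * (C i).card ≤ (S.card : ℝ) →
    ε * (C j).card ≤ (T.card : ℝ) → ∃ x ∈ S, ∃ y ∈ T, H.Adj x y

/-- The ordinary cluster structure with the same clusters (`Bd` made reflexive). -/
noncomputable def Clus2.clus {W : Type} [Fintype W] {H : SimpleGraph W} {ε : ℝ} {M : ℕ} (S : Clus2 H ε M)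
    (hε : 0 ≤ ε) : Clus H (2 * ε) M where
  ι := S.ι
  ft := S.ft
  C := S.C
  F := S.F
  Bd := fun i j => i = j ∨ S.Bd i j
  few := S.few
  disj := S.disj
  big := S.big
  tot := le_trans (mul_le_mul_of_nonneg_right (by linarith) (Nat.cast_nonneg _)) S.tot
  tri := S.tri
  brefl := fun i => Or.inl rfl
  bsymm := fun i j h => h.elim (fun h => Or.inl h.symm) fun h => Or.inr (S.bsymm i j h)
  bsmall := by
    intro i
    let _ := S.ft
    have h1 := S.bsmall i
    have h2 := S.small i
    have h3 : ∑ j ∈ univ.filter (fun j => i = j ∨ S.Bd i j), ((S.C j).card : ℝ) ≤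
        ∑ j ∈ univ.filter (fun j => i = j), ((S.C j).card : ℝ) +
          ∑ j ∈ univ.filter (fun j => S.Bd i j), ((S.C j).card : ℝ) := by
      rw [filter_or, ← sum_union_inter]
      have : (0 : ℝ) ≤ ∑ j ∈ univ.filter (fun j => i = j) ∩ univ.filter (fun j => S.Bd i j),
          ((S.C j).card : ℝ) := sum_nonneg fun j _ => Nat.cast_nonneg _
      linarith
    have h4 : ∑ j ∈ univ.filter (fun j => i = j), ((S.C j).card : ℝ) = (S.C i).card := by
      rw [filter_eq, if_pos (mem_univ i), sum_singleton]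
    rw [h4] at h3
    have h5 : (S.C i).card + ∑ j ∈ univ.filter (fun j => S.Bd i j), ((S.C j).card : ℝ) ≤
        2 * ε * Fintype.card W := by linarith
    have h6 := h3.trans h5
    refine le_trans (le_of_eq ?_) h6
    congr 1
    ext j
    simp only [mem_filter]
  sparse := by
    intro i j h1 h2
    have h3 := S.sparse i j h1 fun h => h2 (Or.inr h)
    have h4 : (0 : ℝ) ≤ ((S.C i).card : ℝ) * (S.C j).card := by positivity
    nlinarith
  dense := by
    intro i j h P hP T hT hPc hTc
    refine S.dense i j h P hP T hT (le_trans ?_ hPc) (le_trans ?_ hTc)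
    · have : (0 : ℝ) ≤ (S.C i).card := Nat.cast_nonneg _
      nlinarith
    · have : (0 : ℝ) ≤ (S.C j).card := Nat.cast_nonneg _
      nlinarith

section peel

variable {W : Type} {H : SimpleGraph W}

/-- The neighbours of `v` in `S`. -/
noncomputable def nbs (H : SimpleGraph W) (S : Finset W) (v : W) : Finset W := S.filter fun u => H.Adj v u

theorem nbs_indep (hH : H.CliqueFree 3) (S : Finset W) (v x y : W) (hx : x ∈ nbs H S v)
    (hy : y ∈ nbs H S v) : ¬ H.Adj x y := by
  intro h
  have h1 := (mem_filter.1 hx).2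
  have h2 := (mem_filter.1 hy).2
  exact hH {v, x, y} (SimpleGraph.is3Clique_triple_iff.2 ⟨h1, h2, h⟩)

/-- Peeling: `S` is split into independent sets of size at least `t` and a rest of small maximum degree. -/
theorem peel (hH : H.CliqueFree 3) {t : ℝ} (ht : 0 < t) (n : ℕ) : ∀ S : Finset W, S.card ≤ n →
    ∃ (P : Finset (Finset W)) (R : Finset W), R ⊆ S ∧ (∀ p ∈ P, p ⊆ S ∧ Disjoint p R ∧ t ≤ (p.card : ℝ) ∧
      ∀ x ∈ p, ∀ y ∈ p, ¬ H.Adj x y) ∧ (∀ p ∈ P, ∀ p' ∈ P, p ≠ p' → Disjoint p p') ∧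
      (∀ v ∈ R, ((nbs H R v).card : ℝ) < t) ∧ ∑ p ∈ P, p.card + R.card = S.card := by
  induction n with
  | zero =>
    intro S hS
    have : S = ∅ := card_eq_zero.1 (by omega)
    subst this
    exact ⟨∅, ∅, by simp, by simp, by simp, by simp, by simp⟩
  | succ n ih =>
    intro S hS
    by_cases h : ∀ v ∈ S, ((nbs H S v).card : ℝ) < t
    · exact ⟨∅, S, subset_rfl, by simp, by simp, h, by simp⟩
    · push Not at h
      obtain ⟨v, hv, hvt⟩ := h
      set p := nbs H S v with hp
      have hps : p ⊆ S := filter_subset _ _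
      have hpc : 0 < p.card := by
        have : (0 : ℝ) < p.card := lt_of_lt_of_le ht hvt
        exact_mod_cast this
      have hc : (S \ p).card + p.card = S.card := card_sdiff_add_card_eq_card hps
      obtain ⟨P, R, hRS, hP, hPP, hR, hs⟩ := ih (S \ p) (by omega)
      have hnot : ∀ p' ∈ P, Disjoint p p' := fun p' hp' =>
        disjoint_sdiff.mono_right (hP p' hp').1
      have hpP : p ∉ P := by
        intro hh
        have h1 := hnot p hh
        rw [disjoint_self, bot_eq_empty] at h1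
        rw [h1, card_empty] at hpc
        omega
      refine ⟨insert p P, R, hRS.trans sdiff_subset, ?_, ?_, hR, ?_⟩
      · intro p' hp'
        rcases mem_insert.1 hp' with rfl | h1
        · exact ⟨hps, (disjoint_sdiff.mono_right hRS), hvt, fun x hx y hy =>
            nbs_indep hH S v x y hx hy⟩
        · obtain ⟨a1, a2, a3, a4⟩ := hP p' h1
          exact ⟨a1.trans sdiff_subset, a2, a3, a4⟩
      · intro p1 h1 p2 h2 hne
        rcases mem_insert.1 h1 with rfl | h1' <;> rcases mem_insert.1 h2 with rfl | h2'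
        · exact absurd rfl hne
        · exact hnot p2 h2'
        · exact (hnot p1 h1').symm
        · exact hPP p1 h1' p2 h2' hne
      · rw [sum_insert hpP]
        omega

/-- The pieces of a cluster. -/
theorem pieces (hH : H.CliqueFree 3) {ε : ℝ} (hε : 0 < ε) (hε1 : ε ≤ 1) (S : Finset W)
    (hS : 0 < S.card) : ∃ P : Finset (Finset W), (∀ p ∈ P, p ⊆ S ∧ ε ^ 2 / 4 * S.card ≤ (p.card : ℝ) ∧
      (ed H p p : ℝ) ≤ ε * (p.card * p.card)) ∧ (∀ p ∈ P, ∀ p' ∈ P, p ≠ p' → Disjoint p p') ∧
      (1 - ε / 2) * (S.card : ℝ) ≤ ∑ p ∈ P, (p.card : ℝ) ∧ (∑ p ∈ P, (p.card : ℝ)) ≤ S.card := by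
  have hS' : (0 : ℝ) < S.card := by exact_mod_cast hS
  have ht : 0 < ε ^ 2 / 4 * (S.card : ℝ) := by positivity
  obtain ⟨P, R, hRS, hP, hPP, hR, hs⟩ := peel hH ht S.card S le_rfl
  have hs' : ∑ p ∈ P, (p.card : ℝ) + R.card = S.card := by
    rw [← hs]; push_cast; rfl
  have hind : ∀ p ∈ P, (ed H p p : ℝ) ≤ ε * (p.card * p.card) := by
    intro p hp
    have h1 : ed H p p = 0 := by
      unfold ed
      rw [card_eq_zero, filter_eq_empty_iff]
      rintro ⟨x, y⟩ hxy
      exact (hP p hp).2.2.2 x (mem_product.1 hxy).1 y (mem_product.1 hxy).2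
    rw [h1, Nat.cast_zero]
    positivity
  by_cases hb : ε / 2 * (S.card : ℝ) ≤ R.card
  · have hR0 : 0 < R.card := by
      have : (0 : ℝ) < R.card := lt_of_lt_of_le (by positivity) hb
      exact_mod_cast this
    have hRP : R ∉ P := by
      intro hh
      have h1 := (hP R hh).2.1
      rw [disjoint_self, bot_eq_empty] at h1
      rw [h1, card_empty] at hR0
      omega
    refine ⟨insert R P, ?_, ?_, ?_, ?_⟩
    · intro p hp
      rcases mem_insert.1 hp with rfl | h1
      · refine ⟨hRS, le_trans ?_ hb, ?_⟩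
        · apply mul_le_mul_of_nonneg_right _ hS'.le
          nlinarith
        · have h2 : (ed H p p : ℝ) ≤ p.card * (ε ^ 2 / 4 * (S.card : ℝ)) := by
            have h3 : ed H p p = ∑ x ∈ p, (nbs H p x).card := by
              unfold ed nbs
              rw [card_filter, sum_product]
              apply sum_congr rfl
              intro x _
              rw [card_filter]
            rw [h3]
            push_cast
            rw [← nsmul_eq_mul]
            apply sum_le_card_nsmul
            intro x hx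
            exact (hR x hx).le
          refine h2.trans ?_
          have h4 : (0 : ℝ) ≤ p.card := Nat.cast_nonneg _
          have h5 : ε ^ 2 / 4 * (S.card : ℝ) ≤ ε / 2 * p.card := by nlinarith
          calc (p.card : ℝ) * (ε ^ 2 / 4 * (S.card : ℝ)) ≤ p.card * (ε / 2 * p.card) :=
                mul_le_mul_of_nonneg_left h5 h4
            _ ≤ ε * (p.card * p.card) := by nlinarith [mul_nonneg h4 h4]
      · obtain ⟨a1, a2, a3, a4⟩ := hP p h1
        exact ⟨a1, a3, hind p h1⟩
    · intro p1 h1 p2 h2 hne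
      rcases mem_insert.1 h1 with rfl | h1' <;> rcases mem_insert.1 h2 with rfl | h2'
      · exact absurd rfl hne
      · exact (hP p2 h2').2.1.symm
      · exact (hP p1 h1').2.1
      · exact hPP p1 h1' p2 h2' hne
    · rw [sum_insert hRP]
      nlinarith
    · rw [sum_insert hRP]
      linarith
  · push Not at hb
    refine ⟨P, fun p hp => ⟨(hP p hp).1, (hP p hp).2.2.1, hind p hp⟩, hPP, ?_, ?_⟩
    · linarith
    · have : (0 : ℝ) ≤ R.card := Nat.cast_nonneg _
      linarith

end peel

/-- **Regularity with clusters sparse inside.** -/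
theorem reg2 (ε : ℝ) (hε : 0 < ε) (hε1 : ε ≤ 1 / 8) : ∃ M : ℕ, ∃ n0 : ℕ, ∀ (W : Type) [Fintype W]
    (H : SimpleGraph W), H.CliqueFree 3 → n0 ≤ Fintype.card W → Nonempty (Clus2 H ε M) := by
  set d : ℝ := ε ^ 2 / 4 with hd
  have hd0 : 0 < d := by positivity
  have hd1 : d ≤ 1 := by rw [hd]; nlinarith
  set ε0 : ℝ := ε * d ^ 2 / 2 with hε0
  have hε00 : 0 < ε0 := by positivity
  have hd2 : d ^ 2 ≤ 1 := by nlinarith
  have hε01 : ε0 ≤ ε / 2 := by rw [hε0]; nlinarith
  obtain ⟨M0, n0, hreg⟩ := reg ε0 hε00 (by linarith)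
  refine ⟨M0 * (⌈1 / d⌉₊ + 1), max n0 1, ?_⟩
  intro W _ H hH hn
  obtain ⟨K⟩ := hreg W H hH ((le_max_left _ _).trans hn)
  have hn1 : 0 < Fintype.card W := lt_of_lt_of_le Nat.one_pos ((le_max_right _ _).trans hn)
  have hnR : (0 : ℝ) < Fintype.card W := by exact_mod_cast hn1
  let _ := K.ft
  have hM0 : (0 : ℝ) ≤ M0 := Nat.cast_nonneg _
  have hCpos : ∀ i, 0 < (K.C i).card := by
    intro i
    rcases Nat.eq_zero_or_pos (K.C i).card with h | h
    · exfalso
      have h1 := K.big i
      rw [h, Nat.cast_zero, mul_zero] at h1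
      linarith
    · exact h
  choose P hP1 hP2 hP3 hP4 using fun i => pieces hH hε (by linarith) (K.C i) (hCpos i)
  have hceil : (1 / d : ℝ) ≤ (⌈1 / d⌉₊ : ℝ) := Nat.le_ceil _
  have hcard : ∀ i, (P i).card ≤ ⌈1 / d⌉₊ := by
    intro i
    have h1 : ((P i).card : ℝ) * (d * (K.C i).card) ≤ ∑ p ∈ P i, (p.card : ℝ) := by
      rw [← nsmul_eq_mul]
      exact card_nsmul_le_sum _ _ _ fun p hp => (hP1 i p hp).2.1
    have h2 : (0 : ℝ) < (K.C i).card := by exact_mod_cast hCpos i
    have h3 := h1.trans (hP4 i)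
    have h4 : ((P i).card : ℝ) * d ≤ 1 := by
      by_contra hh
      push Not at hh
      nlinarith
    have h5 : ((P i).card : ℝ) ≤ 1 / d := by
      rw [le_div_iff₀ hd0]
      exact h4
    exact_mod_cast h5.trans hceil
  have hsub : ∀ (a : Σ i, {p // p ∈ P i}), a.2.1 ⊆ K.C a.1 := fun a => (hP1 a.1 a.2.1 a.2.2).1
  have hsize : ∀ (a : Σ i, {p // p ∈ P i}), d * (K.C a.1).card ≤ (a.2.1.card : ℝ) := fun a =>
    (hP1 a.1 a.2.1 a.2.2).2.1
  refine ⟨{ ι := Σ i, {p // p ∈ P i}, ft := inferInstance, C := fun a => a.2.1,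
            F := K.F.comap (fun a => a.1),
            Bd := fun a b => a ≠ b ∧ (a.1 = b.1 ∨ K.Bd a.1 b.1),
            few := ?_, disj := ?_, big := ?_, tot := ?_, tri := ?_,
            birr := ?_, bsymm := ?_, small := ?_, bsmall := ?_, sparse := ?_, dense := ?_ }⟩
  · rw [Fintype.card_sigma]
    calc ∑ i, Fintype.card {p // p ∈ P i} ≤ ∑ _i : K.ι, (⌈1 / d⌉₊ + 1) := by
          apply sum_le_sum
          intro i _
          rw [Fintype.card_coe]
          exact (hcard i).trans (Nat.le_succ _)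
      _ = Fintype.card K.ι * (⌈1 / d⌉₊ + 1) := by rw [sum_const, card_univ, smul_eq_mul]
      _ ≤ _ := Nat.mul_le_mul_right _ K.few
  · rintro ⟨i, p, hp⟩ ⟨j, p', hp'⟩ hne
    by_cases hij : i = j
    · subst hij
      apply hP2 i p hp p' hp'
      rintro rfl
      exact hne rfl
    · exact (K.disj i j hij).mono (hP1 i p hp).1 (hP1 j p' hp').1
  · intro a
    have h1 := K.big a.1
    have h2 := hsize a
    have h3 : (0 : ℝ) ≤ a.2.1.card := Nat.cast_nonneg _
    push_cast
    have h4 : ((K.C a.1).card : ℝ) ≤ (1 / d) * a.2.1.card := by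
      rw [one_div, ← div_eq_inv_mul, le_div_iff₀ hd0]
      linarith
    calc (Fintype.card W : ℝ) ≤ 2 * M0 * (K.C a.1).card := h1
      _ ≤ 2 * M0 * ((1 / d) * a.2.1.card) := mul_le_mul_of_nonneg_left h4 (by positivity)
      _ ≤ 2 * M0 * ((⌈1 / d⌉₊ + 1) * a.2.1.card) := by
          apply mul_le_mul_of_nonneg_left _ (by positivity)
          apply mul_le_mul_of_nonneg_right _ h3
          linarith
      _ = _ := by ring
  · have h1 := K.tot
    rw [Fintype.sum_sigma]
    have h2 : ∀ i, (1 - ε / 2) * ((K.C i).card : ℝ) ≤ ∑ p : {p // p ∈ P i}, (p.1.card : ℝ) := by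
      intro i
      rw [Finset.sum_coe_sort (P i) fun p => (p.card : ℝ)]
      exact hP3 i
    calc (1 - ε) * (Fintype.card W : ℝ) ≤ (1 - ε / 2) * ((1 - ε0) * (Fintype.card W : ℝ)) := by
          rw [← mul_assoc]
          apply mul_le_mul_of_nonneg_right _ hnR.le
          nlinarith
      _ ≤ (1 - ε / 2) * ∑ i, ((K.C i).card : ℝ) :=
          mul_le_mul_of_nonneg_left h1 (by linarith)
      _ = ∑ i, (1 - ε / 2) * ((K.C i).card : ℝ) := by rw [mul_sum]
      _ ≤ _ := sum_le_sum fun i _ => h2 i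
  · intro s hs
    obtain ⟨a, b, c, hab, hac, hbc, rfl⟩ := SimpleGraph.is3Clique_iff.1 hs
    exact K.tri {a.1, b.1, c.1} (SimpleGraph.is3Clique_triple_iff.2 ⟨hab, hac, hbc⟩)
  · intro a h
    exact h.1 rfl
  · rintro a b ⟨h1, h2⟩
    refine ⟨h1.symm, ?_⟩
    rcases h2 with h | h
    · exact Or.inl h.symm
    · exact Or.inr (K.bsymm _ _ h)
  · intro a
    have h1 := K.bsmall a.1
    have h2 : ((K.C a.1).card : ℝ) ≤ ∑ j ∈ univ.filter (fun j => K.Bd a.1 j), ((K.C j).card : ℝ) :=
      single_le_sum (f := fun j => ((K.C j).card : ℝ)) (fun j _ => Nat.cast_nonneg _)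
        (mem_filter.2 ⟨mem_univ _, K.brefl a.1⟩)
    have h3 : (a.2.1.card : ℝ) ≤ (K.C a.1).card := by exact_mod_cast card_le_card (hsub a)
    refine h3.trans (h2.trans (h1.trans ?_))
    apply mul_le_mul_of_nonneg_right _ hnR.le
    linarith
  · intro a
    have h1 := K.bsmall a.1
    have h2 : ∑ b : (Σ i, {p // p ∈ P i}), (if (a ≠ b ∧ (a.1 = b.1 ∨ K.Bd a.1 b.1)) then (b.2.1.card : ℝ)
        else 0) ≤ ∑ b : (Σ i, {p // p ∈ P i}), if K.Bd a.1 b.1 then (b.2.1.card : ℝ) else 0 := by
      apply sum_le_sum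
      intro b _
      by_cases hb : K.Bd a.1 b.1
      · rw [if_pos hb]
        split_ifs
        · exact le_rfl
        · exact Nat.cast_nonneg _
      · rw [if_neg hb, if_neg]
        rintro ⟨-, h | h⟩
        · apply hb
          rw [← h]
          exact K.brefl _
        · exact hb h
    rw [sum_filter]
    refine le_trans (le_of_eq (sum_congr rfl fun b _ => ?_)) (h2.trans (le_trans ?_ (h1.trans ?_)))
    · congr
    · rw [Fintype.sum_sigma, sum_filter]
      apply sum_le_sum
      intro j _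
      by_cases hj : K.Bd a.1 j
      · simp only [if_pos hj]
        rw [Finset.sum_coe_sort (P j) fun p => (p.card : ℝ)]
        exact hP4 j
      · simp only [if_neg hj, sum_const_zero, le_refl]
    · apply mul_le_mul_of_nonneg_right _ hnR.le
      linarith
  · intro a b hF hB
    by_cases hab : a = b
    · subst hab
      exact (hP1 a.1 a.2.1 a.2.2).2.2
    · have hne : a.1 ≠ b.1 := fun h => hB ⟨hab, Or.inl h⟩
      have hBd : ¬ K.Bd a.1 b.1 := fun h => hB ⟨hab, Or.inr h⟩
      have h1 := K.sparse a.1 b.1 hF hBd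
      have h2 : (ed H a.2.1 b.2.1 : ℝ) ≤ ed H (K.C a.1) (K.C b.1) := by
        have : ed H a.2.1 b.2.1 ≤ ed H (K.C a.1) (K.C b.1) := by
          unfold ed
          exact card_le_card (filter_subset_filter _ (product_subset_product (hsub a) (hsub b)))
        exact_mod_cast this
      have h3 := hsize a
      have h4 := hsize b
      have h5 : (0 : ℝ) ≤ (K.C a.1).card := Nat.cast_nonneg _
      have h6 : (0 : ℝ) ≤ (K.C b.1).card := Nat.cast_nonneg _
      have h7 : (d * (K.C a.1).card) * (d * (K.C b.1).card) ≤ (a.2.1.card : ℝ) * b.2.1.card :=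
        mul_le_mul h3 h4 (by positivity) (Nat.cast_nonneg _)
      have h8 : (0 : ℝ) ≤ (a.2.1.card : ℝ) * b.2.1.card := by positivity
      calc (ed H a.2.1 b.2.1 : ℝ) ≤ ε0 * ((K.C a.1).card * (K.C b.1).card) := h2.trans h1
        _ = ε / 2 * ((d * (K.C a.1).card) * (d * (K.C b.1).card)) := by
            have e1 : ε0 = ε * d ^ 2 / 2 := hε0
            linear_combination ((K.C a.1).card * (K.C b.1).card : ℝ) * e1
        _ ≤ ε / 2 * ((a.2.1.card : ℝ) * b.2.1.card) := mul_le_mul_of_nonneg_left h7 (by linarith)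
        _ ≤ ε * ((a.2.1.card : ℝ) * b.2.1.card) := mul_le_mul_of_nonneg_right (by linarith) h8
  · intro a b hF S hS T hT hSc hTc
    have hdd : ε0 ≤ ε * d := by
      rw [hε0]
      nlinarith
    have h5 : (0 : ℝ) ≤ (K.C a.1).card := Nat.cast_nonneg _
    have h6 : (0 : ℝ) ≤ (K.C b.1).card := Nat.cast_nonneg _
    refine K.dense a.1 b.1 hF S (hS.trans (hsub a)) T (hT.trans (hsub b)) ?_ ?_
    · refine le_trans ?_ hSc
      have h3 := hsize a
      nlinarith
    · refine le_trans ?_ hTc
      have h3 := hsize b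
      nlinarith

end Pool.Agent.T6P
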