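import Pool.Agent.T6P.MkLowP

/-!
# The core statement follows from the low problem of the piece scheme (MP_c6effb_co, P4)
-/

set_option autoImplicit false
set_option linter.unusedSectionVars false

open Finset Classical

namespace Pool.Agent.T6P

open Pool.Agent.T6A Pool.Agent.T6A.EMB

/-- A cluster structure with a larger bound. -/
theorem mono2 {W : Type} [Fintype W] {H : SimpleGraph W} {ε : ℝ} {M M' : ℕ} (h : M ≤ M')
    (S : Clus H ε M) (hS : ∀ i, (ed H (S.C i) (S.C i) : ℝ) ≤ ε * ((S.C i).card * (S.C i).card)) :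
    ∃ S : Clus H ε M', ∀ i, (ed H (S.C i) (S.C i) : ℝ) ≤ ε * ((S.C i).card * (S.C i).card) := by
  refine ⟨{
    ι := S.ι
    ft := S.ft
    C := S.C
    F := S.F
    Bd := S.Bd
    few := S.few.trans h
    disj := S.disj
    big := fun i => (S.big i).trans ?_
    tot := S.tot
    tri := S.tri
    brefl := S.brefl
    bsymm := S.bsymm
    bsmall := S.bsmall
    sparse := S.sparse
    dense := S.dense }, hS⟩
  have h1 : (M : ℝ) ≤ M' := Nat.cast_le.2 h
  have h2 : (0 : ℝ) ≤ (S.C i).card := Nat.cast_nonneg _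
  nlinarith

/-- Constants of the reduction for one `K`. -/
theorem consts2 (C K : ℕ) {δ₁ δ : ℝ} (hδ₁ : 0 < δ₁) (hδ₁4 : δ₁ ≤ 1 / 4) (hδ : 0 < δ) :
    ∃ (r θ CR : ℝ) (M n₀ : ℕ), 0 < r ∧ r ≤ 1 ∧ 8 * (K : ℝ) * r ≤ δ₁ ∧ 0 < θ ∧ θ ≤ 1 / 2 ∧
      θ * (1 + 2 * C) ≤ r / 4 ∧ K * (θ * (1 + 2 * C)) ≤ δ * r ∧ 2 ≤ M ∧
      (∀ (W : Type) [Fintype W] (H : SimpleGraph W), H.CliqueFree 3 → n₀ ≤ Fintype.card W →
        ∃ S : Clus H (θ ^ 2 / 2) M, ∀ i,
          (ed H (S.C i) (S.C i) : ℝ) ≤ θ ^ 2 / 2 * ((S.C i).card * (S.C i).card)) ∧ 0 < CR ∧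
      ∀ (V W ι : Type) [Fintype V] [Fintype W] (G : SimpleGraph V) (H : SimpleGraph W)
        (A : Finset ι) (P : ι → Finset W) (t : ℕ) (Gi Me : Finset V),
        H.CliqueFree 3 → A.Nonempty → (∀ i ∈ A, ∀ j ∈ A, i ≠ j → Disjoint (P i) (P j)) →
        A.card ≤ M → 0 < (A.biUnion P).card → Disjoint Gi Me →
        (∀ v ∈ Me, (G.neighborSet v).ncard ≤ t) →
        20 * M * t * Gi.card ≤ (A.biUnion P).card →
        80 * ∑ v ∈ Me, (G.neighborSet v).ncard ≤ (A.biUnion P).card →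
        20 * (Gi.card + Me.card) ≤ (A.biUnion P).card →
        (∀ a ∈ A, δ₁ / (4 * M) * (G.edgeSet.ncard : ℝ) ≤ (P a).card) →
        (∀ a ∈ A, CR * (Gi.card : ℝ) ≤ (P a).card) →
        ∃ (f : V → W) (i₀ : ι), i₀ ∈ A ∧ (∀ v ∈ Gi, f v ∈ P i₀) ∧
          (∀ v ∈ Gi ∪ Me, f v ∈ A.biUnion P) ∧
          (∀ u ∈ Gi ∪ Me, ∀ v ∈ Gi ∪ Me, f u = f v → u = v) ∧
          ∀ u ∈ Gi ∪ Me, ∀ v ∈ Gi ∪ Me, G.Adj u v → ¬ H.Adj (f u) (f v) := by
  obtain ⟨r, hrdef⟩ : ∃ r : ℝ, r = δ₁ / (8 * (K + 1)) := ⟨_, rfl⟩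
  have hK0 : (0 : ℝ) ≤ K := Nat.cast_nonneg _
  have hC0 : (0 : ℝ) ≤ C := Nat.cast_nonneg _
  have hr : 0 < r := by rw [hrdef]; positivity
  have hr8 : r * (8 * (K + 1)) = δ₁ := by
    rw [hrdef]; field_simp
  obtain ⟨θ, hθdef⟩ : ∃ θ : ℝ, θ = min (1 / 2) (min (r / (4 * (1 + 2 * C)))
    (δ * r / ((K + 1) * (1 + 2 * C)))) := ⟨_, rfl⟩
  have hc : (0 : ℝ) < 1 + 2 * C := by linarith
  have hθ : 0 < θ := by
    rw [hθdef]
    refine lt_min (by norm_num) (lt_min (by positivity) (by positivity))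
  have hθ1 : θ ≤ 1 / 2 := by rw [hθdef]; exact min_le_left _ _
  have hθ2 : θ ≤ r / (4 * (1 + 2 * C)) := by
    rw [hθdef]; exact (min_le_right _ _).trans (min_le_left _ _)
  have hθ3 : θ ≤ δ * r / ((K + 1) * (1 + 2 * C)) := by
    rw [hθdef]; exact (min_le_right _ _).trans (min_le_right _ _)
  have hθ2' : θ * (1 + 2 * C) ≤ r / 4 := by
    rw [le_div_iff₀ (by positivity)] at hθ2
    linarith
  have hθ3' : K * (θ * (1 + 2 * C)) ≤ δ * r := by
    rw [le_div_iff₀ (by positivity)] at hθ3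
    have : 0 ≤ θ * (1 + 2 * C) := by positivity
    nlinarith
  obtain ⟨M₁, n₀, hreg⟩ := regS (θ ^ 2 / 2) (by positivity) (by nlinarith)
  obtain ⟨M, hM⟩ : ∃ M : ℕ, M = max M₁ 2 := ⟨_, rfl⟩
  have hM2 : 2 ≤ M := by rw [hM]; exact le_max_right _ _
  have hMp : (0 : ℝ) < M := by
    have : 0 < M := by omega
    exact Nat.cast_pos.2 this
  obtain ⟨CR, hCR, hpos⟩ := POS.place (δ₁ / (4 * M)) (by positivity)
  refine ⟨r, θ, CR, M, n₀, hr, ?_, ?_, hθ, hθ1, hθ2', hθ3', hM2, ?_, hCR, ?_⟩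
  · have : r * 1 ≤ r * (8 * (K + 1)) := mul_le_mul_of_nonneg_left (by linarith) hr.le
    linarith
  · nlinarith
  · intro W _ H hH hn
    obtain ⟨S, hS⟩ := hreg W H hH hn
    exact mono2 (by rw [hM]; exact le_max_left _ _) S hS
  · intro V W ι _ _ G H A P t Gi Me h1 h2 h3 h4 h5 h6 h7 h8 h9 h10 h11 h12
    exact hpos V W ι G H A P M t Gi Me h1 h2 h3 hM2 h4 h5 h6 h7 h8 h9 h10 h11 h12

/-- **From the low problem, version 4, to the embedding** (the constants are arbitrary). -/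
theorem low_existsP (Q : ℝ) (C : ℕ) {δ₁ : ℝ} (hδ₁ : 0 < δ₁) (hδ₁4 : δ₁ ≤ 1 / 4) (K₁ : ℕ)
    (δf : ℕ → ℝ) (hδf : ∀ K, 0 < δf K) :
    ∃ Mf : ℕ → ℕ, ∀ kf : ℕ → ℕ, ∃ N₀ : ℕ, ∀ (W V : Type) [Fintype W] [Fintype V]
      (H : SimpleGraph W) (G : SimpleGraph V) (I : Finset W),
      N₀ ≤ Fintype.card W → H.CliqueFree 3 →
      Fintype.card V + G.edgeSet.ncard ≤ Fintype.card W →
      (1 + Q) * Fintype.card V ≤ Fintype.card W →
      G.edgeSet.ncard ≤ C * Fintype.card V →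
      H.IsIndepSet (I : Set W) → I.card < Fintype.card V →
      (∀ v : V, Fintype.card W + 1 ≤ (G.neighborSet v).ncard * I.card + Fintype.card V) →
      (∀ K, K₁ ≤ K → ∀ D : PreData Q C K (Mf K) δ₁ (δf K) G, kf K ≤ Fintype.card V →
        (@Finset.sum D.ι ℝ _ (@Finset.univ D.ι D.ft) D.w) * Fintype.card V ≤ Fintype.card W →
        (I.card : ℝ) ≤ ((∑ i ∈ D.A, D.w i) + δf K) * Fintype.card V →
        (∀ v, v ∉ D.Qh → v ∉ D.Ex →
          dLow G D.Qh v + jHub G D.Gi v = (G.neighborSet v).ncard) → HubFacts D →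
        ∃ As ⊆ D.A, δ₁ ≤ ∑ i ∈ As, D.w i ∧
          ∀ i₀ ∈ As, ∀ Al : V → Finset D.ι, D.Lists i₀ Al → FullOff D Al → Sol2 D Al) →
      Emb G H := by
  choose r θ CR M n₀ hr hr1 h8 hθ hθ2 hθr hθδ hM2 hreg hCR hpos using
    fun K => consts2 C K hδ₁ hδ₁4 (hδf K)
  refine ⟨M, fun kf => ?_⟩
  obtain ⟨L, hL⟩ : ∃ L : ℕ, L = ⌈8 / δ₁ ^ 2⌉₊ := ⟨_, rfl⟩
  have hδ₁s : 0 < δ₁ ^ 2 := by positivity
  have hδ₁s1 : δ₁ ^ 2 ≤ 1 := by nlinarith
  have hL8 : 8 / δ₁ ^ 2 ≤ L := by rw [hL]; exact Nat.le_ceil _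
  obtain ⟨Kmax, hthr⟩ := thr C (δ₁ ^ 2 / 640) (by positivity) (fun K => M K * L)
    (fun K => ⌈CR K / δ₁⌉₊ + 1) (max K₁ (⌈320 * C / δ₁ ^ 2⌉₊ + 1))
  refine ⟨∑ K ∈ range (Kmax + 1), (n₀ K + (⌈2 * M K / δ₁⌉₊ + 1) + (1 + 2 * C) * kf K), ?_⟩
  intro W V _ _ H G I hN hH hkm hQ hmC hI hIk hdeg hLow
  obtain ⟨K, t, hK0, hKt, hDt, htmax, hmed, hgi⟩ := hthr V G hmC
  have hKK₁ : K₁ ≤ K := (le_max_left _ _).trans hK0
  have hKc : ⌈320 * C / δ₁ ^ 2⌉₊ + 1 ≤ K := (le_max_right _ _).trans hK0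
  have hKpos : 0 < K := by omega
  have hterm : n₀ K + (⌈2 * M K / δ₁⌉₊ + 1) + (1 + 2 * C) * kf K ≤ Fintype.card W := by
    refine le_trans ?_ hN
    exact single_le_sum (f := fun K => n₀ K + (⌈2 * M K / δ₁⌉₊ + 1) + (1 + 2 * C) * kf K)
      (fun _ _ => Nat.zero_le _) (mem_range.2 (by omega))
  obtain ⟨hNk, hkI⟩ := core_basic hkm hmC hIk hdeg
  obtain ⟨S, hdiag⟩ := hreg K W H hH (by omega)
  obtain ⟨A, indA, maxA⟩ := exists_A S
  set k : ℝ := (Fintype.card V : ℝ) with hk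
  set N : ℝ := (Fintype.card W : ℝ) with hNdef
  have hkpos : (0 : ℝ) < k := by
    have : 0 < Fintype.card V := by omega
    exact Nat.cast_pos.2 this
  have hN0 : 0 ≤ N := Nat.cast_nonneg _
  have hC0 : (0 : ℝ) ≤ C := Nat.cast_nonneg _
  have hNk' : N ≤ (1 + 2 * C) * k := by
    have : ((Fintype.card W : ℕ) : ℝ) ≤ (((1 + 2 * C) * Fintype.card V : ℕ) : ℝ) := by
      exact_mod_cast hNk
    push_cast at this
    exact this
  have hkf : kf K ≤ Fintype.card V := by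
    have h1 : (1 + 2 * C) * kf K ≤ (1 + 2 * C) * Fintype.card V := le_trans (by omega) hNk
    exact Nat.le_of_mul_le_mul_left h1 (by omega)
  have hMp : (0 : ℝ) < M K := by
    have := hM2 K
    have h2 : 0 < M K := by omega
    exact Nat.cast_pos.2 h2
  -- the clusters are large
  have hCbig : ∀ i, N / (2 * M K) ≤ (S.C i).card := by
    intro i
    rw [div_le_iff₀ (by positivity)]
    have := S.big i
    linarith
  have hN2M : 2 * M K / δ₁ ≤ N := by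
    have h1 : ⌈2 * (M K : ℝ) / δ₁⌉₊ ≤ Fintype.card W := by omega
    have h2 : ((⌈2 * (M K : ℝ) / δ₁⌉₊ : ℕ) : ℝ) ≤ N := Nat.cast_le.2 h1
    exact (Nat.le_ceil _).trans h2
  have hbig1 : ∀ i, 1 ≤ δ₁ * (S.C i).card := by
    intro i
    have h1 := hCbig i
    rw [div_le_iff₀ hδ₁] at hN2M
    rw [div_le_iff₀ (by positivity)] at h1
    have h2 : (2 * (M K : ℝ)) * 1 ≤ (2 * M K) * (δ₁ * (S.C i).card) := by nlinarith
    exact le_of_mul_le_mul_left h2 (by positivity)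
  have hbig0 : ∀ i, 0 < (S.C i).card := by
    intro i
    by_contra h
    have h0 : (S.C i).card = 0 := by omega
    have := hbig1 i
    rw [h0, Nat.cast_zero, mul_zero] at this
    linarith
  letI := S.ft
  obtain ⟨Gi, hGi⟩ : ∃ X : Finset V, X = univ.filter fun v => t < (G.neighborSet v).ncard :=
    ⟨_, rfl⟩
  obtain ⟨Me, hMe⟩ : ∃ X : Finset V, X = univ.filter fun v => K < (G.neighborSet v).ncard ∧
    (G.neighborSet v).ncard ≤ t := ⟨_, rfl⟩
  obtain ⟨Qh, hQh⟩ : ∃ X : Finset V, X = univ.filter fun v => K < (G.neighborSet v).ncard :=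
    ⟨_, rfl⟩
  have hGM : Gi ∪ Me = Qh := by
    rw [hGi, hMe, hQh]
    ext v
    simp only [mem_union, mem_filter, mem_univ, true_and]
    omega
  have hdisj : Disjoint Gi Me := by
    rw [disjoint_left]
    intro v h1 h2
    rw [hGi] at h1
    rw [hMe] at h2
    have h3 := (mem_filter.1 h1).2
    have h4 := (mem_filter.1 h2).2.2
    omega
  have hcardQ : Gi.card + Me.card = Qh.card := by
    rw [← hGM, card_union_of_disjoint hdisj]
  have hmed' : ((∑ u ∈ Me, (G.neighborSet u).ncard : ℕ) : ℝ) ≤ δ₁ ^ 2 / 640 * k := by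
    rw [hMe]
    push_cast
    convert hmed using 2
  have hgi' : 50 * ((M K : ℝ) * L) * t * Gi.card ≤ k := by
    have h1 := hgi
    push_cast at h1
    rw [hGi]
    convert h1 using 2
  have htK : 1 ≤ t := by omega
  have htp : (1 : ℝ) ≤ t := by exact_mod_cast htK
  have hgi2 : (M K : ℝ) * t * Gi.card ≤ δ₁ ^ 2 * k / 400 := by
    have h1 : (8 / δ₁ ^ 2) * ((M K : ℝ) * t * Gi.card) ≤ L * ((M K : ℝ) * t * Gi.card) :=
      mul_le_mul_of_nonneg_right hL8 (by positivity)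
    have h2 : 50 * ((8 / δ₁ ^ 2) * ((M K : ℝ) * t * Gi.card)) ≤ k := by nlinarith
    have h3 : 50 * ((8 / δ₁ ^ 2) * ((M K : ℝ) * t * Gi.card)) * δ₁ ^ 2 =
        400 * ((M K : ℝ) * t * Gi.card) := by
      field_simp
      ring
    have h4 : 50 * ((8 / δ₁ ^ 2) * ((M K : ℝ) * t * Gi.card)) * δ₁ ^ 2 ≤ k * δ₁ ^ 2 :=
      mul_le_mul_of_nonneg_right h2 hδ₁s.le
    linarith
  have hkN : k ≤ N := by
    have : Fintype.card V ≤ Fintype.card W := by omega
    exact Nat.cast_le.2 this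
  have hQh' : ∀ v, v ∈ Qh ↔ K < (G.neighborSet v).ncard := by
    intro v; rw [hQh]; simp
  have hGiQ : Gi ⊆ Qh := by rw [← hGM]; exact subset_union_left
  have hQG : Qh \ Gi ⊆ Me := by
    intro v hv
    rw [← hGM] at hv
    obtain ⟨h1, h2⟩ := mem_sdiff.1 hv
    exact (mem_union.1 h1).resolve_left h2
  refine low4_emb2 (Q := Q) (C := C) hδ₁ hδ₁4 (hr K) (hr1 K) (h8 K) hKpos
    (hθ K) (hθ2 K) (hθr K) (hθδ K) H G S hdiag I hbig0 hkm hQ hmC hI hIk hdeg A indA maxA Qh Gi hQh' hGiQ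
    (by
      have h1 : ∑ u ∈ Qh \ Gi, (G.neighborSet u).ncard ≤ ∑ u ∈ Me, (G.neighborSet u).ncard :=
        sum_le_sum_of_subset hQG
      have h2 : ((∑ u ∈ Qh \ Gi, (G.neighborSet u).ncard : ℕ) : ℝ) ≤
          ((∑ u ∈ Me, (G.neighborSet u).ncard : ℕ) : ℝ) := Nat.cast_le.2 h1
      have h3 : δ₁ ^ 2 / 640 * k ≤ δ₁ * k := by
        refine mul_le_mul_of_nonneg_right ?_ hkpos.le
        nlinarith
      linarith)
    (fun D => hLow K hKK₁ D hkf) ?_
  -- placement of the hubs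
  intro As hAs hAsw
  have hAsw' : δ₁ * k ≤ ∑ i ∈ As, ((S.C i).card : ℝ) := hAsw
  obtain ⟨U, hUA, hUtyp, hUi, hUi', hUc⟩ := exists_Y S As (θ := θ K) (η := δ₁)
    (by have := hθ K; positivity) (hθ K) (by linarith [sq_nonneg (θ K)]) hδ₁
    (by linarith [hθ2 K]) hbig1
  set P : S.ι → Finset W := fun i => U ∩ S.C i with hP
  have hPU : As.biUnion P = U := by
    ext x
    constructor
    · intro hx
      obtain ⟨i, _, hxi⟩ := mem_biUnion.1 hx
      exact (mem_inter.1 hxi).1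
    · intro hx
      obtain ⟨i, hi, hxi⟩ := mem_biUnion.1 (hUA hx)
      exact mem_biUnion.2 ⟨i, hi, mem_inter.2 ⟨hx, hxi⟩⟩
  have hUk : δ₁ ^ 2 * k / 2 ≤ (U.card : ℝ) := by
    refine le_trans ?_ hUc
    rw [S.card_biUnion]
    have := mul_le_mul_of_nonneg_left hAsw' (by positivity : 0 ≤ δ₁ / 2)
    calc δ₁ ^ 2 * k / 2 = δ₁ / 2 * (δ₁ * k) := by ring
      _ ≤ _ := this
  have hdk : 0 < δ₁ ^ 2 * k := by positivity
  have hA0 : As.Nonempty := by
    rw [nonempty_iff_ne_empty]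
    intro h
    rw [h, sum_empty] at hAsw'
    have : 0 < δ₁ * k := by positivity
    linarith
  have hAM : As.card ≤ M K := (card_le_univ As).trans S.few
  have hPa : ∀ a ∈ As, δ₁ * N / (4 * M K) ≤ ((P a).card : ℝ) := by
    intro a ha
    refine le_trans ?_ (hUi' a ha)
    have h1 := hCbig a
    have h2 := mul_le_mul_of_nonneg_left h1 (by positivity : 0 ≤ δ₁ / 2)
    refine le_trans (le_of_eq ?_) h2
    field_simp
    norm_num
  obtain ⟨f₀, i₀, hi₀, fGi, fU, finj, fadj⟩ := hpos K V W S.ι G H As P t Gi Me hH hA0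
    (fun i _ j _ hij => disjoint_of_subset_left inter_subset_right
      (disjoint_of_subset_right inter_subset_right (S.disj i j hij)))
    hAM
    (by
      rw [hPU]
      have : (0 : ℝ) < U.card := lt_of_lt_of_le (by positivity) hUk
      exact_mod_cast this)
    hdisj
    (fun v hv => by
      rw [hMe] at hv
      exact (mem_filter.1 hv).2.2)
    (by
      rw [hPU]
      have h1 : ((20 * M K * t * Gi.card : ℕ) : ℝ) ≤ (U.card : ℝ) := by
        push_cast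
        linarith
      exact_mod_cast h1)
    (by
      rw [hPU]
      have h1 : ((80 * ∑ v ∈ Me, (G.neighborSet v).ncard : ℕ) : ℝ) ≤ (U.card : ℝ) := by
        rw [Nat.cast_mul]
        push_cast at hmed' ⊢
        linarith
      exact_mod_cast h1)
    (by
      rw [hPU, hcardQ]
      have h1 : Qh.card * K ≤ 2 * (C * Fintype.card V) := by
        rw [hQh]
        exact (hubs_nat G K).trans (Nat.mul_le_mul_left 2 hmC)
      have h2 : ((Qh.card * K : ℕ) : ℝ) ≤ ((2 * (C * Fintype.card V) : ℕ) : ℝ) := Nat.cast_le.2 h1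
      push_cast at h2
      have h3 : 320 * C / δ₁ ^ 2 ≤ K := by
        have h4 : ((⌈320 * (C : ℝ) / δ₁ ^ 2⌉₊ : ℕ) : ℝ) ≤ K := Nat.cast_le.2 (by omega)
        exact (Nat.le_ceil _).trans h4
      rw [div_le_iff₀ hδ₁s] at h3
      have hKp : (0 : ℝ) < K := Nat.cast_pos.2 hKpos
      have h5 : (20 * (Qh.card : ℝ)) * K ≤ (δ₁ ^ 2 * k / 8) * K := by
        calc (20 * (Qh.card : ℝ)) * K = 20 * (Qh.card * K) := by ring
          _ ≤ 20 * (2 * (C * k)) := by linarith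
          _ = (320 * C) * (k / 8) := by ring
          _ ≤ (K * δ₁ ^ 2) * (k / 8) := mul_le_mul_of_nonneg_right h3 (by positivity)
          _ = _ := by ring
      have h6 := le_of_mul_le_mul_right h5 hKp
      have h7 : ((20 * Qh.card : ℕ) : ℝ) ≤ (U.card : ℝ) := by
        push_cast
        linarith
      exact_mod_cast h7)
    (by
      intro a ha
      refine le_trans ?_ (hPa a ha)
      have h1 : (G.edgeSet.ncard : ℝ) ≤ N := by
        have : G.edgeSet.ncard ≤ Fintype.card W := by omega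
        exact Nat.cast_le.2 this
      have h2 := mul_le_mul_of_nonneg_left h1 (by positivity : 0 ≤ δ₁ / (4 * M K))
      refine h2.trans (le_of_eq ?_)
      field_simp)
    (by
      intro a ha
      refine le_trans ?_ (hPa a ha)
      rw [le_div_iff₀ (by positivity)]
      have h1 : CR K / δ₁ ≤ t := by
        have h2 : ⌈CR K / δ₁⌉₊ ≤ t := by
          omega
        exact (Nat.le_ceil _).trans (Nat.cast_le.2 h2)
      rw [div_le_iff₀ hδ₁] at h1
      have h3 : CR K * (Gi.card : ℝ) * (4 * M K) ≤ (t * δ₁) * Gi.card * (4 * M K) := by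
        have : 0 ≤ (Gi.card : ℝ) * (4 * M K) := by positivity
        nlinarith
      have h4 : (t * δ₁) * Gi.card * (4 * M K) = 4 * δ₁ * ((M K : ℝ) * t * Gi.card) := by ring
      have h5 : 4 * δ₁ * ((M K : ℝ) * t * Gi.card) ≤ 4 * δ₁ * (δ₁ ^ 2 * k / 400) :=
        mul_le_mul_of_nonneg_left hgi2 (by positivity)
      have h6 : 4 * δ₁ * (δ₁ ^ 2 * k / 400) ≤ δ₁ * N := by
        have h7 : δ₁ ^ 2 * k ≤ 1 * N := by
          have := mul_le_mul_of_nonneg_right hδ₁s1 hkpos.le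
          linarith
        have h8 : 4 * δ₁ * (δ₁ ^ 2 * k / 400) = δ₁ * (δ₁ ^ 2 * k) / 100 := by ring
        rw [h8]
        have h9 : δ₁ * (δ₁ ^ 2 * k) ≤ δ₁ * (1 * N) := mul_le_mul_of_nonneg_left h7 hδ₁.le
        have h10 : 0 ≤ δ₁ * N := by positivity
        linarith
      linarith)
  rw [hGM] at fU finj fadj
  rw [hPU] at fU
  have hUS : ∀ q ∈ Qh, ∃ j ∈ As, f₀ q ∈ S.C j := by
    intro q hq
    exact mem_biUnion.1 (hUA (fU q hq))
  refine ⟨f₀, i₀, hi₀, finj, fadj, fun q hq => ?_, fun q hq i hi hqi => ?_, fun i hi => ?_,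
    fun q hq => (mem_inter.1 (fGi q hq)).2⟩
  · obtain ⟨j, hj, hqj⟩ := hUS q hq
    exact mem_biUnion.2 ⟨j, hAs hj, hqj⟩
  · obtain ⟨j, hj, hqj⟩ := hUS q hq
    have : i = j := by
      by_contra hne
      exact disjoint_left.1 (S.disj i j hne) hqi hqj
    rw [this] at hqi ⊢
    exact hUtyp j hj _ (fU q hq) hqi
  · by_cases his : i ∈ As
    · refine le_trans ?_ (hUi i his)
      have : (Qh.filter fun q => f₀ q ∈ S.C i).card ≤ (U ∩ S.C i).card := by
        refine card_le_card_of_injOn f₀ ?_ ?_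
        · intro q hq
          have hq' := mem_filter.1 (mem_coe.1 hq)
          rw [mem_coe, mem_inter]
          exact ⟨fU q hq'.1, hq'.2⟩
        · intro q hq q' hq' h
          exact finj q (mem_filter.1 (mem_coe.1 hq)).1 q' (mem_filter.1 (mem_coe.1 hq')).1 h
      exact_mod_cast this
    · have : (Qh.filter fun q => f₀ q ∈ S.C i) = ∅ := by
        refine filter_false_of_mem fun q hq hqi => ?_
        obtain ⟨j, hj, hqj⟩ := hUS q hq
        have : i = j := by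
          by_contra hne
          exact disjoint_left.1 (S.disj i j hne) hqi hqj
        exact his (this ▸ hj)
      rw [this, card_empty, Nat.cast_zero]
      positivity

/-- **The core statement for a range follows from the low problem for this range.** -/
theorem core3RP_of_lowP {P : ∀ V : Type, SimpleGraph V → Prop} {Q Q' : ℝ}
    (h : LowProbP P Q Q') : Core3RP P Q Q' := by
  intro C
  obtain ⟨δ₁, e₃, hδ₁, hδ₁4, he₃, K₁, h1⟩ := h C
  have h2 : ∀ K, ∃ δ : ℝ, 0 < δ ∧ δ ≤ e₃ ∧ (K₁ ≤ K → ∀ M : ℕ, ∃ k₀ : ℕ, ∀ (V : Type) [Fintype V]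
      (G : SimpleGraph V) (D : PreData Q C K M δ₁ δ G), k₀ ≤ Fintype.card V → P V G →
      G.Connected → 7 * Fintype.card V < 5 * G.edgeSet.ncard →
      (@Finset.sum D.ι ℝ _ (@Finset.univ D.ι D.ft) D.w) < 1 + Q' →
      (∀ v, v ∉ D.Qh → v ∉ D.Ex → dLow G D.Qh v + jHub G D.Gi v = (G.neighborSet v).ncard) →
      ThrP D e₃ → HubFacts D →
      ∃ As ⊆ D.A, δ₁ ≤ ∑ i ∈ As, D.w i ∧
        ∀ i₀ ∈ As, ∀ Al : V → Finset D.ι, D.Lists i₀ Al → FullOff D Al → Sol2 D Al) := by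
    intro K
    by_cases hK : K₁ ≤ K
    · obtain ⟨δ, hδ, hδe, h3⟩ := h1 K hK
      exact ⟨δ, hδ, hδe, fun _ => h3⟩
    · exact ⟨e₃, he₃, le_rfl, fun h => absurd h hK⟩
  choose δf hδf hδe h3 using h2
  obtain ⟨Mf, h4⟩ := low_existsP Q C hδ₁ hδ₁4 K₁ δf hδf
  have h5 : ∀ K, ∃ k₀ : ℕ, K₁ ≤ K → ∀ (V : Type) [Fintype V]
      (G : SimpleGraph V) (D : PreData Q C K (Mf K) δ₁ (δf K) G), k₀ ≤ Fintype.card V → P V G →
      G.Connected → 7 * Fintype.card V < 5 * G.edgeSet.ncard →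
      (@Finset.sum D.ι ℝ _ (@Finset.univ D.ι D.ft) D.w) < 1 + Q' →
      (∀ v, v ∉ D.Qh → v ∉ D.Ex → dLow G D.Qh v + jHub G D.Gi v = (G.neighborSet v).ncard) →
      ThrP D e₃ → HubFacts D → ∃ As ⊆ D.A, δ₁ ≤ ∑ i ∈ As, D.w i ∧
        ∀ i₀ ∈ As, ∀ Al : V → Finset D.ι, D.Lists i₀ Al → FullOff D Al → Sol2 D Al := by
    intro K
    by_cases hK : K₁ ≤ K
    · obtain ⟨k₀, h6⟩ := h3 K hK (Mf K)
      exact ⟨k₀, fun _ => h6⟩
    · exact ⟨0, fun h => absurd h hK⟩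
  choose kf h6 using h5
  obtain ⟨N₀, h7⟩ := h4 fun K => kf K + 1
  refine ⟨min e₃ 1, lt_min he₃ one_pos, N₀, ?_⟩
  intro W V _ _ H G I hN hH hP hc hkm hQ hQ' hmC h75 hI _ hIk hdeg hthr
  have hk0 : 0 < Fintype.card V := lt_of_le_of_lt (Nat.zero_le _) hIk
  have hk0' : (0 : ℝ) < Fintype.card V := by exact_mod_cast hk0
  refine h7 W V H G I hN hH hkm hQ hmC hI hIk hdeg ?_
  intro K hK D hk hW hI' hd hHF
  have hw' : (@Finset.sum D.ι ℝ _ (@Finset.univ D.ι D.ft) D.w) < 1 + Q' := by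
    have h8 := lt_of_le_of_lt hW hQ'
    exact lt_of_mul_lt_mul_right h8 hk0'.le
  refine h6 K hK V G D (by omega) hP hc h75 hw' hd ?_ hHF
  intro d hd'
  have h8 : (#{v | v ∉ D.Qh ∧ v ∉ D.Ex ∧ dLow G D.Qh v + jHub G D.Gi v = d} : ℝ) ≤
      (#{v | (G.neighborSet v).ncard = d} : ℝ) := by
    have h9 : #{v | v ∉ D.Qh ∧ v ∉ D.Ex ∧ dLow G D.Qh v + jHub G D.Gi v = d} ≤
        #{v | (G.neighborSet v).ncard = d} := by
      refine card_le_card fun v hv => ?_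
      rw [mem_filter] at hv ⊢
      exact ⟨mem_univ _, (hd v hv.2.1 hv.2.2.1).symm.trans hv.2.2.2⟩
    exact_mod_cast h9
  have h10 : min e₃ 1 * (Fintype.card V : ℝ) ≤ (#{v | (G.neighborSet v).ncard = d} : ℝ) := by
    refine le_trans ?_ (hd'.trans (le_trans ?_ h8))
    · exact mul_le_mul_of_nonneg_right (min_le_left _ _) hk0'.le
    · exact le_of_eq (by congr)
  have h11 := hthr d (by
    refine h10.trans (le_of_eq ?_)
    congr)
  letI := D.ft
  change (1 - e₃) * (∑ i, D.w i) ≤ (1 + d) * ((∑ i ∈ D.A, D.w i) + e₃)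
  have hwpos : (0 : ℝ) ≤ ∑ i, D.w i := by
    refine sum_nonneg fun i _ => ?_
    have h1 := D.wpos i
    by_contra h2
    push Not at h2
    have h3 : 2 * (Mf K : ℝ) * D.w i ≤ 0 :=
      mul_nonpos_of_nonneg_of_nonpos (by positivity) h2.le
    linarith
  have h12 : (∑ i, D.w i) * (Fintype.card V : ℝ) ≤ Fintype.card W := hW
  have h13 : (1 - min e₃ 1) * ((∑ i, D.w i) * (Fintype.card V : ℝ)) ≤
      (1 - min e₃ 1) * Fintype.card W :=
    mul_le_mul_of_nonneg_left h12 (by linarith [min_le_right e₃ (1 : ℝ)])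
  have h14 : (1 + (d : ℝ)) * I.card ≤
      (1 + d) * (((∑ i ∈ D.A, D.w i) + e₃) * Fintype.card V) := by
    refine mul_le_mul_of_nonneg_left (hI'.trans ?_) (by positivity)
    refine mul_le_mul_of_nonneg_right ?_ hk0'.le
    linarith [hδe K]
  have h15 : (1 - min e₃ 1) * (∑ i, D.w i) * Fintype.card V ≤
      (1 + d) * ((∑ i ∈ D.A, D.w i) + e₃) * Fintype.card V := by
    calc (1 - min e₃ 1) * (∑ i, D.w i) * Fintype.card V
        = (1 - min e₃ 1) * ((∑ i, D.w i) * (Fintype.card V : ℝ)) := by ring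
      _ ≤ _ := h13.trans (h11.trans h14)
      _ = _ := by ring
  have h16 := le_of_mul_le_mul_right h15 hk0'
  refine le_trans ?_ h16
  exact mul_le_mul_of_nonneg_right (by linarith [min_le_left e₃ (1 : ℝ)]) hwpos

end Pool.Agent.T6P
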