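import Pool.Agent.T6A.MathStmt
import Pool.Agent.T6A.Thr3

/-!
# The piece scheme (MP_c6effb_co): definitions and statements

`G` is a connected graph of bounded degree, `c : V → V` gives the pieces (the fibres of `c`, of
bounded size), `xo G c v` = number of neighbours of `v` outside its piece. A piece has one cluster
`y` outside `A` (or none); its vertices in `T` go to `y`, the others to `A - N(y)`. So a cluster is
not bad with itself: `Bd2`.
-/

set_option autoImplicit false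

open Finset

namespace Pool.Agent.T6P

open Pool.Agent.T6A

noncomputable section

/-- Bad pairs of different clusters. -/
def Bd2 {ι : Type} (Bd : ι → ι → Prop) : ι → ι → Prop := fun i j => Bd i j ∧ i ≠ j

open Classical in
/-- Number of neighbours outside the piece. -/
def xo {V : Type} [Fintype V] (G : SimpleGraph V) (c : V → V) (v : V) : ℕ :=
  #{u | G.Adj v u ∧ c u ≠ c v}

/-- No hubs. -/
structure Hubless {V ι : Type} [Fintype ι] (X : World ι) (L : Low V ι) : Prop where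
  j0 : ∀ v, L.j v = 0
  E0 : ∀ v, v ∉ L.E
  Av : ∀ v, L.Av v = X.A
  Bv : ∀ v y, y ∈ L.Bv v ↔ y ∉ X.A

open Classical in
/-- **LIM for the piece scheme** (no hubs). `D` = bound for the degrees, `M` = bound for the pieces. -/
def LimP (Q' : ℝ) : Prop := ∀ C D : ℕ, ∃ e : ℝ, 0 < e ∧ e ≤ 1 / 8 ∧ ∀ (M : ℕ) (ζ : ℝ), 0 < ζ →
  ∃ (B : ℕ) (ε : ℝ), 0 < ε ∧ ∀ (V ι : Type) [Fintype V] [Fintype ι] (X : World ι) (L : Low V ι)
    (Bd : ι → ι → Prop) (k : ℝ) (c : V → V), WorldOK X L Bd k (7 / 5) C D e ε → ThrW X L k e →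
    X.tot ≤ 1 + Q' + e → Hubless X L → (Fintype.card V : ℝ) = k → (∀ v, #{u | c u = v} ≤ M) →
    ∑ v, (xo L.G c v : ℝ) ≤ ∑ v, (L.d v : ℝ) - 2 * (1 - e) * k →
    ∃ (Om : Type) (_ : Fintype Om) (p : V → Om → ℝ) (g : (V → Om) → V → ι)
      (b : (V → Om) → V → Option ι) (Bn : V → Finset V) (φ : ι → ι → ℝ),
      Scheme X L (Bd2 Bd) k e ζ B p g b Bn φ

/-- The mean of `z ^ j` for an integer `j` with mean at most `x` is at least `II x z`
(`0 ≤ x ≤ 2`, `0 ≤ z ≤ 1`). -/
def II (x z : ℝ) : ℝ := if x ≤ 1 then 1 - x + x * z else (2 - x) * z + (x - 1) * z ^ 2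

open Classical in
/-- The density of `N(y)` in `A`. -/
def World.n {ι : Type} [Fintype ι] (X : World ι) (y : ι) : ℝ := nb X.F X.mu y

/-- The clusters which are used outside `A`. -/
def World.act {ι : Type} [Fintype ι] (X : World ι) (y : ι) : Prop :=
  y ∉ X.A ∧ World.n X y ≤ 24 / 25

open Classical in
/-- `chiS a y` = sum of `w y' (1 - n y - n y')` over the used `y' < y`, `y' ~ y`, `y'` not adjacent
to `a`; `ord` = order of the clusters. -/
def chiS {ι : Type} [Fintype ι] (X : World ι) (ord : ι → ℕ) (a y : ι) : ℝ :=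
  ∑ y' ∈ univ.filter (fun y' => World.act X y' ∧ ord y' < ord y ∧ X.F.Adj y y' ∧ ¬ X.F.Adj a y'),
    X.w y' * (1 - World.n X y - World.n X y')

/-- Lower bound for the probability that a neighbour outside the piece allows `y`. -/
def zS {ι : Type} [Fintype ι] (X : World ι) (ord : ι → ℕ) (c gm : ℝ) (a y : ι) : ℝ :=
  max 0 (1 - c * World.n X y - gm * chiS X ord a y)

/-- Lower bound for the mean probability of `v ∈ T` (given `g v = a` and that `y` is the cluster of
the piece); `dl` = loss by bad pairs. -/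
def tS {ι : Type} [Fintype ι] (X : World ι) (ord : ι → ℕ) (c gm x dl : ℝ) (a y : ι) : ℝ :=
  max 0 (II x (zS X ord c gm a y) - dl)

open Classical in
/-- The clusters `y` which are used together with `a`. -/
def ys {ι : Type} [Fintype ι] (X : World ι) (a : ι) : Finset ι :=
  univ.filter fun y => World.act X y ∧ ¬ X.F.Adj a y

/-- The mass of `T` for the kernel `μ a * w y` on the nonadjacent pairs. -/
def SS {ι : Type} [Fintype ι] (X : World ι) (ord : ι → ℕ) (c gm x dl : ℝ) : ℝ :=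
  ∑ a, ∑ y ∈ ys X a, X.mu a * X.w y * tS X ord c gm x dl a y

/-- **The certificate (P7).** (a): `g₀ ≤ gm` for `g₀ = (1 - (1 - e) sA) / SS`; (b): the mass of
`(none, a)` is nonnegative; (c): the law of `g v` is at most `c * μ`. -/
structure CertOK {ι : Type} [Fintype ι] (X : World ι) (ord : ι → ℕ) (e x dl c gm : ℝ) : Prop where
  gm0 : 0 < gm
  gm1 : gm ≤ 9 / 10
  c1 : 1 ≤ c
  c2 : c ≤ 2
  S0 : 0 < SS X ord c gm x dl
  ca : 1 - (1 - e) * X.sA ≤ gm * SS X ord c gm x dl
  cb : ∀ a ∈ X.A, (1 - (1 - e) * X.sA) * ∑ y ∈ ys X a, X.w y * (1 - tS X ord c gm x dl a y) ≤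
    (1 - e) * X.sA * SS X ord c gm x dl
  cc : ∀ a ∈ X.A, (1 - e) * X.sA * SS X ord c gm x dl +
    (1 - (1 - e) * X.sA) * ∑ y ∈ ys X a, X.w y * tS X ord c gm x dl a y ≤
    c * SS X ord c gm x dl

/-- The statement P7: `tot - 1` in `[7 / 5, Q']`. The last hypothesis: the order of the clusters
refines the one by `n`. -/
def CertP (Q' : ℝ) : Prop := ∃ e₀ d₀ : ℝ, 0 < e₀ ∧ 0 < d₀ ∧ ∀ (ι : Type) [Fintype ι] (X : World ι)
  (ord : ι → ℕ) (e x dl : ℝ), 0 < e → e ≤ e₀ → 0 ≤ dl → dl ≤ d₀ → 12 / 5 - e ≤ X.tot →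
  X.tot ≤ 1 + Q' + e → (1 - e) * X.tot ≤ 4 * (X.s + e) → X.s - e ≤ X.sA → (1 - e) * X.sA < 1 →
  x = max 1 (2 * (X.tot - 2 + 2 * e)) → Function.Injective ord →
  (∀ y y', ord y' < ord y → World.n X y' ≤ World.n X y) →
  ∃ c gm : ℝ, CertOK X ord e x dl c gm

/-- The statement P6: the assembly of the scheme. -/
def AsmP : Prop := ∀ Q' : ℝ, Q' < 2 → CertP Q' → LimP Q'

end

end Pool.Agent.T6P
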