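import Pool.Agent.T6P.Defs
import Pool.Agent.T6A.Lim4

/-!
# The piece scheme with hubs: the statement LIM (MP_c6effb_co)

As `Lim4` (T6A/Lim4.lean): the giants go to one cluster `i0` of a subset `As` of `A` of weight at
least `e`, which does not depend on the lists; as `LimP`: bad pairs `Bd2`, pieces `c` of bounded size
and a budget for the neighbours outside the piece, where a vertex with a giant neighbour is charged
one more unit.
-/

set_option autoImplicit false

open Finset

namespace Pool.Agent.T6P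

open Pool.Agent.T6A

noncomputable section

open Classical in
/-- **LIM for the piece scheme with hubs.** `K` = bound for the degrees in the low graph and for the
numbers of giant neighbours, `M` = bound for the pieces. A vertex without giant neighbours (and not in
`E`) has the full lists. -/
def LimPH (Q Q' : ℝ) : Prop := ∀ C : ℕ, ∃ e : ℝ, 0 < e ∧ e ≤ 1 / 8 ∧ ∀ (K M : ℕ) (ζ : ℝ), 0 < ζ →
  ∃ (B : ℕ) (ε : ℝ), 0 < ε ∧ ∀ (V ι : Type) [Fintype V] [Fintype ι] (X : World ι) (L : Low V ι)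
    (Bd : ι → ι → Prop) (k : ℝ) (c : V → V), PreOK X L Bd k Q C K e ε → ThrW X L k e →
    X.tot ≤ 1 + Q' + e → X.sA < 1 + e → (∀ v, #{u | c u = v} ≤ M) →
    ∑ v, ((xo L.G c v : ℝ) + if L.j v = 0 then 0 else 1) ≤ 2 * (X.tot - 2 + e) * k →
    ∃ As : Finset ι, As ⊆ X.A ∧ e ≤ ∑ i ∈ As, X.w i ∧ ∀ i0 ∈ As, ∀ Av Bv : V → Finset ι,
      ListOK X (L.lists Av Bv) i0 e ε →
      (∀ v, v ∉ L.E → L.j v = 0 → (∀ i ∈ X.A, i ∈ Av v) ∧ ∀ i, i ∉ X.A → i ∈ Bv v) →
      ∃ (Om : Type) (_ : Fintype Om) (p : V → Om → ℝ) (g : (V → Om) → V → ι)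
        (b : (V → Om) → V → Option ι) (Bn : V → Finset V) (φ : ι → ι → ℝ),
        Scheme X (L.lists Av Bv) (Bd2 Bd) k e ζ B p g b Bn φ

end

end Pool.Agent.T6P
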