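import Pool.Agent.T6P.RegS
import Pool.Agent.T6A.MkLow

/-!
# The embedding from a solution with adjacent vertices in the same cluster (MP_c6effb_co, P4)
-/

set_option autoImplicit false
set_option linter.unusedSectionVars false

open Finset Classical

namespace Pool.Agent.T6P

open Pool.Agent.T6A Pool.Agent.T6A.EMB

/-- The embedding from a solution of the low problem; the clusters are sparse inside, so that
adjacent vertices may be in the same cluster. -/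
theorem emb_of_sol2 {K M : ℕ} {δ₁ r θ : ℝ} (hδ₁ : 0 < δ₁)
    (hr : 0 < r) (h8 : 8 * (K : ℝ) * r ≤ δ₁) (hθ : 0 < θ) (hθr' : θ ≤ r / 4)
    {W V : Type} [Fintype W] [Fintype V] (H : SimpleGraph W) (G : SimpleGraph V)
    (S : Clus H (θ ^ 2 / 2) M)
    (hdiag : ∀ i, (ed H (S.C i) (S.C i) : ℝ) ≤ θ ^ 2 / 2 * ((S.C i).card * (S.C i).card))
    (hbig : ∀ i, 0 < (S.C i).card)
    (A : Finset S.ι) (indA : ∀ i ∈ A, ∀ j ∈ A, ¬ S.F.Adj i j)
    (hθN4 : θ * Fintype.card W ≤ r * ∑ i ∈ A, ((S.C i).card : ℝ))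
    (Qh : Finset V) (hNqK : ∀ v, v ∉ Qh → (univ.filter fun q => G.Adj v q).card ≤ K)
    (f₀ : V → W) (i₀ : S.ι)
    (finj : ∀ q ∈ Qh, ∀ q' ∈ Qh, f₀ q = f₀ q' → q = q')
    (fadj : ∀ q ∈ Qh, ∀ q' ∈ Qh, G.Adj q q' → ¬ H.Adj (f₀ q) (f₀ q'))
    (fU : ∀ q ∈ Qh, f₀ q ∈ A.biUnion S.C)
    (ftyp : ∀ q ∈ Qh, ∀ i ∈ A, f₀ q ∈ S.C i → dS S i (f₀ q) ≤ θ * Fintype.card W)
    (fload : ∀ i ∈ A, ((Qh.filter fun q => f₀ q ∈ S.C i).card : ℝ) ≤ δ₁ * (S.C i).card)
    (Al : V → Finset S.ι)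
    (hAl : ∀ v, ∀ j ∈ Al v, ∀ q ∈ Qh, G.Adj v q → (dg H (S.C j) (f₀ q) : ℝ) ≤ r * (S.C j).card)
    (T : Finset V) (g b : V → S.ι)
    (c1 : ∀ v ∈ T, v ∉ Qh ∧ b v ∉ A ∧ b v ∈ Al v)
    (c2 : ∀ v, v ∉ T → v ∉ Qh → (∃ u ∈ T, G.Adj v u) → g v ∈ A ∧ g v ∈ Al v)
    (c3 : ∀ v ∈ T, ∀ u ∈ T, G.Adj v u → ¬ S.F.Adj (b v) (b u) ∧ ¬ (S.Bd (b v) (b u) ∧ b v ≠ b u))
    (c4 : ∀ v ∈ T, ∀ u, u ∉ T → u ∉ Qh → G.Adj v u →
      ¬ S.F.Adj (b v) (g u) ∧ ¬ (S.Bd (b v) (g u) ∧ b v ≠ g u))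
    (c5 : ∀ v u, v ∉ T → v ∉ Qh → u ∉ T → u ∉ Qh → G.Adj v u → (∃ z ∈ T, G.Adj v z) →
      (∃ z ∈ T, G.Adj u z) → ¬ (S.Bd (g v) (g u) ∧ g v ≠ g u))
    (c6 : ∀ a ∈ A, ∀ X : Finset V, (∀ v ∈ X, v ∉ T ∧ v ∉ Qh ∧ (∃ u ∈ T, G.Adj v u) ∧ g v = a) →
      (X.card : ℝ) ≤ (1 - 2 * δ₁) * (S.C a).card)
    (c7 : ∀ c, c ∉ A → ∀ X : Finset V, (∀ v ∈ X, v ∈ T ∧ b v = c) →
      (X.card : ℝ) ≤ (1 - 2 * δ₁) * (S.C c).card)
    (c8 : (Fintype.card V : ℝ) - T.card ≤ (1 - 2 * δ₁) * ∑ i ∈ A, ((S.C i).card : ℝ)) :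
    Emb G H := by
  have hεpos : 0 < θ ^ 2 / 2 := by positivity
  set N : ℝ := (Fintype.card W : ℝ) with hN
  have hN0 : 0 ≤ N := Nat.cast_nonneg _
  have hUs : ((A.biUnion S.C).card : ℝ) = ∑ i ∈ A, ((S.C i).card : ℝ) := S.card_biUnion A
  -- the cluster of a vertex of `A`
  have hci : ∀ x : W, ∃ i : S.ι, x ∈ A.biUnion S.C → i ∈ A ∧ x ∈ S.C i := by
    intro x
    by_cases hx : x ∈ A.biUnion S.C
    · obtain ⟨i, hi, hxi⟩ := mem_biUnion.1 hx
      exact ⟨i, fun _ => ⟨hi, hxi⟩⟩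
    · exact ⟨i₀, fun h => absurd h hx⟩
  choose ci hci using hci
  set Z : Finset V := univ.filter fun v => v ∉ T ∧ v ∉ Qh ∧ ¬ ∃ u ∈ T, G.Adj v u with hZ
  set c : V → S.ι := fun v => if v ∈ Qh then ci (f₀ v) else if v ∈ T then b v else g v with hc
  have hcQ : ∀ v ∈ Qh, c v = ci (f₀ v) := fun v hv => if_pos hv
  have hTQ : ∀ v ∈ T, v ∉ Qh := fun v hv => (c1 v hv).1
  have hcT : ∀ v ∈ T, c v = b v := fun v hv => by
    rw [hc]; simp only [if_neg (hTQ v hv), if_pos hv]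
  have hcg : ∀ v, v ∉ Qh → v ∉ T → c v = g v := fun v hv hvT => by
    rw [hc]; simp only [if_neg hv, if_neg hvT]
  have hQA : ∀ q ∈ Qh, ci (f₀ q) ∈ A ∧ f₀ q ∈ S.C (ci (f₀ q)) := fun q hq => hci _ (fU q hq)
  have hnZ : ∀ v, v ∉ Z → v ∉ Qh → v ∉ T → ∃ u ∈ T, G.Adj v u := by
    intro v hv hvQ hvT
    by_contra h
    exact hv (mem_filter.2 ⟨mem_univ _, hvT, hvQ, h⟩)
  have hsp : ∀ i j, ¬ S.F.Adj i j → ¬ (S.Bd i j ∧ i ≠ j) →
      (eD H (S.C i) (S.C j) : ℝ) ≤ r ^ 2 * ((S.C i).card * (S.C j).card) := by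
    intro i j h1 h2
    have h3 : (ed H (S.C i) (S.C j) : ℝ) ≤ θ ^ 2 / 2 * ((S.C i).card * (S.C j).card) := by
      by_cases hij : i = j
      · rw [← hij]
        exact hdiag i
      · exact S.sparse i j h1 (fun h => h2 ⟨h, hij⟩)
    rw [ed_eq_eD] at h3
    refine h3.trans (mul_le_mul_of_nonneg_right ?_ (mul_nonneg (Nat.cast_nonneg _)
      (Nat.cast_nonneg _)))
    have h4 : θ ^ 2 ≤ (r / 4) ^ 2 := by
      refine pow_le_pow_left₀ hθ.le hθr' 2
    nlinarith [sq_nonneg r, sq_nonneg θ]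
  have hZT : ∀ v ∈ Z, v ∉ T ∧ v ∉ Qh ∧ ¬ ∃ u ∈ T, G.Adj v u := fun v hv => (mem_filter.1 hv).2
  obtain ⟨f, hf, hfa, -, -⟩ := emb_hub K δ₁ r hδ₁ hr h8 G H S.C S.disj hbig A Z Qh c f₀
    (fun q hq hqZ => (hZT q hqZ).2.1 hq)
    (fun v hv => hNqK v hv)
    (by
      intro u v huv huZ hvZ huQ hvQ
      by_cases huT : u ∈ T
      · by_cases hvT : v ∈ T
        · rw [hcT u huT, hcT v hvT]
          have h := c3 u huT v hvT huv
          exact hsp _ _ h.1 h.2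
        · rw [hcT u huT, hcg v hvQ hvT]
          have h := c4 u huT v hvT hvQ huv
          exact hsp _ _ h.1 h.2
      · by_cases hvT : v ∈ T
        · rw [hcg u huQ huT, hcT v hvT]
          have h := c4 v hvT u huT huQ huv.symm
          exact hsp _ _ (fun e => h.1 e.symm) (fun e => h.2 ⟨S.bsymm _ _ e.1, e.2.symm⟩)
        · rw [hcg u huQ huT, hcg v hvQ hvT]
          have hu := hnZ u huZ huQ huT
          have hv := hnZ v hvZ hvQ hvT
          exact hsp _ _ (indA _ (c2 u huT huQ hu).1 _ (c2 v hvT hvQ hv).1)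
            (c5 u v huT huQ hvT hvQ huv hu hv))
    (by
      intro i
      by_cases hiA : i ∈ A
      · have h1 := c6 i hiA (univ.filter fun v => v ∉ T ∧ v ∉ Qh ∧ (∃ u ∈ T, G.Adj v u) ∧ g v = i)
          fun v hv => (mem_filter.1 hv).2
        have h2 := fload i hiA
        have h3 : (univ.filter fun v => v ∉ Z ∧ c v = i) ⊆
            (univ.filter fun v => v ∉ T ∧ v ∉ Qh ∧ (∃ u ∈ T, G.Adj v u) ∧ g v = i) ∪
            (Qh.filter fun q => f₀ q ∈ S.C i) := by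
          intro v hv
          obtain ⟨hvZ, hvi⟩ := (mem_filter.1 hv).2
          by_cases hvQ : v ∈ Qh
          · refine mem_union_right _ (mem_filter.2 ⟨hvQ, ?_⟩)
            rw [hcQ v hvQ] at hvi
            rw [← hvi]
            exact (hQA v hvQ).2
          · refine mem_union_left _ (mem_filter.2 ⟨mem_univ _, ?_⟩)
            have hvT : v ∉ T := by
              intro hvT
              rw [hcT v hvT] at hvi
              exact (c1 v hvT).2.1 (hvi ▸ hiA)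
            rw [hcg v hvQ hvT] at hvi
            exact ⟨hvT, hvQ, hnZ v hvZ hvQ hvT, hvi⟩
        have h4 := (card_le_card h3).trans (card_union_le _ _)
        have h5 : ((univ.filter fun v => v ∉ Z ∧ c v = i).card : ℝ) ≤
            ((univ.filter fun v => v ∉ T ∧ v ∉ Qh ∧ (∃ u ∈ T, G.Adj v u) ∧ g v = i).card : ℝ) +
            ((Qh.filter fun q => f₀ q ∈ S.C i).card : ℝ) := by exact_mod_cast h4
        linarith
      · have h1 := c7 i hiA (univ.filter fun v => v ∈ T ∧ b v = i) fun v hv => (mem_filter.1 hv).2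
        have h3 : (univ.filter fun v => v ∉ Z ∧ c v = i) ⊆
            (univ.filter fun v => v ∈ T ∧ b v = i) := by
          intro v hv
          obtain ⟨hvZ, hvi⟩ := (mem_filter.1 hv).2
          by_cases hvQ : v ∈ Qh
          · rw [hcQ v hvQ] at hvi
            exact absurd (hvi ▸ (hQA v hvQ).1) hiA
          · by_cases hvT : v ∈ T
            · rw [hcT v hvT] at hvi
              exact mem_filter.2 ⟨mem_univ _, hvT, hvi⟩
            · rw [hcg v hvQ hvT] at hvi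
              exact absurd (hvi ▸ (c2 v hvT hvQ (hnZ v hvZ hvQ hvT)).1) hiA
        have h5 : ((univ.filter fun v => v ∉ Z ∧ c v = i).card : ℝ) ≤
            ((univ.filter fun v => v ∈ T ∧ b v = i).card : ℝ) := Nat.cast_le.2 (card_le_card h3)
        have h6 : (0 : ℝ) ≤ δ₁ * (S.C i).card := mul_nonneg hδ₁.le (Nat.cast_nonneg _)
        linarith)
    (by
      intro z hz u huZ huQ hzu
      have huT : u ∉ T := fun huT => (hZT z hz).2.2 ⟨u, huT, hzu⟩
      rw [hcg u huQ huT]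
      exact (c2 u huT huQ (hnZ u huZ huQ huT)).1)
    (by
      intro i hi
      have h1 := eD_biUnion_le S hεpos.le i A (fun j hj => indA i hi j hj)
      refine h1.trans ?_
      rw [hUs]
      have h2 : 2 * (θ ^ 2 / 2) * (((S.C i).card : ℝ) * Fintype.card W) =
          (θ * (θ * N)) * (S.C i).card := by rw [← hN]; ring
      rw [h2]
      have h3 : θ * (θ * N) ≤ r * (r * ∑ i ∈ A, ((S.C i).card : ℝ)) := by
        have h4 : 0 ≤ θ * N := mul_nonneg hθ.le hN0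
        have h5 : θ * (θ * N) ≤ r * (θ * N) := mul_le_mul_of_nonneg_right (by linarith) h4
        exact h5.trans (mul_le_mul_of_nonneg_left hθN4 hr.le)
      calc θ * (θ * N) * ((S.C i).card : ℝ) ≤ r * (r * ∑ i ∈ A, ((S.C i).card : ℝ)) * (S.C i).card :=
            mul_le_mul_of_nonneg_right h3 (Nat.cast_nonneg _)
        _ = _ := by ring)
    (by
      rw [hUs]
      have h1 : (univ.filter fun v => v ∈ Z ∨ c v ∈ A) ⊆ univ \ T := by
        intro v hv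
        refine mem_sdiff.2 ⟨mem_univ _, fun hvT => ?_⟩
        rcases (mem_filter.1 hv).2 with h | h
        · exact (hZT v h).1 hvT
        · rw [hcT v hvT] at h
          exact (c1 v hvT).2.1 h
      have h2 := card_le_card h1
      have h3 : ((univ \ T).card : ℝ) = Fintype.card V - T.card := by
        rw [card_sdiff_of_subset (subset_univ _), Nat.cast_sub (card_le_card (subset_univ _)),
          card_univ]
      have h4 : ((univ.filter fun v => v ∈ Z ∨ c v ∈ A).card : ℝ) ≤ ((univ \ T).card : ℝ) :=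
        Nat.cast_le.2 h2
      have h6 : 0 ≤ δ₁ * ∑ i ∈ A, ((S.C i).card : ℝ) :=
        mul_nonneg hδ₁.le (sum_nonneg fun _ _ => Nat.cast_nonneg _)
      linarith)
    finj
    (by
      intro q hq
      rw [hcQ q hq]
      exact (hQA q hq).2)
    fadj
    (by
      intro q hq v hvZ hvQ hqv
      have hvAl : c v ∈ Al v := by
        by_cases hvT : v ∈ T
        · rw [hcT v hvT]
          exact (c1 v hvT).2.2
        · rw [hcg v hvQ hvT]
          exact (c2 v hvT hvQ (hnZ v hvZ hvQ hvT)).2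
      exact hAl v _ hvAl q hq hqv.symm)
    (by
      intro q hq z _ _
      have h1 := dg_biUnion_le S (ci (f₀ q)) A (fun j hj => indA _ (hQA q hq).1 j hj) (f₀ q)
      have h2 := ftyp q hq _ (hQA q hq).1 (hQA q hq).2
      rw [hUs]
      exact h1.trans (h2.trans hθN4))
  exact ⟨f, hf, hfa⟩

end Pool.Agent.T6P
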