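import Pool.Agent.T6A.Thr4R
import Pool.Agent.T6P.Emb2

/-!
# The low problem for the piece scheme (MP_c6effb_co, P4)

As version 4 (`Low4.lean`, `Thr4R.lean`), but the clusters of the data are sparse inside, so that
adjacent vertices may be placed in the same cluster: `Sol2` is `Sol` where the pairs `i = j` are not
bad. The other bad pairs are those of `D.Bd` (which is reflexive).
-/

set_option autoImplicit false
set_option linter.unusedSectionVars false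

open Finset Classical

namespace Pool.Agent.T6P

open Pool.Agent.T6A Pool.Agent.T6A.EMB

/-- A solution of the low problem with the lists `Al`; adjacent vertices may be in one cluster. -/
def Sol2 {Q : ℝ} {C K M : ℕ} {δ₁ δ : ℝ} {V : Type} [Fintype V] {G : SimpleGraph V}
    (D : PreData Q C K M δ₁ δ G) (Al : V → Finset D.ι) : Prop :=
  ∃ (T : Finset V) (g b : V → D.ι),
    (∀ v ∈ T, v ∉ D.Qh ∧ v ∉ D.Ex ∧ b v ∉ D.A ∧ b v ∈ Al v) ∧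
    (∀ v, v ∉ T → v ∉ D.Qh → (∃ u ∈ T, G.Adj v u) → g v ∈ D.A ∧ g v ∈ Al v) ∧
    (∀ v ∈ T, ∀ u ∈ T, G.Adj v u → ¬ D.F.Adj (b v) (b u) ∧ ¬ (D.Bd (b v) (b u) ∧ b v ≠ b u)) ∧
    (∀ v ∈ T, ∀ u, u ∉ T → u ∉ D.Qh → G.Adj v u →
      ¬ D.F.Adj (b v) (g u) ∧ ¬ (D.Bd (b v) (g u) ∧ b v ≠ g u)) ∧
    (∀ v u, v ∉ T → v ∉ D.Qh → u ∉ T → u ∉ D.Qh → G.Adj v u → (∃ z ∈ T, G.Adj v z) →
      (∃ z ∈ T, G.Adj u z) → ¬ (D.Bd (g v) (g u) ∧ g v ≠ g u)) ∧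
    (∀ a ∈ D.A, ∀ S : Finset V, (∀ v ∈ S, v ∉ T ∧ v ∉ D.Qh ∧ (∃ u ∈ T, G.Adj v u) ∧ g v = a) →
      (S.card : ℝ) ≤ (1 - 2 * δ₁) * D.w a * Fintype.card V) ∧
    (∀ c, c ∉ D.A → ∀ S : Finset V, (∀ v ∈ S, v ∈ T ∧ b v = c) →
      (S.card : ℝ) ≤ (1 - 2 * δ₁) * D.w c * Fintype.card V) ∧
    ((Fintype.card V : ℝ) - T.card ≤ (1 - 2 * δ₁) * (∑ i ∈ D.A, D.w i) * Fintype.card V)

/-- Facts on the hubs of the data: they have degree greater than `K`, and the exceptional vertices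
are neighbours of hubs. -/
structure HubFacts {Q : ℝ} {C K M : ℕ} {δ₁ δ : ℝ} {V : Type} [Fintype V] {G : SimpleGraph V}
    (D : PreData Q C K M δ₁ δ G) : Prop where
  big : ∀ v ∈ D.Qh, K < (G.neighborSet v).ncard
  exQ : ∀ v ∈ D.Ex, ∃ u ∈ D.Qh, G.Adj v u

/-- A vertex without neighbours among the hubs has the full list. -/
def FullOff {Q : ℝ} {C K M : ℕ} {δ₁ δ : ℝ} {V : Type} [Fintype V] {G : SimpleGraph V}
    (D : PreData Q C K M δ₁ δ G) (Al : V → Finset D.ι) : Prop :=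
  ∀ v, (∀ q ∈ D.Qh, ¬ G.Adj v q) → ∀ j, j ∈ Al v

/-- The low problem for the piece scheme, with the threshold hypothesis, for connected graphs with
the property `P` and total weight below `1 + Q'`. -/
def LowProbP (P : ∀ V : Type, SimpleGraph V → Prop) (Q Q' : ℝ) : Prop :=
  ∀ C : ℕ, ∃ δ₁ e₃ : ℝ, 0 < δ₁ ∧ δ₁ ≤ 1 / 4 ∧ 0 < e₃ ∧ ∃ K₁ : ℕ, ∀ K : ℕ, K₁ ≤ K →
    ∃ δ : ℝ, 0 < δ ∧ δ ≤ e₃ ∧ ∀ M : ℕ, ∃ k₀ : ℕ, ∀ (V : Type) [Fintype V] (G : SimpleGraph V)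
      (D : PreData Q C K M δ₁ δ G), k₀ ≤ Fintype.card V → P V G → G.Connected →
      7 * Fintype.card V < 5 * G.edgeSet.ncard →
      (@Finset.sum D.ι ℝ _ (@Finset.univ D.ι D.ft) D.w) < 1 + Q' →
      (∀ v, v ∉ D.Qh → v ∉ D.Ex → dLow G D.Qh v + jHub G D.Gi v = (G.neighborSet v).ncard) →
      ThrP D e₃ → HubFacts D →
      ∃ As ⊆ D.A, δ₁ ≤ ∑ i ∈ As, D.w i ∧
        ∀ i₀ ∈ As, ∀ Al : V → Finset D.ι, D.Lists i₀ Al → FullOff D Al → Sol2 D Al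

end Pool.Agent.T6P
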