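import Pool.Agent.T6P.PLaw
import Pool.Agent.T6A.BadBound

/-!
# The bad events of the piece rule (MP_c6effb_co, PIECES, part P5: bad)

`updP c z ω i` = `ω` with the cluster of `z` replaced by `i`. `resample`: the cluster of `z` may be drawn anew, given
everything else (law `kap K o`, `o` = the cluster outside `A` of the piece of `z`). `K (some y)` has density at most `R`
with respect to `w`, given `y`; `K none` has density at most `R` (unconditionally).
-/

set_option autoImplicit false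
set_option linter.unusedSectionVars false

open Finset

namespace Pool.Agent.T6P

open Pool.Agent.T6A

noncomputable section

open Classical

variable {V ι : Type} [Fintype V] [Fintype ι]

/-- Replace the cluster of `z` by `i`. -/
def updP (c : V → V) (z : V) (ω : V → Option ι × (V → ι)) (i : ι) : V → Option ι × (V → ι) :=
  Function.update ω (c z) ((ω (c z)).1, Function.update (ω (c z)).2 z i)

section upd

variable {c : V → V} {z : V} {ω : V → Option ι × (V → ι)} {i : ι}

theorem updP_fst (x : V) : (updP c z ω i x).1 = (ω x).1 := by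
  unfold updP
  by_cases h : x = c z
  · subst h
    rw [Function.update_self]
  · rw [Function.update_of_ne h]

theorem gP_updP_self : gP c (updP c z ω i) z = i := by
  unfold gP updP
  rw [Function.update_self]
  show Function.update (ω (c z)).2 z i z = i
  rw [Function.update_self]

theorem gP_updP_ne {u : V} (h : u ≠ z) : gP c (updP c z ω i) u = gP c ω u := by
  unfold gP updP
  by_cases hc : c u = c z
  · rw [hc, Function.update_self]
    exact Function.update_of_ne h _ _
  · rw [Function.update_of_ne hc]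

theorem updP_updP (j : ι) : updP c z (updP c z ω i) j = updP c z ω j := by
  unfold updP
  rw [Function.update_self, Function.update_idem]
  show Function.update ω (c z) ((ω (c z)).1, Function.update (Function.update (ω (c z)).2 z i) z j) = _
  rw [Function.update_idem]

theorem updP_gP : updP c z ω (gP c ω z) = ω := by
  unfold updP gP
  rw [Function.update_eq_self]
  exact Function.update_eq_self _ _

theorem wt_updP (K : Option ι → ι → ℝ) :
    wt (lawP K) (updP c z ω i) * kap K (ω (c z)).1 (gP c ω z) =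
      wt (lawP K) ω * kap K (ω (c z)).1 i := by
  have h1 : ∏ v ∈ univ.erase (c z), lawP K v (updP c z ω i v) =
      ∏ v ∈ univ.erase (c z), lawP K v (ω v) := by
    refine prod_congr rfl fun v hv => ?_
    unfold updP
    rw [Function.update_of_ne (ne_of_mem_erase hv)]
  have h2 : lawP K (c z) (updP c z ω i (c z)) * kap K (ω (c z)).1 (gP c ω z) =
      lawP K (c z) (ω (c z)) * kap K (ω (c z)).1 i := by
    have e1 : updP c z ω i (c z) = ((ω (c z)).1, Function.update (ω (c z)).2 z i) := by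
      unfold updP
      rw [Function.update_self]
    rw [e1]
    unfold lawP gP
    have e2 : ∏ u, kap K (ω (c z)).1 (Function.update (ω (c z)).2 z i u) =
        kap K (ω (c z)).1 i * ∏ u ∈ univ.erase z, kap K (ω (c z)).1 ((ω (c z)).2 u) := by
      rw [← mul_prod_erase univ _ (mem_univ z), Function.update_self]
      congr 1
      refine prod_congr rfl fun u hu => ?_
      rw [Function.update_of_ne (ne_of_mem_erase hu)]
    have e3 : ∏ u, kap K (ω (c z)).1 ((ω (c z)).2 u) = kap K (ω (c z)).1 ((ω (c z)).2 z) *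
        ∏ u ∈ univ.erase z, kap K (ω (c z)).1 ((ω (c z)).2 u) :=
      (mul_prod_erase univ _ (mem_univ z)).symm
    show K0 K (ω (c z)).1 * (∏ u, kap K (ω (c z)).1 (Function.update (ω (c z)).2 z i u)) *
      kap K (ω (c z)).1 ((ω (c z)).2 z) = K0 K (ω (c z)).1 *
      (∏ u, kap K (ω (c z)).1 ((ω (c z)).2 u)) * kap K (ω (c z)).1 i
    rw [e2, e3]
    ring
  unfold wt
  rw [← mul_prod_erase univ (fun v => lawP K v (updP c z ω i v)) (mem_univ (c z)),
    ← mul_prod_erase univ (fun v => lawP K v (ω v)) (mem_univ (c z)), h1]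
  linear_combination (∏ v ∈ univ.erase (c z), lawP K v (ω v)) * h2

end upd

variable {F : SimpleGraph ι} {K : Option ι → ι → ℝ}

/-- **Resampling** of the cluster of `z`. -/
theorem resample (h : IsK F K) (c : V → V) (z : V) (Φ : (V → Option ι × (V → ι)) → ι → ℝ)
    (hΦ : ∀ ω i j, Φ (updP c z ω j) i = Φ ω i) :
    EE (lawP K) (fun ω => Φ ω (gP c ω z)) =
      EE (lawP K) (fun ω => ∑ i, kap K (ω (c z)).1 i * Φ ω i) := by
  have hone : ∀ ω : V → Option ι × (V → ι),
      wt (lawP K) ω * ∑ i, kap K (ω (c z)).1 i = wt (lawP K) ω := by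
    intro ω
    rcases eq_or_lt_of_le (h.K0_nonneg (ω (c z)).1) with h0 | h0
    · have h1 : wt (lawP K) ω = 0 := by
        refine prod_eq_zero (mem_univ (c z)) ?_
        unfold lawP
        rw [← h0, zero_mul]
      rw [h1, zero_mul]
    · rw [(h.law_kap (V := V) h0).sum_one (c z), mul_one]
  let τ : ((V → Option ι × (V → ι)) × ι) → ((V → Option ι × (V → ι)) × ι) :=
    fun x => (updP c z x.1 x.2, gP c x.1 z)
  have hτ : Function.Involutive τ := by
    rintro ⟨ω, i⟩
    show (updP c z (updP c z ω i) (gP c ω z), gP c (updP c z ω i) z) = (ω, i)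
    rw [updP_updP, updP_gP, gP_updP_self]
  have key : ∑ x : (V → Option ι × (V → ι)) × ι,
      wt (lawP K) x.1 * kap K (x.1 (c z)).1 x.2 * Φ x.1 (gP c x.1 z) =
      ∑ x : (V → Option ι × (V → ι)) × ι, wt (lawP K) x.1 * kap K (x.1 (c z)).1 x.2 * Φ x.1 x.2 := by
    rw [← Equiv.sum_comp hτ.toPerm]
    refine sum_congr rfl ?_
    rintro ⟨ω, i⟩ _
    show wt (lawP K) (updP c z ω i) * kap K ((updP c z ω i) (c z)).1 (gP c ω z) *
      Φ (updP c z ω i) (gP c (updP c z ω i) z) = wt (lawP K) ω * kap K (ω (c z)).1 i * Φ ω i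
    rw [updP_fst, gP_updP_self, hΦ, wt_updP]
  rw [Fintype.sum_prod_type, Fintype.sum_prod_type] at key
  unfold EE
  calc ∑ ω, wt (lawP K) ω * Φ ω (gP c ω z)
      = ∑ ω : V → Option ι × (V → ι), ∑ i, wt (lawP K) ω * kap K (ω (c z)).1 i *
          Φ ω (gP c ω z) := by
        refine sum_congr rfl fun ω _ => ?_
        rw [← sum_mul, ← mul_sum, hone]
    _ = _ := key
    _ = _ := by
        refine sum_congr rfl fun ω _ => ?_
        rw [mul_sum]
        exact sum_congr rfl fun i _ => by ring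

/-- functions of one `o` -/
theorem EE_o (h : IsK F K) (x : V) (f : Option ι → ℝ) :
    EE (lawP K) (fun ω => f (ω x).1) = ∑ o, K0 K o * f o := by
  have h1 := EE_single (isLaw_lawP (V := V) h) x (fun z : Option ι × (V → ι) => f z.1)
  refine h1.trans ?_
  rw [sum_law]
  refine sum_congr rfl fun o _ => ?_
  exact h.mul_EE_eq o fun h0 => EE_const (h.law_kap (V := V) h0) (f o)

/-- **The own piece and one `o`.** -/
theorem EE_own (h : IsK F K) (c : V → V) (v x : V) (a y : ι) (f : Option ι → ℝ) :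
    EE (lawP K) (fun ω => BB.ind (gP c ω v = a ∧ (ω (c v)).1 = some y) * f (ω x).1) =
      K (some y) a * (if x = c v then f (some y) else ∑ o, K0 K o * f o) := by
  have h1 := resample h c v (fun ω i => BB.ind (i = a ∧ (ω (c v)).1 = some y) * f (ω x).1)
    (fun ω i j => by rw [updP_fst, updP_fst])
  refine h1.trans ?_
  have h2 : ∀ ω : V → Option ι × (V → ι), ∑ i, kap K (ω (c v)).1 i *
      (BB.ind (i = a ∧ (ω (c v)).1 = some y) * f (ω x).1) =
      kap K (some y) a * (BB.ind ((ω (c v)).1 = some y) * f (ω x).1) := by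
    intro ω
    rw [sum_eq_single a]
    · by_cases ho : (ω (c v)).1 = some y
      · rw [BB.ind_true ⟨rfl, ho⟩, BB.ind_true ho, ho]
      · rw [BB.ind_false (fun h => ho h.2), BB.ind_false ho]
        ring
    · intro i _ hi
      rw [BB.ind_false (fun h => hi h.1)]
      ring
    · intro h'
      exact absurd (mem_univ _) h'
  simp only [h2]
  rw [EE_smul, ← h.mul_kap (some y) a]
  by_cases hx : x = c v
  · rw [if_pos hx, hx, EE_o h (c v) (fun o => BB.ind (o = some y) * f o)]
    rw [sum_eq_single (some y)]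
    · rw [BB.ind_true rfl]
      ring
    · intro o _ ho
      rw [BB.ind_false ho]
      ring
    · intro h'
      exact absurd (mem_univ _) h'
  · rw [if_neg hx]
    have h3 : EE (lawP K) (fun ω : V → Option ι × (V → ι) =>
        BB.ind ((ω (c v)).1 = some y) * f (ω x).1) =
        EE (lawP K) (fun ω : V → Option ι × (V → ι) => BB.ind ((ω (c v)).1 = some y)) *
          EE (lawP K) (fun ω : V → Option ι × (V → ι) => f (ω x).1) := by
      refine EE_mul (isLaw_lawP h) ((depOn_coord (c v)).comp fun z : Option ι × (V → ι) => BB.ind (z.1 = some y))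
        ((depOn_coord x).comp fun z : Option ι × (V → ι) => f z.1) ?_
      rw [disjoint_singleton]
      exact fun e => hx e.symm
    rw [h3, EE_o h x f, EE_o h (c v) (fun o => BB.ind (o = some y))]
    rw [sum_eq_single (some y)]
    · rw [BB.ind_true rfl]
      ring
    · intro o _ ho
      rw [BB.ind_false ho, mul_zero]
    · intro h'
      exact absurd (mem_univ _) h'

/-- bound for the conditional probability of a small set of clusters -/
def hB (K : Option ι → ι → ℝ) (t : ℝ) : Option ι → ℝ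
  | none => t / K0 K none
  | some _ => t

theorem sum_hB (h : IsK F K) {t : ℝ} (ht : 0 ≤ t) : ∑ o, K0 K o * hB K t o ≤ 2 * t := by
  rw [Fintype.sum_option]
  have h1 : K0 K none * hB K t none ≤ t := by
    show K0 K none * (t / K0 K none) ≤ t
    rcases eq_or_lt_of_le (h.K0_nonneg none) with h0 | h0
    · rw [← h0, zero_mul]
      exact ht
    · rw [mul_div_cancel₀ _ h0.ne']
  have h2 : ∑ y : ι, K0 K (some y) * hB K t (some y) ≤ t := by
    show ∑ y : ι, K0 K (some y) * t ≤ t
    rw [← sum_mul]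
    have h3 : ∑ y : ι, K0 K (some y) ≤ 1 := by
      have h4 := h.sum_K0
      rw [Fintype.sum_option] at h4
      have := h.K0_nonneg none
      linarith
    nlinarith
  linarith

/-- The density hypotheses. -/
structure Dens (K : Option ι → ι → ℝ) (A : Finset ι) (w : ι → ℝ) (R : ℝ) : Prop where
  R0 : 0 ≤ R
  supp : ∀ o a, a ∉ A → K o a = 0
  some : ∀ y a, K (some y) a ≤ R * K0 K (some y) * w a
  none : ∀ a, K none a ≤ R * w a
  out : ∀ y, K0 K (Option.some y) ≤ R * w y

variable {A : Finset ι} {w : ι → ℝ} {R ε : ℝ}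

theorem kap_le (h : IsK F K) (hD : Dens K A w R) (hε : 0 ≤ ε) (o : Option ι) (S : ι → Prop)
    (hS : ∑ i ∈ A.filter S, w i ≤ ε) : ∑ i, kap K o i * BB.ind (S i) ≤ hB K (R * ε) o := by
  have hRε : 0 ≤ R * ε := mul_nonneg hD.R0 hε
  have h1 : ∑ i, kap K o i * BB.ind (S i) = (∑ i ∈ A.filter S, K o i) / K0 K o := by
    rw [sum_div]
    symm
    rw [← sum_subset (subset_univ (A.filter S))]
    · refine sum_congr rfl fun i hi => ?_
      rw [BB.ind_true (mem_filter.1 hi).2, mul_one]
      rfl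
    · intro i _ hi
      rw [mem_filter, not_and_or] at hi
      rcases hi with hi | hi
      · unfold kap
        rw [hD.supp o i hi, zero_div, zero_mul]
      · rw [BB.ind_false hi, mul_zero]
  rw [h1]
  rcases o with _ | y
  · show _ ≤ R * ε / K0 K none
    refine div_le_div_of_nonneg_right ?_ (h.K0_nonneg none)
    calc ∑ i ∈ A.filter S, K none i ≤ ∑ i ∈ A.filter S, R * w i :=
          sum_le_sum fun i _ => hD.none i
      _ = R * ∑ i ∈ A.filter S, w i := (mul_sum _ _ _).symm
      _ ≤ R * ε := mul_le_mul_of_nonneg_left hS hD.R0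
  · show _ ≤ R * ε
    rcases eq_or_lt_of_le (h.K0_nonneg (some y)) with h0 | h0
    · rw [← h0, div_zero]
      exact hRε
    · rw [div_le_iff₀ h0]
      calc ∑ i ∈ A.filter S, K (some y) i ≤ ∑ i ∈ A.filter S, R * K0 K (some y) * w i :=
            sum_le_sum fun i _ => hD.some y i
        _ = R * K0 K (some y) * ∑ i ∈ A.filter S, w i := (mul_sum _ _ _).symm
        _ ≤ R * K0 K (some y) * ε :=
            mul_le_mul_of_nonneg_left hS (mul_nonneg hD.R0 h0.le)
        _ = R * ε * K0 K (some y) := by ring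

/-- **One small event for the cluster of `z`, given the rest.** -/
theorem EE_S (h : IsK F K) (hD : Dens K A w R) (hε : 0 ≤ ε) (c : V → V) (z : V)
    (Ψ : (V → Option ι × (V → ι)) → ℝ) (hΨ0 : ∀ ω, 0 ≤ Ψ ω)
    (hΨ : ∀ ω j, Ψ (updP c z ω j) = Ψ ω) (S : (V → Option ι × (V → ι)) → ι → Prop)
    (hS : ∀ ω j i, S (updP c z ω j) i ↔ S ω i) (hSw : ∀ ω, ∑ i ∈ A.filter (S ω), w i ≤ ε) :
    EE (lawP K) (fun ω => Ψ ω * BB.ind (S ω (gP c ω z))) ≤
      EE (lawP K) (fun ω => Ψ ω * hB K (R * ε) (ω (c z)).1) := by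
  have h1 := resample h c z (fun ω i => Ψ ω * BB.ind (S ω i)) (fun ω i j => by
    have e1 : S (updP c z ω j) i = S ω i := propext (hS ω j i)
    show Ψ (updP c z ω j) * BB.ind (S (updP c z ω j) i) = Ψ ω * BB.ind (S ω i)
    rw [hΨ, e1])
  refine h1.le.trans (EE_mono (isLaw_lawP h) fun ω => ?_)
  have h2 : ∑ i, kap K (ω (c z)).1 i * (Ψ ω * BB.ind (S ω i)) =
      Ψ ω * ∑ i, kap K (ω (c z)).1 i * BB.ind (S ω i) := by
    rw [mul_sum]
    exact sum_congr rfl fun i _ => by ring
  show ∑ i, kap K (ω (c z)).1 i * (Ψ ω * BB.ind (S ω i)) ≤ _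
  rw [h2]
  exact mul_le_mul_of_nonneg_left (kap_le h hD hε _ _ (hSw ω)) (hΨ0 ω)

/-- The own event and a bad pair `(g u, g z)`. -/
theorem EE_rel (h : IsK F K) (hD : Dens K A w R) (hε : 0 ≤ ε) (c : V → V) {v u z : V} (a y : ι)
    (Rel : ι → ι → Prop) (hRel : ∀ i, ∑ i' ∈ A.filter (Rel i), w i' ≤ ε) (hu : u ≠ z)
    (hv : v ≠ z) :
    EE (lawP K) (fun ω => BB.ind (gP c ω v = a ∧ (ω (c v)).1 = some y) *
      BB.ind (Rel (gP c ω u) (gP c ω z))) ≤ K (some y) a * (2 * (R * ε)) := by
  have hRε : 0 ≤ R * ε := mul_nonneg hD.R0 hε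
  refine (EE_S h hD hε c z (fun ω => BB.ind (gP c ω v = a ∧ (ω (c v)).1 = some y))
    (fun ω => BB.ind_nonneg _) (fun ω j => by rw [updP_fst, gP_updP_ne hv])
    (fun ω i => Rel (gP c ω u) i) (fun ω j i => by rw [gP_updP_ne hu])
    (fun ω => hRel _)).trans ?_
  rw [EE_own h c v (c z) a y (hB K (R * ε))]
  refine mul_le_mul_of_nonneg_left ?_ (h.nonneg _ _)
  split_ifs
  · show R * ε ≤ _
    linarith
  · exact sum_hB h hRε

/-- The own event and a small event for `g u`. -/
theorem EE_set (h : IsK F K) (hD : Dens K A w R) (hε : 0 ≤ ε) (c : V → V) {v u : V} (a y : ι)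
    (S : ι → Prop) (hS : ∑ i' ∈ A.filter S, w i' ≤ ε) (hv : v ≠ u) :
    EE (lawP K) (fun ω => BB.ind (gP c ω v = a ∧ (ω (c v)).1 = some y) *
      BB.ind (S (gP c ω u))) ≤ K (some y) a * (2 * (R * ε)) :=
  EE_rel h hD hε c (v := v) (u := v) (z := u) a y (fun _ => S) (fun _ => hS) hv hv

/-- The own event and a bad cluster outside `A` of another piece. -/
theorem EE_out (h : IsK F K) (hD : Dens K A w R) (c : V → V) {v u : V} (a y : ι)
    (S : ι → Prop) (hS : ∑ i' ∈ univ.filter S, w i' ≤ ε) (hc : c u ≠ c v) :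
    EE (lawP K) (fun ω => BB.ind (gP c ω v = a ∧ (ω (c v)).1 = some y) *
      BB.ind (∃ y', (ω (c u)).1 = some y' ∧ S y')) ≤ K (some y) a * (R * ε) := by
  rw [EE_own h c v (c u) a y (fun o => BB.ind (∃ y', o = some y' ∧ S y')), if_neg hc]
  refine mul_le_mul_of_nonneg_left ?_ (h.nonneg _ _)
  rw [Fintype.sum_option, BB.ind_false (by rintro ⟨y', h1, -⟩; cases h1), mul_zero, zero_add]
  calc ∑ y' : ι, K0 K (some y') * BB.ind (∃ y'', some y' = some y'' ∧ S y'')
      = ∑ y' ∈ univ.filter S, K0 K (some y') := by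
        rw [sum_filter]
        refine sum_congr rfl fun y' _ => ?_
        by_cases hy : S y'
        · rw [if_pos hy, BB.ind_true ⟨y', rfl, hy⟩, mul_one]
        · rw [if_neg hy, BB.ind_false, mul_zero]
          rintro ⟨y'', h1, h2⟩
          rw [Option.some.inj h1] at hy
          exact hy h2
    _ ≤ ∑ y' ∈ univ.filter S, R * w y' := sum_le_sum fun y' _ => hD.out y'
    _ = R * ∑ y' ∈ univ.filter S, w y' := (mul_sum _ _ _).symm
    _ ≤ R * ε := mul_le_mul_of_nonneg_left hS hD.R0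

/-- Without own event. -/
theorem EE_rel' (h : IsK F K) (hD : Dens K A w R) (hε : 0 ≤ ε) (c : V → V) {u z : V}
    (Rel : ι → ι → Prop) (hRel : ∀ i, ∑ i' ∈ A.filter (Rel i), w i' ≤ ε) (hu : u ≠ z) :
    EE (lawP K) (fun ω => BB.ind (Rel (gP c ω u) (gP c ω z))) ≤ 2 * (R * ε) := by
  have hRε : 0 ≤ R * ε := mul_nonneg hD.R0 hε
  have h1 := EE_S h hD hε c z (fun _ => 1) (fun _ => zero_le_one) (fun _ _ => rfl)
    (fun ω i => Rel (gP c ω u) i) (fun ω j i => by rw [gP_updP_ne hu]) (fun ω => hRel _)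
  simp only [one_mul] at h1
  refine h1.trans ?_
  rw [EE_o h (c z) (hB K (R * ε))]
  exact sum_hB h hRε

theorem EE_set' (h : IsK F K) (hD : Dens K A w R) (hε : 0 ≤ ε) (c : V → V) {z : V}
    (S : ι → Prop) (hS : ∑ i' ∈ A.filter S, w i' ≤ ε) :
    EE (lawP K) (fun ω => BB.ind (S (gP c ω z))) ≤ 2 * (R * ε) := by
  have hRε : 0 ≤ R * ε := mul_nonneg hD.R0 hε
  have h1 := EE_S h hD hε c z (fun _ => 1) (fun _ => zero_le_one) (fun _ _ => rfl)
    (fun _ i => S i) (fun ω j i => Iff.rfl) (fun ω => hS)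
  simp only [one_mul] at h1
  refine h1.trans ?_
  rw [EE_o h (c z) (hB K (R * ε))]
  exact sum_hB h hRε

section bad

variable {X : World ι} {L : Low V ι} {Bd : ι → ι → Prop} {Kd : ℕ}

/-- **The vertices which are placed at the very end.** -/
theorem zev_P (h : IsK X.F K) (hD : Dens K X.A X.w R) (hε : 0 ≤ ε) (c : V → V)
    (hBd : ∀ i, ∑ i' ∈ univ.filter (fun i' => Bd i i'), X.w i' ≤ ε)
    (hAv : ∀ v, ∑ i ∈ X.A \ L.Av v, X.w i ≤ ε) (hd : ∀ v, L.d v ≤ Kd) (v : V) :
    EE (lawP K) (fun ω => if zev L Bd (gP c) ω v then 1 else 0) ≤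
      2 * (Kd + 1) * (R * ε) := by
  have hRε : 0 ≤ R * ε := mul_nonneg hD.R0 hε
  have hA : ∀ v, ∑ i ∈ X.A.filter (fun i => i ∉ L.Av v), X.w i ≤ ε := by
    intro v
    refine le_trans (le_of_eq (sum_congr ?_ fun _ _ => rfl)) (hAv v)
    ext i
    rw [mem_filter, mem_sdiff]
  have hB : ∀ i, ∑ i' ∈ X.A.filter (fun i' => Bd i i'), X.w i' ≤ ε := by
    intro i
    refine le_trans (sum_le_sum_of_subset_of_nonneg ?_ fun i _ _ => (X.pos i).le) (hBd i)
    intro i' hi'
    exact mem_filter.2 ⟨mem_univ _, (mem_filter.1 hi').2⟩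
  have hle : ∀ ω : V → Option ι × (V → ι), (if zev L Bd (gP c) ω v then (1 : ℝ) else 0) ≤
      BB.ind (gP c ω v ∉ L.Av v) + ∑ u ∈ BB.nbs L v, BB.ind (Bd (gP c ω v) (gP c ω u)) := by
    intro ω
    have hs : 0 ≤ ∑ u ∈ BB.nbs L v, BB.ind (Bd (gP c ω v) (gP c ω u)) :=
      sum_nonneg fun u _ => BB.ind_nonneg _
    by_cases hz : zev L Bd (gP c) ω v
    · rw [if_pos hz]
      rcases hz with hz | ⟨u, hu, hz⟩
      · rw [BB.ind_true hz]
        linarith
      · have hm := single_le_sum (f := fun u => BB.ind (Bd (gP c ω v) (gP c ω u)))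
          (fun u _ => BB.ind_nonneg _) (BB.mem_nbs.2 hu)
        have e : BB.ind (Bd (gP c ω v) (gP c ω u)) = 1 := BB.ind_true hz
        have := BB.ind_nonneg (gP c ω v ∉ L.Av v)
        simp only [e] at hm
        linarith
    · rw [if_neg hz]
      exact add_nonneg (BB.ind_nonneg _) hs
  refine (EE_mono (isLaw_lawP h) hle).trans ?_
  rw [EE_add, EE_sum]
  have h1 := EE_set' h hD hε c (z := v) (fun i => i ∉ L.Av v) (by convert hA v)
  have h2 : ∑ u ∈ BB.nbs L v, EE (lawP K) (fun ω => BB.ind (Bd (gP c ω v) (gP c ω u))) ≤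
      #(BB.nbs L v) • (2 * (R * ε)) := by
    refine sum_le_card_nsmul _ _ _ fun u hu => ?_
    exact EE_rel' h hD hε c Bd hB (BB.mem_nbs.1 hu).ne
  have h3 : (#(BB.nbs L v) : ℝ) ≤ Kd := by exact_mod_cast hd v
  rw [nsmul_eq_mul] at h2
  have h4 : (#(BB.nbs L v) : ℝ) * (2 * (R * ε)) ≤ Kd * (2 * (R * ε)) :=
    mul_le_mul_of_nonneg_right h3 (by linarith)
  linarith

/-- **The bad events** of a vertex in `T` (`Bd` irreflexive). -/
theorem bad_P (h : IsK X.F K) (hD : Dens K X.A X.w R) (hε : 0 ≤ ε) (c : V → V)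
    (hsymm : ∀ i i', Bd i i' → Bd i' i) (hirr : ∀ i, ¬ Bd i i)
    (hBd : ∀ i, ∑ i' ∈ univ.filter (fun i' => Bd i i'), X.w i' ≤ ε)
    (hAv : ∀ v, ∑ i ∈ X.A \ L.Av v, X.w i ≤ ε) (hd : ∀ v, L.d v ≤ Kd)
    (lt : ι → ι → Prop) (v : V) (a y : ι) :
    EE (lawP K) (fun ω => if gP c ω v = a ∧ bP X.F L.G lt L.Bv c ω v = some y ∧
      ¬ zev L Bd (gP c) ω v ∧ badE L Bd (gP c) (bP X.F L.G lt L.Bv c) ω v then 1 else 0) ≤
      K (some y) a * (Kd * ((2 * Kd + 5) * (R * ε))) := by
  have hRε : 0 ≤ R * ε := mul_nonneg hD.R0 hε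
  have hA : ∀ v, ∑ i ∈ X.A.filter (fun i => i ∉ L.Av v), X.w i ≤ ε := by
    intro v
    refine le_trans (le_of_eq (sum_congr ?_ fun _ _ => rfl)) (hAv v)
    ext i
    rw [mem_filter, mem_sdiff]
  have hB : ∀ i, ∑ i' ∈ X.A.filter (fun i' => Bd i i'), X.w i' ≤ ε := by
    intro i
    refine le_trans (sum_le_sum_of_subset_of_nonneg ?_ fun i _ _ => (X.pos i).le) (hBd i)
    intro i' hi'
    exact mem_filter.2 ⟨mem_univ _, (mem_filter.1 hi').2⟩
  obtain ⟨Ow, hOw⟩ : ∃ Ow : (V → Option ι × (V → ι)) → ℝ, Ow = fun ω =>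
      BB.ind (gP c ω v = a ∧ (ω (c v)).1 = some y) := ⟨_, rfl⟩
  obtain ⟨T, hT⟩ : ∃ T : V → (V → Option ι × (V → ι)) → ℝ, T = fun u ω =>
      Ow ω * BB.ind (gP c ω u ∉ L.Av u) +
      (∑ z ∈ (BB.nbs L u).erase v, Ow ω * BB.ind (Bd (gP c ω u) (gP c ω z))) +
      Ow ω * BB.ind (Bd y (gP c ω u)) +
      (if c u = c v then 0 else Ow ω * BB.ind (∃ y', (ω (c u)).1 = some y' ∧ Bd y y')) := ⟨_, rfl⟩
  have hOw0 : ∀ ω, 0 ≤ Ow ω := fun ω => by rw [hOw]; exact BB.ind_nonneg _
  have hOi : ∀ ω (P : Prop), 0 ≤ Ow ω * BB.ind P := fun ω P =>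
    mul_nonneg (hOw0 ω) (BB.ind_nonneg _)
  have hz0 : ∀ u ω, 0 ≤ ∑ z ∈ (BB.nbs L u).erase v, Ow ω * BB.ind (Bd (gP c ω u) (gP c ω z)) :=
    fun u ω => sum_nonneg fun z _ => hOi ω _
  have hi0 : ∀ u ω, (0 : ℝ) ≤ if c u = c v then 0 else
      Ow ω * BB.ind (∃ y', (ω (c u)).1 = some y' ∧ Bd y y') := by
    intro u ω
    split_ifs
    · exact le_rfl
    · exact hOi ω _
  have hT0 : ∀ u ω, 0 ≤ T u ω := by
    intro u ω
    rw [hT]
    have h1 := hOi ω (gP c ω u ∉ L.Av u)
    have h2 := hz0 u ω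
    have h3 := hOi ω (Bd y (gP c ω u))
    have h4 := hi0 u ω
    show 0 ≤ _ + _ + _ + _
    linarith
  have hle : ∀ ω : V → Option ι × (V → ι),
      (if gP c ω v = a ∧ bP X.F L.G lt L.Bv c ω v = some y ∧
      ¬ zev L Bd (gP c) ω v ∧ badE L Bd (gP c) (bP X.F L.G lt L.Bv c) ω v then (1 : ℝ) else 0) ≤
      ∑ u ∈ BB.nbs L v, T u ω := by
    intro ω
    by_cases hcase : gP c ω v = a ∧ bP X.F L.G lt L.Bv c ω v = some y ∧
      ¬ zev L Bd (gP c) ω v ∧ badE L Bd (gP c) (bP X.F L.G lt L.Bv c) ω v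
    · rw [if_pos hcase]
      obtain ⟨hga, hby, hnz, hbad⟩ := hcase
      have ho : (ω (c v)).1 = some y := (bP_eq.1 hby).1
      have hOw1 : Ow ω = 1 := by rw [hOw]; exact BB.ind_true ⟨hga, ho⟩
      -- it is enough to find one neighbour
      suffices hsuf : ∃ u ∈ BB.nbs L v, 1 ≤ T u ω by
        obtain ⟨u, hu, h1⟩ := hsuf
        exact h1.trans (single_le_sum (f := fun u => T u ω) (fun u _ => hT0 u ω) hu)
      rcases hbad with hb | ⟨u, hu, hb⟩ | ⟨y1, hy1, u, hu, hb⟩
      · exact absurd hb hnz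
      · refine ⟨u, BB.mem_nbs.2 hu, ?_⟩
        have h2 := hz0 u ω
        have h3 := hOi ω (Bd y (gP c ω u))
        have h4 := hi0 u ω
        rw [hT]
        show 1 ≤ _ + _ + _ + _
        rcases hb with hb | ⟨z, hz, hb⟩
        · have e : Ow ω * BB.ind (gP c ω u ∉ L.Av u) = 1 := by
            rw [hOw1, BB.ind_true hb, mul_one]
          linarith
        · have hzv : z ≠ v := by
            rintro rfl
            exact hnz (Or.inr ⟨u, hu, hsymm _ _ hb⟩)
          have hm := single_le_sum (f := fun z => Ow ω * BB.ind (Bd (gP c ω u) (gP c ω z)))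
            (fun z _ => hOi ω _) (mem_erase.2 ⟨hzv, BB.mem_nbs.2 hz⟩)
          have e : Ow ω * BB.ind (Bd (gP c ω u) (gP c ω z)) = 1 := by
            rw [hOw1, BB.ind_true hb, mul_one]
          simp only [e] at hm
          have h1 := hOi ω (gP c ω u ∉ L.Av u)
          linarith
      · refine ⟨u, BB.mem_nbs.2 hu, ?_⟩
        have hyy : y1 = y := by
          have : (some y1 : Option ι) = some y := hy1.symm.trans hby
          exact Option.some.inj this
        rw [hyy] at hb
        have h1 := hOi ω (gP c ω u ∉ L.Av u)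
        have h2 := hz0 u ω
        have h3 := hOi ω (Bd y (gP c ω u))
        have h4 := hi0 u ω
        rw [hT]
        show 1 ≤ _ + _ + _ + _
        rcases hb with hb | ⟨y', hy', hb⟩
        · have e : Ow ω * BB.ind (Bd y (gP c ω u)) = 1 := by
            rw [hOw1, BB.ind_true hb, mul_one]
          linarith
        · have hou : (ω (c u)).1 = some y' := (bP_eq.1 hy').1
          have hcne : c u ≠ c v := by
            intro hc
            rw [hc, ho] at hou
            rw [← Option.some.inj hou] at hb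
            exact hirr y hb
          have e : (if c u = c v then (0 : ℝ) else
              Ow ω * BB.ind (∃ y', (ω (c u)).1 = some y' ∧ Bd y y')) = 1 := by
            rw [if_neg hcne, hOw1, BB.ind_true ⟨y', hou, hb⟩, mul_one]
          linarith
    · rw [if_neg hcase]
      exact sum_nonneg fun u _ => hT0 u ω
  refine (EE_mono (isLaw_lawP h) hle).trans ?_
  rw [EE_sum]
  have hK0 : 0 ≤ K (some y) a := h.nonneg _ _
  have hTu : ∀ u ∈ BB.nbs L v, EE (lawP K) (T u) ≤ K (some y) a * ((2 * Kd + 5) * (R * ε)) := by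
    intro u hu
    have huv : v ≠ u := (BB.mem_nbs.1 hu).ne
    have e : EE (lawP K) (T u) = EE (lawP K) (fun ω => Ow ω * BB.ind (gP c ω u ∉ L.Av u)) +
        (∑ z ∈ (BB.nbs L u).erase v,
          EE (lawP K) (fun ω => Ow ω * BB.ind (Bd (gP c ω u) (gP c ω z)))) +
        EE (lawP K) (fun ω => Ow ω * BB.ind (Bd y (gP c ω u))) +
        EE (lawP K) (fun ω => if c u = c v then 0 else
          Ow ω * BB.ind (∃ y', (ω (c u)).1 = some y' ∧ Bd y y')) := by
      rw [hT, ← EE_sum, ← EE_add, ← EE_add, ← EE_add]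
    rw [e]
    have h1 : EE (lawP K) (fun ω => Ow ω * BB.ind (gP c ω u ∉ L.Av u)) ≤
        K (some y) a * (2 * (R * ε)) := by
      rw [hOw]
      exact EE_set h hD hε c a y (fun i => i ∉ L.Av u) (by convert hA u) huv
    have h2 : ∑ z ∈ (BB.nbs L u).erase v,
        EE (lawP K) (fun ω => Ow ω * BB.ind (Bd (gP c ω u) (gP c ω z))) ≤
        Kd * (K (some y) a * (2 * (R * ε))) := by
      have h5 : ∑ z ∈ (BB.nbs L u).erase v,
          EE (lawP K) (fun ω => Ow ω * BB.ind (Bd (gP c ω u) (gP c ω z))) ≤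
          #((BB.nbs L u).erase v) • (K (some y) a * (2 * (R * ε))) := by
        refine sum_le_card_nsmul _ _ _ fun z hz => ?_
        obtain ⟨hz1, hz2⟩ := mem_erase.1 hz
        rw [hOw]
        exact EE_rel h hD hε c a y Bd hB (BB.mem_nbs.1 hz2).ne hz1.symm
      refine h5.trans ?_
      rw [nsmul_eq_mul]
      refine mul_le_mul_of_nonneg_right ?_ (mul_nonneg hK0 (by linarith))
      have h6 : #((BB.nbs L u).erase v) ≤ Kd := (card_erase_le).trans (hd u)
      exact_mod_cast h6
    have h3 : EE (lawP K) (fun ω => Ow ω * BB.ind (Bd y (gP c ω u))) ≤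
        K (some y) a * (2 * (R * ε)) := by
      rw [hOw]
      exact EE_set h hD hε c a y (fun i => Bd y i) (hB y) huv
    have h4 : EE (lawP K) (fun ω => if c u = c v then 0 else
        Ow ω * BB.ind (∃ y', (ω (c u)).1 = some y' ∧ Bd y y')) ≤ K (some y) a * (R * ε) := by
      by_cases hc : c u = c v
      · simp only [if_pos hc]
        rw [EE_const (isLaw_lawP h)]
        exact mul_nonneg hK0 hRε
      · simp only [if_neg hc]
        rw [hOw]
        exact EE_out h hD c a y (fun i => Bd y i) (hBd y) hc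
    have h7 : K (some y) a * ((2 * Kd + 5) * (R * ε)) = K (some y) a * (2 * (R * ε)) +
        Kd * (K (some y) a * (2 * (R * ε))) + K (some y) a * (2 * (R * ε)) +
        K (some y) a * (R * ε) := by ring
    rw [h7]
    linarith
  have h8 : ∑ u ∈ BB.nbs L v, EE (lawP K) (T u) ≤
      #(BB.nbs L v) • (K (some y) a * ((2 * Kd + 5) * (R * ε))) := sum_le_card_nsmul _ _ _ hTu
  refine h8.trans ?_
  rw [nsmul_eq_mul]
  have h9 : (#(BB.nbs L v) : ℝ) ≤ Kd := by exact_mod_cast hd v
  have h10 : 0 ≤ K (some y) a * ((2 * Kd + 5) * (R * ε)) :=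
    mul_nonneg hK0 (mul_nonneg (by positivity) hRε)
  calc (#(BB.nbs L v) : ℝ) * (K (some y) a * ((2 * Kd + 5) * (R * ε))) ≤
        Kd * (K (some y) a * ((2 * Kd + 5) * (R * ε))) := mul_le_mul_of_nonneg_right h9 h10
    _ = _ := by ring

end bad

end

end Pool.Agent.T6P
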