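import Mathlib

/-!
# Pieces of a connected graph of bounded degree (MP_c6effb_co, scheme of pieces, P2)

A connected graph `G` of maximum degree at most `Δ` with `k` vertices is divided into parts with at
most `M(Δ, ε)` vertices each, so that the number of (ordered) adjacent pairs in different parts is
at most `2 m - 2 (1 - ε) k`. The parts are Voronoi cells of a maximal set of vertices with pairwise
distances greater than `2 r`; every vertex which is not a centre has a parent in the same part, one
step closer to the centre.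
-/

set_option autoImplicit false
set_option linter.unusedSectionVars false

open Finset

namespace Pool.Agent.T6P

section

variable {V : Type} [Fintype V] {G : SimpleGraph V}

/-- A neighbour which is one step closer to `s`. -/
theorem exists_closer (hG : G.Connected) {v s : V} (h : v ≠ s) :
    ∃ u, G.Adj v u ∧ G.dist u s + 1 = G.dist v s := by
  obtain ⟨p, hp⟩ := hG.exists_walk_length_eq_dist v s
  cases p with
  | nil => exact absurd rfl h
  | @cons _ u _ hadj q =>
    refine ⟨u, hadj, ?_⟩
    have h1 : G.dist u s ≤ q.length := SimpleGraph.dist_le q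
    have h2 : G.dist v s ≤ G.dist v u + G.dist u s := hG.dist_triangle
    have h3 : G.dist v u = 1 := SimpleGraph.dist_eq_one_iff_adj.2 hadj
    rw [SimpleGraph.Walk.length_cons] at hp
    omega

open Classical in
/-- A ball of radius `r` has more than `r` vertices. -/
theorem ball_large (hG : G.Connected) (s : V) (r : ℕ) (hr : r + 1 ≤ Fintype.card V) :
    r + 1 ≤ #{v | G.dist v s ≤ r} := by
  by_cases hall : ∀ v, G.dist v s ≤ r
  · rw [Finset.filter_true_of_mem fun v _ => hall v, card_univ]
    exact hr
  push Not at hall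
  obtain ⟨w, hw⟩ := hall
  have hex : ∀ n, n ≤ G.dist w s → ∃ v, G.dist v s = n := by
    intro n hn
    obtain ⟨m, hm⟩ : ∃ m, m + n = G.dist w s := ⟨G.dist w s - n, by omega⟩
    clear hn
    induction m generalizing n with
    | zero => exact ⟨w, by omega⟩
    | succ m ih =>
      obtain ⟨v, hv⟩ := ih (n + 1) (by omega)
      have hne : v ≠ s := by
        rintro rfl
        rw [SimpleGraph.dist_self] at hv
        omega
      obtain ⟨u, _, hu⟩ := exists_closer hG hne
      exact ⟨u, by omega⟩
  have hch : ∀ n : Fin (r + 1), ∃ v, G.dist v s = n := fun n => hex n (by omega)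
  choose g hg using hch
  have hinj : Function.Injective g := by
    intro a b hab
    have h1 := hg a
    have h2 := hg b
    rw [hab] at h1
    exact Fin.ext (by omega)
  calc r + 1 = #(univ : Finset (Fin (r + 1))) := by simp
    _ = #(univ.image g) := (card_image_of_injective _ hinj).symm
    _ ≤ _ := by
      refine card_le_card fun v hv => ?_
      obtain ⟨n, _, rfl⟩ := mem_image.1 hv
      rw [mem_filter]
      exact ⟨mem_univ _, by rw [hg]; omega⟩

open Classical in
/-- A ball of radius `t` has at most `(Δ + 1) ^ t` vertices. -/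
theorem ball_small (hG : G.Connected) {Δ : ℕ} (hΔ : ∀ v : V, (G.neighborSet v).ncard ≤ Δ) (s : V)
    (t : ℕ) : #{v | G.dist v s ≤ t} ≤ (Δ + 1) ^ t := by
  induction t with
  | zero =>
    have : (univ.filter fun v => G.dist v s ≤ 0) ⊆ {s} := by
      intro v hv
      rw [mem_filter] at hv
      rw [mem_singleton]
      exact (hG.dist_eq_zero_iff).1 (by omega)
    simpa using card_le_card this
  | succ t ih =>
    have hsub : (univ.filter fun v => G.dist v s ≤ t + 1) ⊆
        (univ.filter fun v => G.dist v s ≤ t).biUnion fun y => insert y (univ.filter fun u => G.Adj y u) := by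
      intro v hv
      rw [mem_filter] at hv
      rw [mem_biUnion]
      by_cases h0 : G.dist v s ≤ t
      · exact ⟨v, mem_filter.2 ⟨mem_univ _, h0⟩, mem_insert_self _ _⟩
      · have hne : v ≠ s := by
          rintro rfl
          rw [SimpleGraph.dist_self] at h0
          omega
        obtain ⟨u, hu, hu'⟩ := exists_closer hG hne
        exact ⟨u, mem_filter.2 ⟨mem_univ _, by omega⟩,
          mem_insert_of_mem (mem_filter.2 ⟨mem_univ _, hu.symm⟩)⟩
    calc _ ≤ _ := card_le_card hsub
      _ ≤ ∑ y ∈ univ.filter fun v => G.dist v s ≤ t, #(insert y (univ.filter fun u => G.Adj y u)) :=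
        card_biUnion_le
      _ ≤ ∑ y ∈ univ.filter fun v => G.dist v s ≤ t, (Δ + 1) := by
        refine sum_le_sum fun y _ => (card_insert_le _ _).trans ?_
        refine Nat.add_le_add_right (le_trans (le_of_eq ?_) (hΔ y)) 1
        rw [Set.ncard_eq_toFinset_card']
        congr 1
        ext u
        simp
      _ = #{v | G.dist v s ≤ t} * (Δ + 1) := by rw [sum_const, smul_eq_mul]
      _ ≤ (Δ + 1) ^ t * (Δ + 1) := Nat.mul_le_mul_right _ ih
      _ = _ := (pow_succ _ _).symm

open Classical in
/-- A maximal set of vertices with pairwise distances greater than `2 r`. -/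
theorem exists_centres (hG : G.Connected) (r : ℕ) (hr : r + 1 ≤ Fintype.card V) :
    ∃ S : Finset V, #S * (r + 1) ≤ Fintype.card V ∧ ∀ v, ∃ s ∈ S, G.dist v s ≤ 2 * r := by
  obtain ⟨S, hS, hmax⟩ := exists_max_image
    (univ.filter fun S : Finset V => ∀ s ∈ S, ∀ t ∈ S, s ≠ t → 2 * r < G.dist s t) (fun S => #S)
    ⟨∅, by simp⟩
  rw [mem_filter] at hS
  refine ⟨S, ?_, ?_⟩
  · have hdis : ∀ s ∈ S, ∀ t ∈ S, s ≠ t → Disjoint (univ.filter fun v => G.dist v s ≤ r)
        (univ.filter fun v => G.dist v t ≤ r) := by
      intro s hs t ht hst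
      rw [Finset.disjoint_left]
      intro v hv hv'
      rw [mem_filter] at hv hv'
      have h1 := hS.2 s hs t ht hst
      have h2 : G.dist s t ≤ G.dist s v + G.dist v t := hG.dist_triangle
      have h3 : G.dist s v = G.dist v s := SimpleGraph.dist_comm
      omega
    calc #S * (r + 1) = ∑ _s ∈ S, (r + 1) := by rw [sum_const, smul_eq_mul]
      _ ≤ ∑ s ∈ S, #{v | G.dist v s ≤ r} := sum_le_sum fun s _ => ball_large hG s r hr
      _ = #(S.biUnion fun s => univ.filter fun v => G.dist v s ≤ r) := (card_biUnion hdis).symm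
      _ ≤ Fintype.card V := card_le_univ _
  · intro v
    by_contra hcon
    push Not at hcon
    have hv : v ∉ S := by
      intro hv
      have := hcon v hv
      rw [SimpleGraph.dist_self] at this
      omega
    have h1 := hmax (insert v S) (by
      rw [mem_filter]
      refine ⟨mem_univ _, fun s hs t ht hst => ?_⟩
      rw [mem_insert] at hs ht
      rcases hs with rfl | hs <;> rcases ht with rfl | ht
      · exact absurd rfl hst
      · exact hcon t ht
      · rw [SimpleGraph.dist_comm]
        exact hcon s hs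
      · exact hS.2 s hs t ht hst)
    rw [card_insert_of_notMem hv] at h1
    omega

open Classical in
/-- Cells with parents: every vertex outside `S` has a neighbour in the same cell, closer to the
centre of the cell. -/
theorem exists_cells (hG : G.Connected) (S : Finset V) (R : ℕ)
    (hS : ∀ v, ∃ s ∈ S, G.dist v s ≤ R) :
    ∃ c : V → V, (∀ v, c v ∈ S ∧ G.dist v (c v) ≤ R) ∧
      ∀ v, v ∉ S → ∃ u, G.Adj v u ∧ c u = c v ∧ G.dist u (c v) + 1 = G.dist v (c v) := by
  have e : V ≃ Fin (Fintype.card V) := Fintype.equivFin V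
  obtain ⟨K, hK⟩ : ∃ K : ℕ, K = Fintype.card V := ⟨_, rfl⟩
  have heK : ∀ s, (e s : ℕ) < K := fun s => hK ▸ (e s).2
  have hch : ∀ v, ∃ s ∈ S, ∀ t ∈ S, G.dist v s * K + e s ≤ G.dist v t * K + e t := by
    intro v
    obtain ⟨s₀, hs₀, _⟩ := hS v
    obtain ⟨s, hs, h⟩ := exists_min_image S (fun s => G.dist v s * K + (e s : ℕ)) ⟨s₀, hs₀⟩
    exact ⟨s, hs, h⟩
  choose c hcS hcmin using hch
  have hmin' : ∀ v, ∀ t ∈ S, G.dist v (c v) ≤ G.dist v t := by
    intro v t ht
    by_contra hcon
    have h1 := hcmin v t ht
    have h2 : (G.dist v t + 1) * K ≤ G.dist v (c v) * K := Nat.mul_le_mul_right _ (by omega)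
    have h3 := heK t
    rw [add_mul, one_mul] at h2
    omega
  refine ⟨c, fun v => ⟨hcS v, ?_⟩, ?_⟩
  · obtain ⟨s, hs, h⟩ := hS v
    exact (hmin' v s hs).trans h
  · intro v hv
    have hne : v ≠ c v := fun h => hv (h ▸ hcS v)
    obtain ⟨u, hu, hu'⟩ := exists_closer hG hne
    refine ⟨u, hu, ?_, hu'⟩
    -- `c v` is a minimiser for `u` too
    have h1 := hcmin u (c v) (hcS v)
    have h2 := hcmin v (c u) (hcS u)
    have h3 : G.dist v (c u) ≤ G.dist v u + G.dist u (c u) := hG.dist_triangle
    have h4 : G.dist v u = 1 := SimpleGraph.dist_eq_one_iff_adj.2 hu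
    have h5 : G.dist v (c u) * K ≤ (1 + G.dist u (c u)) * K := Nat.mul_le_mul_right _ (by omega)
    rw [← hu', add_mul, one_mul] at h2
    rw [add_mul, one_mul] at h5
    -- equal keys
    have h6 : G.dist u (c u) * K + (e (c u) : ℕ) = G.dist u (c v) * K + (e (c v) : ℕ) := by omega
    have h7 : (e (c u) : ℕ) = (e (c v) : ℕ) := by
      have hd : G.dist u (c u) = G.dist u (c v) := by
        have ha := heK (c u)
        have hb := heK (c v)
        rcases lt_trichotomy (G.dist u (c u)) (G.dist u (c v)) with h | h | h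
        · have : (G.dist u (c u) + 1) * K ≤ G.dist u (c v) * K := Nat.mul_le_mul_right _ (by omega)
          rw [add_mul, one_mul] at this
          omega
        · exact h
        · have : (G.dist u (c v) + 1) * K ≤ G.dist u (c u) * K := Nat.mul_le_mul_right _ (by omega)
          rw [add_mul, one_mul] at this
          omega
      rw [hd] at h6
      omega
    exact e.injective (Fin.ext h7)

end

open Classical in
/-- **Pieces of bounded size.** -/
theorem exists_parts (Δ : ℕ) (ε : ℝ) (hε : 0 < ε) : ∃ M k₁ : ℕ, ∀ (V : Type) [Fintype V]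
    (G : SimpleGraph V), G.Connected → (∀ v : V, (G.neighborSet v).ncard ≤ Δ) →
    k₁ ≤ Fintype.card V → ∃ c : V → V, (∀ x, #{v | c v = x} ≤ M) ∧
      ((∑ v, #{u | G.Adj v u ∧ c u ≠ c v} : ℕ) : ℝ) + 2 * (1 - ε) * Fintype.card V ≤
        2 * G.edgeSet.ncard := by
  obtain ⟨r, hr⟩ := exists_nat_gt (1 / ε)
  refine ⟨(Δ + 1) ^ (2 * r), r + 1, ?_⟩
  intro V _ G hG hΔ hk
  obtain ⟨S, hS1, hS2⟩ := exists_centres hG r hk
  obtain ⟨c, hc1, hc2⟩ := exists_cells hG S (2 * r) hS2
  refine ⟨c, fun x => ?_, ?_⟩
  · refine le_trans (card_le_card ?_) (ball_small hG hΔ x (2 * r))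
    intro v hv
    rw [mem_filter] at hv ⊢
    refine ⟨mem_univ _, ?_⟩
    have := (hc1 v).2
    rw [hv.2] at this
    exact this
  · -- the internal pairs
    have hch : ∀ v, ∃ u, v ∉ S → G.Adj v u ∧ c u = c v ∧ G.dist u (c v) + 1 = G.dist v (c v) := by
      intro v
      by_cases hv : v ∈ S
      · exact ⟨v, fun h => absurd hv h⟩
      · obtain ⟨u, hu⟩ := hc2 v hv
        exact ⟨u, fun _ => hu⟩
    choose g hg using hch
    obtain ⟨P, hP⟩ : ∃ P : Finset (V × V), P = univ.filter fun z => G.Adj z.1 z.2 ∧ c z.2 = c z.1 :=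
      ⟨_, rfl⟩
    have hPge : 2 * #(univ \ S) ≤ #P := by
      have hA : (univ \ S).image (fun v => (v, g v)) ⊆ P := by
        intro z hz
        obtain ⟨v, hv, rfl⟩ := mem_image.1 hz
        have hv' := hg v (mem_sdiff.1 hv).2
        rw [hP, mem_filter]
        exact ⟨mem_univ _, hv'.1, hv'.2.1⟩
      have hB : (univ \ S).image (fun v => (g v, v)) ⊆ P := by
        intro z hz
        obtain ⟨v, hv, rfl⟩ := mem_image.1 hz
        have hv' := hg v (mem_sdiff.1 hv).2
        rw [hP, mem_filter]
        exact ⟨mem_univ _, hv'.1.symm, hv'.2.1.symm⟩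
      have hAB : Disjoint ((univ \ S).image (fun v => (v, g v)))
          ((univ \ S).image (fun v => (g v, v))) := by
        rw [Finset.disjoint_left]
        intro z hz hz'
        obtain ⟨v, hv, rfl⟩ := mem_image.1 hz
        obtain ⟨v', hv', h⟩ := mem_image.1 hz'
        have h1 : g v' = v := congrArg Prod.fst h
        have h2 : v' = g v := congrArg Prod.snd h
        have ha := hg v (mem_sdiff.1 hv).2
        have hb := hg v' (mem_sdiff.1 hv').2
        rw [← h2] at ha
        rw [h1] at hb
        rw [ha.2.1] at hb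
        have := ha.2.2
        have := hb.2.2
        omega
      calc 2 * #(univ \ S) = #((univ \ S).image (fun v => (v, g v))) +
            #((univ \ S).image (fun v => (g v, v))) := by
            rw [card_image_of_injective _ fun a b h => congrArg Prod.fst h,
              card_image_of_injective _ fun a b h => congrArg Prod.snd h]
            ring
        _ = #((univ \ S).image (fun v => (v, g v)) ∪ (univ \ S).image (fun v => (g v, v))) :=
          (card_union_of_disjoint hAB).symm
        _ ≤ #P := card_le_card (union_subset hA hB)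
    have hPsum : #P = ∑ v, #{u | G.Adj v u ∧ c u = c v} := by
      rw [hP, ← Finset.card_sigma]
      refine Finset.card_bij (fun z _ => ⟨z.1, z.2⟩) ?_ ?_ ?_
      · intro z hz
        rw [mem_filter] at hz
        simp only [mem_sigma, mem_univ, mem_filter, true_and]
        exact hz.2
      · intro a _ b _ h
        simp only [Sigma.mk.injEq, heq_eq_eq] at h
        exact Prod.ext h.1 h.2
      · intro b hb
        simp only [mem_sigma, mem_univ, mem_filter, true_and] at hb
        exact ⟨(b.1, b.2), by rw [mem_filter]; exact ⟨mem_univ _, hb⟩, rfl⟩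
    have hdeg : (∑ v, #{u | G.Adj v u ∧ c u ≠ c v}) + ∑ v, #{u | G.Adj v u ∧ c u = c v} =
        2 * G.edgeSet.ncard := by
      have h1 : ∀ v, #{u | G.Adj v u ∧ c u ≠ c v} + #{u | G.Adj v u ∧ c u = c v} = G.degree v := by
        intro v
        rw [← SimpleGraph.card_neighborFinset_eq_degree, SimpleGraph.neighborFinset_eq_filter,
          add_comm, ← Finset.card_filter_add_card_filter_not (s := univ.filter fun u => G.Adj v u)
            (fun u => c u = c v), filter_filter, filter_filter]
      rw [← sum_add_distrib, sum_congr rfl fun v _ => h1 v, SimpleGraph.sum_degrees_eq_twice_card_edges,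
        ← SimpleGraph.coe_edgeFinset, Set.ncard_coe_finset]
    -- the number of centres
    have hS3 : (#S : ℝ) ≤ ε * Fintype.card V := by
      have h1 : (#S : ℝ) * (r + 1) ≤ Fintype.card V := by exact_mod_cast hS1
      have h2 : 1 < ε * r := by
        have := (div_lt_iff₀ hε).1 hr
        linarith
      have h3 : (0 : ℝ) ≤ #S := Nat.cast_nonneg _
      nlinarith
    have hS4 : (#(univ \ S) : ℝ) = Fintype.card V - #S := by
      rw [card_sdiff_of_subset (subset_univ S), card_univ, Nat.cast_sub (card_le_univ S)]
    have hP2 : 2 * (#(univ \ S) : ℝ) ≤ ((∑ v, #{u | G.Adj v u ∧ c u = c v} : ℕ) : ℝ) := by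
      rw [← hPsum]
      exact_mod_cast hPge
    have hdeg' : ((∑ v, #{u | G.Adj v u ∧ c u ≠ c v} : ℕ) : ℝ) +
        ((∑ v, #{u | G.Adj v u ∧ c u = c v} : ℕ) : ℝ) = 2 * G.edgeSet.ncard := by
      exact_mod_cast hdeg
    nlinarith

end Pool.Agent.T6P
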