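import Pool.Agent.T6P.Parts

/-!
# Pieces of a graph of bounded degree which need not be connected (MP_c6effb_co, P2 with hubs)

`parts_all`: small components are single pieces; the large components are divided as in
`Parts.lean`. The size of a small component is bounded independently of the degrees.
-/

set_option autoImplicit false
set_option linter.unusedSectionVars false

open Finset

namespace Pool.Agent.T6P

open Classical in
/-- `exists_parts` with explicit constants. -/
theorem parts_conn (Δ r : ℕ) (ε : ℝ) (hε : 0 < ε) (hr : 1 / ε < r) (V : Type) [Fintype V]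
    (G : SimpleGraph V) (hG : G.Connected) (hΔ : ∀ v : V, (G.neighborSet v).ncard ≤ Δ)
    (hk : r + 1 ≤ Fintype.card V) : ∃ c : V → V, (∀ x, #{v | c v = x} ≤ (Δ + 1) ^ (2 * r)) ∧
      ((∑ v, #{u | G.Adj v u ∧ c u ≠ c v} : ℕ) : ℝ) + 2 * (1 - ε) * Fintype.card V ≤
        ((∑ v, #{u | G.Adj v u} : ℕ) : ℝ) := by
  obtain ⟨S, hS1, hS2⟩ := exists_centres hG r hk
  obtain ⟨c, hc1, hc2⟩ := exists_cells hG S (2 * r) hS2
  refine ⟨c, fun x => ?_, ?_⟩
  · refine le_trans (card_le_card ?_) (ball_small hG hΔ x (2 * r))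
    intro v hv
    rw [mem_filter] at hv ⊢
    refine ⟨mem_univ _, ?_⟩
    have := (hc1 v).2
    rw [hv.2] at this
    exact this
  · have hch : ∀ v, ∃ u, v ∉ S → G.Adj v u ∧ c u = c v ∧ G.dist u (c v) + 1 = G.dist v (c v) := by
      intro v
      by_cases hv : v ∈ S
      · exact ⟨v, fun h => absurd hv h⟩
      · obtain ⟨u, hu⟩ := hc2 v hv
        exact ⟨u, fun _ => hu⟩
    choose g hg using hch
    obtain ⟨P, hP⟩ : ∃ P : Finset (V × V), P = univ.filter fun z => G.Adj z.1 z.2 ∧ c z.2 = c z.1 :=
      ⟨_, rfl⟩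
    have hPge : 2 * #(univ \ S) ≤ #P := by
      have hA : (univ \ S).image (fun v => (v, g v)) ⊆ P := by
        intro z hz
        obtain ⟨v, hv, rfl⟩ := mem_image.1 hz
        have hv' := hg v (mem_sdiff.1 hv).2
        rw [hP, mem_filter]
        exact ⟨mem_univ _, hv'.1, hv'.2.1⟩
      have hB : (univ \ S).image (fun v => (g v, v)) ⊆ P := by
        intro z hz
        obtain ⟨v, hv, rfl⟩ := mem_image.1 hz
        have hv' := hg v (mem_sdiff.1 hv).2
        rw [hP, mem_filter]
        exact ⟨mem_univ _, hv'.1.symm, hv'.2.1.symm⟩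
      have hAB : Disjoint ((univ \ S).image (fun v => (v, g v)))
          ((univ \ S).image (fun v => (g v, v))) := by
        rw [Finset.disjoint_left]
        intro z hz hz'
        obtain ⟨v, hv, rfl⟩ := mem_image.1 hz
        obtain ⟨v', hv', h⟩ := mem_image.1 hz'
        have h1 : g v' = v := congrArg Prod.fst h
        have h2 : v' = g v := congrArg Prod.snd h
        have ha := hg v (mem_sdiff.1 hv).2
        have hb := hg v' (mem_sdiff.1 hv').2
        rw [← h2] at ha
        rw [h1] at hb
        rw [ha.2.1] at hb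
        have := ha.2.2
        have := hb.2.2
        omega
      calc 2 * #(univ \ S) = #((univ \ S).image (fun v => (v, g v))) +
            #((univ \ S).image (fun v => (g v, v))) := by
            rw [card_image_of_injective _ fun a b h => congrArg Prod.fst h,
              card_image_of_injective _ fun a b h => congrArg Prod.snd h]
            ring
        _ = #((univ \ S).image (fun v => (v, g v)) ∪ (univ \ S).image (fun v => (g v, v))) :=
          (card_union_of_disjoint hAB).symm
        _ ≤ #P := card_le_card (union_subset hA hB)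
    have hPsum : #P = ∑ v, #{u | G.Adj v u ∧ c u = c v} := by
      rw [hP, ← Finset.card_sigma]
      refine Finset.card_bij (fun z _ => ⟨z.1, z.2⟩) ?_ ?_ ?_
      · intro z hz
        rw [mem_filter] at hz
        simp only [mem_sigma, mem_univ, mem_filter, true_and]
        exact hz.2
      · intro a _ b _ h
        simp only [Sigma.mk.injEq, heq_eq_eq] at h
        exact Prod.ext h.1 h.2
      · intro b hb
        simp only [mem_sigma, mem_univ, mem_filter, true_and] at hb
        exact ⟨(b.1, b.2), by rw [mem_filter]; exact ⟨mem_univ _, hb⟩, rfl⟩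
    have hdeg : (∑ v, #{u | G.Adj v u ∧ c u ≠ c v}) + ∑ v, #{u | G.Adj v u ∧ c u = c v} =
        ∑ v, #{u | G.Adj v u} := by
      rw [← sum_add_distrib]
      refine sum_congr rfl fun v _ => ?_
      rw [add_comm, ← Finset.card_filter_add_card_filter_not (s := univ.filter fun u => G.Adj v u)
            (fun u => c u = c v), filter_filter, filter_filter]
    have hS3 : (#S : ℝ) ≤ ε * Fintype.card V := by
      have h1 : (#S : ℝ) * (r + 1) ≤ Fintype.card V := by exact_mod_cast hS1
      have h2 : 1 < ε * r := by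
        have := (div_lt_iff₀ hε).1 hr
        linarith
      have h3 : (0 : ℝ) ≤ #S := Nat.cast_nonneg _
      nlinarith
    have hS4 : (#(univ \ S) : ℝ) = Fintype.card V - #S := by
      rw [card_sdiff_of_subset (subset_univ S), card_univ, Nat.cast_sub (card_le_univ S)]
    have hP2 : 2 * (#(univ \ S) : ℝ) ≤ ((∑ v, #{u | G.Adj v u ∧ c u = c v} : ℕ) : ℝ) := by
      rw [← hPsum]
      exact_mod_cast hPge
    have hdeg' : ((∑ v, #{u | G.Adj v u ∧ c u ≠ c v} : ℕ) : ℝ) +
        ((∑ v, #{u | G.Adj v u ∧ c u = c v} : ℕ) : ℝ) = ((∑ v, #{u | G.Adj v u} : ℕ) : ℝ) := by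
      exact_mod_cast hdeg
    nlinarith

open Classical in
/-- **Pieces of a graph of bounded degree.** `S` = the union of the components with more than
`k₁` vertices; the other components are single pieces. -/
theorem parts_all (ε : ℝ) (hε : 0 < ε) : ∃ k₁ : ℕ, ∀ Δ : ℕ, ∃ M : ℕ, ∀ (V : Type) [Fintype V]
    (G : SimpleGraph V), (∀ v : V, (G.neighborSet v).ncard ≤ Δ) →
    ∃ (c : V → V) (S : Finset V), (∀ x, #{v | c v = x} ≤ M) ∧
      (∀ v u, G.Adj v u → (v ∈ S ↔ u ∈ S)) ∧
      (∀ v, v ∉ S → ∀ u, G.Adj v u → c u = c v) ∧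
      (∀ v, v ∉ S → #{u | G.Reachable v u} ≤ k₁) ∧
      ((∑ v ∈ S, #{u | G.Adj v u ∧ c u ≠ c v} : ℕ) : ℝ) + 2 * (1 - ε) * #S ≤
        ((∑ v ∈ S, #{u | G.Adj v u} : ℕ) : ℝ) := by
  obtain ⟨r, hr⟩ := exists_nat_gt (1 / ε)
  refine ⟨r, fun Δ => ⟨max ((Δ + 1) ^ (2 * r)) r, ?_⟩⟩
  intro V _ G hΔ
  -- the large components
  have hbig : ∀ K : G.ConnectedComponent, ∃ c : K → K, r + 1 ≤ Fintype.card K →
      (∀ x, #{v | c v = x} ≤ (Δ + 1) ^ (2 * r)) ∧
      ((∑ v, #{u | K.toSimpleGraph.Adj v u ∧ c u ≠ c v} : ℕ) : ℝ) +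
        2 * (1 - ε) * Fintype.card K ≤ ((∑ v, #{u | K.toSimpleGraph.Adj v u} : ℕ) : ℝ) := by
    intro K
    by_cases hK : r + 1 ≤ Fintype.card K
    · obtain ⟨c, hc⟩ := parts_conn Δ r ε hε hr K K.toSimpleGraph K.connected_toSimpleGraph
        (fun v => by
          refine le_trans ?_ (hΔ v.1)
          rw [← Set.ncard_image_of_injective _ Subtype.val_injective]
          refine Set.ncard_le_ncard ?_ (Set.toFinite _)
          rintro _ ⟨u, hu, rfl⟩
          exact (K.toSimpleGraph_adj v.2 u.2).1 hu) hK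
      exact ⟨c, fun _ => by convert hc⟩
    · exact ⟨id, fun h => absurd h hK⟩
  choose cK hcK using hbig
  obtain ⟨c, hc⟩ : ∃ c : V → V, ∀ v, c v =
      if r + 1 ≤ Fintype.card (G.connectedComponentMk v) then
        (cK (G.connectedComponentMk v) ⟨v, rfl⟩ : V) else (G.connectedComponentMk v).out :=
    ⟨_, fun _ => rfl⟩
  obtain ⟨S, hS⟩ : ∃ S : Finset V, ∀ v, v ∈ S ↔ r + 1 ≤ Fintype.card (G.connectedComponentMk v) :=
    ⟨univ.filter fun v => r + 1 ≤ Fintype.card (G.connectedComponentMk v), fun v => by simp⟩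
  have hmem : ∀ (K : G.ConnectedComponent) (v : V), v ∈ K → G.connectedComponentMk v = K :=
    fun K v hv => hv
  have hcb : ∀ (K : G.ConnectedComponent), r + 1 ≤ Fintype.card K → ∀ v (hv : v ∈ K),
      c v = (cK K ⟨v, hv⟩ : V) := by
    intro K hK v hv
    have h := hmem K v hv
    subst h
    rw [hc, if_pos hK]
  have hcs : ∀ (K : G.ConnectedComponent), ¬ r + 1 ≤ Fintype.card K → ∀ v, v ∈ K →
      c v = K.out := by
    intro K hK v hv
    have h := hmem K v hv
    subst h
    rw [hc, if_neg hK]
  have hadj : ∀ v u, G.Adj v u → G.connectedComponentMk u = G.connectedComponentMk v :=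
    fun v u h => SimpleGraph.ConnectedComponent.connectedComponentMk_eq_of_adj h.symm
  have hcK_mem : ∀ v, c v ∈ G.connectedComponentMk v := by
    intro v
    by_cases hK : r + 1 ≤ Fintype.card (G.connectedComponentMk v)
    · rw [hcb _ hK v rfl]
      exact (cK (G.connectedComponentMk v) ⟨v, rfl⟩).2
    · rw [hcs _ hK v rfl]
      exact SimpleGraph.ConnectedComponent.mem_supp_iff _ _ |>.2
        (Quot.out_eq (G.connectedComponentMk v))
  have hcomp : ∀ v, G.connectedComponentMk (c v) = G.connectedComponentMk v := hcK_mem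
  -- sums over a large component
  have hcard : ∀ K : G.ConnectedComponent, r + 1 ≤ Fintype.card K → ∀ v : K,
      #{u | G.Adj v u ∧ c u ≠ c v} = #{u | K.toSimpleGraph.Adj v u ∧ cK K u ≠ cK K v} := by
    intro K hK v
    rw [← card_image_of_injective _ (Subtype.val_injective (p := fun x => x ∈ K))]
    congr 1
    ext u
    rw [mem_filter, mem_image]
    constructor
    · rintro ⟨-, h1, h2⟩
      have hu : u ∈ K := (hadj v u h1).trans (hmem K v v.2)
      refine ⟨⟨u, hu⟩, ?_, rfl⟩
      rw [mem_filter]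
      refine ⟨mem_univ _, (K.toSimpleGraph_adj v.2 hu).2 h1, fun h => h2 ?_⟩
      rw [hcb K hK u hu, hcb K hK v v.2, h]
    · rintro ⟨u', hu', rfl⟩
      rw [mem_filter] at hu'
      refine ⟨mem_univ _, (K.toSimpleGraph_adj v.2 u'.2).1 hu'.2.1, fun h => hu'.2.2 ?_⟩
      rw [hcb K hK u' u'.2, hcb K hK v v.2] at h
      exact Subtype.ext h
  have hcard' : ∀ K : G.ConnectedComponent, ∀ v : K,
      #{u | G.Adj v u} = #{u | K.toSimpleGraph.Adj v u} := by
    intro K v
    rw [← card_image_of_injective _ (Subtype.val_injective (p := fun x => x ∈ K))]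
    congr 1
    ext u
    rw [mem_filter, mem_image]
    constructor
    · rintro ⟨-, h1⟩
      have hu : u ∈ K := (hadj v u h1).trans (hmem K v v.2)
      refine ⟨⟨u, hu⟩, ?_, rfl⟩
      rw [mem_filter]
      exact ⟨mem_univ _, (K.toSimpleGraph_adj v.2 hu).2 h1⟩
    · rintro ⟨u', hu', rfl⟩
      rw [mem_filter] at hu'
      exact ⟨mem_univ _, (K.toSimpleGraph_adj v.2 u'.2).1 hu'.2⟩
  obtain ⟨T, hT⟩ : ∃ T : Finset G.ConnectedComponent, ∀ K, K ∈ T ↔ r + 1 ≤ Fintype.card K :=
    ⟨univ.filter fun K => r + 1 ≤ Fintype.card K, fun K => by simp⟩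
  have hmaps : ∀ v ∈ S, G.connectedComponentMk v ∈ T := fun v hv => (hT _).2 ((hS v).1 hv)
  have hfib : ∀ f : V → ℕ, ∑ v ∈ S, f v = ∑ K ∈ T, ∑ v : K, f v := by
    intro f
    rw [← sum_fiberwise_of_maps_to hmaps]
    refine sum_congr rfl fun K hK => ?_
    refine sum_subtype (p := fun x => x ∈ K) _ (fun v => ?_) f
    rw [mem_filter]
    constructor
    · exact fun h => h.2
    · exact fun h => ⟨(hS v).2 (by rw [hmem K v h]; exact (hT K).1 hK), hmem K v h⟩
  have hSc : #S = ∑ K ∈ T, Fintype.card K := by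
    have h := hfib fun _ => 1
    simpa using h
  refine ⟨c, S, ?_, ?_, ?_, ?_, ?_⟩
  · intro x
    by_cases hK : r + 1 ≤ Fintype.card (G.connectedComponentMk x)
    · refine le_trans ?_ (le_max_left _ _)
      refine le_trans ?_ ((hcK _ hK).1 ⟨x, rfl⟩)
      rw [← card_image_of_injective _
        (Subtype.val_injective (p := fun y => y ∈ G.connectedComponentMk x))]
      refine card_le_card fun v hv => ?_
      rw [mem_filter] at hv
      have hv' : v ∈ G.connectedComponentMk x := by
        have h := hcomp v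
        rw [hv.2] at h
        exact h.symm
      rw [mem_image]
      refine ⟨⟨v, hv'⟩, ?_, rfl⟩
      rw [mem_filter]
      refine ⟨mem_univ _, Subtype.ext ?_⟩
      rw [← hcb _ hK v hv', hv.2]
    · refine le_trans ?_ (le_max_right _ _)
      refine le_trans (card_le_card (t := univ.image
        (Subtype.val : G.connectedComponentMk x → V)) fun v hv => ?_) ?_
      · rw [mem_filter] at hv
        have hv' : v ∈ G.connectedComponentMk x := by
          have h := hcomp v
          rw [hv.2] at h
          exact h.symm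
        exact mem_image.2 ⟨⟨v, hv'⟩, mem_univ _, rfl⟩
      · refine card_image_le.trans ?_
        rw [card_univ]
        omega
  · intro v u h
    rw [hS, hS, hadj v u h]
  · intro v hv u h
    rw [hS] at hv
    rw [hcs _ hv v rfl, hcs _ hv u (hadj v u h)]
  · intro v hv
    rw [hS] at hv
    refine le_trans (card_le_card (t := univ.image
      (Subtype.val : G.connectedComponentMk v → V)) fun u hu => ?_) ?_
    · rw [mem_filter] at hu
      exact mem_image.2 ⟨⟨u, SimpleGraph.ConnectedComponent.sound hu.2.symm⟩, mem_univ _, rfl⟩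
    · refine card_image_le.trans ?_
      rw [card_univ]
      omega
  · rw [hfib, hfib, hSc]
    push_cast
    rw [mul_sum, ← sum_add_distrib]
    refine sum_le_sum fun K hK => ?_
    have h := (hcK K ((hT K).1 hK)).2
    push_cast at h
    rw [sum_congr rfl fun v _ => by rw [hcard K ((hT K).1 hK) v]]
    refine le_trans h (le_of_eq ?_)
    exact sum_congr rfl fun v _ => by rw [hcard' K v]

end Pool.Agent.T6P
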