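import Pool.Agent.T6A.PolyBox

/-!
# Polynomial inequalities in three variables on boxes, checked by the kernel (MP_c6effb_co)

`P3` = polynomials in `x` whose coefficients are polynomials in `y`, `z` (`P2` of PolyBox.lean).
`ok3 .. p = true` (by `decide +kernel`) implies `0 ≤ ev3 p x y z` on the box.
-/

set_option autoImplicit false

namespace Pool.Agent.T6P.PB3

open Pool.Agent.T6A.PolyBox

/-- polynomials in `x` over polynomials in `y`, `z` -/
abbrev P3 := List P2

/-- value -/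
noncomputable def ev3 : P3 → ℝ → ℝ → ℝ → ℝ
  | [], _, _, _ => 0
  | c :: p, x, y, z => ev2 c y z + x * ev3 p x y z

/-- sum -/
def add3 : P3 → P3 → P3
  | [], q => q
  | p, [] => p
  | c :: p, d :: q => add2 c d :: add3 p q

/-- scalar multiple -/
def sm3 (c : P2) : P3 → P3
  | [] => []
  | d :: p => mul2 c d :: sm3 c p

/-- product -/
def mul3 : P3 → P3 → P3
  | [], _ => []
  | c :: p, q => add3 (sm3 c q) ([] :: mul3 p q)

/-- power -/
def pow3 (p : P3) : ℕ → P3
  | 0 => [[[1]]]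
  | n + 1 => mul3 p (pow3 p n)

theorem ev3_add (p q : P3) (x y z : ℝ) : ev3 (add3 p q) x y z = ev3 p x y z + ev3 q x y z := by
  induction p generalizing q with
  | nil => cases q <;> simp [add3, ev3]
  | cons c p ih =>
    cases q with
    | nil => simp [add3, ev3]
    | cons d q => simp only [add3, ev3, ih, ev2_add]; ring

theorem ev3_sm (c : P2) (p : P3) (x y z : ℝ) : ev3 (sm3 c p) x y z = ev2 c y z * ev3 p x y z := by
  induction p with
  | nil => simp [sm3, ev3]
  | cons d p ih => simp only [sm3, ev3, ih, ev2_mul]; ring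

theorem ev3_mul (p q : P3) (x y z : ℝ) : ev3 (mul3 p q) x y z = ev3 p x y z * ev3 q x y z := by
  induction p with
  | nil => simp [mul3, ev3]
  | cons c p ih => simp only [mul3, ev3, ev3_add, ev3_sm, ih, ev2]; ring

theorem ev3_pow (p : P3) (n : ℕ) (x y z : ℝ) : ev3 (pow3 p n) x y z = ev3 p x y z ^ n := by
  induction n with
  | zero => simp [pow3, ev3, ev2, ev1]
  | succ n ih => simp only [pow3, ev3_mul, ih, pow_succ]; ring

/-- the transformed polynomial in `x` -/
def hom3 (a b c : ℤ) : P3 → P3 × P3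
  | [] => ([], [[[1]]])
  | d :: p =>
    let r := hom3 a b c p
    (add3 (sm3 d r.2) (mul3 [[[a]], [[b]]] r.1), mul3 [[[c]], [[c]]] r.2)

theorem hom3_snd (a b c : ℤ) (p : P3) (u y z : ℝ) :
    ev3 (hom3 a b c p).2 u y z = (c * (1 + u)) ^ p.length := by
  induction p with
  | nil => simp [hom3, ev3, ev2, ev1]
  | cons d p ih =>
    simp only [hom3, ev3_mul, ih, ev3, ev2, ev1, List.length_cons, pow_succ]
    ring

theorem hom3_fst (a b c : ℤ) (p : P3) {u x y z : ℝ} (hx : (c * (1 + u)) * x = a + b * u) :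
    ev3 (hom3 a b c p).1 u y z * (c * (1 + u)) = (c * (1 + u)) ^ p.length * ev3 p x y z := by
  induction p with
  | nil => simp [hom3, ev3]
  | cons d p ih =>
    have e1 : ev3 [[[a]], [[b]]] u y z = (c * (1 + u)) * x := by
      rw [hx]
      simp only [ev3, ev2, ev1]
      ring
    simp only [hom3, ev3_add, ev3_sm, ev3_mul, hom3_snd, List.length_cons, pow_succ]
    rw [e1]
    simp only [ev3]
    calc (ev2 d y z * (↑c * (1 + u)) ^ p.length + ↑c * (1 + u) * x * ev3 (hom3 a b c p).1 u y z) *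
          (↑c * (1 + u)) = (↑c * (1 + u)) ^ p.length * (↑c * (1 + u)) * ev2 d y z
          + ↑c * (1 + u) * x * (ev3 (hom3 a b c p).1 u y z * (↑c * (1 + u))) := by ring
      _ = _ := by rw [ih]; ring

/-- all coefficients are nonnegative on the box -/
def nn3 (a b c a' b' c' : ℤ) : P3 → Bool
  | [] => true
  | d :: p => ok2 a b c a' b' c' d && nn3 a b c a' b' c' p

theorem nn3_spec {a b c a' b' c' : ℤ} {p : P3} (h : nn3 a b c a' b' c' p = true) {u y z : ℝ}
    (hu : 0 ≤ u) (h1 : (a : ℝ) ≤ c * y) (h2 : (c : ℝ) * y ≤ b) (h1' : (a' : ℝ) ≤ c' * z)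
    (h2' : (c' : ℝ) * z ≤ b') : 0 ≤ ev3 p u y z := by
  induction p with
  | nil => simp [ev3]
  | cons d p ih =>
    rw [nn3, Bool.and_eq_true] at h
    have h3 := ok2_spec h.1 h1 h2 h1' h2'
    have h4 := ih h.2
    simp only [ev3]
    positivity

/-- the value at `x = b / c` -/
def hor3 (b c : ℤ) : P3 → P2 × ℤ
  | [] => ([], 1)
  | d :: p =>
    let r := hor3 b c p
    (add2 (sm2 [r.2] d) (sm2 [b] r.1), c * r.2)

theorem hor3_snd (b c : ℤ) (p : P3) : (hor3 b c p).2 = c ^ p.length := by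
  induction p with
  | nil => simp [hor3]
  | cons d p ih => simp only [hor3, ih, List.length_cons, pow_succ]; ring

theorem hor3_fst (b c : ℤ) (hc : 0 < c) (p : P3) (y z : ℝ) :
    ev2 (hor3 b c p).1 y z * c = (c : ℝ) ^ p.length * ev3 p (b / c) y z := by
  have hc' : (c : ℝ) ≠ 0 := by exact_mod_cast hc.ne'
  induction p with
  | nil => simp [hor3, ev3, ev2]
  | cons d p ih =>
    simp only [hor3, ev3, List.length_cons, pow_succ, hor3_snd, ev2_add, ev2_sm, ev1]
    push_cast
    obtain ⟨t, ht⟩ : ∃ t : ℝ, t = (b : ℝ) / c := ⟨_, rfl⟩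
    have e : (b : ℝ) = c * t := by rw [ht]; field_simp
    rw [← ht] at ih ⊢
    calc (((c : ℝ) ^ p.length + z * 0) * ev2 d y z + (b + z * 0) * ev2 (hor3 b c p).1 y z) * c
        = (c : ℝ) ^ p.length * c * ev2 d y z + b * (ev2 (hor3 b c p).1 y z * c) := by ring
      _ = (c : ℝ) ^ p.length * c * ev2 d y z
          + b * ((c : ℝ) ^ p.length * ev3 p t y z) := by rw [ih]
      _ = _ := by
        rw [e]
        ring

/-- **The check on one box** `[a / c, b / c] × [a' / c', b' / c'] × [a'' / c'', b'' / c'']`. -/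
def ok3 (a b c a' b' c' a'' b'' c'' : ℤ) (p : P3) : Bool :=
  decide (0 < c) && nn3 a' b' c' a'' b'' c'' (hom3 a b c p).1 &&
    ok2 a' b' c' a'' b'' c'' (hor3 b c p).1

theorem ok3_spec {a b c a' b' c' a'' b'' c'' : ℤ} {p : P3}
    (h : ok3 a b c a' b' c' a'' b'' c'' p = true) {x y z : ℝ}
    (h1 : (a : ℝ) ≤ c * x) (h2 : (c : ℝ) * x ≤ b) (h1' : (a' : ℝ) ≤ c' * y)
    (h2' : (c' : ℝ) * y ≤ b') (h1'' : (a'' : ℝ) ≤ c'' * z) (h2'' : (c'' : ℝ) * z ≤ b'') :
    0 ≤ ev3 p x y z := by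
  rw [ok3, Bool.and_eq_true, Bool.and_eq_true, decide_eq_true_eq] at h
  obtain ⟨⟨hc, hn⟩, hh⟩ := h
  have hc' : (0 : ℝ) < c := by exact_mod_cast hc
  rcases h2.lt_or_eq with h3 | h3
  · have hb : 0 < (b : ℝ) - c * x := by linarith
    obtain ⟨u, hu⟩ : ∃ u : ℝ, u = (c * x - a) / (b - c * x) := ⟨_, rfl⟩
    have hu0 : 0 ≤ u := by rw [hu]; exact div_nonneg (by linarith) hb.le
    have hx : (c * (1 + u)) * x = a + b * u := by
      have : u * (b - c * x) = c * x - a := by
        rw [hu]; exact div_mul_cancel₀ _ hb.ne'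
      linarith
    have h4 := hom3_fst (y := y) (z := z) a b c p hx
    have h5 := nn3_spec hn hu0 h1' h2' h1'' h2''
    have h6 : 0 < (c : ℝ) * (1 + u) := by positivity
    have h7 : 0 ≤ ((c : ℝ) * (1 + u)) ^ p.length * ev3 p x y z := by
      rw [← h4]; positivity
    exact nonneg_of_mul_nonneg_right h7 (by positivity)
  · have hx : x = b / c := by field_simp; linarith
    have h4 := hor3_fst b c hc p y z
    have h5 := ok2_spec hh h1' h2' h1'' h2''
    have h7 : 0 ≤ (c : ℝ) ^ p.length * ev3 p (b / c) y z := by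
      rw [← h4]; positivity
    rw [hx]
    exact nonneg_of_mul_nonneg_right h7 (by positivity)

/-- constants, the variables `x`, `y`, `z` -/
def cst (c : ℤ) : P3 := [[[c]]]
/-- the variable `x` -/
def vx : P3 := [[], [[1]]]
/-- the variable `y` -/
def vy : P3 := [[[], [1]]]
/-- the variable `z` -/
def vz : P3 := [[[0, 1]]]

theorem ev3_cst (c : ℤ) (x y z : ℝ) : ev3 (cst c) x y z = c := by simp [cst, ev3, ev2, ev1]
theorem ev3_vx (x y z : ℝ) : ev3 vx x y z = x := by simp [vx, ev3, ev2, ev1]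
theorem ev3_vy (x y z : ℝ) : ev3 vy x y z = y := by simp [vy, ev3, ev2, ev1]
theorem ev3_vz (x y z : ℝ) : ev3 vz x y z = z := by simp [vz, ev3, ev2, ev1]

/-- Example. -/
example (x y z : ℝ) (h0 : 0 ≤ x) (h1 : x ≤ 1 / 2) (h2 : 0 ≤ y) (h3 : y ≤ 3) (h4 : 0 ≤ z)
    (h5 : z ≤ 1) : (1 - x) ^ 4 * (1 + 4 * x + y) ≤ 1 + y + z := by
  have h := ok3_spec (a := 0) (b := 1) (c := 2) (a' := 0) (b' := 3) (c' := 1) (a'' := 0) (b'' := 1)
    (c'' := 1)
    (p := add3 (add3 (add3 (cst 1) vy) vz) (mul3 (cst (-1)) (mul3 (pow3 (add3 (cst 1)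
      (mul3 (cst (-1)) vx)) 4) (add3 (add3 (cst 1) (mul3 (cst 4) vx)) vy)))) (by decide +kernel)
      (x := x) (y := y) (z := z)
      (by push_cast; linarith) (by push_cast; linarith) (by push_cast; linarith)
      (by push_cast; linarith) (by push_cast; linarith) (by push_cast; linarith)
  simp only [ev3_add, ev3_mul, ev3_pow, ev3_cst, ev3_vx, ev3_vy, ev3_vz] at h
  push_cast at h
  nlinarith [h]

end Pool.Agent.T6P.PB3
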