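import Pool.Agent.T6P.Clus2

/-!
# Regularity with clusters which are sparse inside, in terms of `Clus` (MP_c6effb_co, P4)
-/

set_option autoImplicit false

namespace Pool.Agent.T6P

open Finset Classical Pool.Agent.T6A

/-- **Regularity with clusters sparse inside**, in terms of `Clus` (`Bd` reflexive: it contains the
pairs of pieces of the same cluster): the inside of every cluster is sparse. -/
theorem regS (ε : ℝ) (hε : 0 < ε) (hε1 : ε ≤ 1 / 8) : ∃ M : ℕ, ∃ n0 : ℕ, ∀ (W : Type) [Fintype W]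
    (H : SimpleGraph W), H.CliqueFree 3 → n0 ≤ Fintype.card W →
    ∃ S : Clus H ε M, ∀ i, (ed H (S.C i) (S.C i) : ℝ) ≤ ε * ((S.C i).card * (S.C i).card) := by
  set d : ℝ := ε ^ 2 / 4 with hd
  have hd0 : 0 < d := by positivity
  have hd1 : d ≤ 1 := by rw [hd]; nlinarith
  set ε0 : ℝ := ε * d ^ 2 / 2 with hε0
  have hε00 : 0 < ε0 := by positivity
  have hd2 : d ^ 2 ≤ 1 := by nlinarith
  have hε01 : ε0 ≤ ε / 2 := by rw [hε0]; nlinarith
  obtain ⟨M0, n0, hreg⟩ := reg ε0 hε00 (by linarith)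
  refine ⟨M0 * (⌈1 / d⌉₊ + 1), max n0 1, ?_⟩
  intro W _ H hH hn
  obtain ⟨K⟩ := hreg W H hH ((le_max_left _ _).trans hn)
  have hn1 : 0 < Fintype.card W := lt_of_lt_of_le Nat.one_pos ((le_max_right _ _).trans hn)
  have hnR : (0 : ℝ) < Fintype.card W := by exact_mod_cast hn1
  let _ := K.ft
  have hM0 : (0 : ℝ) ≤ M0 := Nat.cast_nonneg _
  have hCpos : ∀ i, 0 < (K.C i).card := by
    intro i
    rcases Nat.eq_zero_or_pos (K.C i).card with h | h
    · exfalso
      have h1 := K.big i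
      rw [h, Nat.cast_zero, mul_zero] at h1
      linarith
    · exact h
  choose P hP1 hP2 hP3 hP4 using fun i => pieces hH hε (by linarith) (K.C i) (hCpos i)
  have hceil : (1 / d : ℝ) ≤ (⌈1 / d⌉₊ : ℝ) := Nat.le_ceil _
  have hcard : ∀ i, (P i).card ≤ ⌈1 / d⌉₊ := by
    intro i
    have h1 : ((P i).card : ℝ) * (d * (K.C i).card) ≤ ∑ p ∈ P i, (p.card : ℝ) := by
      rw [← nsmul_eq_mul]
      exact card_nsmul_le_sum _ _ _ fun p hp => (hP1 i p hp).2.1
    have h2 : (0 : ℝ) < (K.C i).card := by exact_mod_cast hCpos i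
    have h3 := h1.trans (hP4 i)
    have h4 : ((P i).card : ℝ) * d ≤ 1 := by
      by_contra hh
      push Not at hh
      nlinarith
    have h5 : ((P i).card : ℝ) ≤ 1 / d := by
      rw [le_div_iff₀ hd0]
      exact h4
    exact_mod_cast h5.trans hceil
  have hsub : ∀ (a : Σ i, {p // p ∈ P i}), a.2.1 ⊆ K.C a.1 := fun a => (hP1 a.1 a.2.1 a.2.2).1
  have hsize : ∀ (a : Σ i, {p // p ∈ P i}), d * (K.C a.1).card ≤ (a.2.1.card : ℝ) := fun a =>
    (hP1 a.1 a.2.1 a.2.2).2.1
  refine ⟨{ ι := Σ i, {p // p ∈ P i}, ft := inferInstance, C := fun a => a.2.1,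
            F := K.F.comap (fun a => a.1),
            Bd := fun a b => K.Bd a.1 b.1,
            few := ?_, disj := ?_, big := ?_, tot := ?_, tri := ?_,
            brefl := fun a => K.brefl a.1, bsymm := fun a b h => K.bsymm _ _ h, bsmall := ?_,
            sparse := ?_, dense := ?_ }, fun a => (hP1 a.1 a.2.1 a.2.2).2.2⟩
  · rw [Fintype.card_sigma]
    calc ∑ i, Fintype.card {p // p ∈ P i} ≤ ∑ _i : K.ι, (⌈1 / d⌉₊ + 1) := by
          apply sum_le_sum
          intro i _
          rw [Fintype.card_coe]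
          exact (hcard i).trans (Nat.le_succ _)
      _ = Fintype.card K.ι * (⌈1 / d⌉₊ + 1) := by rw [sum_const, card_univ, smul_eq_mul]
      _ ≤ _ := Nat.mul_le_mul_right _ K.few
  · rintro ⟨i, p, hp⟩ ⟨j, p', hp'⟩ hne
    by_cases hij : i = j
    · subst hij
      apply hP2 i p hp p' hp'
      rintro rfl
      exact hne rfl
    · exact (K.disj i j hij).mono (hP1 i p hp).1 (hP1 j p' hp').1
  · intro a
    have h1 := K.big a.1
    have h2 := hsize a
    have h3 : (0 : ℝ) ≤ a.2.1.card := Nat.cast_nonneg _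
    push_cast
    have h4 : ((K.C a.1).card : ℝ) ≤ (1 / d) * a.2.1.card := by
      rw [one_div, ← div_eq_inv_mul, le_div_iff₀ hd0]
      linarith
    calc (Fintype.card W : ℝ) ≤ 2 * M0 * (K.C a.1).card := h1
      _ ≤ 2 * M0 * ((1 / d) * a.2.1.card) := mul_le_mul_of_nonneg_left h4 (by positivity)
      _ ≤ 2 * M0 * ((⌈1 / d⌉₊ + 1) * a.2.1.card) := by
          apply mul_le_mul_of_nonneg_left _ (by positivity)
          apply mul_le_mul_of_nonneg_right _ h3
          linarith
      _ = _ := by ring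
  · have h1 := K.tot
    rw [Fintype.sum_sigma]
    have h2 : ∀ i, (1 - ε / 2) * ((K.C i).card : ℝ) ≤ ∑ p : {p // p ∈ P i}, (p.1.card : ℝ) := by
      intro i
      rw [Finset.sum_coe_sort (P i) fun p => (p.card : ℝ)]
      exact hP3 i
    calc (1 - ε) * (Fintype.card W : ℝ) ≤ (1 - ε / 2) * ((1 - ε0) * (Fintype.card W : ℝ)) := by
          rw [← mul_assoc]
          apply mul_le_mul_of_nonneg_right _ hnR.le
          nlinarith
      _ ≤ (1 - ε / 2) * ∑ i, ((K.C i).card : ℝ) :=
          mul_le_mul_of_nonneg_left h1 (by linarith)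
      _ = ∑ i, (1 - ε / 2) * ((K.C i).card : ℝ) := by rw [mul_sum]
      _ ≤ _ := sum_le_sum fun i _ => h2 i
  · intro s hs
    obtain ⟨a, b, c, hab, hac, hbc, rfl⟩ := SimpleGraph.is3Clique_iff.1 hs
    exact K.tri {a.1, b.1, c.1} (SimpleGraph.is3Clique_triple_iff.2 ⟨hab, hac, hbc⟩)
  · intro a
    have h1 := K.bsmall a.1
    rw [sum_filter, Fintype.sum_sigma]
    rw [sum_filter] at h1
    refine le_trans (sum_le_sum fun j _ => ?_) (h1.trans ?_)
    · by_cases hj : K.Bd a.1 j
      · simp only [if_pos hj]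
        rw [Finset.sum_coe_sort (P j) fun p => (p.card : ℝ)]
        exact hP4 j
      · simp only [if_neg hj, sum_const_zero, le_refl]
    · apply mul_le_mul_of_nonneg_right _ hnR.le
      linarith
  · intro a b hF hBd
    have h1 := K.sparse a.1 b.1 hF hBd
    have h2 : (ed H a.2.1 b.2.1 : ℝ) ≤ ed H (K.C a.1) (K.C b.1) := by
      have : ed H a.2.1 b.2.1 ≤ ed H (K.C a.1) (K.C b.1) := by
        unfold ed
        exact card_le_card (filter_subset_filter _ (product_subset_product (hsub a) (hsub b)))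
      exact_mod_cast this
    have h3 := hsize a
    have h4 := hsize b
    have h5 : (0 : ℝ) ≤ (K.C a.1).card := Nat.cast_nonneg _
    have h6 : (0 : ℝ) ≤ (K.C b.1).card := Nat.cast_nonneg _
    have h7 : (d * (K.C a.1).card) * (d * (K.C b.1).card) ≤ (a.2.1.card : ℝ) * b.2.1.card :=
      mul_le_mul h3 h4 (by positivity) (Nat.cast_nonneg _)
    have h8 : (0 : ℝ) ≤ (a.2.1.card : ℝ) * b.2.1.card := by positivity
    calc (ed H a.2.1 b.2.1 : ℝ) ≤ ε0 * ((K.C a.1).card * (K.C b.1).card) := h2.trans h1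
      _ = ε / 2 * ((d * (K.C a.1).card) * (d * (K.C b.1).card)) := by
          have e1 : ε0 = ε * d ^ 2 / 2 := hε0
          linear_combination ((K.C a.1).card * (K.C b.1).card : ℝ) * e1
      _ ≤ ε / 2 * ((a.2.1.card : ℝ) * b.2.1.card) := mul_le_mul_of_nonneg_left h7 (by linarith)
      _ ≤ ε * ((a.2.1.card : ℝ) * b.2.1.card) := mul_le_mul_of_nonneg_right (by linarith) h8
  · intro a b hF S hS T hT hSc hTc
    have hdd : ε0 ≤ ε * d := by
      rw [hε0]
      nlinarith
    have h5 : (0 : ℝ) ≤ (K.C a.1).card := Nat.cast_nonneg _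
    have h6 : (0 : ℝ) ≤ (K.C b.1).card := Nat.cast_nonneg _
    refine K.dense a.1 b.1 hF S (hS.trans (hsub a)) T (hT.trans (hsub b)) ?_ ?_
    · refine le_trans ?_ hSc
      have h3 := hsize a
      nlinarith
    · refine le_trans ?_ hTc
      have h3 := hsize b
      nlinarith

end Pool.Agent.T6P
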