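import Pool.Agent.T6P.RuleP

/-!
# The rule of the piece scheme with arbitrary lists (hubs) (MP_c6effb_co)

The same rule as in `RuleP.lean` for any lists `L.Av`, `L.Bv` (so for low graphs with hub neighbours): a vertex may leave
`A` only for the clusters of its list `L.Bv v`; `X.A - L.Av v` has weight at most `ε`.
-/

set_option autoImplicit false
set_option linter.unusedSectionVars false

open Finset

namespace Pool.Agent.T6P

open Pool.Agent.T6A

noncomputable section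

open Classical

/-- The tolerance of the rule. -/
def epsH (D : ℕ) (R δ : ℝ) : ℝ := δ / (((D : ℝ) + 1) * (2 * D + 8) * (max 0 R + 1))

theorem epsH_pos (D : ℕ) (R : ℝ) {δ : ℝ} (hδ : 0 < δ) : 0 < epsH D R δ := by
  unfold epsH
  have : 0 ≤ max 0 R := le_max_left _ _
  positivity

theorem epsH_key {D : ℕ} {R δ : ℝ} (hδ : 0 < δ) :
    ((D : ℝ) + 1) * (2 * D + 8) * (max 0 R * epsH D R δ) ≤ δ := by
  have hR : 0 ≤ max 0 R := le_max_left _ _
  have h1 : 0 < ((D : ℝ) + 1) * (2 * D + 8) * (max 0 R + 1) := by positivity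
  have h2 : ((D : ℝ) + 1) * (2 * D + 8) * (max 0 R + 1) * epsH D R δ = δ := by
    unfold epsH
    rw [mul_div_cancel₀ _ h1.ne']
  have h3 : 0 ≤ ((D : ℝ) + 1) * (2 * D + 8) * epsH D R δ := by
    have := (epsH_pos D R hδ).le
    positivity
  linarith

theorem bd2_small {ι : Type} [Fintype ι] {X : World ι} {Bd : ι → ι → Prop} {ε : ℝ}
    (hBd : ∀ i, ∑ i' ∈ univ.filter (fun i' => Bd i i'), X.w i' ≤ ε) (i : ι) :
    ∑ i' ∈ univ.filter (fun i' => Bd2 Bd i i'), X.w i' ≤ ε := by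
  refine le_trans (sum_le_sum_of_subset_of_nonneg ?_ fun i _ _ => (X.pos i).le) (hBd i)
  intro i' hi'
  exact mem_filter.2 ⟨mem_univ _, (mem_filter.1 hi').2.1⟩

/-- What the rule delivers for the joint law `K`, any lists. -/
structure PieceOutH {V ι Om : Type} [Fintype V] [Fintype ι] [Fintype Om] (X : World ι) (L : Low V ι)
    (Bd : ι → ι → Prop) (c : V → V) (ord : ι → ℕ) (K : Option ι → ι → ℝ) (B : ℕ) (δ : ℝ)
    (p : V → Om → ℝ) (g : (V → Om) → V → ι) (b : (V → Om) → V → Option ι) (Bn : V → Finset V) :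
    Prop where
  law : IsLaw p
  loc : ∀ v, DepOn (fun ω => (g ω v, b ω v)) (Bn v)
  ov : ∀ v, #{u | ¬ Disjoint (Bn v) (Bn u)} ≤ B
  mem : ∀ ω v y, b ω v = some y → y ∈ L.Bv v
  st : ∀ ω v y, b ω v = some y → ∀ u, L.G.Adj v u → ¬ X.F.Adj y (g ω u)
  tt : ∀ ω v y u y', b ω v = some y → b ω u = some y' → L.G.Adj v u → ¬ X.F.Adj y y'
  gm : ∀ v a, EE p (fun ω => if g ω v = a then 1 else 0) = ∑ o, K o a
  low : ∀ v a y, y ∈ L.Bv v → 0 ≤ zK X ord K a y → K (some y) a * zK X ord K a y ^ xo L.G c v ≤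
    EE p (fun ω => if g ω v = a ∧ b ω v = some y then 1 else 0)
  up : ∀ v a y, EE p (fun ω => if g ω v = a ∧ b ω v = some y then 1 else 0) ≤ K (some y) a
  bad : ∀ v a y, EE p (fun ω => if g ω v = a ∧ b ω v = some y ∧ ¬ zev L (Bd2 Bd) g ω v ∧
    badE L (Bd2 Bd) g b ω v then 1 else 0) ≤ K (some y) a * δ
  zv : ∀ v, EE p (fun ω => if zev L (Bd2 Bd) g ω v then 1 else 0) ≤ δ

/-- **RULE** for the piece scheme, any lists. -/
theorem ruleH (D M : ℕ) (R δ : ℝ) (hδ : 0 < δ) : ∃ (B : ℕ) (ε : ℝ), 0 < ε ∧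
    ∀ (V ι : Type) [Fintype V] [Fintype ι] (X : World ι) (L : Low V ι) (Bd : ι → ι → Prop)
      (c : V → V) (ord : ι → ℕ) (K : Option ι → ι → ℝ),
      (∀ v, L.d v ≤ D) → (∀ v, #{u | c u = v} ≤ M) → (∀ v, ∑ i ∈ X.A \ L.Av v, X.w i ≤ ε) →
      (∀ i i', Bd i i' → Bd i' i) →
      (∀ i, ∑ i' ∈ univ.filter (fun i' => Bd i i'), X.w i' ≤ ε) → Function.Injective ord →
      KOK X K R →
      ∃ (Om : Type) (_ : Fintype Om) (p : V → Om → ℝ) (g : (V → Om) → V → ι)
        (b : (V → Om) → V → Option ι) (Bn : V → Finset V),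
        PieceOutH X L Bd c ord K B δ p g b Bn := by
  refine ⟨(D + 1) * (M * (D + 1)), epsH D R δ, epsH_pos D R hδ, ?_⟩
  intro V ι _ _ X L Bd c ord K hd hM hAv hsymm hBd hord hK
  have hε := (epsH_pos D R hδ).le
  have hkey := epsH_key (D := D) (R := R) hδ
  have hRε : 0 ≤ max 0 R * epsH D R δ := mul_nonneg (le_max_left _ _) hε
  have hD : (0 : ℝ) ≤ D := Nat.cast_nonneg D
  refine ⟨Option ι × (V → ι), inferInstance, lawP K, gP c,
    bP X.F L.G (fun y' y => ord y' < ord y) L.Bv c, BnP L.G c, ?_⟩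
  refine ⟨isLaw_lawP hK.isK, loc_P, ?_, ?_, ?_, ?_, ?_, ?_, ?_, ?_, ?_⟩
  · exact ov_P hM hd
  · intro ω v y hb
    exact bP_mem hb
  · intro ω v y hb u hu
    exact bP_st hb u hu
  · intro ω v y u y' hb hb' hu
    refine bP_tt (fun y y' hF => ?_) hb hb' hu
    rcases lt_trichotomy (ord y) (ord y') with h1 | h1 | h1
    · exact Or.inl h1
    · exact absurd (hord h1) hF.ne
    · exact Or.inr h1
  · intro v a
    exact EE_gP hK.isK c v a
  · intro v a y hy hz
    have h1 := low_P hK.isK L.G (fun y' y => ord y' < ord y) L.Bv c v a y hy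
    rw [zP_eq_zK hK, xP_eq_xo] at h1
    exact h1
  · intro v a y
    exact up_P hK.isK L.G _ L.Bv c v a y
  · intro v a y
    refine (bad_P (Kd := D) hK.isK hK.dens hε c (Bd := Bd2 Bd)
      (fun i i' hb => ⟨hsymm _ _ hb.1, hb.2.symm⟩) (fun i hb => hb.2 rfl) (bd2_small hBd) hAv hd
      _ v a y).trans ?_
    refine mul_le_mul_of_nonneg_left (le_trans ?_ hkey) (hK.nonneg _ _)
    calc (D : ℝ) * ((2 * D + 5) * (max 0 R * epsH D R δ)) =
          (D : ℝ) * (2 * D + 5) * (max 0 R * epsH D R δ) := by ring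
      _ ≤ ((D : ℝ) + 1) * (2 * D + 8) * (max 0 R * epsH D R δ) := by
          apply mul_le_mul_of_nonneg_right _ hRε
          nlinarith
  · intro v
    refine (zev_P hK.isK hK.dens hε c (bd2_small hBd) hAv hd v).trans (le_trans ?_ hkey)
    apply mul_le_mul_of_nonneg_right _ hRε
    nlinarith

end

end Pool.Agent.T6P
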