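import Pool.Agent.T6P.AsmStmt
import Pool.Agent.T6P.PBad

/-!
# The rule of the piece scheme (MP_c6effb_co, PIECES, part P5)

`ruleP : RuleP` from `PLaw` (law, rules, lower bound) and `PBad` (bad events).
-/

set_option autoImplicit false
set_option linter.unusedSectionVars false

open Finset

namespace Pool.Agent.T6P

open Pool.Agent.T6A

noncomputable section

open Classical

variable {V ι : Type} [Fintype V] [Fintype ι]

section zz

variable {X : World ι} {K : Option ι → ι → ℝ} {R : ℝ}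

theorem KOK.isK (h : KOK X K R) : IsK X.F K where
  nonneg := h.nonneg
  sum_one := h.one
  adj := fun y a hF => h.kF y a hF.symm

theorem KOK.dens (h : KOK X K R) : Dens K X.A X.w (max 0 R) where
  R0 := le_max_left _ _
  supp := h.kA
  some := fun y a => by
    refine (h.gc y a).trans ?_
    have h1 : 0 ≤ X.w a * ∑ a', K (Option.some y) a' :=
      mul_nonneg (X.pos a).le (sum_nonneg fun a' _ => h.nonneg _ _)
    have h2 := mul_le_mul_of_nonneg_right (le_max_right 0 R) h1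
    have h3 : K0 K (Option.some y) = ∑ a', K (Option.some y) a' := rfl
    rw [h3]
    calc R * X.w a * ∑ a', K (Option.some y) a' = R * (X.w a * ∑ a', K (Option.some y) a') := by
          ring
      _ ≤ max 0 R * (X.w a * ∑ a', K (Option.some y) a') := h2
      _ = _ := by ring
  none := fun a => by
    have h1 : K Option.none a ≤ ∑ o, K o a :=
      single_le_sum (f := fun o => K o a) (fun o _ => h.nonneg o a) (mem_univ Option.none)
    exact h1.trans ((h.ga a).trans (mul_le_mul_of_nonneg_right (le_max_right 0 R) (X.pos a).le))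
  out := fun y => (h.gy y).trans (mul_le_mul_of_nonneg_right (le_max_right 0 R) (X.pos y).le)

/-- The two forms of the probability of one edge to another piece. -/
theorem zP_eq_zK (h : KOK X K R) (ord : ι → ℕ) (a y : ι) :
    zP X.F (fun y' y => ord y' < ord y) K a y = zK X ord K a y := by
  obtain ⟨N, hN⟩ : ∃ N : Option ι → ℝ, N = fun o =>
      ∑ a' ∈ univ.filter (fun a' => X.F.Adj a' y), K o a' := ⟨_, rfl⟩
  obtain ⟨O, hO⟩ : ∃ O : Option ι → ℝ, O = fun o =>
      ∑ a' ∈ univ.filter (fun a' => ¬ X.F.Adj a' y), K o a' := ⟨_, rfl⟩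
  have hsplit : ∀ o, ∑ a', K o a' = N o + O o := by
    intro o
    rw [hN, hO]
    exact (sum_filter_add_sum_filter_not univ (fun a' => X.F.Adj a' y) (fun a' => K o a')).symm
  have hKo : ∀ o, Ko X.F K o y = O o := by
    intro o
    unfold Ko
    rw [hO]
    show _ = ∑ a' ∈ univ.filter (fun a' => ¬ X.F.Adj a' y), K o a'
    rw [sum_filter]
    refine sum_congr rfl fun a' _ => ?_
    by_cases hF : X.F.Adj y a'
    · rw [if_pos hF, if_neg (not_not.2 hF.symm)]
    · rw [if_neg hF, if_pos (fun e => hF e.symm)]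
  have h1 : ∑ a' ∈ univ.filter (fun a' => X.F.Adj a' y), ∑ o, K o a' = ∑ o, N o := by
    rw [sum_comm, hN]
  have h2 : ∑ y' ∈ univ.filter (fun y' => ord y' < ord y ∧ X.F.Adj y y' ∧ ¬ X.F.Adj a y'),
      ∑ a' ∈ univ.filter (fun a' => ¬ X.F.Adj a' y), K (some y') a' =
      ∑ o, if alw X.F (fun y' y => ord y' < ord y) a y o then 0 else O o := by
    rw [Fintype.sum_option, if_pos (by intro y' h; cases h), zero_add, sum_filter]
    refine sum_congr rfl fun y' _ => ?_
    by_cases hc : ord y' < ord y ∧ X.F.Adj y y' ∧ ¬ X.F.Adj a y'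
    · rw [if_pos hc, if_neg, hO]
      intro hal
      exact hc.2.2 (hal y' rfl hc.2.1 hc.1)
    · rw [if_neg hc, if_pos]
      intro y'' he hF hl
      have e : y' = y'' := Option.some.inj he
      rw [← e] at hF hl ⊢
      by_contra hna
      exact hc ⟨hl, hF, hna⟩
  have h3 : (1 : ℝ) = ∑ o, (N o + O o) := by
    rw [← h.one]
    exact sum_congr rfl fun o _ => hsplit o
  unfold zP zK
  rw [h1, h2, h3, ← sum_sub_distrib, ← sum_sub_distrib]
  refine sum_congr rfl fun o _ => ?_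
  by_cases hal : alw X.F (fun y' y => ord y' < ord y) a y o
  · rw [if_pos hal, if_pos hal, hKo]
    ring
  · rw [if_neg hal, if_neg hal]
    ring

theorem xP_eq_xo (G : SimpleGraph V) (c : V → V) (v : V) : xP G c v = xo G c v := by
  unfold xP xo nbh
  rw [filter_filter]

end zz

section bad

variable {X : World ι} {L : Low V ι} {Bd : ι → ι → Prop} {Kd : ℕ} {K : Option ι → ι → ℝ}
  {R ε : ℝ}

/-- `v` is placed at the end because of a bad pair `(g v, g u)`. -/
theorem bad_z (h : IsK X.F K) (hD : Dens K X.A X.w R) (hε : 0 ≤ ε) (c : V → V)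
    (hBd : ∀ i, ∑ i' ∈ univ.filter (fun i' => Bd i i'), X.w i' ≤ ε)
    (hAv : ∀ v, L.Av v = X.A) (hd : ∀ v, L.d v ≤ Kd)
    (lt : ι → ι → Prop) (v : V) (a y : ι) :
    EE (lawP K) (fun ω => if gP c ω v = a ∧ bP X.F L.G lt L.Bv c ω v = some y ∧
      zev L Bd (gP c) ω v then 1 else 0) ≤ K (some y) a * (Kd * (2 * (R * ε))) := by
  have hRε : 0 ≤ R * ε := mul_nonneg hD.R0 hε
  have hK0 : 0 ≤ K (some y) a := h.nonneg _ _
  by_cases ha : a ∈ X.A
  · have hB : ∀ i, ∑ i' ∈ X.A.filter (fun i' => Bd i i'), X.w i' ≤ ε := by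
      intro i
      refine le_trans (sum_le_sum_of_subset_of_nonneg ?_ fun i _ _ => (X.pos i).le) (hBd i)
      intro i' hi'
      exact mem_filter.2 ⟨mem_univ _, (mem_filter.1 hi').2⟩
    have hle : ∀ ω : V → Option ι × (V → ι),
        (if gP c ω v = a ∧ bP X.F L.G lt L.Bv c ω v = some y ∧ zev L Bd (gP c) ω v
          then (1 : ℝ) else 0) ≤
        ∑ u ∈ BB.nbs L v, BB.ind (gP c ω v = a ∧ (ω (c v)).1 = some y) *
          BB.ind (Bd (gP c ω v) (gP c ω u)) := by
      intro ω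
      by_cases hcase : gP c ω v = a ∧ bP X.F L.G lt L.Bv c ω v = some y ∧ zev L Bd (gP c) ω v
      · rw [if_pos hcase]
        obtain ⟨hga, hby, hz⟩ := hcase
        have ho : (ω (c v)).1 = some y := (bP_eq.1 hby).1
        rcases hz with hz | ⟨u, hu, hz⟩
        · rw [hAv, hga] at hz
          exact absurd ha hz
        · have hm := single_le_sum (f := fun u => BB.ind (gP c ω v = a ∧ (ω (c v)).1 = some y) *
            BB.ind (Bd (gP c ω v) (gP c ω u)))
            (fun u _ => mul_nonneg (BB.ind_nonneg _) (BB.ind_nonneg _)) (BB.mem_nbs.2 hu)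
          have e1 : BB.ind (gP c ω v = a ∧ (ω (c v)).1 = some y) = 1 := BB.ind_true ⟨hga, ho⟩
          have e2 : BB.ind (Bd (gP c ω v) (gP c ω u)) = 1 := BB.ind_true hz
          refine le_trans (le_of_eq ?_) hm
          show (1 : ℝ) = BB.ind (gP c ω v = a ∧ (ω (c v)).1 = some y) *
            BB.ind (Bd (gP c ω v) (gP c ω u))
          rw [e1, e2, mul_one]
      · rw [if_neg hcase]
        exact sum_nonneg fun u _ => mul_nonneg (BB.ind_nonneg _) (BB.ind_nonneg _)
    refine (EE_mono (isLaw_lawP h) hle).trans ?_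
    rw [EE_sum]
    have h1 : ∑ u ∈ BB.nbs L v, EE (lawP K) (fun ω =>
        BB.ind (gP c ω v = a ∧ (ω (c v)).1 = some y) * BB.ind (Bd (gP c ω v) (gP c ω u))) ≤
        #(BB.nbs L v) • (K (some y) a * (2 * (R * ε))) := by
      refine sum_le_card_nsmul _ _ _ fun u hu => ?_
      have huv : v ≠ u := (BB.mem_nbs.1 hu).ne
      exact EE_rel h hD hε c a y Bd hB huv huv
    refine h1.trans ?_
    rw [nsmul_eq_mul]
    have h2 : (#(BB.nbs L v) : ℝ) ≤ Kd := by exact_mod_cast hd v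
    calc (#(BB.nbs L v) : ℝ) * (K (some y) a * (2 * (R * ε))) ≤
          Kd * (K (some y) a * (2 * (R * ε))) :=
          mul_le_mul_of_nonneg_right h2 (mul_nonneg hK0 (by linarith))
      _ = _ := by ring
  · have h0 : K (some y) a = 0 := hD.supp _ _ ha
    refine le_trans (EE_mono (isLaw_lawP h) fun ω => ?_) ((up_P h L.G lt L.Bv c v a y).trans ?_)
    · by_cases hc : gP c ω v = a ∧ bP X.F L.G lt L.Bv c ω v = some y ∧ zev L Bd (gP c) ω v
      · rw [if_pos hc, if_pos ⟨hc.1, hc.2.1⟩]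
      · rw [if_neg hc]
        split_ifs <;> norm_num
    · rw [h0, zero_mul]

/-- All bad events of a vertex in `T`. -/
theorem bad_all (h : IsK X.F K) (hD : Dens K X.A X.w R) (hε : 0 ≤ ε) (c : V → V)
    (hsymm : ∀ i i', Bd i i' → Bd i' i) (hirr : ∀ i, ¬ Bd i i)
    (hBd : ∀ i, ∑ i' ∈ univ.filter (fun i' => Bd i i'), X.w i' ≤ ε)
    (hAv : ∀ v, L.Av v = X.A) (hd : ∀ v, L.d v ≤ Kd)
    (lt : ι → ι → Prop) (v : V) (a y : ι) :
    EE (lawP K) (fun ω => if gP c ω v = a ∧ bP X.F L.G lt L.Bv c ω v = some y ∧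
      badE L Bd (gP c) (bP X.F L.G lt L.Bv c) ω v then 1 else 0) ≤
      K (some y) a * (Kd * ((2 * Kd + 7) * (R * ε))) := by
  have hAv' : ∀ v, ∑ i ∈ X.A \ L.Av v, X.w i ≤ ε := by
    intro v
    rw [hAv, Finset.sdiff_self, sum_empty]
    exact hε
  have h1 := bad_z h hD hε c hBd hAv hd lt v a y
  have h2 := bad_P h hD hε c hsymm hirr hBd hAv' hd lt v a y
  have h3 : ∀ ω : V → Option ι × (V → ι),
      (if gP c ω v = a ∧ bP X.F L.G lt L.Bv c ω v = some y ∧
        badE L Bd (gP c) (bP X.F L.G lt L.Bv c) ω v then (1 : ℝ) else 0) ≤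
      (if gP c ω v = a ∧ bP X.F L.G lt L.Bv c ω v = some y ∧ zev L Bd (gP c) ω v
        then (1 : ℝ) else 0) +
      (if gP c ω v = a ∧ bP X.F L.G lt L.Bv c ω v = some y ∧
      ¬ zev L Bd (gP c) ω v ∧ badE L Bd (gP c) (bP X.F L.G lt L.Bv c) ω v
        then (1 : ℝ) else 0) := by
    intro ω
    by_cases hc : gP c ω v = a ∧ bP X.F L.G lt L.Bv c ω v = some y ∧
        badE L Bd (gP c) (bP X.F L.G lt L.Bv c) ω v
    · rw [if_pos hc]
      by_cases hz : zev L Bd (gP c) ω v
      · rw [if_pos ⟨hc.1, hc.2.1, hz⟩]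
        have : (0 : ℝ) ≤ if gP c ω v = a ∧ bP X.F L.G lt L.Bv c ω v = some y ∧
            ¬ zev L Bd (gP c) ω v ∧ badE L Bd (gP c) (bP X.F L.G lt L.Bv c) ω v
            then (1 : ℝ) else 0 := by split_ifs <;> norm_num
        linarith
      · rw [if_pos (⟨hc.1, hc.2.1, hz, hc.2.2⟩ : gP c ω v = a ∧ bP X.F L.G lt L.Bv c ω v = some y ∧
          ¬ zev L Bd (gP c) ω v ∧ badE L Bd (gP c) (bP X.F L.G lt L.Bv c) ω v)]
        have : (0 : ℝ) ≤ if gP c ω v = a ∧ bP X.F L.G lt L.Bv c ω v = some y ∧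
            zev L Bd (gP c) ω v then (1 : ℝ) else 0 := by split_ifs <;> norm_num
        linarith
    · rw [if_neg hc]
      refine add_nonneg ?_ ?_ <;> split_ifs <;> norm_num
  refine (EE_mono (isLaw_lawP h) h3).trans ?_
  rw [EE_add]
  have h4 : K (some y) a * (Kd * ((2 * Kd + 7) * (R * ε))) =
      K (some y) a * (Kd * (2 * (R * ε))) + K (some y) a * (Kd * ((2 * Kd + 5) * (R * ε))) := by
    ring
  rw [h4]
  exact add_le_add h1 h2

end bad

/-- **The rule of the piece scheme.** -/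
theorem ruleP : RuleP := by
  intro D M R δ hδ
  obtain ⟨R', hR'⟩ : ∃ R' : ℝ, R' = max 0 R := ⟨_, rfl⟩
  have hR0 : 0 ≤ R' := by rw [hR']; exact le_max_left _ _
  obtain ⟨Z, hZ⟩ : ∃ Z : ℝ, Z = (D + 1) * (2 * D + 7) * (R' + 1) := ⟨_, rfl⟩
  have hZ0 : 0 < Z := by rw [hZ]; positivity
  obtain ⟨ε, hε⟩ : ∃ ε : ℝ, ε = δ / Z := ⟨_, rfl⟩
  have hε0 : 0 < ε := by rw [hε]; exact div_pos hδ hZ0
  have hZε : (D + 1) * (2 * D + 7) * (R' + 1) * ε = δ := by
    rw [← hZ, hε]
    exact mul_div_cancel₀ δ hZ0.ne'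
  have hDR : (0 : ℝ) ≤ (D + 1) * (2 * D + 7) * ε := by positivity
  have hRε : 0 ≤ R' * ε := mul_nonneg hR0 hε0.le
  have hbig : (D + 1) * (2 * D + 7) * (R' * ε) ≤ δ := by
    have h1 : (D + 1) * (2 * D + 7) * (R' + 1) * ε =
      (D + 1) * (2 * D + 7) * (R' * ε) + (D + 1) * (2 * D + 7) * ε := by ring
    linarith
  have hc1 : (D : ℝ) * ((2 * D + 7) * (R' * ε)) ≤ δ := by
    have h1 : (0 : ℝ) ≤ (2 * D + 7) * (R' * ε) := mul_nonneg (by positivity) hRε
    have h2 : (D + 1) * (2 * D + 7) * (R' * ε) =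
      (D : ℝ) * ((2 * D + 7) * (R' * ε)) + (2 * D + 7) * (R' * ε) := by ring
    linarith
  have hc2 : 2 * (D + 1) * (R' * ε) ≤ δ := by
    have h1 : (0 : ℝ) ≤ (D + 1) * (2 * D + 5) * (R' * ε) := mul_nonneg (by positivity) hRε
    have h2 : (D + 1) * (2 * D + 7) * (R' * ε) =
      2 * (D + 1) * (R' * ε) + (D + 1) * (2 * D + 5) * (R' * ε) := by ring
    linarith
  refine ⟨(D + 1) * (M * (D + 1)), ε, hε0, ?_⟩
  intro V ι _ _ X L Bd c ord K hD hM hH hBs hBw hord hK
  have hI : IsK X.F K := hK.isK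
  have hDn : Dens K X.A X.w R' := by rw [hR']; exact hK.dens
  obtain ⟨lt, hlt⟩ : ∃ lt : ι → ι → Prop, lt = fun y' y => ord y' < ord y := ⟨_, rfl⟩
  have hs2 : ∀ i i', Bd2 Bd i i' → Bd2 Bd i' i := fun i i' h => ⟨hBs _ _ h.1, fun e => h.2 e.symm⟩
  have hi2 : ∀ i, ¬ Bd2 Bd i i := fun i h => h.2 rfl
  have hw2 : ∀ i, ∑ i' ∈ univ.filter (fun i' => Bd2 Bd i i'), X.w i' ≤ ε := by
    intro i
    refine le_trans (sum_le_sum_of_subset_of_nonneg ?_ fun i _ _ => (X.pos i).le) (hBw i)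
    intro i' hi'
    exact mem_filter.2 ⟨mem_univ _, (mem_filter.1 hi').2.1⟩
  have hAv' : ∀ v, ∑ i ∈ X.A \ L.Av v, X.w i ≤ ε := by
    intro v
    rw [hH.Av, Finset.sdiff_self, sum_empty]
    exact hε0.le
  refine ⟨Option ι × (V → ι), inferInstance, lawP K, gP c, bP X.F L.G lt L.Bv c, BnP L.G c, ?_⟩
  refine
    { law := isLaw_lawP hI
      loc := fun v => loc_P v
      ov := fun v => ?_
      mem := fun ω v y h => (hH.Bv v y).1 (bP_mem h)
      st := fun ω v y h u hu => bP_st h u hu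
      tt := fun ω v y u y' h h' hvu => bP_tt ?_ h h' hvu
      gm := fun v a => EE_gP hI c v a
      low := fun v a y hz => ?_
      bad := fun v a y => ?_
      zv := fun v => ?_ }
  · have h1 := ov_P (G := L.G) (c := c) (M := M) (Δ := D) (fun x => by convert hM x)
      (fun v => hD v) v
    convert h1 using 1
  · intro y y' hF
    rw [hlt]
    rcases lt_trichotomy (ord y) (ord y') with hl | he | hl
    · exact Or.inl hl
    · exact absurd (hord he) hF.ne
    · exact Or.inr hl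
  · by_cases hy : y ∈ X.A
    · rw [hK.kB y a hy, zero_mul]
      exact EE_nonneg (isLaw_lawP hI) fun ω => by split_ifs <;> norm_num
    · have h1 := low_P hI L.G lt L.Bv c v a y ((hH.Bv v y).2 hy)
      rw [xP_eq_xo, hlt, zP_eq_zK hK, ← hlt] at h1
      exact h1
  · refine (bad_all hI hDn hε0.le c hs2 hi2 hw2 hH.Av hD lt v a y).trans ?_
    exact mul_le_mul_of_nonneg_left hc1 (hK.nonneg _ _)
  · exact (zev_P hI hDn hε0.le c hw2 hAv' hD v).trans hc2

end

end Pool.Agent.T6P
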