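import Pool.Agent.T6A.Sel

/-!
# The selection step with few hypotheses (MP_c6effb_co)

`sel_core`: `sel` of Sel.lean with only the facts about the world which are used in the proof (no
reflexivity of the bad pairs, no bound for the total weight).
-/

set_option autoImplicit false

open Finset

namespace Pool.Agent.T6A

open Classical in
/-- **SEL**, with only the facts which are used. -/
theorem sel_core (e w₀ : ℝ) (K B M : ℕ) (he : 0 < e) (he8 : e ≤ 1 / 8) (hw₀ : 0 < w₀) :
    ∃ k₁ : ℝ, ∀ (V ι : Type) [Fintype V] [Fintype ι] (X : World ι) (L : Low V ι)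
      (Bd : ι → ι → Prop) (k : ℝ), k₁ ≤ k → Fintype.card ι ≤ M → (∀ i, w₀ ≤ X.w i) →
      0 < k → (Fintype.card V : ℝ) ≤ k → (1 - e) * k ≤ (Fintype.card V : ℝ) →
      (∀ v, L.d v ≤ K) → 1 / 4 ≤ X.sA → (∀ v, L.Av v ⊆ X.A) →
      ∀ (Om : Type) [Fintype Om] (p : V → Om → ℝ) (g : (V → Om) → V → ι)
        (b : (V → Om) → V → Option ι) (Bn : V → Finset V) (φ : ι → ι → ℝ),
        Scheme X L Bd k e (e / 16) B p g b Bn φ →
        ∃ (T : Finset V) (g' b' : V → ι), Sol X L Bd k (e / 2) T g' b' := by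
  -- the constants
  obtain ⟨δ, hδ0, hδ1, hδ2⟩ : ∃ δ : ℝ, 0 < δ ∧ δ * (M + 1) ≤ e * w₀ / 4 ∧
      δ * ((M + 1) * (M + 1)) ≤ e / 32 := by
    have hM : (0 : ℝ) < (M : ℝ) + 1 := by positivity
    refine ⟨min (e * w₀ / 4 / (M + 1)) (e / 32 / ((M + 1) * (M + 1))), ?_, ?_, ?_⟩
    · exact lt_min (by positivity) (by positivity)
    · calc min (e * w₀ / 4 / (M + 1)) (e / 32 / ((M + 1) * (M + 1))) * ((M : ℝ) + 1)
          ≤ e * w₀ / 4 / (M + 1) * (M + 1) := mul_le_mul_of_nonneg_right (min_le_left _ _) hM.le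
        _ = e * w₀ / 4 := div_mul_cancel₀ _ hM.ne'
    · calc min (e * w₀ / 4 / (M + 1)) (e / 32 / ((M + 1) * (M + 1))) * (((M : ℝ) + 1) * (M + 1))
          ≤ e / 32 / ((M + 1) * (M + 1)) * (((M : ℝ) + 1) * (M + 1)) :=
            mul_le_mul_of_nonneg_right (min_le_right _ _) (by positivity)
        _ = e / 32 := div_mul_cancel₀ _ (by positivity)
  set B' : ℕ := (K + 1) * (K + 1) * (B * ((K + 1) * (K + 1))) with hB'
  set NI : ℕ := M + M * M + 1 with hNI
  refine ⟨max (4 * M / (e * w₀)) (max (32 * (M * M) / e) (2 * (NI * B') / δ ^ 2)), ?_⟩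
  intro V ι _ _ X L Bd k hk hM hw0 hk0 hVk hcV' hdK hsA hAvA Om _ p g b Bn φ S
  have hk1 : 4 * M / (e * w₀) ≤ k := (le_max_left _ _).trans hk
  have hk2 : 32 * (M * M) / e ≤ k := (le_max_left _ _).trans ((le_max_right _ _).trans hk)
  have hk3 : 2 * (NI * B') / δ ^ 2 ≤ k := (le_max_right _ _).trans ((le_max_right _ _).trans hk)
  have hMr : (Fintype.card ι : ℝ) ≤ M := by exact_mod_cast hM
  -- the random variables
  let Y : Option (ι ⊕ ι × ι) → V → (V → Om) → ℝ := fun i v ω =>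
    match i with
    | none => if zev L Bd g ω v then 1 else 0
    | some (Sum.inl a) => if g ω v = a ∧ ¬ zev L Bd g ω v then 1 else 0
    | some (Sum.inr (a, y)) => if g ω v = a ∧ b ω v = some y ∧ ¬ badE L Bd g b ω v then 1 else 0
  have hY0 : ∀ i v ω, 0 ≤ Y i v ω := by
    intro i v ω
    rcases i with _ | a | ⟨a, y⟩ <;> (simp only [Y]; split_ifs <;> norm_num)
  have hY1 : ∀ i v ω, Y i v ω ≤ 1 := by
    intro i v ω
    rcases i with _ | a | ⟨a, y⟩ <;> (simp only [Y]; split_ifs <;> norm_num)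
  have hdepY : ∀ i v, DepOn (Y i v) ((Selx.nb2 L.G v).biUnion Bn) := by
    intro i v ω ω' h
    have h1 := Selx.dep (L := L) S.loc h
    have hv := h1 v (Selx.nb1_sub_nb2 _ _ (Selx.self_mem_nb1 _ _))
    have hz : zev L Bd g ω v ↔ zev L Bd g ω' v :=
      Selx.zev_congr fun u hu => (h1 u (Selx.nb1_sub_nb2 _ _ hu)).1
    have hb : badE L Bd g b ω v ↔ badE L Bd g b ω' v :=
      Selx.badE_congr (fun u hu => (h1 u hu).1) fun u hu => (h1 u hu).2
    rcases i with _ | a | ⟨a, y⟩
    · simp only [Y, hz]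
    · simp only [Y, hz, hv.1]
    · simp only [Y, hb, hv.1, hv.2]
  have hdeg : ∀ v, #(univ.filter fun u => L.G.Adj v u) ≤ K := fun v => hdK v
  have hov := Selx.card_ov hdeg S.ov
  have hcard : Fintype.card (Option (ι ⊕ ι × ι)) ≤ NI := by
    rw [Fintype.card_option, Fintype.card_sum, Fintype.card_prod]
    exact Nat.add_le_add_right (Nat.add_le_add hM (Nat.mul_le_mul hM hM)) 1
  have hVk' : k / 2 ≤ (Fintype.card V : ℝ) := by
    nlinarith
  obtain ⟨ω, hω⟩ := select S.law (univ : Finset (Option (ι ⊕ ι × ι))) Y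
    (fun v => (Selx.nb2 L.G v).biUnion Bn) (fun i _ v => hdepY i v) (fun i _ => hY0 i)
    (fun i _ => hY1 i) B' hov δ hδ0.le (by
      have h1 : ((univ : Finset (Option (ι ⊕ ι × ι))).card : ℝ) ≤ NI := by
        rw [card_univ]
        exact_mod_cast hcard
      have h2 : (2 * ((NI : ℝ) * B')) ≤ k * δ ^ 2 := (div_le_iff₀ (by positivity)).1 hk3
      calc ((univ : Finset (Option (ι ⊕ ι × ι))).card * B' : ℝ) ≤ NI * B' :=
            mul_le_mul_of_nonneg_right h1 (Nat.cast_nonneg _)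
        _ ≤ k / 2 * δ ^ 2 := by linarith
        _ ≤ δ ^ 2 * Fintype.card V := by
            rw [mul_comm (δ ^ 2)]
            exact mul_le_mul_of_nonneg_right hVk' (by positivity))
  have hδk : δ * Fintype.card V ≤ δ * k := mul_le_mul_of_nonneg_left hVk hδ0.le
  -- counts at `ω`
  have hsum : ∀ P : V → Prop, (∑ v, if P v then (1 : ℝ) else 0) = #(univ.filter P) := by
    intro P
    rw [sum_boole]
  have hZ : (#(univ.filter fun v => zev L Bd g ω v) : ℝ) ≤ e / 16 * k + δ * k := by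
    have h1 := (abs_le.1 (hω none (mem_univ _))).2
    have h2 := S.out
    have h3 : ∑ v, Y none v ω = #(univ.filter fun v => zev L Bd g ω v) := hsum _
    rw [h3] at h1
    have h4 : ∑ v, EE p (Y none v) = ∑ v, EE p (fun ω => if zev L Bd g ω v then 1 else 0) := rfl
    rw [h4] at h1
    linarith
  have hA : ∀ a ∈ X.A, (#(univ.filter fun v => g ω v = a ∧ ¬ zev L Bd g ω v) : ℝ) ≤
      (1 - e) * X.w a * k + ∑ y, φ a y * k + δ * k := by
    intro a ha
    have h1 := (abs_le.1 (hω (some (Sum.inl a)) (mem_univ _))).2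
    have h2 := S.lA a ha
    have h3 : ∑ v, Y (some (Sum.inl a)) v ω
        = #(univ.filter fun v => g ω v = a ∧ ¬ zev L Bd g ω v) := by
      simp only [Y]
      rw [sum_boole]
    rw [h3] at h1
    have h4 : ∑ v, EE p (Y (some (Sum.inl a)) v)
        = ∑ v, EE p (fun ω => if g ω v = a ∧ ¬ zev L Bd g ω v then 1 else 0) := rfl
    rw [h4] at h1
    linarith
  have hT : ∀ a ∈ X.A, ∀ y, φ a y * k - δ * k ≤
      (#(univ.filter fun v => g ω v = a ∧ b ω v = some y ∧ ¬ badE L Bd g b ω v) : ℝ) := by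
    intro a ha y
    have h1 := (abs_le.1 (hω (some (Sum.inr (a, y))) (mem_univ _))).1
    have h2 := S.cls a ha y
    have h3 : ∑ v, Y (some (Sum.inr (a, y))) v ω
        = #(univ.filter fun v => g ω v = a ∧ b ω v = some y ∧ ¬ badE L Bd g b ω v) := by
      simp only [Y]
      rw [sum_boole]
    rw [h3] at h1
    have h4 : ∑ v, EE p (Y (some (Sum.inr (a, y))) v) = ∑ v, EE p (fun ω =>
        if g ω v = a ∧ b ω v = some y ∧ ¬ badE L Bd g b ω v then 1 else 0) := rfl
    rw [h4] at h1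
    linarith
  -- the sets `T a y`
  have hpick : ∀ a y, ∃ T' ⊆ univ.filter fun v =>
      g ω v = a ∧ b ω v = some y ∧ ¬ badE L Bd g b ω v,
      a ∈ X.A → (#T' : ℝ) ≤ φ a y * k ∧ φ a y * k - δ * k - 1 ≤ #T' := by
    intro a y
    by_cases ha : a ∈ X.A
    · obtain ⟨T', h1, h2, h3⟩ := Selx.pick _ (φ a y * k) (δ * k)
        (mul_nonneg (S.φ0 a y) hk0.le) (hT a ha y) (by positivity)
      exact ⟨T', h1, fun _ => ⟨h2, h3⟩⟩
    · exact ⟨∅, empty_subset _, fun h => absurd h ha⟩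
  choose T' hT'1 hT'2 using hpick
  have hmem : ∀ a y v, v ∈ T' a y → g ω v = a ∧ b ω v = some y ∧ ¬ badE L Bd g b ω v := by
    intro a y v hv
    exact (mem_filter.1 (hT'1 a y hv)).2
  let T : Finset V := univ.filter fun v => ∃ a ∈ X.A, ∃ y, v ∈ T' a y
  have memT : ∀ v, v ∈ T ↔ ∃ a ∈ X.A, ∃ y, v ∈ T' a y := fun v => by simp [T]
  have hTbad : ∀ v ∈ T, ¬ badE L Bd g b ω v := by
    intro v hv
    obtain ⟨a, _, y, h⟩ := (memT v).1 hv
    exact (hmem a y v h).2.2
  have hTsome : ∀ v ∈ T, b ω v = some ((b ω v).getD (g ω v)) := by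
    intro v hv
    obtain ⟨a, _, y, h⟩ := (memT v).1 hv
    rw [(hmem a y v h).2.1]
    rfl
  have hTA : ∀ v ∈ T, g ω v ∈ X.A := by
    intro v hv
    obtain ⟨a, ha, y, h⟩ := (memT v).1 hv
    rw [(hmem a y v h).1]
    exact ha
  have hTz : ∀ v ∈ T, ∀ u, L.G.Adj v u → ¬ zev L Bd g ω u := by
    intro v hv u huv hz
    exact hTbad v hv (Or.inr (Or.inl ⟨u, huv, hz⟩))
  -- counting `T`
  have hF1 : ∀ a ∈ X.A, (#(T.filter fun v => g ω v = a) : ℝ) = ∑ y, (#(T' a y) : ℝ) := by
    intro a ha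
    have h1 : (T.filter fun v => g ω v = a) = univ.biUnion fun y => T' a y := by
      ext v
      simp only [mem_filter, mem_biUnion, mem_univ, true_and, memT]
      constructor
      · rintro ⟨⟨a', _, y, h⟩, h2⟩
        have h3 := (hmem a' y v h).1
        rw [h2] at h3
        exact ⟨y, h3 ▸ h⟩
      · rintro ⟨y, h⟩
        exact ⟨⟨a, ha, y, h⟩, (hmem a y v h).1⟩
    rw [h1, card_biUnion]
    · push_cast
      rfl
    · intro y _ y' _ hyy
      refine Finset.disjoint_left.2 fun v hv hv' => ?_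
      have h2 := (hmem a y v hv).2.1
      rw [(hmem a y' v hv').2.1] at h2
      exact hyy (Option.some.inj h2).symm
  have hF2 : ∀ y, (#(T.filter fun v => (b ω v).getD (g ω v) = y) : ℝ)
      = ∑ a ∈ X.A, (#(T' a y) : ℝ) := by
    intro y
    have h1 : (T.filter fun v => (b ω v).getD (g ω v) = y) = X.A.biUnion fun a => T' a y := by
      ext v
      simp only [mem_filter, mem_biUnion, memT]
      constructor
      · rintro ⟨⟨a, ha, y', h⟩, h2⟩
        have h3 := (hmem a y' v h).2.1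
        rw [h3] at h2
        have h4 : y' = y := h2
        exact ⟨a, ha, h4 ▸ h⟩
      · rintro ⟨a, ha, h⟩
        refine ⟨⟨a, ha, y, h⟩, ?_⟩
        rw [(hmem a y v h).2.1]
        rfl
    rw [h1, card_biUnion]
    · push_cast
      rfl
    · intro a _ a' _ haa
      refine Finset.disjoint_left.2 fun v hv hv' => ?_
      have h2 := (hmem a y v hv).1
      rw [(hmem a' y v hv').1] at h2
      exact haa h2.symm
  have hF3 : (#T : ℝ) = ∑ a ∈ X.A, (#(T.filter fun v => g ω v = a) : ℝ) := by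
    rw [card_eq_sum_card_fiberwise (t := X.A) (f := fun v => g ω v) fun v hv => hTA v hv]
    push_cast
    rfl
  have hcardA : (#X.A : ℝ) ≤ M := by
    have : #X.A ≤ Fintype.card ι := card_le_univ _
    exact le_trans (by exact_mod_cast this) hMr
  -- lower bound for the number of vertices of `T` over `a`
  have hlow : ∀ a ∈ X.A, ∑ y, φ a y * k - M * (δ * k + 1)
      ≤ (#(T.filter fun v => g ω v = a) : ℝ) := by
    intro a ha
    rw [hF1 a ha]
    have h1 : ∑ y, (φ a y * k - (δ * k + 1)) ≤ ∑ y, (#(T' a y) : ℝ) := by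
      refine sum_le_sum fun y _ => ?_
      have := (hT'2 a y ha).2
      linarith
    rw [sum_sub_distrib, sum_const, nsmul_eq_mul, card_univ] at h1
    have h2 : (Fintype.card ι : ℝ) * (δ * k + 1) ≤ M * (δ * k + 1) :=
      mul_le_mul_of_nonneg_right hMr (by positivity)
    linarith
  -- the vertices over `a` outside `T`
  have hout : ∀ a ∈ X.A,
      (#(univ.filter fun v => v ∉ T ∧ g ω v = a ∧ ¬ zev L Bd g ω v) : ℝ)
        ≤ (1 - e) * X.w a * k + (δ * k + M * (δ * k + 1)) := by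
    intro a ha
    have h1 : (#(univ.filter fun v => v ∉ T ∧ g ω v = a ∧ ¬ zev L Bd g ω v) : ℝ)
        + #(T.filter fun v => g ω v = a)
        = #(univ.filter fun v => g ω v = a ∧ ¬ zev L Bd g ω v) := by
      rw [← Nat.cast_add, ← card_union_of_disjoint]
      · congr 2
        ext v
        simp only [mem_union, mem_filter, mem_univ, true_and]
        constructor
        · rintro (h | ⟨h, h'⟩)
          · exact h.2
          · exact ⟨h', fun hz => hTbad v h (Or.inl hz)⟩
        · rintro h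
          by_cases hv : v ∈ T
          · exact Or.inr ⟨hv, h.1⟩
          · exact Or.inl ⟨hv, h⟩
      · rw [Finset.disjoint_left]
        intro v hv hv'
        exact (mem_filter.1 hv).2.1 (mem_filter.1 hv').1
    have h2 := hA a ha
    have h3 := hlow a ha
    linarith
  have hMk1 : (M : ℝ) ≤ e * w₀ / 4 * k := by
    have := (div_le_iff₀ (by positivity)).1 hk1
    linarith
  have hMk2 : (M : ℝ) * M ≤ e / 32 * k := by
    have := (div_le_iff₀ he).1 hk2
    linarith
  have hM0 : (0 : ℝ) ≤ M := Nat.cast_nonneg _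
  refine ⟨T, g ω, fun v => (b ω v).getD (g ω v), ⟨?_, ?_, ?_, ?_, ?_, ?_, ?_, ?_⟩⟩
  · -- tB
    intro v hv
    exact S.mem ω v _ (hTsome v hv)
  · -- gA
    rintro v hv ⟨u, hu, huv⟩
    by_contra hcon
    exact hTz u hu v huv.symm (Or.inl hcon)
  · -- tt
    intro v hv u hu huv
    refine ⟨S.tt ω v _ u _ (hTsome v hv) (hTsome u hu) huv, fun hbd => ?_⟩
    exact hTbad v hv (Or.inr (Or.inr ⟨_, hTsome v hv, u, huv, Or.inr ⟨_, hTsome u hu, hbd⟩⟩))
  · -- ts
    intro v hv u _ huv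
    refine ⟨S.st ω v _ (hTsome v hv) u huv, fun hbd => ?_⟩
    exact hTbad v hv (Or.inr (Or.inr ⟨_, hTsome v hv, u, huv, Or.inl hbd⟩))
  · -- ss
    rintro v u hv hu huv ⟨z, hz, hvz⟩ _ hbd
    exact hTz z hz v hvz.symm (Or.inr ⟨u, huv, hbd⟩)
  · -- la
    intro a ha
    have h1 : (#(univ.filter fun v => v ∉ T ∧ (∃ u ∈ T, L.G.Adj v u) ∧ g ω v = a) : ℝ)
        ≤ #(univ.filter fun v => v ∉ T ∧ g ω v = a ∧ ¬ zev L Bd g ω v) := by
      have : (univ.filter fun v => v ∉ T ∧ (∃ u ∈ T, L.G.Adj v u) ∧ g ω v = a) ⊆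
          univ.filter fun v => v ∉ T ∧ g ω v = a ∧ ¬ zev L Bd g ω v := by
        intro v hv
        rw [mem_filter] at hv ⊢
        obtain ⟨-, h1, ⟨u, hu, huv⟩, h3⟩ := hv
        exact ⟨mem_univ _, h1, h3, hTz u hu v huv.symm⟩
      exact_mod_cast card_le_card this
    have h2 := hout a ha
    have h3 : (δ * k + M * (δ * k + 1)) ≤ e / 2 * X.w a * k := by
      have h4 : δ * k + M * (δ * k + 1) = δ * (M + 1) * k + M := by ring
      have h5 : δ * (M + 1) * k ≤ e * w₀ / 4 * k := mul_le_mul_of_nonneg_right hδ1 hk0.le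
      have h6 : e / 2 * w₀ * k ≤ e / 2 * X.w a * k :=
        mul_le_mul_of_nonneg_right (mul_le_mul_of_nonneg_left (hw0 a) (by positivity)) hk0.le
      rw [h4]
      linarith
    calc _ ≤ _ := h1
      _ ≤ _ := h2
      _ ≤ (1 - e / 2) * X.w a * k := by linarith
  · -- lb
    intro y hy
    have h1 : (#(univ.filter fun v => v ∈ T ∧ (b ω v).getD (g ω v) = y) : ℝ)
        = ∑ a ∈ X.A, (#(T' a y) : ℝ) := by
      rw [← hF2 y]
      congr 2
      ext v
      simp
    have h2 : ∑ a ∈ X.A, (#(T' a y) : ℝ) ≤ ∑ a ∈ X.A, φ a y * k :=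
      sum_le_sum fun a ha => (hT'2 a y ha).1
    have h3 : ∑ a ∈ X.A, φ a y * k ≤ (1 - e) * X.w y * k := by
      rw [← sum_mul]
      exact mul_le_mul_of_nonneg_right (S.lB y hy) hk0.le
    have h4 : 0 < e / 2 * X.w y * k := by
      have := X.pos y
      positivity
    calc _ = _ := h1
      _ ≤ _ := h2
      _ ≤ _ := h3
      _ ≤ (1 - e / 2) * X.w y * k := by linarith
  · -- lt
    have h1 : (Fintype.card V : ℝ) ≤ #T + (#(univ.filter fun v => zev L Bd g ω v)
        + ∑ a ∈ X.A, (#(univ.filter fun v => v ∉ T ∧ g ω v = a ∧ ¬ zev L Bd g ω v) : ℝ)) := by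
      have h2 : (univ : Finset V) ⊆ T ∪ ((univ.filter fun v => zev L Bd g ω v) ∪
          X.A.biUnion fun a => univ.filter fun v => v ∉ T ∧ g ω v = a ∧ ¬ zev L Bd g ω v) := by
        intro v _
        simp only [mem_union, mem_filter, mem_univ, true_and, mem_biUnion]
        by_cases hv : v ∈ T
        · exact Or.inl hv
        · by_cases hz : zev L Bd g ω v
          · exact Or.inr (Or.inl hz)
          · have h3 : g ω v ∈ L.Av v := by
              by_contra hcon
              exact hz (Or.inl hcon)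
            exact Or.inr (Or.inr ⟨g ω v, hAvA v h3, hv, rfl, hz⟩)
      have h3 : Fintype.card V ≤ #T + (#(univ.filter fun v => zev L Bd g ω v)
          + ∑ a ∈ X.A, #(univ.filter fun v => v ∉ T ∧ g ω v = a ∧ ¬ zev L Bd g ω v)) := by
        rw [← card_univ]
        refine (card_le_card h2).trans ((card_union_le _ _).trans ?_)
        refine Nat.add_le_add_left ((card_union_le _ _).trans ?_) _
        exact Nat.add_le_add_left card_biUnion_le _
      exact_mod_cast h3
    have h2 : ∑ a ∈ X.A, (#(univ.filter fun v => v ∉ T ∧ g ω v = a ∧ ¬ zev L Bd g ω v) : ℝ)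
        ≤ ∑ a ∈ X.A, ((1 - e) * X.w a * k + (δ * k + M * (δ * k + 1))) :=
      sum_le_sum fun a ha => hout a ha
    rw [sum_add_distrib, sum_const, nsmul_eq_mul] at h2
    have h3 : ∑ a ∈ X.A, (1 - e) * X.w a * k = (1 - e) * X.sA * k := by
      rw [World.sA, mul_sum, sum_mul]
    rw [h3] at h2
    have h4 : (#X.A : ℝ) * (δ * k + M * (δ * k + 1)) ≤ M * (δ * k + M * (δ * k + 1)) :=
      mul_le_mul_of_nonneg_right hcardA (by positivity)
    have h5 : 1 / 4 ≤ X.sA := hsA
    have h6 : δ * k + M * (δ * k + M * (δ * k + 1)) ≤ e / 16 * k := by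
      have h7 : δ * k + M * (δ * k + M * (δ * k + 1)) = δ * (1 + M + M * M) * k + M * M := by ring
      have h8 : δ * (1 + M + M * M) ≤ δ * ((M + 1) * (M + 1)) :=
        mul_le_mul_of_nonneg_left (by nlinarith) hδ0.le
      have h9 : δ * (1 + M + M * M) * k ≤ e / 32 * k :=
        mul_le_mul_of_nonneg_right (h8.trans hδ2) hk0.le
      rw [h7]
      linarith
    have h7 : e / 2 * (1 / 4) * k ≤ e / 2 * X.sA * k :=
      mul_le_mul_of_nonneg_right (mul_le_mul_of_nonneg_left h5 (by positivity)) hk0.le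
    linarith

end Pool.Agent.T6A
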