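import Pool.Agent.T6A.Lim4
import Pool.Agent.T6A.Wok
import Pool.Agent.T6P.CoreP
import Pool.Agent.T6P.Defs
import Pool.Agent.T6P.Parts
import Pool.Agent.T6P.SelCore

/-!
# From LIM for the piece scheme to the core statement (MP_c6effb_co, P4)

`preWorld D`, `preLow D`, `pAv`, `pBv`: the world, the low graph and the lists of the low problem
(also with hubs), `pre_ok`, `list_ok`: the hypotheses of LIM, `pre_sol`: the way back.
`core3RP_of_limP`: bounded degree.
-/

set_option autoImplicit false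

open Finset

namespace Pool.Agent.T6P

open Pool.Agent.T6A Classical

noncomputable section

section

variable {Q : ℝ} {C K M : ℕ} {δ₁ δ : ℝ} {V : Type} [Fintype V] {G : SimpleGraph V}

/-- The low vertices. -/
abbrev PLv (D : PreData Q C K M δ₁ δ G) : Type := {v : V // v ∉ D.Qh}

theorem pre_wpos (D : PreData Q C K M δ₁ δ G) (i : D.ι) : 0 < D.w i := by
  by_contra h
  have h1 := D.wpos i
  have h2 : (M : ℝ) * D.w i ≤ 0 := mul_nonpos_of_nonneg_of_nonpos (Nat.cast_nonneg M) (not_lt.1 h)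
  linarith

instance preFt (D : PreData Q C K M δ₁ δ G) : Fintype D.ι := D.ft

/-- The world of the low problem. -/
def preWorld (D : PreData Q C K M δ₁ δ G) : World D.ι where
  w := D.w
  F := D.F
  A := D.A
  s := ∑ i ∈ D.A, D.w i
  pos := pre_wpos D
  tri := D.tri
  ind := D.indA
  max := D.maxA

/-- The low graph of the low problem; the lists are replaced later. -/
def preLow (D : PreData Q C K M δ₁ δ G) : Low (PLv D) D.ι where
  G := G.comap Subtype.val
  j v := jHub G D.Gi v.1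
  E := univ.filter fun v => v.1 ∈ D.Ex
  Av _ := D.A
  Bv _ := ∅

/-- The lists in `A`. -/
def pAv (D : PreData Q C K M δ₁ δ G) (Al : V → Finset D.ι) (v : PLv D) : Finset D.ι :=
  D.A.filter fun i => i ∈ Al v.1

/-- The lists outside `A`. -/
def pBv (D : PreData Q C K M δ₁ δ G) (Al : V → Finset D.ι) (v : PLv D) : Finset D.ι :=
  univ.filter fun i => v.1 ∉ D.Ex ∧ i ∉ D.A ∧ i ∈ Al v.1

theorem pre_d (D : PreData Q C K M δ₁ δ G) (v : PLv D) : (preLow D).d v = dLow G D.Qh v.1 := by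
  unfold Low.d dLow
  rw [← card_map (Function.Embedding.subtype (fun v => v ∉ D.Qh))]
  congr 1
  ext u
  simp only [mem_map, mem_filter, mem_univ, true_and, preLow, SimpleGraph.comap_adj,
    Function.Embedding.subtype_apply]
  constructor
  · rintro ⟨u', h, rfl⟩
    exact ⟨h, u'.2⟩
  · rintro ⟨h, hu⟩
    exact ⟨⟨u, hu⟩, h, rfl⟩

theorem pre_card (D : PreData Q C K M δ₁ δ G) :
    (Fintype.card (PLv D) : ℝ) = Fintype.card V - D.Qh.card := by
  have h1 : Fintype.card (PLv D) = (D.Qhᶜ).card := by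
    rw [Fintype.card_subtype]
    congr 1
    ext v
    simp
  have h2 := card_add_card_compl D.Qh
  rw [h1]
  have h3 : (D.Qh.card : ℝ) + ((D.Qhᶜ).card : ℝ) = Fintype.card V := by exact_mod_cast h2
  linarith

/-- Few hubs. -/
theorem pre_few (D : PreData Q C K M δ₁ δ G) {e : ℝ} (hK : 0 < K)
    (hK' : 32 * (C : ℝ) ≤ e * K) : (D.Qh.card : ℝ) ≤ e / 16 * Fintype.card V := by
  have h1 := D.hubs
  have hK0 : (0 : ℝ) < K := by exact_mod_cast hK
  have h2 : 2 * (C : ℝ) * Fintype.card V ≤ (e / 16 * Fintype.card V) * K := by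
    have : 2 * (C : ℝ) ≤ e / 16 * K := by linarith
    have h3 := mul_le_mul_of_nonneg_right this (Nat.cast_nonneg (α := ℝ) (Fintype.card V))
    linarith
  exact le_of_mul_le_mul_right (h1.trans h2) hK0

/-- The hypotheses of LIM without the lists. -/
theorem pre_ok (D : PreData Q C K M δ₁ δ G) {e ε : ℝ} (he : 0 < e) (hδe : δ ≤ e)
    (hδε : δ ≤ ε) (hδ₁ : δ₁ ≤ e) (hK : 0 < K) (hK' : 32 * (C : ℝ) ≤ e * K)
    (hV : 0 < Fintype.card V) :
    PreOK (preWorld D) (preLow D) D.Bd (Fintype.card V) Q C K e ε := by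
  have hV0 : (0 : ℝ) < Fintype.card V := by exact_mod_cast hV
  have hq := pre_few D hK hK'
  refine
    { k0 := hV0
      cV := ?_
      cV' := ?_
      tot1 := ?_
      tot2 := ?_
      deg := ?_
      s1 := ?_
      s2 := ?_
      Ec := ?_
      mind := ?_
      dK := ?_
      jK := ?_
      bsymm := D.bsymm
      brefl := D.brefl
      bsmall := ?_ }
  · rw [pre_card D]
    have : (0 : ℝ) ≤ D.Qh.card := Nat.cast_nonneg _
    linarith
  · rw [pre_card D]
    have : e / 16 * Fintype.card V ≤ e * Fintype.card V := by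
      apply mul_le_mul_of_nonneg_right _ hV0.le
      linarith
    linarith
  · have := D.totQ
    change 1 + Q - e ≤ ∑ i, D.w i
    linarith
  · have := D.totC
    change ∑ i, D.w i ≤ _
    linarith
  · have h1 := D.budget (univ.filter fun v => v ∉ D.Qh) (fun v hv => (mem_filter.1 hv).2)
    have h2 : ∑ v : PLv D, (((preLow D).d v : ℝ) + 2 * (preLow D).j v) =
        ∑ v ∈ univ.filter (fun v => v ∉ D.Qh), ((dLow G D.Qh v : ℝ) + 2 * jHub G D.Gi v) := by
      have h3 : ∑ v : PLv D, (((preLow D).d v : ℝ) + 2 * (preLow D).j v) =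
          ∑ v : PLv D, ((dLow G D.Qh v.1 : ℝ) + 2 * jHub G D.Gi v.1) := by
        refine sum_congr rfl fun v _ => ?_
        rw [pre_d]
        rfl
      rw [h3, Finset.sum_subtype (univ.filter fun v => v ∉ D.Qh) (p := fun v => v ∉ D.Qh)
        (fun x => by simp) (fun v => ((dLow G D.Qh v : ℝ) + 2 * jHub G D.Gi v))]
    rw [h2]
    refine h1.trans ?_
    change _ ≤ 2 * ((∑ i, D.w i) - 1 + e) * (Fintype.card V : ℝ)
    apply mul_le_mul_of_nonneg_right _ hV0.le
    linarith
  · have := D.half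
    change 1 / 2 - e ≤ ∑ i ∈ D.A, D.w i
    linarith
  · change ∑ i ∈ D.A, D.w i - e ≤ ∑ i ∈ D.A, D.w i
    linarith
  · have h1 : (preLow D).E.card ≤ D.Ex.card := by
      rw [← card_map (Function.Embedding.subtype (fun v => v ∉ D.Qh))]
      apply card_le_card
      intro u hu
      simp only [mem_map, Function.Embedding.subtype_apply] at hu
      obtain ⟨u', hu', rfl⟩ := hu
      exact (mem_filter.1 hu').2
    have h2 : ((preLow D).E.card : ℝ) ≤ D.Ex.card := by exact_mod_cast h1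
    refine h2.trans (D.exCard.trans ?_)
    exact mul_le_mul_of_nonneg_right hδ₁ hV0.le
  · intro v hv
    have hv' : v.1 ∉ D.Ex := fun h => hv (mem_filter.2 ⟨mem_univ _, h⟩)
    have h1 := D.degBig v.1 v.2 hv'
    rw [pre_d]
    change (∑ i, D.w i) - 1 - e ≤ ((dLow G D.Qh v.1 : ℝ) + (jHub G D.Gi v.1 : ℝ)) *
      ((∑ i ∈ D.A, D.w i) + e)
    have h2 : ((dLow G D.Qh v.1 : ℝ) + (jHub G D.Gi v.1 : ℝ)) * ((∑ i ∈ D.A, D.w i) + δ) ≤
        ((dLow G D.Qh v.1 : ℝ) + (jHub G D.Gi v.1 : ℝ)) * ((∑ i ∈ D.A, D.w i) + e) := by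
      apply mul_le_mul_of_nonneg_left _ (by positivity)
      linarith
    linarith
  · intro v
    rw [pre_d]
    refine (card_le_card ?_).trans (D.deg v.1 v.2)
    intro u hu
    rw [mem_filter] at hu ⊢
    exact ⟨hu.1, hu.2.1⟩
  · intro v
    refine (card_le_card ?_).trans (D.deg v.1 v.2)
    intro u hu
    rw [mem_filter] at hu ⊢
    exact ⟨hu.1, hu.2.1⟩
  · intro i
    exact (D.bsmall i _ (fun j hj => (mem_filter.1 hj).2)).trans hδε

/-- The hypotheses of LIM on the lists. -/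
theorem list_ok (D : PreData Q C K M δ₁ δ G) {e ε : ℝ} (hδe : δ ≤ e) (hδε : δ ≤ ε) {i₀ : D.ι}
    {Al : V → Finset D.ι} (h : D.Lists i₀ Al) :
    ListOK (preWorld D) ((preLow D).lists (pAv D Al) (pBv D Al)) i₀ e ε := by
  refine
    { AvA := ?_
      Avw := ?_
      BvA := ?_
      BvE := ?_
      Bv0 := ?_
      Bv1 := ?_ }
  · intro v
    exact filter_subset _ _
  · intro v
    refine (h.listA v.1 v.2 _ fun i hi => ?_).trans hδε
    rw [mem_sdiff] at hi
    refine ⟨hi.1, fun h => hi.2 ?_⟩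
    exact mem_filter.2 ⟨hi.1, h⟩
  · intro v
    rw [disjoint_left]
    intro i hi hA
    exact (mem_filter.1 hi).2.2.1 hA
  · intro v hv
    rw [eq_empty_iff_forall_notMem]
    intro i hi
    exact (mem_filter.1 hi).2.1 (mem_filter.1 hv).2
  · intro v hv hj
    have hv' : v.1 ∉ D.Ex := fun h => hv (mem_filter.2 ⟨mem_univ _, h⟩)
    refine (h.listB0 v.1 v.2 hv' hj _ fun i hi => ?_).trans hδe
    rw [mem_filter] at hi
    refine ⟨hi.2.1, fun h => hi.2.2 ?_⟩
    exact mem_filter.2 ⟨mem_univ _, hv', hi.2.1, h⟩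
  · intro v hv
    have hv' : v.1 ∉ D.Ex := fun h => hv (mem_filter.2 ⟨mem_univ _, h⟩)
    refine (h.listB1 v.1 v.2 hv' _ fun i hi => ?_).trans hδe
    rw [mem_filter] at hi
    refine ⟨hi.2.1.1, fun h => hi.2.1.2 ?_, hi.2.2⟩
    exact mem_filter.2 ⟨mem_univ _, hv', hi.2.1.1, h⟩

/-- The way back. -/
theorem pre_sol (D : PreData Q C K M δ₁ δ G) {e : ℝ} (he : 0 < e) (he8 : e ≤ 1 / 8)
    (hδe : δ ≤ e) (hδ₁ : δ₁ ≤ e / 8) (hK : 0 < K) (hK' : 32 * (C : ℝ) ≤ e * K)
    {Al : V → Finset D.ι} (T : Finset (PLv D)) (g b : PLv D → D.ι)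
    (hs : T6A.Sol (preWorld D) ((preLow D).lists (pAv D Al) (pBv D Al)) (Bd2 D.Bd)
      (Fintype.card V) (e / 2) T g b) : Sol2 D Al := by
  have hq := pre_few D hK hK'
  have hsA : 3 / 8 ≤ ∑ i ∈ D.A, D.w i := by
    have := D.half
    linarith
  have hne : Nonempty D.ι := by
    by_contra h
    rw [not_nonempty_iff] at h
    have : ∑ i ∈ D.A, D.w i = 0 := by
      rw [eq_empty_of_isEmpty D.A, sum_empty]
    linarith
  obtain ⟨i₀⟩ := hne
  have hn : (0 : ℝ) ≤ Fintype.card V := Nat.cast_nonneg _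
  obtain ⟨T', hT'⟩ : ∃ T' : Finset V,
    T' = T.map (Function.Embedding.subtype (fun v => v ∉ D.Qh)) := ⟨_, rfl⟩
  have hmem : ∀ v : V, v ∈ T' ↔ ∃ h : v ∉ D.Qh, (⟨v, h⟩ : PLv D) ∈ T := by
    intro v
    rw [hT', mem_map]
    constructor
    · rintro ⟨u, hu, rfl⟩
      exact ⟨u.2, hu⟩
    · rintro ⟨h, hu⟩
      exact ⟨⟨v, h⟩, hu, rfl⟩
  have hmem' : ∀ v : PLv D, v.1 ∈ T' ↔ v ∈ T := by
    intro v
    rw [hmem]
    exact ⟨fun ⟨_, h⟩ => h, fun h => ⟨v.2, h⟩⟩
  have hcard : T'.card = T.card := by rw [hT', card_map]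
  refine ⟨T', fun v => if h : v ∉ D.Qh then g ⟨v, h⟩ else i₀,
    fun v => if h : v ∉ D.Qh then b ⟨v, h⟩ else i₀, ?_, ?_, ?_, ?_, ?_, ?_, ?_, ?_⟩
  · intro v hv
    obtain ⟨h, hvT⟩ := (hmem v).1 hv
    have h1 := mem_filter.1 (hs.tB _ hvT)
    simp only [h, dif_pos, not_false_eq_true, true_and]
    exact ⟨h1.2.1, h1.2.2.1, h1.2.2.2⟩
  · rintro v hvT h ⟨u, hu, hadj⟩
    obtain ⟨hu', huT⟩ := (hmem u).1 hu
    have h1 := hs.gA ⟨v, h⟩ (fun h2 => hvT ((hmem' _).2 h2)) ⟨⟨u, hu'⟩, huT, hadj⟩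
    simp only [h, dif_pos, not_false_eq_true]
    exact mem_filter.1 h1
  · intro v hv u hu hadj
    obtain ⟨hv', hvT⟩ := (hmem v).1 hv
    obtain ⟨hu', huT⟩ := (hmem u).1 hu
    simp only [hv', hu', dif_pos, not_false_eq_true]
    exact hs.tt _ hvT _ huT hadj
  · intro v hv u huT hu' hadj
    obtain ⟨hv', hvT⟩ := (hmem v).1 hv
    simp only [hv', hu', dif_pos, not_false_eq_true]
    exact hs.ts _ hvT ⟨u, hu'⟩ (fun h2 => huT ((hmem' _).2 h2)) hadj
  · rintro v u hvT hv' huT hu' hadj ⟨z, hz, hvz⟩ ⟨y, hy, huy⟩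
    obtain ⟨hz', hzT⟩ := (hmem z).1 hz
    obtain ⟨hy', hyT⟩ := (hmem y).1 hy
    simp only [hv', hu', dif_pos, not_false_eq_true]
    exact hs.ss ⟨v, hv'⟩ ⟨u, hu'⟩ (fun h2 => hvT ((hmem' _).2 h2))
      (fun h2 => huT ((hmem' _).2 h2)) hadj ⟨⟨z, hz'⟩, hzT, hvz⟩ ⟨⟨y, hy'⟩, hyT, huy⟩
  · intro a ha S hS
    have h1 := hs.la a ha
    have h2 : S.card ≤ (univ.filter fun v : PLv D => v ∉ T ∧
        (∃ u ∈ T, (preLow D).G.Adj v u) ∧ g v = a).card := by
      rw [← card_map (Function.Embedding.subtype (fun v => v ∉ D.Qh))]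
      apply card_le_card
      intro v hv
      obtain ⟨h3, h4, ⟨u, hu, hadj⟩, h5⟩ := hS v hv
      obtain ⟨hu', huT⟩ := (hmem u).1 hu
      rw [mem_map]
      refine ⟨⟨v, h4⟩, mem_filter.2 ⟨mem_univ _, fun h6 => h3 ((hmem' _).2 h6),
        ⟨⟨u, hu'⟩, huT, hadj⟩, ?_⟩, rfl⟩
      simpa only [h4, dif_pos, not_false_eq_true] using h5
    have h3 : (S.card : ℝ) ≤ ((univ.filter fun v : PLv D => v ∉ T ∧
        (∃ u ∈ T, (preLow D).G.Adj v u) ∧ g v = a).card : ℝ) := by exact_mod_cast h2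
    have h1' : ((univ.filter fun v : PLv D => v ∉ T ∧
        (∃ u ∈ T, (preLow D).G.Adj v u) ∧ g v = a).card : ℝ) ≤
        (1 - e / 2) * D.w a * (Fintype.card V : ℝ) := by
      refine le_trans (le_of_eq ?_) h1
      congr
    refine h3.trans (h1'.trans ?_)
    apply mul_le_mul_of_nonneg_right _ hn
    apply mul_le_mul_of_nonneg_right _ (pre_wpos D a).le
    linarith
  · intro c hc S hS
    have h1 := hs.lb c hc
    have h2 : S.card ≤ (univ.filter fun v : PLv D => v ∈ T ∧ b v = c).card := by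
      rw [← card_map (Function.Embedding.subtype (fun v => v ∉ D.Qh))]
      apply card_le_card
      intro v hv
      obtain ⟨h3, h5⟩ := hS v hv
      obtain ⟨h4, hvT⟩ := (hmem v).1 h3
      rw [mem_map]
      refine ⟨⟨v, h4⟩, mem_filter.2 ⟨mem_univ _, hvT, ?_⟩, rfl⟩
      simpa only [h4, dif_pos, not_false_eq_true] using h5
    have h3 : (S.card : ℝ) ≤ ((univ.filter fun v : PLv D => v ∈ T ∧ b v = c).card : ℝ) := by
      exact_mod_cast h2
    have h1' : ((univ.filter fun v : PLv D => v ∈ T ∧ b v = c).card : ℝ) ≤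
        (1 - e / 2) * D.w c * (Fintype.card V : ℝ) := by
      refine le_trans (le_of_eq ?_) h1
      congr
    refine h3.trans (h1'.trans ?_)
    apply mul_le_mul_of_nonneg_right _ hn
    apply mul_le_mul_of_nonneg_right _ (pre_wpos D c).le
    linarith
  · have h1 := hs.lt
    rw [pre_card D] at h1
    rw [hcard]
    change (Fintype.card V : ℝ) - D.Qh.card - T.card ≤
      (1 - e / 2) * (∑ i ∈ D.A, D.w i) * (Fintype.card V : ℝ) at h1
    have h2 : e / 16 * (Fintype.card V : ℝ) ≤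
        e / 4 * (∑ i ∈ D.A, D.w i) * (Fintype.card V : ℝ) := by
      apply mul_le_mul_of_nonneg_right _ hn
      nlinarith
    have h3 : (1 - e / 2 + e / 4) * (∑ i ∈ D.A, D.w i) * (Fintype.card V : ℝ) ≤
        (1 - 2 * δ₁) * (∑ i ∈ D.A, D.w i) * (Fintype.card V : ℝ) := by
      apply mul_le_mul_of_nonneg_right _ hn
      apply mul_le_mul_of_nonneg_right _ (by linarith)
      linarith
    nlinarith

/-- The threshold hypothesis. -/
theorem pre_thr (D : PreData Q C K M δ₁ δ G) {e : ℝ} (h : ThrP D e) :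
    ThrW (preWorld D) (preLow D) (Fintype.card V) e := by
  intro d hd
  refine h d (hd.trans ?_)
  have h1 : (univ.filter fun v : PLv D =>
      v ∉ (preLow D).E ∧ (preLow D).d v + (preLow D).j v = d).card ≤
      (univ.filter fun v : V =>
        v ∉ D.Qh ∧ v ∉ D.Ex ∧ dLow G D.Qh v + jHub G D.Gi v = d).card := by
    rw [← card_map (Function.Embedding.subtype (fun v => v ∉ D.Qh))]
    apply card_le_card
    intro v hv
    rw [mem_map] at hv
    obtain ⟨u, hu, rfl⟩ := hv
    rw [mem_filter] at hu ⊢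
    refine ⟨mem_univ _, u.2, fun h' => hu.2.1 (mem_filter.2 ⟨mem_univ _, h'⟩), ?_⟩
    have h3 := hu.2.2
    rw [pre_d] at h3
    exact h3
  have h2 : ((univ.filter fun v : PLv D =>
      v ∉ (preLow D).E ∧ (preLow D).d v + (preLow D).j v = d).card : ℝ) ≤
      ((univ.filter fun v : V =>
        v ∉ D.Qh ∧ v ∉ D.Ex ∧ dLow G D.Qh v + jHub G D.Gi v = d).card : ℝ) := by
    exact_mod_cast h1
  convert h2 using 1 <;> congr

/-- **The selection step and the way back**: a scheme (with `Bd2`) solves the low problem. -/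
theorem sol2_of_scheme (K M B : ℕ) (e : ℝ) (he : 0 < e) (he8 : e ≤ 1 / 8) :
    ∃ k₀ : ℕ, 0 < k₀ ∧ ∀ (Q : ℝ) (C : ℕ) (δ₁ δ : ℝ), δ₁ ≤ e / 8 → δ ≤ e → 0 < K →
      32 * (C : ℝ) ≤ e * K → ∀ (V : Type) [Fintype V] (G : SimpleGraph V)
      (D : PreData Q C K M δ₁ δ G) (Al : V → Finset D.ι), k₀ ≤ Fintype.card V →
      (∃ (Om : Type) (_ : Fintype Om) (p : PLv D → Om → ℝ) (g : (PLv D → Om) → PLv D → D.ι)
        (b : (PLv D → Om) → PLv D → Option D.ι) (Bn : PLv D → Finset (PLv D))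
        (φ : D.ι → D.ι → ℝ), Scheme (preWorld D) ((preLow D).lists (pAv D Al) (pBv D Al))
          (Bd2 D.Bd) (Fintype.card V) e (e / 16) B p g b Bn φ) → Sol2 D Al := by
  obtain ⟨k₁, h3⟩ := sel_core e (1 / (2 * M + 1)) K B M he he8 (by positivity)
  refine ⟨⌈k₁⌉₊ + 1, Nat.succ_pos _, fun Q C δ₁ δ hδ₁ hδe hK hK' V _ G D Al hV h => ?_⟩
  obtain ⟨Om, _, p, g, b, Bn, φ, hsch⟩ := h
  have hV0 : 0 < Fintype.card V := by omega
  have hok := pre_ok D (e := e) (ε := δ) he hδe le_rfl (by linarith) hK hK' hV0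
  obtain ⟨T, g', b', hs⟩ := h3 (PLv D) D.ι (preWorld D)
    ((preLow D).lists (pAv D Al) (pBv D Al)) (Bd2 D.Bd) (Fintype.card V) (by
      have h4 : k₁ ≤ ⌈k₁⌉₊ := Nat.le_ceil _
      have h5 : ((⌈k₁⌉₊ + 1 : ℕ) : ℝ) ≤ Fintype.card V := by exact_mod_cast hV
      push_cast at h5
      linarith) (by
        have h4 := D.few
        convert h4) (fun i => by
      change 1 / (2 * (M : ℝ) + 1) ≤ D.w i
      rw [div_le_iff₀ (by positivity)]
      have h4 := D.wpos i
      have h5 := pre_wpos D i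
      linarith) hok.k0 hok.cV hok.cV' hok.dK (by
      have h4 := hok.s1
      have h5 := hok.s2
      linarith) (fun v => filter_subset _ _) Om p g b Bn φ hsch
  exact pre_sol D he he8 hδe hδ₁ hK hK' T g' b' hs

end

/-- Twice the number of edges. -/
theorem two_edges {V : Type} [Fintype V] (G : SimpleGraph V) :
    ∑ v, (#{u | G.Adj v u} : ℝ) = 2 * G.edgeSet.ncard := by
  have h1 := G.sum_degrees_eq_twice_card_edges
  have h2 : G.edgeSet.ncard = G.edgeFinset.card := by
    rw [← SimpleGraph.coe_edgeFinset, Set.ncard_coe_finset]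
  rw [h2]
  have h3 : ∀ v, G.degree v = #{u | G.Adj v u} := by
    intro v
    rw [← SimpleGraph.card_neighborFinset_eq_degree, SimpleGraph.neighborFinset_eq_filter]
  rw [sum_congr rfl fun v _ => h3 v] at h1
  exact_mod_cast h1

/-- **P4, bounded degree.** -/
theorem core3RP_of_limP {Q' : ℝ} (hlim : LimP Q') (Dl : ℕ) :
    Core3RP (fun V G => ∀ v : V, (G.neighborSet v).ncard ≤ Dl) (7 / 5) Q' := by
  refine core3RP_of_lowP (P := fun V G => ∀ v : V, (G.neighborSet v).ncard ≤ Dl) ?_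
  intro C
  obtain ⟨e, he, he8, h1⟩ := hlim C Dl
  obtain ⟨Mp, k₁, hparts⟩ := exists_parts Dl e he
  obtain ⟨B, ε, hε, h2⟩ := h1 Mp (e / 16) (by linarith)
  refine ⟨e / 8, e, by linarith, by linarith, he, max (⌈32 * (C : ℝ) / e⌉₊ + 1) (Dl + 1),
    fun K hK => ?_⟩
  obtain ⟨hK0, hK'⟩ := large_K he ((le_max_left _ _).trans hK)
  have hKD : Dl + 1 ≤ K := (le_max_right _ _).trans hK
  refine ⟨min e ε, lt_min he hε, min_le_left _ _, fun M => ?_⟩
  obtain ⟨k₀, hk₀, h3⟩ := sol2_of_scheme K M B e he he8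
  refine ⟨max k₀ k₁, ?_⟩
  intro V _ G D hV hdeg hc _ htot _ hthr hHF
  have hVk₀ : k₀ ≤ Fintype.card V := (le_max_left _ _).trans hV
  have hVk₁ : k₁ ≤ Fintype.card V := (le_max_right _ _).trans hV
  have hQh : D.Qh = ∅ := by
    rw [eq_empty_iff_forall_notMem]
    intro v hv
    have := hHF.big v hv
    have := hdeg v
    omega
  have hEx : D.Ex = ∅ := by
    rw [eq_empty_iff_forall_notMem]
    intro v hv
    obtain ⟨u, hu, _⟩ := hHF.exQ v hv
    rw [hQh] at hu
    exact notMem_empty _ hu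
  have hGi : D.Gi = ∅ := by
    have := D.giants
    rw [hQh] at this
    exact subset_empty.1 this
  refine ⟨D.A, Subset.refl _, ?_, ?_⟩
  · have := D.half
    have h4 := min_le_left e ε
    linarith
  intro i₀ hi₀ Al hAl hfull
  have hall : ∀ v j, j ∈ Al v := by
    intro v j
    refine hfull v (fun q hq => ?_) j
    rw [hQh] at hq
    exact absurd hq (notMem_empty _)
  refine h3 (7 / 5) C (e / 8) (min e ε) le_rfl (min_le_left _ _) hK0 hK' V G D Al hVk₀ ?_
  have hpre := pre_ok D (e := e) (ε := ε) he (min_le_left _ _) (min_le_right _ _) (by linarith)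
    hK0 hK' (by omega)
  have hlist := list_ok D (e := e) (ε := ε) (min_le_left _ _) (min_le_right _ _) hAl
  have hok := hpre.worldOK hlist
  obtain ⟨L, hL⟩ : ∃ L, L = (preLow D).lists (pAv D Al) (pBv D Al) := ⟨_, rfl⟩
  have hj : ∀ v, L.j v = 0 := by
    intro v
    rw [hL]
    change jHub G D.Gi v.1 = 0
    unfold jHub
    rw [hGi]
    simp
  have hd : ∀ v : PLv D, L.d v = #{u | G.Adj v.1 u} := by
    intro v
    rw [hL]
    change (preLow D).d v = _
    rw [pre_d]
    unfold dLow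
    congr 1
    ext u
    simp only [mem_filter, mem_univ, true_and, hQh, notMem_empty, not_false_eq_true, and_true]
  have hn : ∀ v : V, (G.neighborSet v).ncard = #{u | G.Adj v u} := by
    intro v
    rw [← Set.ncard_coe_finset]
    congr 1
    ext u
    simp
  have hdD : ∀ v, L.d v ≤ Dl := by
    intro v
    rw [hd, ← hn]
    exact hdeg _
  have hok' : WorldOK (preWorld D) L D.Bd (Fintype.card V) (7 / 5) C Dl e ε := by
    rw [← hL] at hok
    exact { hok with dK := hdD, jK := fun v => by rw [hj v]; exact Nat.zero_le _ }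
  let E : PLv D ≃ V := Equiv.subtypeUnivEquiv fun v => by rw [hQh]; exact notMem_empty v
  have hEv : ∀ v, E v = v.1 := fun v => rfl
  have hcard : Fintype.card (PLv D) = Fintype.card V := Fintype.card_congr E
  have hLG : L.G = G.comap E := by
    rw [hL]
    rfl
  have hconn : L.G.Connected := by
    rw [hLG]
    exact (SimpleGraph.Iso.comap E G).connected_iff.2 hc
  obtain ⟨c, hc1, hc2⟩ := hparts (PLv D) L.G hconn (fun v => by
    have h4 : (L.G.neighborSet v).ncard = L.d v := by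
      unfold Low.d
      rw [← Set.ncard_coe_finset]
      congr 1
      ext u
      simp
    rw [h4]
    exact hdD v) (by rw [hcard]; exact hVk₁)
  have h5 := h2 (PLv D) D.ι (preWorld D) L D.Bd (Fintype.card V) c hok' (by
      have h6 := pre_thr D hthr
      rw [hL]
      exact h6) (by
      have h6 : (preWorld D).tot < 1 + Q' := htot
      linarith)
    { j0 := hj
      E0 := by
        intro v hv
        rw [hL] at hv
        have h6 := (mem_filter.1 hv).2
        rw [hEx] at h6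
        exact notMem_empty _ h6
      Av := by
        intro v
        rw [hL]
        change D.A.filter _ = D.A
        exact filter_true_of_mem fun i _ => hall _ _
      Bv := by
        intro v y
        rw [hL]
        change y ∈ univ.filter _ ↔ y ∉ D.A
        rw [mem_filter, hEx]
        constructor
        · exact fun h => h.2.2.1
        · exact fun h => ⟨mem_univ _, notMem_empty _, h, hall _ _⟩ }
    (by rw [hcard]) (fun v => by convert hc1 v) (by
      have h6 := two_edges L.G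
      have h7 : ∑ v, (L.d v : ℝ) = 2 * L.G.edgeSet.ncard := h6
      rw [h7]
      have h8 : ∑ v, (xo L.G c v : ℝ) + 2 * (1 - e) * Fintype.card (PLv D) ≤
          2 * L.G.edgeSet.ncard := by
        refine le_trans (le_of_eq ?_) hc2
        congr 1
        rw [Nat.cast_sum]
        refine sum_congr rfl fun v _ => ?_
        unfold xo
        congr
      rw [hcard] at h8
      linarith)
  rw [hL] at h5
  exact h5

end

end Pool.Agent.T6P
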