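import Pool.Agent.T6P.DefsH
import Pool.Agent.T6P.WokP
import Pool.Agent.T6P.Budget

/-!
# From LIM for the piece scheme with hubs to the core statement (MP_c6effb_co)

`core3R_of_limPH`: all connected graphs with total weight in the range `[1 + Q, 1 + Q')`.
-/

set_option autoImplicit false

open Finset

namespace Pool.Agent.T6P

open Pool.Agent.T6A Classical

noncomputable section

/-- The partition on the low vertices. -/
theorem exists_sub_parts {V : Type} [Fintype V] (P : V → Prop) (c : V → V) :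
    ∃ c' : {v // P v} → {v // P v}, ∀ v u, c' v = c' u ↔ c v.1 = c u.1 := by
  have h : ∀ x : V, ∃ r : Option {v // P v}, (∃ v : {v // P v}, c v.1 = x) →
      ∃ r', r = some r' ∧ c r'.1 = x := by
    intro x
    by_cases hx : ∃ v : {v // P v}, c v.1 = x
    · obtain ⟨v, hv⟩ := hx
      exact ⟨some v, fun _ => ⟨v, rfl, hv⟩⟩
    · exact ⟨none, fun h => absurd h hx⟩
  choose r hr using h
  refine ⟨fun v => (r (c v.1)).getD v, fun v u => ?_⟩
  obtain ⟨rv, h1, h2⟩ := hr (c v.1) ⟨v, rfl⟩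
  obtain ⟨ru, h3, h4⟩ := hr (c u.1) ⟨u, rfl⟩
  simp only [h1, h3, Option.getD_some]
  constructor
  · intro h
    rw [← h2, ← h4, h]
  · intro h
    rw [h] at h1
    rw [h1] at h3
    exact Option.some.inj h3

/-- If `A` is heavy, then all vertices may stay in `A`. -/
theorem sol2_trivial {Q : ℝ} {C K M : ℕ} {δ₁ δ : ℝ} {V : Type} [Fintype V] {G : SimpleGraph V}
    (D : PreData Q C K M δ₁ δ G) (hδ₁ : δ₁ ≤ 1 / 4) (h : 1 ≤ (1 - 2 * δ₁) * ∑ i ∈ D.A, D.w i)
    (i₀ : D.ι) (Al : V → Finset D.ι) : Sol2 D Al := by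
  have hn : (0 : ℝ) ≤ Fintype.card V := Nat.cast_nonneg _
  refine ⟨∅, fun _ => i₀, fun _ => i₀, ?_, ?_, ?_, ?_, ?_, ?_, ?_, ?_⟩
  · intro v hv
    exact absurd hv (notMem_empty v)
  · rintro v _ _ ⟨u, hu, _⟩
    exact absurd hu (notMem_empty u)
  · intro v hv
    exact absurd hv (notMem_empty v)
  · intro v hv
    exact absurd hv (notMem_empty v)
  · rintro v u _ _ _ _ _ ⟨z, hz, _⟩
    exact absurd hz (notMem_empty z)
  · intro a _ S hS
    have : S = ∅ := by
      rw [eq_empty_iff_forall_notMem]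
      intro v hv
      obtain ⟨_, _, ⟨u, hu, _⟩, _⟩ := hS v hv
      exact notMem_empty u hu
    rw [this, card_empty, Nat.cast_zero]
    have := (pre_wpos D a).le
    apply mul_nonneg (mul_nonneg (by linarith) this) hn
  · intro a _ S hS
    have : S = ∅ := by
      rw [eq_empty_iff_forall_notMem]
      intro v hv
      exact notMem_empty v (hS v hv).1
    rw [this, card_empty, Nat.cast_zero]
    have := (pre_wpos D a).le
    apply mul_nonneg (mul_nonneg (by linarith) this) hn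
  · rw [card_empty, Nat.cast_zero, sub_zero]
    calc (Fintype.card V : ℝ) = 1 * Fintype.card V := (one_mul _).symm
      _ ≤ _ := mul_le_mul_of_nonneg_right h hn

/-- **The low problem from LIM for the piece scheme with hubs.** -/
theorem lowP_of_limPH {Q Q' : ℝ} (hQ : 7 / 5 ≤ Q) (hlim : LimPH Q Q')
    (P : ∀ V : Type, SimpleGraph V → Prop) : LowProbP P Q Q' := by
  intro C
  obtain ⟨e, he, he8, h1⟩ := hlim C
  refine ⟨e / 8, e, by linarith, by linarith, he, ⌈32 * (C : ℝ) / e⌉₊ + 1, fun K hK => ?_⟩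
  obtain ⟨hK0, hK'⟩ := large_K he hK
  obtain ⟨Mp, hbud⟩ := budget_pre K hK0 (e / 8) (by linarith) (by linarith)
  obtain ⟨B, ε, hε, h2⟩ := h1 K Mp (e / 16) (by linarith)
  have hδ8 : min (e / 8) ε ≤ e / 8 := min_le_left _ _
  have hδe : min (e / 8) ε ≤ e := hδ8.trans (by linarith)
  refine ⟨min (e / 8) ε, lt_min (by linarith) hε, hδe, fun M => ?_⟩
  obtain ⟨k₀, hk₀, h3⟩ := sol2_of_scheme K M B e he he8
  refine ⟨k₀, ?_⟩
  intro V _ G D hV _ _ _ htot _ hthr hHF
  have hV0 : (0 : ℝ) < Fintype.card V := by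
    have : 0 < Fintype.card V := by omega
    exact_mod_cast this
  have hwA : e / 8 ≤ ∑ i ∈ D.A, D.w i := by
    have := D.half
    linarith
  by_cases hs : 1 + e ≤ ∑ i ∈ D.A, D.w i
  · refine ⟨D.A, Subset.refl _, hwA, fun i₀ _ Al _ _ => ?_⟩
    refine sol2_trivial D (by linarith) ?_ i₀ Al
    nlinarith
  rw [not_le] at hs
  have hpre := pre_ok D (e := e) (ε := ε) he hδe (min_le_right _ _) (by linarith) hK0 hK'
    (by omega)
  have htQ : 1 + Q ≤ (∑ i, D.w i) + min (e / 8) ε := D.totQ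
  obtain ⟨c, hc1, hc2⟩ := hbud Q C M (e / 8) (min (e / 8) ε) V G D (by
      change 1 + min (e / 8) ε + ((∑ i ∈ D.A, D.w i) + min (e / 8) ε) < ∑ i, D.w i
      linarith) (by
      have : 0 ≤ min (e / 8) ε := (lt_min (by linarith) hε).le
      linarith)
  obtain ⟨c', hc'⟩ := exists_sub_parts (fun v => v ∉ D.Qh) c
  have hfib : ∀ v : PLv D, #{u | c' u = v} ≤ Mp := by
    intro v
    by_cases hv : ∃ z, c' z = v
    · obtain ⟨z, hz⟩ := hv
      refine le_trans ?_ (hc1 (c z.1))
      rw [← card_map (Function.Embedding.subtype (fun v => v ∉ D.Qh))]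
      refine card_le_card fun u hu => ?_
      rw [mem_map] at hu
      obtain ⟨u', hu', rfl⟩ := hu
      rw [mem_filter] at hu' ⊢
      refine ⟨mem_univ _, ?_⟩
      rw [← hz] at hu'
      exact (hc' _ _).1 hu'.2
    · have : (univ.filter fun u => c' u = v) = ∅ :=
        filter_false_of_mem fun u _ hu => hv ⟨u, hu⟩
      rw [this, card_empty]
      exact Nat.zero_le _
  have hxo : ∀ v : PLv D, xo (preLow D).G c' v = xOut G D.Qh c v.1 := by
    intro v
    unfold xo xOut
    rw [← card_map (Function.Embedding.subtype (fun v => v ∉ D.Qh))]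
    congr 1
    ext u
    simp only [mem_map, mem_filter, mem_univ, true_and, preLow, SimpleGraph.comap_adj,
      Function.Embedding.subtype_apply]
    constructor
    · rintro ⟨u', ⟨h4, h5⟩, rfl⟩
      exact ⟨h4, u'.2, fun h6 => h5 ((hc' _ _).2 h6)⟩
    · rintro ⟨h4, h5, h6⟩
      exact ⟨⟨u, h5⟩, ⟨h4, fun h7 => h6 ((hc' _ _).1 h7)⟩, rfl⟩
  have hbudget : ∑ v, ((xo (preLow D).G c' v : ℝ) + if (preLow D).j v = 0 then 0 else 1) ≤
      2 * ((preWorld D).tot - 2 + e) * Fintype.card V := by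
    have h4 : ∑ v : PLv D, ((xo (preLow D).G c' v : ℝ) + if (preLow D).j v = 0 then 0 else 1) =
        ∑ v ∈ univ.filter (fun v => v ∉ D.Qh), ((xOut G D.Qh c v : ℝ) +
          if jHub G D.Gi v = 0 then 0 else 1) := by
      rw [Finset.sum_subtype (univ.filter fun v => v ∉ D.Qh) (p := fun v => v ∉ D.Qh)
        (fun x => by simp) (fun v => ((xOut G D.Qh c v : ℝ) +
          if jHub G D.Gi v = 0 then 0 else 1))]
      refine sum_congr rfl fun v _ => ?_
      rw [hxo v]
      rfl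
    rw [h4]
    refine hc2.trans ?_
    refine mul_le_mul_of_nonneg_right ?_ hV0.le
    change 2 * ((∑ i, D.w i) - 2) + 2 * min (e / 8) ε + 2 * (e / 8) + 2 * (e / 8) + 4 * C / K ≤
      2 * ((∑ i, D.w i) - 2 + e)
    have h5 : 4 * (C : ℝ) / K ≤ e / 8 := by
      have hK0' : (0 : ℝ) < K := by exact_mod_cast hK0
      rw [div_le_iff₀ hK0']
      linarith
    linarith
  obtain ⟨As, hAs1, hAs2, hAs3⟩ := h2 (PLv D) D.ι (preWorld D) (preLow D) D.Bd (Fintype.card V) c'
    hpre (pre_thr D hthr) (by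
      have h6 : (preWorld D).tot < 1 + Q' := htot
      linarith) hs (fun v => by convert hfib v) hbudget
  refine ⟨As, hAs1, ?_, fun i₀ hi₀ Al hAl hfull => ?_⟩
  · have h6 : e ≤ ∑ i ∈ As, D.w i := hAs2
    linarith
  refine h3 Q C (e / 8) (min (e / 8) ε) le_rfl hδe hK0 hK' V G D Al hV ?_
  refine hAs3 i₀ hi₀ (pAv D Al) (pBv D Al) (list_ok D hδe (min_le_right _ _) hAl) ?_
  intro v hvE hj
  have hvE' : v.1 ∉ D.Ex := fun h => hvE (mem_filter.2 ⟨mem_univ _, h⟩)
  have hj' : jHub G D.Gi v.1 = 0 := hj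
  have hall : ∀ j, j ∈ Al v.1 := by
    refine hfull v.1 fun q hq hadj => ?_
    by_cases hqG : q ∈ D.Gi
    · unfold jHub at hj'
      rw [card_eq_zero, filter_eq_empty_iff] at hj'
      exact hj' (mem_univ q) ⟨hadj, hqG⟩
    · exact hvE' (D.exc v.1 v.2 q hq hqG hadj)
  exact ⟨fun i hi => mem_filter.2 ⟨hi, hall i⟩,
    fun i hi => mem_filter.2 ⟨mem_univ _, hvE', hi, hall i⟩⟩

/-- **The core statement from LIM for the piece scheme with hubs.** -/
theorem core3R_of_limPH {Q Q' : ℝ} (hQ : 7 / 5 ≤ Q) (hlim : LimPH Q Q') : Core3R Q Q' :=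
  core3RP_of_lowP (lowP_of_limPH hQ hlim _)

end

end Pool.Agent.T6P
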